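import Pool.Agent.P8H58.Prd

/-!
# Weights of products with abelian groups of order prime to `p`
-/

set_option autoImplicit false
set_option linter.unusedSectionVars false

open scoped Classical

noncomputable section

namespace Pool.Agent.P8H58

open Pool.Agent.Y63.NV
open Pool.Agent.Y63.AWC (IsIrreducibleCharacter)
open Pool.Agent.N85.WM (IsW wcv)
open Pool.Agent.Y930.NV (redC_mul redC_one redC_sum redC_zero R om ind Cf centralValue_eq om_int
  Cf_ind irr_one_ne Cf_expand int_intCast R_expand)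

variable {F : Type} [Field F] (red : integralClosure ℤ ℂ →+* F)

theorem expand_gen' {J : Type} [Group J] [Fintype J] {ψ : J → ℂ} (hψ : IsIrreducibleCharacter ψ)
    {ι : Type} [Fintype ι] (z : ι → F) (k : ι → J → ℤ) (hk : ∀ C, Cf (k C)) (w : J → F)
    (hw : ∀ x, w x = ∑ C, z C * ((k C x : ℤ) : F)) :
    ∑ C, z C * R red ψ (k C) = centralValue red ψ w := by
  rw [centralValue_eq red hψ]
  exact Pool.Agent.N565.DI.expand_gen red hψ z k hk w hw

variable {J V : Type} [Group J] [CommGroup V] [Finite J] [Finite V]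

theorem sum_inst {α M : Type} [AddCommMonoid M] (i1 i2 : Fintype α) (f : α → M) :
    @Finset.sum α M _ (@Finset.univ α i1) f = @Finset.sum α M _ (@Finset.univ α i2) f := by
  rw [Subsingleton.elim i1 i2]

theorem cv_ext {E : J → F} (hE : IsClassFun E) (κ : V → F) (A0 : Md ℂ J) (ν : V →* ℂ) :
    centralValue red (A0.ext ν).tr (fun x : J × V => E x.1 * κ x.2) =
      centralValue red A0.tr E * ∑ᶠ v, κ v * redC red (ν v) := by
  haveI := Fintype.ofFinite J
  haveI := Fintype.ofFinite V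
  let k : ConjClasses J × V → J × V → ℤ := fun q x => ind ℤ q.1 x.1 * if x.2 = q.2 then 1 else 0
  have hk : ∀ q, Cf (k q) := by
    rintro ⟨D, v⟩ g x
    change ind ℤ D (g.1 * x.1 * g.1⁻¹) * (if g.2 * x.2 * g.2⁻¹ = v then 1 else 0) = _
    rw [Cf_ind ℤ D g.1 x.1, mul_comm g.2, mul_assoc, mul_inv_cancel, mul_one]
  have h1 := expand_gen' red (A0.ext ν).isIrr (ι := ConjClasses J × V)
    (fun q => E q.1.out * κ q.2) k hk (fun x : J × V => E x.1 * κ x.2) (by
      rintro ⟨a, v⟩
      rw [Fintype.sum_prod_type]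
      have h2 : ∀ D : ConjClasses J, ∑ w : V, (E D.out * κ w) * ((k (D, w) (a, v) : ℤ) : F) =
          (E D.out * ind F D a) * κ v := by
        intro D
        rw [Finset.sum_eq_single v]
        · change (E D.out * κ v) * ((ind ℤ D a * (if v = v then 1 else 0) : ℤ) : F) = _
          rw [if_pos rfl, mul_one]
          have : ((ind ℤ D a : ℤ) : F) = ind F D a := by
            unfold ind
            split_ifs <;> simp
          rw [this]
          ring
        · intro w _ hw
          change (E D.out * κ w) * ((ind ℤ D a * (if v = w then 1 else 0) : ℤ) : F) = 0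
          rw [if_neg (Ne.symm hw)]
          simp
        · intro h
          exact absurd (Finset.mem_univ _) h
      have hE' : E a = ∑ D : ConjClasses J, E D.out * ind F D a := by
        have h5 := Cf_expand (f := E) hE a
        exact h5.trans (sum_inst _ _ _)
      rw [Finset.sum_congr rfl fun D _ => h2 D, ← Finset.sum_mul, ← hE'])
  have h6 : centralValue red A0.tr E = ∑ D : ConjClasses J, E D.out * R red A0.tr (ind ℤ D) := by
    have h5 := centralValue_eq red A0.isIrr E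
    exact h5.trans (sum_inst _ _ _)
  rw [← h1, Fintype.sum_prod_type, h6, finsum_eq_sum_of_fintype, Finset.sum_mul_sum]
  refine Finset.sum_congr rfl fun D _ => Finset.sum_congr rfl fun v _ => ?_
  have h3 : R red (A0.ext ν).tr (k (D, v)) = R red A0.tr (ind ℤ D) * redC red (ν v) := by
    unfold R
    rw [← redC_mul red (om_int A0.isIrr (Cf_ind ℤ D)) (hom_int ν v)]
    congr 1
    unfold om
    rw [Fintype.sum_prod_type, Md.ext_tr, Prod.fst_one, Prod.snd_one, map_one, mul_one,
      div_mul_eq_mul_div, Finset.sum_mul]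
    congr 1
    refine Finset.sum_congr rfl fun a _ => ?_
    rw [Finset.sum_eq_single v]
    · rw [Md.ext_tr]
      change ((ind ℤ D a * (if v = v then 1 else 0) : ℤ) : ℂ) * (A0.tr a * ν v) = _
      rw [if_pos rfl, mul_one]
      ring
    · intro w _ hw
      change ((ind ℤ D a * (if w = v then 1 else 0) : ℤ) : ℂ) * _ = 0
      rw [if_neg hw]
      simp
    · intro h
      exact absurd (Finset.mem_univ _) h
  rw [h3]
  ring

variable {p : ℕ}

theorem wt_ext (hV : ¬ p ∣ Nat.card V) (Q : Subgroup J) (A0 : Md ℂ J) (ν : V →* ℂ) :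
    IsWt p (Q.prod (⊥ : Subgroup V)) (A0.ext ν).tr ↔ IsWt p Q A0.tr := by
  have hc : Nat.card (Q.prod (⊥ : Subgroup V)) = Nat.card Q := by
    rw [Nat.card_congr (Subgroup.prodEquiv Q (⊥ : Subgroup V)).toEquiv, Nat.card_prod]
    simp
  have hJ : (Nat.card (J × V)).factorization p = (Nat.card J).factorization p := by
    rw [Nat.card_prod, Nat.factorization_mul Nat.card_pos.ne' Nat.card_pos.ne', Finsupp.add_apply,
      Nat.factorization_eq_zero_of_not_dvd hV, add_zero]
  have h1 : (A0.ext ν).tr 1 = A0.tr 1 := by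
    rw [Md.ext_tr, Prod.fst_one, Prod.snd_one, map_one, mul_one]
  have h2 : (∀ q ∈ Q.prod (⊥ : Subgroup V), ∀ x : J × V, (A0.ext ν).tr (q * x) =
      (A0.ext ν).tr x) ↔ ∀ q ∈ Q, ∀ x : J, A0.tr (q * x) = A0.tr x := by
    constructor
    · intro h q hq x
      have h3 := h (q, 1) (Subgroup.mem_prod.2 ⟨hq, Subgroup.mem_bot.2 rfl⟩) (x, 1)
      rw [Md.ext_tr, Md.ext_tr] at h3
      change A0.tr (q * x) * ν (1 * 1) = A0.tr x * ν 1 at h3
      rwa [mul_one, map_one, mul_one, mul_one] at h3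
    · rintro h ⟨q, v⟩ hq ⟨x, w⟩
      obtain ⟨hq1, hq2⟩ := Subgroup.mem_prod.1 hq
      have hv : v = 1 := Subgroup.mem_bot.1 hq2
      subst hv
      rw [Md.ext_tr, Md.ext_tr]
      change A0.tr (q * x) * ν (1 * w) = A0.tr x * ν w
      rw [h q hq1, one_mul]
  constructor
  · intro h
    obtain ⟨n, hn1, hn2⟩ := h.defectZero
    refine ⟨A0.isIrr, h2.1 h.inflated, n, ?_, ?_⟩
    · rw [← h1]
      exact hn1
    · rw [hc, hJ] at hn2
      exact hn2
  · intro h
    obtain ⟨n, hn1, hn2⟩ := h.defectZero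
    refine ⟨(A0.ext ν).isIrr, h2.2 h.inflated, n, ?_, ?_⟩
    · rw [h1]
      exact hn1
    · rw [hc, hJ]
      exact hn2

theorem nw_prod (hV : ¬ p ∣ Nat.card V) (Q : Subgroup J) {E : J → F} (hE : IsClassFun E)
    (κ : V → F) : nw p red (Q.prod (⊥ : Subgroup V)) (fun x : J × V => E x.1 * κ x.2) =
      nw p red Q E * KC red κ := by
  unfold nw KC
  rw [← Nat.card_prod]
  symm
  have hirr : ∀ (φ : J → ℂ) (ν : V →* ℂ), IsIrrTrace φ →
      ∃ A0 : Md ℂ J, A0.tr = φ ∧ (A0.ext ν).tr = fun x : J × V => φ x.1 * ν x.2 := by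
    intro φ ν h
    obtain ⟨A0, rfl⟩ := exists_md h
    exact ⟨A0, rfl, funext fun x => Md.ext_tr A0 ν x⟩
  refine Nat.card_congr (Equiv.ofBijective
    (fun q : {χ : J → ℂ // IsWt p Q χ ∧ centralValue red χ E ≠ 0} ×
      {ν : V →* ℂ // ∑ᶠ v, κ v * redC red (ν v) ≠ 0} =>
    (⟨fun x => q.1.1 x.1 * q.2.1 x.2, ?_⟩ : {χ : J × V → ℂ // IsWt p (Q.prod (⊥ : Subgroup V)) χ ∧
      centralValue red χ (fun x : J × V => E x.1 * κ x.2) ≠ 0})) ⟨?_, ?_⟩)
  · obtain ⟨A0, h1, h2⟩ := hirr q.1.1 q.2.1 q.1.2.1.irr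
    rw [← h2]
    refine ⟨(wt_ext hV Q A0 q.2.1).2 (by rw [h1]; exact q.1.2.1), ?_⟩
    rw [cv_ext red hE κ A0 q.2.1, h1]
    exact mul_ne_zero q.1.2.2 q.2.2
  · rintro ⟨⟨φ, h1, h2⟩, ⟨ν, h3⟩⟩ ⟨⟨φ', h1', h2'⟩, ⟨ν', h3'⟩⟩ h
    have h4 : (fun x : J × V => φ x.1 * ν x.2) = fun x => φ' x.1 * ν' x.2 :=
      congrArg Subtype.val h
    obtain ⟨A0, a1, a2⟩ := hirr φ ν h1.irr
    obtain ⟨A1, b1, b2⟩ := hirr φ' ν' h1'.irr
    obtain ⟨c1, c2⟩ := ext_inj (a2.trans (h4.trans b2.symm))
    have e1 : φ = φ' := by rw [← a1, ← b1, c1]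
    subst e1
    subst c2
    rfl
  · rintro ⟨φ, h1, h2⟩
    obtain ⟨C, rfl⟩ := exists_md (F := ℂ) h1.irr
    obtain ⟨A0, ν, h3⟩ := exists_ext C
    have h1' := h1
    rw [h3, cv_ext red hE κ A0 ν] at h2
    rw [h3, wt_ext hV Q A0 ν] at h1'
    refine ⟨(⟨A0.tr, h1', left_ne_zero_of_mul h2⟩, ⟨ν, right_ne_zero_of_mul h2⟩), ?_⟩
    refine Subtype.ext (Eq.trans ?_ h3.symm)
    funext x
    exact (Md.ext_tr A0 ν x).symm

variable {A : Type} [Group A] [Finite A]

theorem mem_norm_prod {Q : Subgroup A} {x : A × V} :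
    x ∈ Subgroup.normalizer ((Q.prod (⊥ : Subgroup V) : Subgroup (A × V)) : Set (A × V)) ↔
      x.1 ∈ Subgroup.normalizer (Q : Set A) := by
  rw [Subgroup.mem_normalizer_iff, Subgroup.mem_normalizer_iff]
  have hm : ∀ y : A × V, y ∈ Q.prod (⊥ : Subgroup V) ↔ y.1 ∈ Q ∧ y.2 = 1 := fun y => by
    rw [Subgroup.mem_prod, Subgroup.mem_bot]
  constructor
  · intro h y
    have h1 := h (y, 1)
    rw [hm, hm] at h1
    change (y ∈ Q ∧ (1 : V) = 1) ↔ (x.1 * y * x.1⁻¹ ∈ Q ∧ x.2 * 1 * x.2⁻¹ = 1) at h1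
    rw [mul_one, mul_inv_cancel] at h1
    simpa using h1
  · intro h y
    rw [hm, hm]
    change (y.1 ∈ Q ∧ y.2 = 1) ↔ (x.1 * y.1 * x.1⁻¹ ∈ Q ∧ x.2 * y.2 * x.2⁻¹ = 1)
    have h2 : x.2 * y.2 * x.2⁻¹ = y.2 := by rw [mul_comm x.2, mul_assoc, mul_inv_cancel, mul_one]
    rw [h y.1, h2]

/-- the normalizer in the product -/
def eP (Q : Subgroup A) :
    (Subgroup.normalizer (Q : Set A)) × V ≃*
      Subgroup.normalizer ((Q.prod (⊥ : Subgroup V) : Subgroup (A × V)) : Set (A × V)) where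
  toFun x := ⟨(x.1.1, x.2), mem_norm_prod.2 x.1.2⟩
  invFun y := (⟨y.1.1, mem_norm_prod.1 y.2⟩, y.1.2)
  left_inv _ := rfl
  right_inv _ := rfl
  map_mul' _ _ := rfl

theorem wterm_prod (hV : ¬ p ∣ Nat.card V) {E : A → F} (hE : IsClassFun E) (κ : V → F)
    (Q : Subgroup A) : wterm p red (fun x : A × V => E x.1 * κ x.2) (Q.prod (⊥ : Subgroup V)) =
      Nat.card V * KC red κ * wterm p red E Q := by
  unfold wterm
  have hp : IsPGroup p (Q.prod (⊥ : Subgroup V)) ↔ IsPGroup p Q := by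
    constructor
    · rintro h ⟨q, hq⟩
      obtain ⟨k, hk⟩ := h ⟨(q, 1), Subgroup.mem_prod.2 ⟨hq, Subgroup.mem_bot.2 rfl⟩⟩
      refine ⟨k, Subtype.ext ?_⟩
      exact congrArg (fun x : Q.prod (⊥ : Subgroup V) => (x : A × V).1) hk
    · rintro h ⟨⟨q, v⟩, hq⟩
      obtain ⟨hq1, hq2⟩ := Subgroup.mem_prod.1 hq
      obtain ⟨k, hk⟩ := h ⟨q, hq1⟩
      have hv : v = 1 := Subgroup.mem_bot.1 hq2
      refine ⟨k, Subtype.ext (Prod.ext ?_ ?_)⟩
      · exact congrArg Subtype.val hk
      · change v ^ p ^ k = 1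
        rw [hv, one_pow]
  by_cases hQ : IsPGroup p Q
  · rw [if_pos hQ, if_pos (hp.2 hQ)]
    have h1 : Nat.card (Subgroup.normalizer ((Q.prod (⊥ : Subgroup V) : Subgroup (A × V)) :
        Set (A × V))) = Nat.card (Subgroup.normalizer (Q : Set A)) * Nat.card V := by
      rw [← Nat.card_congr (eP Q).toEquiv, Nat.card_prod]
    have hcl : IsClassFun (fun x : Subgroup.normalizer ((Q.prod (⊥ : Subgroup V) :
        Subgroup (A × V)) : Set (A × V)) => E (x : A × V).1 * κ (x : A × V).2) := by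
      intro g x
      change E ((g : A × V).1 * (x : A × V).1 * ((g : A × V).1)⁻¹) *
        κ ((g : A × V).2 * (x : A × V).2 * ((g : A × V).2)⁻¹) = _
      rw [hE, mul_comm (g : A × V).2, mul_assoc, mul_inv_cancel, mul_one]
    have h2 := nw_comp (p := p) (red := red) (eP (V := V) Q)
      (Q := (Q.subgroupOf (Subgroup.normalizer (Q : Set A))).prod (⊥ : Subgroup V))
      (Q' := (Q.prod (⊥ : Subgroup V)).subgroupOf (Subgroup.normalizer ((Q.prod
        (⊥ : Subgroup V) : Subgroup (A × V)) : Set (A × V)))) (fun x => by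
          rw [Subgroup.mem_subgroupOf]
          rfl) hcl
    rw [← h2]
    have h3 := nw_prod (p := p) red hV (Q.subgroupOf (Subgroup.normalizer (Q : Set A)))
      (E := fun x : Subgroup.normalizer (Q : Set A) => E x) (fun g x => hE g x) κ
    have h4 : nw p red ((Q.subgroupOf (Subgroup.normalizer (Q : Set A))).prod (⊥ : Subgroup V))
        (fun x => E ((eP Q x : A × V)).1 * κ ((eP Q x : A × V)).2) =
        nw p red (Q.subgroupOf (Subgroup.normalizer (Q : Set A)))
          (fun x : Subgroup.normalizer (Q : Set A) => E x) * KC red κ := h3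
    rw [h4, h1]
    ring
  · rw [if_neg hQ, if_neg (fun h => hQ (hp.1 h)), mul_zero]

/-- **the weights of the product** -/
theorem WT_prod (hp : p.Prime) (hV : ¬ p ∣ Nat.card V) {E : A → F} (hE : IsClassFun E)
    (κ : V → F) : WT p red (fun x : A × V => E x.1 * κ x.2) =
      (Nat.card V * KC red κ : ℕ) * WT p red E := by
  haveI : Fintype (Subgroup A) := Fintype.ofFinite _
  haveI : Fintype (Subgroup (A × V)) := Fintype.ofFinite _
  rw [WT_eq, WT_eq, finsum_eq_sum_of_fintype, finsum_eq_sum_of_fintype]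
  have hinj : Function.Injective (fun Q : Subgroup A => Q.prod (⊥ : Subgroup V)) := by
    intro Q Q' h
    ext x
    have h1 : (x, (1 : V)) ∈ Q.prod (⊥ : Subgroup V) ↔ (x, (1 : V)) ∈ Q'.prod (⊥ : Subgroup V) := by
      have h2 : Q.prod (⊥ : Subgroup V) = Q'.prod (⊥ : Subgroup V) := h
      rw [h2]
    rw [Subgroup.mem_prod, Subgroup.mem_prod] at h1
    simpa using h1
  have h1 : ∑ Q : Subgroup (A × V), wterm p red (fun x : A × V => E x.1 * κ x.2) Q =
      Nat.card V * KC red κ * ∑ Q : Subgroup A, wterm p red E Q := by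
    calc ∑ Q : Subgroup (A × V), wterm p red (fun x : A × V => E x.1 * κ x.2) Q
        = ∑ Q ∈ (Finset.univ : Finset (Subgroup A)).image (fun Q => Q.prod (⊥ : Subgroup V)),
            wterm p red (fun x : A × V => E x.1 * κ x.2) Q := by
          symm
          refine Finset.sum_subset (Finset.subset_univ _) fun Q _ hQ => ?_
          unfold wterm
          rw [if_neg]
          intro hpg
          apply hQ
          refine Finset.mem_image.2 ⟨Q.map (MonoidHom.fst A V), Finset.mem_univ _, ?_⟩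
          have h2 : ∀ x ∈ Q, x.2 = 1 := by
            intro x hx
            obtain ⟨k, hk⟩ := hpg ⟨x, hx⟩
            have h3 : x.2 ^ p ^ k = 1 := congrArg (fun y : Q => (y : A × V).2) hk
            have h4 : x.2 ^ Nat.card V = 1 := pow_card_eq_one'
            have h5 := Nat.Coprime.pow_left k ((Nat.Prime.coprime_iff_not_dvd hp).2 hV)
            exact orderOf_eq_one_iff.1 (Nat.eq_one_of_dvd_coprimes h5
              (orderOf_dvd_of_pow_eq_one h3) (orderOf_dvd_of_pow_eq_one h4))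
          ext x
          rw [Subgroup.mem_prod, Subgroup.mem_bot]
          constructor
          · rintro ⟨⟨y, hy, hy1⟩, hx⟩
            have : x = y := Prod.ext hy1.symm (by rw [hx, h2 y hy])
            rw [this]
            exact hy
          · intro hx
            exact ⟨⟨x, hx, rfl⟩, h2 x hx⟩
      _ = ∑ Q : Subgroup A, wterm p red (fun x : A × V => E x.1 * κ x.2)
            (Q.prod (⊥ : Subgroup V)) := Finset.sum_image fun a _ b _ h => hinj h
      _ = ∑ Q : Subgroup A, Nat.card V * KC red κ * wterm p red E Q :=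
          Finset.sum_congr rfl fun Q _ => wterm_prod red hV hE κ Q
      _ = Nat.card V * KC red κ * ∑ Q : Subgroup A, wterm p red E Q := by
          rw [Finset.mul_sum]
  exact_mod_cast h1

end Pool.Agent.P8H58
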