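import Pool.Agent.P8H58.Chn
import Pool.Agent.N85.WM.Fin

/-!
# Direct powers
-/

set_option autoImplicit false
set_option linter.unusedSectionVars false

open scoped Classical

noncomputable section

namespace Pool.Agent.P8H58

open Pool.Agent.Y63.NV
open Pool.Agent.Y63.AWC (IsIrreducibleCharacter)
open Pool.Agent.N85.WM (IsW wcv tensF piSub S_WPI S_WPC)
open Pool.Agent.N85.WM.Ww (tot tot_eq1 isW_fin card_norm_pi)

variable {F : Type} [Field F] [IsAlgClosed F] {p : ℕ} [Fact p.Prime] [CharP F p]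
  {ι G : Type} [Fintype ι] [Group G] [Finite G]

theorem nz_tens (e : G → F) (θ : ι → G → F) :
    NZ (tensF fun _ : ι => e) (tensF θ) ↔ ∀ i, NZ e (θ i) := by
  have h1 : ∀ x : ι → G, ∑ᶠ g : ι → G, tensF (fun _ : ι => e) g * tensF θ (g * x) =
      ∏ i, ∑ᶠ g : G, e g * θ i (g * x i) := by
    intro x
    rw [← Pool.Agent.N85.WM.Lw.finsum_tens (fun i g => e g * θ i (g * x i))]
    refine finsum_congr fun g => ?_
    unfold tensF
    rw [← Finset.prod_mul_distrib]
    rfl
  constructor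
  · rintro ⟨x, hx⟩ i
    rw [h1] at hx
    exact ⟨x i, fun h => hx (Finset.prod_eq_zero (Finset.mem_univ i) h)⟩
  · intro h
    choose x hx using h
    refine ⟨x, ?_⟩
    rw [h1]
    exact Finset.prod_ne_zero_iff.2 fun i _ => hx i

theorem LL_pow (p : ℕ) [Fact p.Prime] [CharP F p] (e : G → F) :
    LL (tensF fun _ : ι => e) = LL e ^ Fintype.card ι := by
  obtain ⟨h1, h2⟩ := Pool.Agent.N85.WM.Pir.main p F ι G
  unfold LL
  rw [← Nat.card_eq_fintype_card, ← Nat.card_fun]
  symm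
  refine Nat.card_congr (Equiv.ofBijective (fun θ : ι → {φ : G → F // IsIrrTrace φ ∧ NZ e φ} =>
    (⟨tensF fun i => (θ i).1, (h1 _).2 ⟨_, fun i => (θ i).2.1, rfl⟩,
      (nz_tens e _).2 fun i => (θ i).2.2⟩ : {φ : (ι → G) → F // IsIrrTrace φ ∧
        NZ (tensF fun _ : ι => e) φ})) ⟨?_, ?_⟩)
  · intro θ θ' h
    have h3 := h2 _ _ (fun i => (θ i).2.1) (fun i => (θ' i).2.1) (congrArg Subtype.val h)
    funext i
    exact Subtype.ext (congrFun h3 i)
  · rintro ⟨φ, h3, h4⟩
    obtain ⟨θ, h5, rfl⟩ := (h1 φ).1 h3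
    rw [nz_tens] at h4
    exact ⟨fun i => ⟨θ i, h5 i, h4 i⟩, rfl⟩

variable {red : integralClosure ℤ ℂ →+* F}

/-- the weights on which `e` does not act as zero -/
abbrev WN (p : ℕ) (red : integralClosure ℤ ℂ →+* F) {G : Type} [Group G] (e : G → F) : Type :=
  {w : Subgroup G × (G → ℂ) // IsW p w.1 w.2 ∧ wcv red w.1 w.2 e ≠ 0}

instance : Finite (WN p red (F := F) (G := G) (fun _ => 0)) := by
  have := isW_fin (p := p) (H := G)
  refine Finite.of_injective (β := {w : Subgroup G × (G → ℂ) // IsW p w.1 w.2})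
    (fun w => ⟨w.1, w.2.1⟩) ?_
  intro w w' h
  simp only [Subtype.mk.injEq] at h
  exact Subtype.ext h

theorem wn_fin (e : G → F) : Finite (WN p red e) := by
  have := isW_fin (p := p) (H := G)
  refine Finite.of_injective (β := {w : Subgroup G × (G → ℂ) // IsW p w.1 w.2})
    (fun w => ⟨w.1, w.2.1⟩) ?_
  intro w w' h
  simp only [Subtype.mk.injEq] at h
  exact Subtype.ext h

theorem WT_pow {e : G → F} (he : IsClassFun e) :
    WT p red (tensF fun _ : ι => e) = WT p red e ^ Fintype.card ι := by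
  have h1 : S_WPI := Pool.Agent.N85.WM.Wpi.main
  have h2 : S_WPC := Pool.Agent.N85.WM.Wpi.wpc
  haveI := wn_fin (p := p) (red := red) e
  haveI := wn_fin (p := p) (red := red) (tensF fun _ : ι => e)
  haveI : Fintype (WN p red e) := Fintype.ofFinite _
  haveI : Fintype (WN p red (tensF fun _ : ι => e)) := Fintype.ofFinite _
  have hmem : ∀ w : ι → WN p red e, IsW p (piSub fun i => (w i).1.1) (tensF fun i => (w i).1.2) ∧
      wcv red (piSub fun i => (w i).1.1) (tensF fun i => (w i).1.2) (tensF fun _ => e) ≠ 0 := by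
    intro w
    refine ⟨((h1 p ι G).1 _ _).2 ⟨_, _, fun i => (w i).2.1, rfl, rfl⟩, ?_⟩
    rw [h2 p F red ι G _ _ _ (fun i => (w i).2.1) (fun _ => he)]
    exact Finset.prod_ne_zero_iff.2 fun i _ => (w i).2.2
  let Φ : (ι → WN p red e) → WN p red (tensF fun _ : ι => e) := fun w =>
    ⟨(piSub fun i => (w i).1.1, tensF fun i => (w i).1.2), hmem w⟩
  have hbij : Function.Bijective Φ := by
    constructor
    · intro w w' h
      have h3 : piSub (fun i => (w i).1.1) = piSub fun i => (w' i).1.1 :=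
        congrArg (fun x => x.1.1) h
      have h4 : tensF (fun i => (w i).1.2) = tensF fun i => (w' i).1.2 :=
        congrArg (fun x => x.1.2) h
      obtain ⟨h5, h6⟩ := (h1 p ι G).2 _ _ _ _ (fun i => (w i).2.1) (fun i => (w' i).2.1) h3 h4
      funext i
      exact Subtype.ext (Prod.ext (congrFun h5 i) (congrFun h6 i))
    · rintro ⟨⟨Q, χ⟩, hw, hv⟩
      obtain ⟨R, ψ, hR, rfl, rfl⟩ := ((h1 p ι G).1 Q χ).1 hw
      simp only [] at hv
      rw [h2 p F red ι G _ _ _ hR (fun _ => he)] at hv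
      exact ⟨fun i => ⟨(R i, ψ i), hR i, Finset.prod_ne_zero_iff.1 hv i (Finset.mem_univ i)⟩, rfl⟩
  have hcard : ∀ w : ι → WN p red e,
      (Nat.card (Subgroup.normalizer ((Φ w).1.1 : Set (ι → G))) : ℤ) =
        ∏ i, (Nat.card (Subgroup.normalizer ((w i).1.1 : Set G)) : ℤ) := by
    intro w
    change (Nat.card (Subgroup.normalizer
      ((piSub (fun i => (w i).1.1) : Subgroup (ι → G)) : Set (ι → G))) : ℤ) = _
    rw [card_norm_pi]
    push_cast
    rfl
  unfold WT
  rw [tot_eq1 (fun Q χ => IsW p Q χ ∧ wcv red Q χ e ≠ 0),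
    tot_eq1 (fun Q χ => IsW p Q χ ∧ wcv red Q χ (tensF fun _ : ι => e) ≠ 0)]
  rw [← Finset.card_univ, ← Finset.prod_const, Finset.prod_univ_sum, Fintype.piFinset_univ]
  symm
  refine Fintype.sum_bijective _ hbij _ _ fun w => ?_
  exact (hcard w).symm

end Pool.Agent.P8H58
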