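import Pool.Agent.P8H58.Fre
import Pool.Agent.P8H58.Prd2
import Pool.Agent.P8H58.Pow

/-!
# The numbers for the group `Gam`
-/

set_option autoImplicit false
set_option linter.unusedSectionVars false

open scoped Classical

noncomputable section

namespace Pool.Agent.P8H58

open Pool.Agent.Y63.NV
open Pool.Agent.N85.WM (IsW wcv tensF)

theorem LL_comp {F : Type} [Field F] [IsAlgClosed F] {A A' : Type} [Group A] [Group A'] [Finite A]
    [Finite A'] (e : A ≃* A') (z : A' → F) : LL (fun x => z (e x)) = LL z := by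
  have key : ∀ {B B' : Type} [Group B] [Group B'] (g : B ≃* B') (φ : B' → F), IsIrrTrace φ →
      IsIrrTrace (fun x => φ (g x)) := by
    intro B B' _ _ g φ hφ
    obtain ⟨C, rfl⟩ := exists_md hφ
    haveI := C.nontriv
    let D : Md F B :=
      { V := C.V
        ρ := C.ρ.comp g.toMonoidHom
        irr := irr_of (G := B) _ fun S hS => C.sub S fun x v hv => by
          have h1 := hS (g.symm x) v hv
          change C.ρ (g (g.symm x)) v ∈ S at h1
          rwa [g.apply_symm_apply] at h1 }
    exact D.isIrr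
  have hnz : ∀ φ : A' → F, NZ (fun x => z (e x)) (fun x => φ (e x)) ↔ NZ z φ := by
    intro φ
    have h1 : ∀ x : A, ∑ᶠ g, z (e g) * φ (e (g * x)) = ∑ᶠ g, z g * φ (g * e x) := by
      intro x
      rw [← finsum_comp_equiv e.toEquiv]
      refine finsum_congr fun g => ?_
      rw [map_mul]
      rfl
    constructor
    · rintro ⟨x, hx⟩
      rw [h1] at hx
      exact ⟨e x, hx⟩
    · rintro ⟨x, hx⟩
      refine ⟨e.symm x, ?_⟩
      rw [h1, e.apply_symm_apply]
      exact hx
  unfold LL
  refine Nat.card_congr ?_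
  refine
    { toFun := fun φ => ⟨fun x => φ.1 (e.symm x), key e.symm _ φ.2.1, ?_⟩
      invFun := fun φ => ⟨fun x => φ.1 (e x), key e _ φ.2.1, (hnz _).2 φ.2.2⟩
      left_inv := ?_
      right_inv := ?_ }
  · rw [← hnz]
    simp only [MulEquiv.symm_apply_apply]
    exact φ.2.2
  · intro φ
    apply Subtype.ext
    funext x
    simp
  · intro φ
    apply Subtype.ext
    funext x
    simp

variable {F : Type} [Field F] {H G Y : Type} [Group H] [Fintype H] [Group G] [CommGroup Y]

/-- the base group is a direct product -/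
def eB (H G Y : Type) [Group H] [Fintype H] [Group G] [CommGroup Y] :
    (H → G) × V H Y ≃* Bs H G Y where
  toFun x := ⟨bs x.1 x.2, rfl⟩
  invFun y := y.1.left
  left_inv _ := rfl
  right_inv y := Subtype.ext (eq_bs y.1 y.2).symm
  map_mul' x y := Subtype.ext (bs_mul x.1 y.1 x.2 y.2)

theorem zz_eB (e : G → F) (la : Y →* F) (x : (H → G) × V H Y) :
    zz e la ((eB H G Y x : Bs H G Y) : W H G Y) =
      tensF (fun _ : H => e) x.1 * ∑ u, la ((x.2 : H → Y) u) := zz_bs e la x.1 x.2

theorem tens_cl {e : G → F} (he : IsClassFun e) : IsClassFun (tensF fun _ : H => e) := by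
  intro g x
  unfold tensF
  exact Finset.prod_congr rfl fun i _ => he (g i) (x i)

variable [Finite G] [Finite Y]

/-- the linear characters of `V` -/
def lV (l : Y →* ℂ) (u : H) : V H Y →* ℂ := l.comp ((Pi.evalMonoidHom (fun _ : H => Y) u).comp
  (Subgroup.subtype _))

variable {red : integralClosure ℤ ℂ →+* F}

theorem lV_rH (l : Y →* ℂ) (u : H) (v : V H Y) :
    rH red (lV l u) v = rH red l ((v : H → Y) u) := rfl

theorem lV_inj {l : Y →* ℂ} {a : Y} (ha : rH red l a ≠ 1) {x y : H} (hx : x ≠ 1) (hy : y ≠ 1)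
    (hxy : x ≠ y) (u w : H) (h : rH red (lV l u) = rH red (lV l w)) : u = w := by
  have h1 := fix_u (la := rH red l) ha hx hy hxy u (u * w⁻¹) (fun v => by
    have h2 := DFunLike.congr_fun h v
    rw [lV_rH, lV_rH] at h2
    rw [h2]
    congr 2
    group)
  exact mul_inv_eq_one.1 h1

variable [IsAlgClosed F] {p : ℕ} [Fact p.Prime] [CharP F p]

theorem card_V_dvd (hY : ¬ p ∣ Nat.card Y) : ¬ p ∣ Nat.card (V H Y) := by
  intro h
  have h1 : Nat.card (V H Y) ∣ Nat.card (H → Y) := Subgroup.card_subgroup_dvd_card _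
  have h2 := h.trans h1
  rw [Nat.card_fun] at h2
  exact hY ((Fact.out : p.Prime).dvd_of_dvd_pow h2)

theorem base_LL (hY : ¬ p ∣ Nat.card Y) {l : Y →* ℂ} {a : Y} (ha : rH red l a ≠ 1) {x y : H}
    (hx : x ≠ 1) (hy : y ≠ 1) (hxy : x ≠ y) (e : G → F) :
    LL (fun b : Bs H G Y => zz e (rH red l) (b : W H G Y)) =
      LL e ^ Fintype.card H * Fintype.card H := by
  rw [← LL_comp (eB H G Y)]
  have h1 : (fun x : (H → G) × V H Y => zz e (rH red l) ((eB H G Y x : Bs H G Y) : W H G Y)) =
      fun x : (H → G) × V H Y => tensF (fun _ : H => e) x.1 *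
        (fun v : V H Y => ∑ u, rH red (lV l u) v) x.2 := by
    funext x
    exact zz_eB e (rH red l) x
  rw [h1, LL_prod (tensF fun _ : H => e) (fun v : V H Y => ∑ u, rH red (lV l u) v), LL_pow p,
    KS_eq red (card_V_dvd hY) (lV l) (lV_inj ha hx hy hxy)]

theorem base_WT (hY : ¬ p ∣ Nat.card Y) {l : Y →* ℂ} {a : Y} (ha : rH red l a ≠ 1) {x y : H}
    (hx : x ≠ 1) (hy : y ≠ 1) (hxy : x ≠ y) {e : G → F} (he : IsClassFun e) :
    WT p red (fun b : Bs H G Y => zz e (rH red l) (b : W H G Y)) =
      (Nat.card (V H Y) * Fintype.card H : ℕ) * WT p red e ^ Fintype.card H := by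
  have hcl : IsClassFun (fun b : Bs H G Y => zz e (rH red l) (b : W H G Y)) :=
    fun g b => (zz_inZ he (rH red l)).conj (g : W H G Y) (b : W H G Y)
  rw [← WT_comp (eB H G Y) hcl]
  have h1 : (fun x : (H → G) × V H Y => zz e (rH red l) ((eB H G Y x : Bs H G Y) : W H G Y)) =
      fun x : (H → G) × V H Y => tensF (fun _ : H => e) x.1 *
        (fun v : V H Y => ∑ u, rH red (lV l u) v) x.2 := by
    funext x
    exact zz_eB e (rH red l) x
  rw [h1, WT_prod red Fact.out (card_V_dvd hY) (tens_cl he)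
    (fun v : V H Y => ∑ u, rH red (lV l u) v), WT_pow he,
    KC_eq red (card_V_dvd hY) (lV l) (lV_inj ha hx hy hxy)]

theorem index_Bs : (Bs H G Y).index = Fintype.card H := by
  have h1 : Function.Surjective (SemidirectProduct.rightHom : W H G Y →* H) :=
    SemidirectProduct.rightHom_surjective
  unfold Bs
  rw [Subgroup.index_ker, MonoidHom.range_eq_top.2 h1, Subgroup.card_top,
    Nat.card_eq_fintype_card]

/-- `z` is supported on `Gam` -/
theorem zz_inZ_Gam {e : G → F} (he : IsClassFun e) (hs : ∀ x, x ∉ commutator G → e x = 0)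
    (la : Y →* F) : InZ (Gam H G Y) (zz e la : W H G Y → F) := by
  refine ⟨(zz_inZ he la).conj, fun x hx => ?_⟩
  by_contra hne
  apply hx
  unfold zz at hne
  by_cases hr : x.right = 1
  · rw [if_pos hr] at hne
    have h1 : ∀ h, x.left.1 h ∈ commutator G := by
      intro h
      by_contra hcon
      apply hne
      unfold zb
      rw [Finset.prod_eq_zero (Finset.mem_univ h) (hs _ hcon), zero_mul]
    rw [mem_Gam]
    refine Finset.prod_eq_one fun h _ => ?_
    exact (QuotientGroup.eq_one_iff (x.left.1 h)).2 (h1 h)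
  · rw [if_neg hr] at hne
    exact absurd rfl hne

theorem comm_Gam (a b : W H G Y) : a * b * a⁻¹ * b⁻¹ ∈ Gam H G Y := by
  unfold Gam
  rw [MonoidHom.mem_ker]
  simp only [map_mul, map_inv]
  rw [mul_comm (toAb H G Y a), mul_assoc (toAb H G Y b), mul_inv_cancel, mul_one, mul_inv_cancel]

theorem index_Gam : (Gam H G Y).index ∣ Nat.card (Abelianization G) := by
  unfold Gam
  rw [Subgroup.index_ker]
  exact Subgroup.card_subgroup_dvd_card _

/-- **the estimates** -/
theorem est (hY : ¬ p ∣ Nat.card Y) {l : Y →* ℂ} {a : Y} (ha : rH red l a ≠ 1) {x y : H}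
    (hx : x ≠ 1) (hy : y ≠ 1) (hxy : x ≠ y) {e : G → F} (he : IsClassFun e)
    (hs : ∀ x, x ∉ commutator G → e x = 0) (hG : ¬ p ∣ Nat.card (Abelianization G)) :
    LL e ^ Fintype.card H ≤ Nat.card (Abelianization G) *
        LL (fun b : Gam H G Y => zz e (rH red l) (b : W H G Y)) ∧
    LL (fun b : Gam H G Y => zz e (rH red l) (b : W H G Y)) ≤
      Nat.card (Abelianization G) * Fintype.card H ^ 2 * LL e ^ Fintype.card H ∧
    (Nat.card (V H Y) : ℤ) * WT p red e ^ Fintype.card H ≤ (Nat.card (Abelianization G) : ℤ) ^ 2 *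
        WT p red (fun b : Gam H G Y => zz e (rH red l) (b : W H G Y)) ∧
    WT p red (fun b : Gam H G Y => zz e (rH red l) (b : W H G Y)) ≤
      (Nat.card (Abelianization G) : ℤ) * (Fintype.card H : ℤ) ^ 3 * Nat.card (V H Y) *
        WT p red e ^ Fintype.card H := by
  have hz := zz_inZ (H := H) he (rH red l)
  have hzG := zz_inZ_Gam (H := H) he hs (rH red l)
  have bL := base_LL (p := p) hY ha hx hy hxy e
  have bW := base_WT (p := p) hY ha hx hy hxy he
  have n0 : 0 < Fintype.card H := Fintype.card_pos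
  have m0 : (Gam H G Y).index ≤ Nat.card (Abelianization G) :=
    Nat.le_of_dvd Nat.card_pos index_Gam
  have hpi : ¬ p ∣ (Gam H G Y).index := fun h => hG (h.trans index_Gam)
  have l1 := LL_le_above hz
  have l2 := LL_le_below hz
  have l3 := LL_le_above hzG
  have l4 := LL_le_below hzG
  rw [index_Bs] at l1 l2
  rw [bL] at l1 l2
  have hN := niceN_free (p := p) (red := red) he ha hx hy hxy
  have w1 := WT_le_above (Fact.out : p.Prime) hz hN
  have w2 := WT_le_below (Fact.out : p.Prime) hz hN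
    (fun Q χ hQ hcv => wt_le_base e (rH red l) hz.conj Q χ hQ hcv)
  rw [index_Bs] at w1 w2
  rw [bW] at w1 w2
  obtain ⟨w3, w4⟩ := chain (red := red) (Fact.out : p.Prime) _ (W H G Y) (Gam H G Y)
    (zz e (rH red l)) hzG comm_Gam hpi rfl
  have q1 : 0 ≤ WT p red (zz e (rH red l) : W H G Y → F) := WT_nonneg _
  have q2 : 0 ≤ WT p red (fun b : Gam H G Y => zz e (rH red l) (b : W H G Y)) := WT_nonneg _
  have q3 : 0 ≤ WT p red e := WT_nonneg _
  have n1 : (0 : ℤ) < (Fintype.card H : ℤ) := by exact_mod_cast n0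
  have m1 : ((Gam H G Y).index : ℤ) ≤ (Nat.card (Abelianization G) : ℤ) := by exact_mod_cast m0
  refine ⟨?_, ?_, ?_, ?_⟩
  · have h1 : LL e ^ Fintype.card H ≤ LL (zz e (rH red l) : W H G Y → F) := by
      rw [mul_comm] at l1
      exact Nat.le_of_mul_le_mul_left l1 n0
    exact h1.trans (l4.trans (Nat.mul_le_mul_right _ m0))
  · calc LL (fun b : Gam H G Y => zz e (rH red l) (b : W H G Y))
        ≤ (Gam H G Y).index * LL (zz e (rH red l) : W H G Y → F) := l3
      _ ≤ Nat.card (Abelianization G) *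
          (Fintype.card H * (LL e ^ Fintype.card H * Fintype.card H)) := Nat.mul_le_mul m0 l2
      _ = _ := by ring
  · have h1 : (Nat.card (V H Y) : ℤ) * WT p red e ^ Fintype.card H ≤
        WT p red (zz e (rH red l) : W H G Y → F) := by
      push_cast at w1
      have h2 : (Fintype.card H : ℤ) * ((Nat.card (V H Y) : ℤ) * WT p red e ^ Fintype.card H) ≤
          (Fintype.card H : ℤ) * WT p red (zz e (rH red l) : W H G Y → F) := by
        calc _ = (Nat.card (V H Y) : ℤ) * Fintype.card H * WT p red e ^ Fintype.card H := by ring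
          _ ≤ _ := w1
      exact le_of_mul_le_mul_left h2 n1
    refine h1.trans (w4.trans ?_)
    push_cast
    exact mul_le_mul_of_nonneg_right (pow_le_pow_left₀ (Int.natCast_nonneg _) m1 2) q2
  · calc WT p red (fun b : Gam H G Y => zz e (rH red l) (b : W H G Y))
        ≤ ((Gam H G Y).index : ℤ) * WT p red (zz e (rH red l) : W H G Y → F) := w3
      _ ≤ (Nat.card (Abelianization G) : ℤ) * (((Fintype.card H ^ 2 : ℕ) : ℤ) *
          ((Nat.card (V H Y) * Fintype.card H : ℕ) * WT p red e ^ Fintype.card H)) :=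
          mul_le_mul m1 w2 q1 (Int.natCast_nonneg _)
      _ = _ := by
          push_cast
          ring

end Pool.Agent.P8H58
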