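import Pool.Agent.P8H58.Chn
import Pool.Agent.N85.WM.Fin

/-!
# Blocks and elements of the centre
-/

set_option autoImplicit false
set_option linter.unusedSectionVars false

open scoped Classical

noncomputable section

namespace Pool.Agent.P8H58

open Pool.Agent.Y63.NV
open Pool.Agent.N85.WM (IsW wcv blkOf blkOf_block blkOf_spec BEq YS cvS cvS_block numWts
  numWts_eq numIrrBlock_eq uno uno_class block_uno cvS_uno card_YS)
open Pool.Agent.N85.WM.Ww (tot wsum_tot)

variable {F : Type} [Field F] [IsAlgClosed F] {p : ℕ} [Fact p.Prime] [CharP F p]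
  {G : Type} [Group G] [Finite G]

theorem LL_blk {z : G → F} (hz : IsClassFun z) :
    LL z = Nat.card {φ : {φ : G → F // IsIrrTrace φ} // blkOf φ z ≠ 0} := by
  unfold LL
  have h1 : ∀ φ : {φ : G → F // IsIrrTrace φ}, NZ z φ.1 ↔ blkOf φ z ≠ 0 := by
    intro φ
    obtain ⟨C, hC⟩ := exists_md φ.2
    constructor
    · rintro ⟨x, hx⟩ h0
      rw [blkOf_spec φ hz x, h0, zero_mul] at hx
      exact hx rfl
    · intro h
      obtain ⟨x, hx⟩ := C.tr_ne
      refine ⟨x, ?_⟩
      rw [blkOf_spec φ hz x]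
      rw [hC] at hx
      exact mul_ne_zero h hx
  exact Nat.card_congr
    { toFun := fun φ => ⟨⟨φ.1, φ.2.1⟩, (h1 ⟨φ.1, φ.2.1⟩).1 φ.2.2⟩
      invFun := fun φ => ⟨φ.1.1, φ.1.2, (h1 φ.1).2 φ.2⟩
      left_inv := fun φ => rfl
      right_inv := fun φ => rfl }

variable (red : integralClosure ℤ ℂ →+* F)

theorem irr_fin (Q : Subgroup G) : Finite {χ : G → ℂ // IsW p Q χ} := by
  have := Pool.Agent.N85.WM.Ww.isW_fin (p := p) (H := G)
  refine Finite.of_injective (β := {w : Subgroup G × (G → ℂ) // IsW p w.1 w.2})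
    (fun χ => ⟨(Q, χ.1), χ.2⟩) ?_
  intro χ χ' h
  exact Subtype.ext (congrArg (fun w => w.1.2) h)

theorem tot_split (z : G → F) : tot (fun Q (χ : G → ℂ) => IsW p Q χ) =
    tot (fun Q χ => IsW p Q χ ∧ wcv red Q χ z = 0) + WT p red z := by
  haveI : Fintype (Subgroup G) := Fintype.ofFinite _
  unfold WT tot
  rw [finsum_eq_sum_of_fintype, finsum_eq_sum_of_fintype, finsum_eq_sum_of_fintype,
    ← Finset.sum_add_distrib]
  refine Finset.sum_congr rfl fun Q _ => ?_
  rw [← mul_add]
  congr 1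
  haveI := irr_fin (p := p) Q
  haveI : Fintype {χ : G → ℂ // IsW p Q χ} := Fintype.ofFinite _
  have h1 : Nat.card {χ : G → ℂ // IsW p Q χ} =
      Nat.card {χ : {χ : G → ℂ // IsW p Q χ} // wcv red Q χ.1 z = 0} +
        Nat.card {χ : {χ : G → ℂ // IsW p Q χ} // ¬ wcv red Q χ.1 z = 0} := by
    rw [Nat.card_eq_fintype_card, Nat.card_eq_fintype_card, Nat.card_eq_fintype_card]
    have := Fintype.card_subtype_compl (fun χ : {χ : G → ℂ // IsW p Q χ} => wcv red Q χ.1 z = 0)
    have h2 := Fintype.card_subtype_le (fun χ : {χ : G → ℂ // IsW p Q χ} => wcv red Q χ.1 z = 0)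
    omega
  have h2 : Nat.card {χ : {χ : G → ℂ // IsW p Q χ} // wcv red Q χ.1 z = 0} =
      Nat.card {χ : G → ℂ // IsW p Q χ ∧ wcv red Q χ z = 0} :=
    Nat.card_congr (Equiv.subtypeSubtypeEquivSubtypeInter (fun χ => IsW p Q χ)
      (fun χ => wcv red Q χ z = 0))
  have h3 : Nat.card {χ : {χ : G → ℂ // IsW p Q χ} // ¬ wcv red Q χ.1 z = 0} =
      Nat.card {χ : G → ℂ // IsW p Q χ ∧ wcv red Q χ z ≠ 0} :=
    Nat.card_congr (Equiv.subtypeSubtypeEquivSubtypeInter (fun χ => IsW p Q χ)
      (fun χ => ¬ wcv red Q χ z = 0))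
  rw [h1, h2, h3]
  push_cast
  rfl

theorem WT_blk {z : G → F} (hz : IsClassFun z) :
    WT p red z = (Nat.card G : ℤ) * Nat.card {y : YS p G // cvS red y z ≠ 0} := by
  have h1 : tot (fun Q χ => IsW p Q χ ∧ wcv red Q χ z = 0) =
      (Nat.card G : ℤ) * (Nat.card {y : YS p G // cvS red y z = 0} : ℤ) := by
    rw [← wsum_tot, Pool.Agent.N85.WM.wsum_top red hz]
  have h2 : tot (fun Q (χ : G → ℂ) => IsW p Q χ) = (Nat.card G : ℤ) * Nat.card (YS p G) := by
    have h3 : tot (fun Q χ => IsW p Q χ ∧ wcv red Q χ (uno F G) = 1) =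
        (Nat.card G : ℤ) * (Nat.card {y : YS p G // cvS red y (uno F G) = 1} : ℤ) := by
      rw [← wsum_tot, Pool.Agent.N85.WM.wsum_top red uno_class]
    rw [cvS_uno red, ← card_YS] at h3
    rw [← h3]
    refine Pool.Agent.N85.WM.Ww.tot_congr fun Q χ => ?_
    constructor
    · intro h
      exact ⟨h, block_uno (wblk' p F red G Q _ h.pg h.wt)⟩
    · exact fun h => h.1
  have h3 := tot_split (p := p) red z
  rw [h1, h2] at h3
  haveI : Fintype (YS p G) := Fintype.ofFinite _
  have h4 : Nat.card (YS p G) = Nat.card {y : YS p G // cvS red y z = 0} +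
      Nat.card {y : YS p G // cvS red y z ≠ 0} := by
    rw [Nat.card_eq_fintype_card, Nat.card_eq_fintype_card, Nat.card_eq_fintype_card]
    have := Fintype.card_subtype_compl (fun y : YS p G => cvS red y z = 0)
    have h2 := Fintype.card_subtype_le (fun y : YS p G => cvS red y z = 0)
    simp only [ne_eq]
    omega
  rw [h4] at h3
  push_cast at h3
  linarith

/-- comparison over all blocks -/
theorem cmp_blocks {X Y : Type} [Finite X] [Finite Y] (a : X → (G → F) → F) (b : Y → (G → F) → F)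
    {z : G → F} (hz : IsClassFun z) (K : ℝ) (hK : 0 ≤ K)
    (h : ∀ x, (Nat.card {x' : X // BEq (a x') (a x)} : ℝ) ≤
      K * (Nat.card {y : Y // BEq (b y) (a x)} : ℝ)) :
    (Nat.card {x : X // a x z ≠ 0} : ℝ) ≤ K * (Nat.card {y : Y // b y z ≠ 0} : ℝ) := by
  haveI : Fintype X := Fintype.ofFinite X
  haveI : Fintype Y := Fintype.ofFinite Y
  let κ : ((G → F) → F) → ({f : G → F // IsClassFun f} → F) := fun B f => B f.1
  have hκ : ∀ B B', κ B = κ B' ↔ BEq B B' := by
    intro B B'
    constructor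
    · intro h f hf
      exact congrFun h ⟨f, hf⟩
    · intro h
      funext f
      exact h f.1 f.2
  have hκz : ∀ B B', κ B = κ B' → B z = B' z := fun B B' h => congrFun h ⟨z, hz⟩
  let SX : Finset X := Finset.univ.filter fun x => a x z ≠ 0
  let SY : Finset Y := Finset.univ.filter fun y => b y z ≠ 0
  let T : Finset ({f : G → F // IsClassFun f} → F) := SX.image fun x => κ (a x)
  have e1 : Nat.card {x : X // a x z ≠ 0} = SX.card := by
    rw [Nat.card_eq_fintype_card, Fintype.card_subtype]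
  have e2 : Nat.card {y : Y // b y z ≠ 0} = SY.card := by
    rw [Nat.card_eq_fintype_card, Fintype.card_subtype]
  rw [e1, e2]
  have h1 : SX.card = ∑ k ∈ T, (SX.filter fun x => κ (a x) = k).card :=
    Finset.card_eq_sum_card_image _ _
  have h2 : ∑ k ∈ T, (SY.filter fun y => κ (b y) = k).card ≤ SY.card := by
    rw [← Finset.card_biUnion]
    · refine Finset.card_le_card fun y hy => ?_
      obtain ⟨k, _, hy⟩ := Finset.mem_biUnion.1 hy
      exact (Finset.mem_filter.1 hy).1
    · intro k _ k' _ hkk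
      rw [Function.onFun, Finset.disjoint_left]
      intro y hy hy'
      exact hkk ((Finset.mem_filter.1 hy).2.symm.trans (Finset.mem_filter.1 hy').2)
  have h3 : ∀ k ∈ T, ((SX.filter fun x => κ (a x) = k).card : ℝ) ≤
      K * ((SY.filter fun y => κ (b y) = k).card : ℝ) := by
    intro k hk
    obtain ⟨x, hx, rfl⟩ := Finset.mem_image.1 hk
    have hx2 := (Finset.mem_filter.1 hx).2
    have f1 : Nat.card {x' : X // BEq (a x') (a x)} =
        (SX.filter fun x' => κ (a x') = κ (a x)).card := by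
      rw [Nat.card_eq_fintype_card, Fintype.card_subtype]
      congr 1
      ext x'
      rw [Finset.mem_filter, Finset.mem_filter, Finset.mem_filter, hκ]
      constructor
      · intro h'
        refine ⟨⟨Finset.mem_univ _, ?_⟩, h'.2⟩
        rw [h'.2 z hz]
        exact hx2
      · intro h'
        exact ⟨Finset.mem_univ _, h'.2⟩
    have f2 : Nat.card {y : Y // BEq (b y) (a x)} =
        (SY.filter fun y => κ (b y) = κ (a x)).card := by
      rw [Nat.card_eq_fintype_card, Fintype.card_subtype]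
      congr 1
      ext y
      rw [Finset.mem_filter, Finset.mem_filter, Finset.mem_filter, hκ]
      constructor
      · intro h'
        refine ⟨⟨Finset.mem_univ _, ?_⟩, h'.2⟩
        rw [h'.2 z hz]
        exact hx2
      · intro h'
        exact ⟨Finset.mem_univ _, h'.2⟩
    rw [← f1, ← f2]
    exact h x
  calc (SX.card : ℝ) = ∑ k ∈ T, ((SX.filter fun x => κ (a x) = k).card : ℝ) := by
        rw [h1]
        push_cast
        rfl
    _ ≤ ∑ k ∈ T, K * ((SY.filter fun y => κ (b y) = k).card : ℝ) := Finset.sum_le_sum h3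
    _ = K * ((∑ k ∈ T, (SY.filter fun y => κ (b y) = k).card : ℕ) : ℝ) := by
        rw [Nat.cast_sum, Finset.mul_sum]
    _ ≤ K * (SY.card : ℝ) := by
        refine mul_le_mul_of_nonneg_left ?_ hK
        exact_mod_cast h2

/-- from blocks to elements of the centre -/
theorem LL_le_WT {z : G → F} (hz : IsClassFun z) (K : ℝ) (hK : 0 ≤ K)
    (h : ∀ B : (G → F) → F, IsBlock B → (numIrrBlock B : ℝ) ≤ K * (numWts p red B : ℝ)) :
    (Nat.card G : ℝ) * (LL z : ℝ) ≤ K * (WT p red z : ℝ) := by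
  have h1 := cmp_blocks (fun φ : {φ : G → F // IsIrrTrace φ} => blkOf φ)
    (fun y : YS p G => cvS red y) hz K hK (fun φ => by
      have h2 := h (blkOf φ) (blkOf_block φ)
      rw [numIrrBlock_eq, numWts_eq] at h2
      exact h2)
  rw [LL_blk hz, WT_blk red hz]
  push_cast
  calc (Nat.card G : ℝ) * _ ≤ (Nat.card G : ℝ) * (K * (Nat.card {y : YS p G // cvS red y z ≠ 0} : ℝ)) :=
        mul_le_mul_of_nonneg_left h1 (Nat.cast_nonneg _)
    _ = _ := by ring

theorem WT_le_LL {z : G → F} (hz : IsClassFun z) (K : ℝ) (hK : 0 ≤ K)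
    (h : ∀ B : (G → F) → F, IsBlock B → (numWts p red B : ℝ) ≤ K * (numIrrBlock B : ℝ)) :
    (WT p red z : ℝ) ≤ K * ((Nat.card G : ℝ) * (LL z : ℝ)) := by
  have h1 := cmp_blocks (fun y : YS p G => cvS red y)
    (fun φ : {φ : G → F // IsIrrTrace φ} => blkOf φ) hz K hK (fun y => by
      have h2 := h (cvS red y) (cvS_block red y)
      rw [numIrrBlock_eq, numWts_eq] at h2
      exact h2)
  rw [LL_blk hz, WT_blk red hz]
  push_cast
  calc (Nat.card G : ℝ) * _ ≤ (Nat.card G : ℝ) *
        (K * (Nat.card {φ : {φ : G → F // IsIrrTrace φ} // blkOf φ z ≠ 0} : ℝ)) :=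
        mul_le_mul_of_nonneg_left h1 (Nat.cast_nonneg _)
    _ = _ := by ring

end Pool.Agent.P8H58
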