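import Pool.Agent.P8H58.Tnw

/-!
# Weights and normal subgroups with an abelian quotient of order prime to `p`
-/

set_option autoImplicit false
set_option linter.unusedSectionVars false

open scoped Classical

noncomputable section

namespace Pool.Agent.P8H58

open Pool.Agent.Y63.NV
open Pool.Agent.Y63.AWC (IsIrreducibleCharacter mult mult_spec cj cj_irr mult_cj clifford res res_eq
  cj_one cj_mul)
open Pool.Agent.Helper884.IC (B Irr mem_Irr IsClass IsIrrChar B_comm)
open Pool.Agent.N85.WM (IsW wcv)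
open Pool.Agent.N85.WM.Ww (tot tot_cm isW_cm_iff wcv_cm)

variable {F : Type} [Field F] {p : ℕ} {red : integralClosure ℤ ℂ →+* F}

theorem WT_comp {H H' : Type} [Group H] [Group H'] (e : H ≃* H') {z : H' → F}
    (hz : IsClassFun z) : WT p red (fun x => z (e x)) = WT p red z := by
  unfold WT
  refine tot_cm e fun Q χ => ?_
  rw [isW_cm_iff]
  constructor
  · rintro ⟨h1, h2⟩
    refine ⟨h1, ?_⟩
    rwa [wcv_cm red e h1 hz] at h2
  · rintro ⟨h1, h2⟩
    refine ⟨h1, ?_⟩
    rwa [wcv_cm red e h1 hz]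

theorem WT_nonneg {H : Type} [Group H] [Finite H] (z : H → F) : 0 ≤ WT p red z := by
  rw [WT_eq]
  exact Int.natCast_nonneg _

section cyc

theorem nice_cyc (hp : p.Prime) {X : Type} [Group X] [Fintype X] {M : Subgroup X} [M.Normal]
    (hc : IsCyclic (X ⧸ M)) (hpi : ¬ p ∣ M.index) (z : X → F) : Nice p red M z := by
  intro χ ψ hχ hψ h _
  have hF := Pool.Agent.N833.DICL4.fact Pool.Agent.N157.DI.CL1 Pool.Agent.N771.DI.CL2 hc
  have h1 : Pool.Agent.N833.DICL4.mm χ ψ = mult M χ ψ := by
    have h2 := Pool.Agent.N833.DICL4.mm_spec hχ hψ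
    have h3 := mult_spec M hχ hψ
    have h4 : ((Pool.Agent.N833.DICL4.mm χ ψ : ℕ) : ℂ) = (mult M χ ψ : ℂ) := by
      rw [← h2, ← h3]
      rfl
    exact_mod_cast h4
  have hm : mult M χ ψ = 1 := by
    rw [← h1]
    refine hF.one χ ψ hχ hψ ?_
    rw [h1]
    exact h
  refine ⟨hm, ?_⟩
  have h2 := tt_stb hχ hψ h
  rw [hm, one_mul] at h2
  have h3 := clifford M ψ ψ hψ hψ
  have h4 : Nat.card M ∣ stb M ψ := ⟨_, h3.symm⟩
  have h5 : stb M ψ ∣ Nat.card X := ⟨_, by rw [← h2, mul_comm]⟩
  have h6 : (Nat.card X).factorization p = (Nat.card M).factorization p := by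
    rw [← Subgroup.index_mul_card M, Nat.factorization_mul Subgroup.index_ne_zero_of_finite
      Nat.card_pos.ne', Finsupp.add_apply, Nat.factorization_eq_zero_of_not_dvd hpi, zero_add]
  have h7 := (Nat.factorization_le_iff_dvd Nat.card_pos.ne' (stb_pos ψ).ne').2 h4 p
  have h8 := (Nat.factorization_le_iff_dvd (stb_pos ψ).ne' Nat.card_pos.ne').2 h5 p
  omega

variable {M : Type} [Group M] [Finite M] {N : Subgroup M} [N.Normal]

theorem niceN_cyc (hp : p.Prime) (hc : IsCyclic (M ⧸ N)) (hpi : ¬ p ∣ N.index) (z : M → F) :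
    NiceN p red N z := by
  intro Q' _ _
  refine nice_cyc hp ?_ ?_ _
  · let φ : NM Q' →* M ⧸ N := (QuotientGroup.mk' N).comp (NM Q').subtype
    have hk : φ.ker = N.subgroupOf (NM Q') := by
      ext x
      rw [MonoidHom.mem_ker, Subgroup.mem_subgroupOf]
      exact QuotientGroup.eq_one_iff (x : M)
    have h1 : IsCyclic (NM Q' ⧸ φ.ker) :=
      isCyclic_of_injective (QuotientGroup.kerLift φ) (QuotientGroup.kerLift_injective φ)
    exact isCyclic_of_surjective (QuotientGroup.quotientMulEquivOfEq hk).toMonoidHom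
      (QuotientGroup.quotientMulEquivOfEq hk).surjective
  · intro h
    exact hpi (h.trans (Subgroup.relIndex_dvd_index_of_normal N (NM Q')))

/-- all subgroups of `p`-power order lie in `N` -/
theorem le_of_index (hpi : ¬ p ∣ N.index) (hp : p.Prime) {Q : Subgroup M} (hQ : IsPGroup p Q) :
    Q ≤ N := by
  haveI : Fact p.Prime := ⟨hp⟩
  intro q hq
  obtain ⟨k, hk⟩ := hQ ⟨q, hq⟩
  have h1 : ((q : M) : M ⧸ N) ^ p ^ k = 1 := by
    rw [← QuotientGroup.mk_pow, QuotientGroup.eq_one_iff]
    have : q ^ p ^ k = 1 := congrArg Subtype.val hk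
    rw [this]
    exact one_mem N
  have h2 : ((q : M) : M ⧸ N) ^ N.index = 1 := by
    rw [Subgroup.index]
    exact pow_card_eq_one'
  have h3 : orderOf ((q : M) : M ⧸ N) ∣ p ^ k := orderOf_dvd_of_pow_eq_one h1
  have h4 : orderOf ((q : M) : M ⧸ N) ∣ N.index := orderOf_dvd_of_pow_eq_one h2
  have h5 : Nat.Coprime (p ^ k) N.index :=
    Nat.Coprime.pow_left k ((Nat.Prime.coprime_iff_not_dvd hp).2 hpi)
  have h6 := Nat.eq_one_of_dvd_coprimes h5 h3 h4
  rw [orderOf_eq_one_iff] at h6
  exact (QuotientGroup.eq_one_iff q).1 h6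

end cyc

/-- **weights and abelian quotients of order prime to `p`** -/
theorem chain (hp : p.Prime) (n : ℕ) : ∀ (M : Type) [Group M] [Finite M] (N : Subgroup M)
    [N.Normal] (z : M → F), InZ N z → (∀ a b : M, a * b * a⁻¹ * b⁻¹ ∈ N) → ¬ p ∣ N.index →
    N.index = n → WT p red (fun x : N => z x) ≤ n * WT p red z ∧
      WT p red z ≤ (n ^ 2 : ℕ) * WT p red (fun x : N => z x) := by
  induction n using Nat.strong_induction_on with
  | _ n ih =>
    intro M _ _ N _ z hz hcom hpi hn
    by_cases hc : IsCyclic (M ⧸ N)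
    · subst hn
      have h1 := niceN_cyc (red := red) hp hc hpi z
      exact ⟨WT_le_above hp hz h1, WT_le_below hp hz h1 fun Q χ hQ _ => le_of_index hpi hp hQ.pg⟩
    · have hN : N ≠ ⊤ := by
        rintro rfl
        apply hc
        have : Subsingleton (M ⧸ (⊤ : Subgroup M)) := QuotientGroup.subsingleton_quotient_top
        infer_instance
      obtain ⟨M1, hM1, hle⟩ := (IsCoatomic.eq_top_or_exists_le_coatom N).resolve_left hN
      have hnorm : M1.Normal := by
        refine ⟨fun x hx g => ?_⟩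
        have h1 : g * x * g⁻¹ * x⁻¹ ∈ M1 := hle (hcom g x)
        have h2 := mul_mem h1 hx
        rwa [inv_mul_cancel_right] at h2
      obtain ⟨x, hx⟩ : ∃ x : M, x ∉ M1 := by
        by_contra hcon
        push Not at hcon
        exact hM1.1 (eq_top_iff.2 fun y _ => hcon y)
      have hcyc : IsCyclic (M ⧸ M1) := by
        refine ⟨⟨(x : M ⧸ M1), fun y => ?_⟩⟩
        obtain ⟨y, rfl⟩ := QuotientGroup.mk_surjective y
        have h1 : M1 ⊔ Subgroup.zpowers x = ⊤ := by
          refine hM1.2 _ (lt_of_le_of_ne le_sup_left fun h => hx ?_)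
          rw [h]
          exact (le_sup_right : _ ≤ M1 ⊔ Subgroup.zpowers x) (Subgroup.mem_zpowers x)
        have h2 : y ∈ M1 ⊔ Subgroup.zpowers x := by rw [h1]; trivial
        obtain ⟨a, ha, b, hb, rfl⟩ := Subgroup.mem_sup_of_normal_left.1 h2
        obtain ⟨k, rfl⟩ := hb
        refine ⟨k, ?_⟩
        change (x : M ⧸ M1) ^ k = ((a * x ^ k : M) : M ⧸ M1)
        rw [QuotientGroup.mk_mul, (QuotientGroup.eq_one_iff a).2 ha, one_mul, QuotientGroup.mk_zpow]
      have hi := Subgroup.relIndex_mul_index hle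
      have hpi1 : ¬ p ∣ M1.index := fun h => hpi (by rw [← hi]; exact h.mul_left _)
      have hpi2 : ¬ p ∣ N.relIndex M1 := fun h => hpi (by rw [← hi]; exact h.mul_right _)
      have hz1 : InZ M1 z := ⟨hz.conj, fun y hy => hz.supp y fun h => hy (hle h)⟩
      have h1 := niceN_cyc (red := red) hp hcyc hpi1 z
      have a1 := WT_le_above hp hz1 h1
      have a2 := WT_le_below hp hz1 h1 fun Q χ hQ _ => le_of_index hpi1 hp hQ.pg
      have hlt : N.relIndex M1 < n := by
        rw [← hn, ← hi]
        have h2 : M1.index ≠ 0 := Subgroup.index_ne_zero_of_finite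
        have h3 : M1.index ≠ 1 := fun h => hM1.1 (Subgroup.index_eq_one.1 h)
        have h4 : 0 < N.relIndex M1 :=
          Nat.pos_of_ne_zero (Subgroup.index_ne_zero_of_finite (H := N.subgroupOf M1))
        exact lt_mul_of_one_lt_right h4 (by omega)
      obtain ⟨b1, b2⟩ := ih _ hlt M1 (N.subgroupOf M1) (fun y : M1 => z y)
        (inZ_sub hz M1) (fun a b => hcom a b) hpi2 rfl
      have e1 : WT p red (fun x : N.subgroupOf M1 => z x) = WT p red (fun x : N => z x) :=
        WT_comp (Subgroup.subgroupOfEquivOfLe hle) (z := fun x : N => z x)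
          (fun g x => hz.conj g x)
      rw [e1] at b1 b2
      have w1 : 0 ≤ WT p red (fun x : N => z x) := WT_nonneg _
      have w2 : 0 ≤ WT p red (fun x : M1 => z x) := WT_nonneg _
      have w3 : 0 ≤ WT p red z := WT_nonneg _
      have hn' : (n : ℤ) = (N.relIndex M1 : ℤ) * M1.index := by
        rw [← hn, ← hi]
        push_cast
        rfl
      constructor
      · calc WT p red (fun x : N => z x) ≤ (N.relIndex M1 : ℤ) * WT p red (fun x : M1 => z x) := b1
          _ ≤ (N.relIndex M1 : ℤ) * (M1.index * WT p red z) :=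
              mul_le_mul_of_nonneg_left a1 (Int.natCast_nonneg _)
          _ = n * WT p red z := by rw [hn']; ring
      · push_cast at a2 b2 ⊢
        calc WT p red z ≤ (M1.index : ℤ) ^ 2 * WT p red (fun x : M1 => z x) := a2
          _ ≤ (M1.index : ℤ) ^ 2 * ((N.relIndex M1 : ℤ) ^ 2 * WT p red (fun x : N => z x)) :=
              mul_le_mul_of_nonneg_left b2 (by positivity)
          _ = (n : ℤ) ^ 2 * WT p red (fun x : N => z x) := by rw [hn']; ring

end Pool.Agent.P8H58
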