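import Pool.Agent.P8H58.Rel2
import Pool.Agent.N833.DICL4
import Pool.Agent.N157.DI.DICL1
import Pool.Agent.N771.DICL2
import Pool.Agent.N565.DICL3
import Pool.Agent.Y63.AWC.Norm

/-!
# Characters of defect zero and normal subgroups
-/

set_option autoImplicit false
set_option linter.unusedSectionVars false

open scoped Classical

noncomputable section

namespace Pool.Agent.P8H58

open Pool.Agent.Y63.NV Representation
open Pool.Agent.Y63.AWC (IsIrreducibleCharacter mult mult_spec cj cj_irr mult_cj clifford res res_eq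
  cj_one cj_mul)
open Pool.Agent.Helper884.IC (B Irr mem_Irr IsClass IsIrrChar B_comm)
open scoped MonoidAlgebra

section gen

variable {X : Type} [Group X] [Fintype X] {M : Subgroup X}

theorem mult_of_lies {A : Md ℂ X} {C : Md ℂ M} (h : Lies M A C) : mult M A.tr C.tr ≠ 0 := by
  obtain ⟨f, hf, hf2⟩ := h
  have h1 := mult_spec M A.isIrr C.isIrr
  intro h0
  rw [h0, Nat.cast_zero, B_comm] at h1
  haveI : Invertible (Nat.card M : ℂ) :=
    invertibleOfNonzero Pool.Agent.Helper884.IC.cardG_ne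
  have h2 := card_inv_mul_sum_char_mul_char_eq_finrank (A.rs M) C.ρ
  have h3 : (Module.finrank ℂ (IntertwiningMap (A.rs M) C.ρ) : ℂ) = 0 := by
    rw [← h2]
    exact h1
  have h4 : Module.finrank ℂ (IntertwiningMap (A.rs M) C.ρ) = 0 := by exact_mod_cast h3
  let g : IntertwiningMap (A.rs M) C.ρ := ⟨f, fun n => by
    ext v
    exact hf2 n v⟩
  have h5 : Subsingleton (IntertwiningMap (A.rs M) C.ρ) := Module.finrank_zero_iff.1 h4
  have h6 : g = 0 := Subsingleton.elim _ _
  apply hf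
  have h7 := congrArg IntertwiningMap.toLinearMap h6
  exact h7

variable [M.Normal]

theorem conj_of_mult {χ : X → ℂ} {ψ θ : M → ℂ} (hχ : IsIrrChar χ) (hψ : IsIrrChar ψ)
    (hθ : IsIrrChar θ) (h : mult M χ ψ ≠ 0) (h' : mult M χ θ ≠ 0) : ∃ x : X, cj M x ψ = θ := by
  have h1 := clifford M θ ψ hθ hψ
  have h2 : Nat.card {x : X // cj M x ψ = θ} ≠ 0 := by
    rw [← h1]
    refine Nat.mul_ne_zero Nat.card_pos.ne' ?_
    intro h0
    exact Nat.mul_ne_zero h' h ((Finset.sum_eq_zero_iff_of_nonneg fun _ _ => Nat.zero_le _).1 h0 χ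
      (mem_Irr.2 hχ))
  obtain ⟨⟨x, hx⟩⟩ := (Nat.card_pos_iff.1 (Nat.pos_of_ne_zero h2)).1
  exact ⟨x, hx⟩

theorem sum_cj (f : X → ℂ) (hf : ∀ g x : X, f (g * x * g⁻¹) = f x) (g : X) (ψ : M → ℂ) :
    ∑ n : M, f n * cj M g ψ n = ∑ n : M, f n * ψ n := by
  refine Fintype.sum_equiv (MulAut.conjNormal g : MulAut M).toEquiv _ _ fun n => ?_
  show f n * ψ (MulAut.conjNormal g n) = f ((MulAut.conjNormal g n : M) : X) * _
  rw [MulAut.conjNormal_apply, hf]
  rfl

/-- the number of the constituents -/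
def tt (M : Subgroup X) (χ : X → ℂ) : ℕ := ∑ θ ∈ Irr M, mult M χ θ

theorem sum_res {χ : X → ℂ} {ψ : M → ℂ} (hχ : IsIrrChar χ) (hψ : IsIrrChar ψ)
    (h : mult M χ ψ ≠ 0) (f : X → ℂ) (hf : ∀ g x : X, f (g * x * g⁻¹) = f x) :
    ∑ n : M, f n * χ n = tt M χ * ∑ n : M, f n * ψ n := by
  have h1 : ∀ n : M, χ n = ∑ θ ∈ Irr M, (mult M χ θ : ℂ) * θ n := by
    intro n
    have h2 := congrFun (res_eq M hχ) n
    rw [Finset.sum_apply] at h2
    exact h2
  rw [Finset.sum_congr rfl fun n _ => by rw [h1 n, Finset.mul_sum], Finset.sum_comm, tt,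
    Nat.cast_sum, Finset.sum_mul]
  refine Finset.sum_congr rfl fun θ hθ => ?_
  by_cases h3 : mult M χ θ = 0
  · rw [h3, Nat.cast_zero, zero_mul]
    exact Finset.sum_eq_zero fun n _ => by rw [zero_mul, mul_zero]
  · obtain ⟨x, rfl⟩ := conj_of_mult hχ hψ (mem_Irr.1 hθ) h h3
    rw [← sum_cj f hf x ψ, Finset.mul_sum]
    exact Finset.sum_congr rfl fun n _ => by ring

theorem deg_eq {χ : X → ℂ} {ψ : M → ℂ} (hχ : IsIrrChar χ) (hψ : IsIrrChar ψ)
    (h : mult M χ ψ ≠ 0) : χ 1 = tt M χ * ψ 1 := by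
  have h1 := sum_res hχ hψ h (fun x => if x = 1 then 1 else 0) (fun g x => by
    by_cases hx : x = 1
    · rw [hx, mul_one, mul_inv_cancel]
    · rw [if_neg hx, if_neg]
      intro h2
      apply hx
      have := congrArg (fun y => g⁻¹ * y * g) h2
      simpa [mul_assoc] using this)
  have h2 : ∀ θ : M → ℂ, ∑ n : M, (if (n : X) = 1 then (1 : ℂ) else 0) * θ n = θ 1 := by
    intro θ
    rw [Finset.sum_eq_single 1]
    · simp
    · intro n _ hn
      rw [if_neg, zero_mul]
      intro h3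
      exact hn (Subtype.ext h3)
    · intro h3
      exact absurd (Finset.mem_univ _) h3
  rw [h2 ψ] at h1
  rw [← h1]
  exact (h2 fun n => χ n).symm

/-- the order of the stabilizer -/
def stb (M : Subgroup X) [M.Normal] (ψ : M → ℂ) : ℕ := Nat.card {x : X // cj M x ψ = ψ}

theorem tt_stb {χ : X → ℂ} {ψ : M → ℂ} (hχ : IsIrrChar χ) (hψ : IsIrrChar ψ)
    (h : mult M χ ψ ≠ 0) : tt M χ * stb M ψ = mult M χ ψ * Nat.card X := by
  have h1 : Nat.card X = ∑ θ ∈ Irr M, Nat.card {x : X // cj M x ψ = θ} := by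
    rw [Nat.card_eq_fintype_card, ← Finset.card_univ,
      Finset.card_eq_sum_card_fiberwise (f := fun m : X => cj M m ψ) (t := Irr M)
        (fun m _ => mem_Irr.2 (cj_irr M m hψ))]
    refine Finset.sum_congr rfl fun φ _ => ?_
    rw [Nat.card_eq_fintype_card, Fintype.card_subtype]
  rw [h1, tt, Finset.sum_mul, Finset.mul_sum]
  refine Finset.sum_congr rfl fun θ hθ => ?_
  by_cases h3 : mult M χ θ = 0
  · have h4 : Nat.card {x : X // cj M x ψ = θ} = 0 := by
      have : IsEmpty {x : X // cj M x ψ = θ} := ⟨fun x => by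
        apply h
        rw [← mult_cj M hχ hψ x.1, x.2, h3]⟩
      exact Nat.card_of_isEmpty
    rw [h3, h4, zero_mul, mul_zero]
  · obtain ⟨x, rfl⟩ := conj_of_mult hχ hψ (mem_Irr.1 hθ) h h3
    rw [mult_cj M hχ hψ x]
    congr 1
    unfold stb
    refine Nat.card_congr ((Equiv.mulRight x).subtypeEquiv fun y => ?_)
    change cj M y ψ = ψ ↔ cj M (y * x) ψ = cj M x ψ
    rw [cj_mul]
    constructor
    · intro h5
      rw [h5]
    · intro h5
      have h6 := congrArg (cj M x⁻¹) h5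
      have h7 : ∀ θ : M → ℂ, cj M x⁻¹ (cj M x θ) = θ := fun θ => by
        rw [← cj_mul, mul_inv_cancel, cj_one]
      rwa [h7, h7] at h6

theorem stb_pos (ψ : M → ℂ) : 0 < stb M ψ := by
  unfold stb
  have : Nonempty {x : X // cj M x ψ = ψ} := ⟨⟨1, cj_one M ψ⟩⟩
  exact Nat.card_pos

end gen

section wt

theorem tr_zero {F : Type} [Field F] [IsAlgClosed F] {G : Type} [Group G] [Finite G] (A : Md F G)
    (T : A.V →ₗ[F] A.V) (h : ∀ x : G, LinearMap.trace F A.V (T * A.ρ x) = 0) : T = 0 := by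
  haveI := Fintype.ofFinite G
  have := A.irr
  have h1 : ∀ P : A.V →ₗ[F] A.V, LinearMap.trace F A.V (T * P) = 0 := by
    intro P
    obtain ⟨a, ha⟩ := Pool.Agent.Y914.NV.burn (F := F) (A := F[G]) (V := A.ρ.asModule)
      ((A.ρ.asModuleEquiv.symm : A.V →ₗ[F] A.ρ.asModule) ∘ₗ P ∘ₗ
        (A.ρ.asModuleEquiv : A.ρ.asModule →ₗ[F] A.V))
    have h2 : A.ρ.asAlgebraHom a = P := by
      ext w
      rw [Pool.Agent.Y914.NV.act, ha]
      simp
    obtain ⟨b, rfl⟩ := Pool.Agent.Y914.NV.expand a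
    rw [← h2, map_sum, Finset.mul_sum, map_sum]
    refine Finset.sum_eq_zero fun g _ => ?_
    rw [asAlgebraHom_single, mul_smul_comm, map_smul, h g, smul_zero]
  ext v
  rw [LinearMap.zero_apply, ← Module.forall_dual_apply_eq_zero_iff F]
  intro g
  have h2 := h1 (g.smulRight v)
  have h3 : T * (g.smulRight v) = g.smulRight (T v) := by
    ext w
    simp [Module.End.mul_apply]
  rw [h3, LinearMap.trace_smulRight] at h2
  exact h2

theorem infl_iff {F : Type} [Field F] [IsAlgClosed F] {G : Type} [Group G] [Finite G] (A : Md F G)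
    (q : G) : (∀ x : G, A.tr (q * x) = A.tr x) ↔ A.ρ q = 1 := by
  constructor
  · intro h
    have h1 : A.ρ q - 1 = 0 := by
      refine tr_zero A _ fun x => ?_
      rw [sub_mul, one_mul, map_sub, ← map_mul, sub_eq_zero]
      exact h x
    exact sub_eq_zero.1 h1
  · intro h x
    change LinearMap.trace F A.V (A.ρ (q * x)) = LinearMap.trace F A.V (A.ρ x)
    rw [map_mul, h, one_mul]

variable {F : Type} [Field F]

/-- kernels of modules above and below -/
theorem ker_lies {X : Type} [Group X] {M : Subgroup X} {A : Md F X} {C : Md F M} (h : Lies M A C)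
    {Q : Subgroup X} [Q.Normal] (hQ : Q ≤ M) :
    (∀ q ∈ Q, A.ρ q = 1) ↔ ∀ q ∈ Q.subgroupOf M, C.ρ q = 1 := by
  obtain ⟨f, hf, hf2⟩ := h
  constructor
  · intro h1 q hq
    ext u
    obtain ⟨v, rfl⟩ := Md.surj hf hf2 u
    rw [← hf2, h1 q hq, Module.End.one_apply, Module.End.one_apply]
  · intro h1 q hq
    let T : Submodule F A.V := Submodule.span F {w | ∃ q ∈ Q, ∃ v, w = A.ρ q v - v}
    have hT : ∀ g : X, ∀ v ∈ T, A.ρ g v ∈ T := by
      intro g v hv
      induction hv using Submodule.span_induction with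
      | mem w hw =>
        obtain ⟨q, hq, v, rfl⟩ := hw
        refine Submodule.subset_span ⟨g * q * g⁻¹, Subgroup.Normal.conj_mem inferInstance q hq g,
          A.ρ g v, ?_⟩
        rw [map_sub, ← Module.End.mul_apply, ← Module.End.mul_apply, ← map_mul, ← map_mul,
          inv_mul_cancel_right]
      | zero => rw [map_zero]; exact zero_mem T
      | add a b _ _ ha hb => rw [map_add]; exact add_mem ha hb
      | smul c a _ ha => rw [map_smul]; exact T.smul_mem c ha
    have hfT : ∀ v ∈ T, f v = 0 := by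
      intro v hv
      induction hv using Submodule.span_induction with
      | mem w hw =>
        obtain ⟨q, hq, v, rfl⟩ := hw
        have h2 := hf2 ⟨q, hQ hq⟩ v
        rw [h1 ⟨q, hQ hq⟩ hq, Module.End.one_apply] at h2
        rw [map_sub, sub_eq_zero]
        exact h2
      | zero => rw [map_zero]
      | add a b _ _ ha hb => rw [map_add, ha, hb, add_zero]
      | smul c a _ ha => rw [map_smul, ha, smul_zero]
    rcases A.sub T hT with h2 | h2
    · ext v
      have h3 : A.ρ q v - v ∈ T := Submodule.subset_span ⟨q, hq, v, rfl⟩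
      rw [h2, Submodule.mem_bot, sub_eq_zero] at h3
      rw [h3, Module.End.one_apply]
    · exfalso
      apply hf
      ext v
      rw [LinearMap.zero_apply]
      exact hfT v (by rw [h2]; trivial)

variable (p : ℕ) (red : integralClosure ℤ ℂ →+* F)

/-- the number of weights for the normal subgroup `Q` on which `f` does not act as zero -/
def nw {J : Type} [Group J] (Q : Subgroup J) (f : J → F) : ℕ :=
  Nat.card {χ : J → ℂ // IsWt p Q χ ∧ centralValue red χ f ≠ 0}

/-- the relevant characters of `M` are not ramified and have small stabilizers -/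
def Nice {X : Type} [Group X] [Fintype X] (M : Subgroup X) [M.Normal] (z : X → F) : Prop :=
  ∀ (χ : X → ℂ) (ψ : M → ℂ), IsIrrChar χ → IsIrrChar ψ → mult M χ ψ ≠ 0 →
    centralValue red ψ (fun m : M => z m) ≠ 0 →
      mult M χ ψ = 1 ∧ (stb M ψ).factorization p = (Nat.card M).factorization p

variable {p red} {X : Type} [Group X] [Fintype X] {M : Subgroup X} [M.Normal]

theorem cv_lies {z : X → F} (hz : InZ M z) {A : Md ℂ X} {C : Md ℂ M} (h : Lies M A C) :
    centralValue red A.tr z = centralValue red C.tr (fun m : M => z m) :=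
  Pool.Agent.N565.DI.CL3 F red X M z hz.conj hz.supp A.tr C.tr A.isIrr C.isIrr (tt M A.tr)
    (deg_eq A.isIrr C.isIrr (mult_of_lies h))
    (fun f hf => sum_res A.isIrr C.isIrr (mult_of_lies h) f hf)

theorem Md.tr_one {G : Type} [Group G] (A : Md ℂ G) : A.tr 1 = (Module.finrank ℂ A.V : ℂ) := by
  change LinearMap.trace ℂ A.V (A.ρ 1) = _
  rw [map_one, LinearMap.trace_one]

theorem wt_lies (hp : p.Prime) {z : X → F} (hN : Nice p red M z) {A : Md ℂ X} {C : Md ℂ M}
    (h : Lies M A C) (hcv : centralValue red C.tr (fun m : M => z m) ≠ 0) {Q : Subgroup X}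
    [Q.Normal] (hQ : Q ≤ M) : IsWt p Q A.tr ↔ IsWt p (Q.subgroupOf M) C.tr := by
  have hm := mult_of_lies h
  obtain ⟨h1, h2⟩ := hN A.tr C.tr A.isIrr C.isIrr hm hcv
  have h3 := tt_stb A.isIrr C.isIrr hm
  rw [h1, one_mul] at h3
  have h4 := deg_eq A.isIrr C.isIrr hm
  rw [Md.tr_one, Md.tr_one] at h4
  have h5 : Module.finrank ℂ A.V = tt M A.tr * Module.finrank ℂ C.V := by exact_mod_cast h4
  have htt : tt M A.tr ≠ 0 := by
    intro h0
    rw [h0, zero_mul] at h5
    exact A.pos.ne' h5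
  have h6 : (tt M A.tr).factorization p + (Nat.card M).factorization p =
      (Nat.card X).factorization p := by
    rw [← h3, Nat.factorization_mul htt (stb_pos C.tr).ne', Finsupp.add_apply, h2]
  have h7 : (Module.finrank ℂ A.V).factorization p =
      (tt M A.tr).factorization p + (Module.finrank ℂ C.V).factorization p := by
    rw [h5, Nat.factorization_mul htt C.pos.ne', Finsupp.add_apply]
  have h8 : Nat.card (Q.subgroupOf M) = Nat.card Q :=
    Nat.card_congr (Subgroup.subgroupOfEquivOfLe hQ).toEquiv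
  have hk := ker_lies h hQ
  have hi : (∀ q ∈ Q, ∀ x : X, A.tr (q * x) = A.tr x) ↔
      ∀ q ∈ Q.subgroupOf M, ∀ x : M, C.tr (q * x) = C.tr x := by
    constructor
    · intro h9 q hq
      rw [infl_iff C q]
      exact hk.1 (fun q hq => (infl_iff A q).1 (h9 q hq)) q hq
    · intro h9 q hq
      rw [infl_iff A q]
      exact hk.2 (fun q hq => (infl_iff C q).1 (h9 q hq)) q hq
  constructor
  · intro hw
    obtain ⟨n, hn1, hn2⟩ := hw.defectZero
    refine ⟨C.isIrr, hi.1 hw.inflated, Module.finrank ℂ C.V, Md.tr_one C, ?_⟩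
    have h9 : n = Module.finrank ℂ A.V := by
      rw [Md.tr_one] at hn1
      exact_mod_cast hn1.symm
    rw [h9] at hn2
    rw [h8]
    omega
  · intro hw
    obtain ⟨n, hn1, hn2⟩ := hw.defectZero
    refine ⟨A.isIrr, hi.2 hw.inflated, Module.finrank ℂ A.V, Md.tr_one A, ?_⟩
    have h9 : n = Module.finrank ℂ C.V := by
      rw [Md.tr_one] at hn1
      exact_mod_cast hn1.symm
    rw [h9, h8] at hn2
    omega

theorem fin_nw {J : Type} [Group J] [Finite J] (Q : Subgroup J) (f : J → F) :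
    {χ : J → ℂ | IsWt p Q χ ∧ centralValue red χ f ≠ 0}.Finite :=
  ((Pool.Agent.Y914.NV.irr ℂ J).1).subset fun _ h => h.1.irr

/-- the finset -/
def nws (p : ℕ) (red : integralClosure ℤ ℂ →+* F) {J : Type} [Group J] [Finite J]
    (Q : Subgroup J) (f : J → F) : Finset (J → ℂ) := (fin_nw (p := p) (red := red) Q f).toFinset

theorem mem_nws {J : Type} [Group J] [Finite J] {Q : Subgroup J} {f : J → F} {χ : J → ℂ} :
    χ ∈ nws p red Q f ↔ IsWt p Q χ ∧ centralValue red χ f ≠ 0 := by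
  unfold nws
  rw [Set.Finite.mem_toFinset, Set.mem_setOf_eq]

theorem nw_eq {J : Type} [Group J] [Finite J] (Q : Subgroup J) (f : J → F) :
    nw p red Q f = (nws p red Q f).card := by
  unfold nw nws
  rw [← Nat.card_eq_card_finite_toFinset]
  rfl

theorem nw_le_above (hp : p.Prime) {z : X → F} (hz : InZ M z) (hN : Nice p red M z)
    {Q : Subgroup X} [Q.Normal] (hQ : Q ≤ M) :
    nw p red (Q.subgroupOf M) (fun m : M => z m) ≤ M.index * nw p red Q z := by
  have h1 : ∀ ψ ∈ nws p red (Q.subgroupOf M) (fun m : M => z m), ∃ φ ∈ nws p red Q z,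
      ∃ A : Md ℂ X, ∃ C : Md ℂ M, A.tr = φ ∧ C.tr = ψ ∧ Lies M A C := by
    intro ψ hψ
    rw [mem_nws] at hψ
    obtain ⟨C, hC⟩ := exists_md (F := ℂ) hψ.1.irr
    obtain ⟨A, hA⟩ := exists_above C
    have hcv : centralValue red C.tr (fun m : M => z m) ≠ 0 := by
      rw [hC]
      exact hψ.2
    refine ⟨A.tr, ?_, A, C, rfl, hC, hA⟩
    rw [mem_nws]
    refine ⟨(wt_lies hp hN hA hcv hQ).2 (by rw [hC]; exact hψ.1), ?_⟩
    rw [cv_lies hz hA]
    exact hcv
  choose! g hg hg2 using h1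
  rw [nw_eq, nw_eq]
  refine Finset.card_le_mul_card_image_of_maps_to (f := g) hg M.index fun φ hφ => ?_
  rw [mem_nws] at hφ
  obtain ⟨A, hA⟩ := exists_md (F := ℂ) hφ.1.irr
  refine card_below A _ fun ψ hψ => ?_
  rw [Finset.mem_filter] at hψ
  obtain ⟨A', B, hA', hB, hL⟩ := hg2 ψ hψ.1
  exact ⟨B, hB, lies_congr (hA'.trans (hψ.2.trans hA.symm)) rfl hL⟩

theorem nw_le_below (hp : p.Prime) {z : X → F} (hz : InZ M z) (hN : Nice p red M z)
    {Q : Subgroup X} [Q.Normal] (hQ : Q ≤ M) :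
    nw p red Q z ≤ M.index * nw p red (Q.subgroupOf M) (fun m : M => z m) := by
  have h1 : ∀ φ ∈ nws p red Q z, ∃ ψ ∈ nws p red (Q.subgroupOf M) (fun m : M => z m),
      ∃ A : Md ℂ X, ∃ C : Md ℂ M, A.tr = φ ∧ C.tr = ψ ∧ Lies M A C := by
    intro φ hφ
    rw [mem_nws] at hφ
    obtain ⟨A, hA⟩ := exists_md (F := ℂ) hφ.1.irr
    obtain ⟨C, hC⟩ := exists_below (N := M) A
    have hcv : centralValue red C.tr (fun m : M => z m) ≠ 0 := by
      rw [← cv_lies hz hC, hA]
      exact hφ.2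
    refine ⟨C.tr, ?_, A, C, hA, rfl, hC⟩
    rw [mem_nws]
    exact ⟨(wt_lies hp hN hC hcv hQ).1 (by rw [hA]; exact hφ.1), hcv⟩
  choose! g hg hg2 using h1
  rw [nw_eq, nw_eq]
  refine Finset.card_le_mul_card_image_of_maps_to (f := g) hg M.index fun ψ hψ => ?_
  rw [mem_nws] at hψ
  obtain ⟨C, hC⟩ := exists_md (F := ℂ) hψ.1.irr
  refine card_above C _ fun φ hφ => ?_
  rw [Finset.mem_filter] at hφ
  obtain ⟨A, C', hA, hC', hL⟩ := hg2 φ hφ.1
  exact ⟨A, hA, lies_congr rfl (hC'.trans (hφ.2.trans hC.symm)) hL⟩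

end wt

end Pool.Agent.P8H58
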