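import Pool.Agent.P8H58.Grp2
import Pool.Agent.Y63.NV.Main

/-!
# Classes of groups closed under extensions
-/

set_option autoImplicit false
set_option linter.unusedSectionVars false

open scoped Classical

noncomputable section

namespace Pool.Agent.P8H58

open Pool.Agent.Y63.NV (Closed)

/-- a class of groups closed under isomorphisms, subgroups, quotients by normal `p`-subgroups and
extensions -/
structure Cls (p : ℕ) (X : ∀ (G : Type) [Group G], Prop) : Prop where
  closed : Closed p X
  ext : ∀ (G : Type) [Group G] (N : Subgroup G) [N.Normal], X N → X (G ⧸ N) → X G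

variable {p : ℕ} {X : ∀ (G : Type) [Group G], Prop}

theorem Cls.of_hom (hX : Cls p X) {A B : Type} [Group A] [Group B] (f : A →* B)
    (hf : Function.Surjective f) (hB : X B) (hk : X f.ker) : X A :=
  hX.ext A f.ker hk (hX.closed.iso _ _ hB ⟨(QuotientGroup.quotientKerEquivOfSurjective f hf).symm⟩)

theorem Cls.emb (hX : Cls p X) {A B : Type} [Group A] [Group B] (f : A →* B)
    (hf : Function.Injective f) (hB : X B) : X A :=
  hX.closed.iso _ _ (hX.closed.sub B hB f.range) ⟨(MonoidHom.ofInjective hf).symm⟩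

theorem Cls.prod (hX : Cls p X) {A B : Type} [Group A] [Group B] (hA : X A) (hB : X B) :
    X (A × B) := by
  refine hX.of_hom (MonoidHom.snd A B) (fun b => ⟨(1, b), rfl⟩) hB ?_
  refine hX.emb ((MonoidHom.fst A B).comp (MonoidHom.snd A B).ker.subtype) ?_ hA
  rintro ⟨⟨a, b⟩, hb⟩ ⟨⟨a', b'⟩, hb'⟩ h
  have h1 : b = 1 := hb
  have h2 : b' = 1 := hb'
  subst h1 h2
  have h3 : a = a' := h
  subst h3
  rfl

theorem Cls.fin (hX : Cls p X) {A : Type} [Group A] (hA : X A) : ∀ n : ℕ, X (Fin n → A)
  | 0 => hX.emb (1 : (Fin 0 → A) →* A) (fun _ _ _ => Subsingleton.elim _ _) hA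
  | n + 1 => by
    refine hX.emb (B := A × (Fin n → A))
      { toFun := fun f => (f 0, fun i => f i.succ)
        map_one' := rfl
        map_mul' := fun _ _ => rfl } ?_ (hX.prod hA (hX.fin hA n))
    intro f g h
    have h1 : f 0 = g 0 := congrArg Prod.fst h
    have h2 : (fun i : Fin n => f i.succ) = fun i => g i.succ := congrArg Prod.snd h
    funext i
    refine Fin.cases h1 (fun j => ?_) i
    exact congrFun h2 j

theorem Cls.pi (hX : Cls p X) {A : Type} [Group A] (hA : X A) (ι : Type) [Finite ι] :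
    X (ι → A) := by
  obtain ⟨n, ⟨e⟩⟩ := Finite.exists_equiv_fin ι
  refine hX.emb (B := Fin n → A)
    { toFun := fun f i => f (e.symm i)
      map_one' := rfl
      map_mul' := fun _ _ => rfl } ?_ (hX.fin hA n)
  intro f g h
  funext i
  have h1 : f (e.symm (e i)) = g (e.symm (e i)) := congrFun h (e i)
  rwa [e.symm_apply_apply] at h1

theorem Cls.W (hX : Cls p X) {H G Y : Type} [Group H] [Fintype H] [Group G] [CommGroup Y]
    (hH : X H) (hG : X G) (hY : X Y) : X (W H G Y) := by
  refine hX.of_hom (SemidirectProduct.rightHom : P8H58.W H G Y →* H)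
    SemidirectProduct.rightHom_surjective hH ?_
  have h1 : X ((H → G) × V H Y) :=
    hX.prod (hX.pi hG H) (hX.closed.sub _ (hX.pi hY H) _)
  refine hX.emb (B := (H → G) × V H Y)
    { toFun := fun x => x.1.left
      map_one' := rfl
      map_mul' := fun x y => ?_ } ?_ h1
  · have h2 : x.1.right = 1 := x.2
    change (x.1 * y.1).left = _
    rw [SemidirectProduct.mul_left, h2, map_one]
    rfl
  · intro x y hxy
    have h2 : x.1.right = 1 := x.2
    have h3 : y.1.right = 1 := y.2
    exact Subtype.ext (SemidirectProduct.ext hxy (h2.trans h3.symm))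

theorem Cls.Gam (hX : Cls p X) {H G Y : Type} [Group H] [Fintype H] [Group G] [CommGroup Y]
    (hH : X H) (hG : X G) (hY : X Y) : X (Gam H G Y) :=
  hX.closed.sub _ (hX.W hH hG hY) _

/-- every nontrivial quotient contains a copy of `S` -/
def Top (S : Type) [Group S] (Γ : Type) [Group Γ] : Prop :=
  ∀ (M : Subgroup Γ) [M.Normal], M ≠ ⊤ → ∃ f : S →* Γ ⧸ M, Function.Injective f

/-- homomorphisms from a power of a simple group -/
theorem pow_triv {S : Type} [Group S] [IsSimpleGroup S] {k : ℕ} {Q : Type} [Group Q]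
    (h : ¬ ∃ f : S →* Q, Function.Injective f) (f : (Fin k → S) →* Q) (s : Fin k → S) :
    f s = 1 := by
  have key : ∀ g : S →* Q, ∀ s, g s = 1 := by
    intro g s
    rcases (inferInstance : g.ker.Normal).eq_bot_or_eq_top with h1 | h1
    · exact absurd ⟨g, (MonoidHom.ker_eq_bot_iff g).1 h1⟩ h
    · have h2 : s ∈ g.ker := by rw [h1]; trivial
      exact h2
  have h1 : s ∈ f.ker := by
    refine Subgroup.pi_mem_of_mulSingle_mem s fun i => ?_
    have h2 := key (f.comp (MonoidHom.mulSingle (fun _ : Fin k => S) i)) (s i)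
    exact h2
  exact h1

theorem top_Gam {S : Type} [Group S] [IsSimpleGroup S] [Fintype S] {k : ℕ} {G Y : Type} [Group G]
    [CommGroup Y] {x y : Fin k → S} (hx : x ≠ 1) (hy : y ≠ 1) (hxy : x ≠ y) :
    Top S (Gam (Fin k → S) G Y) := by
  intro M _ hM
  by_contra h
  refine hM (eq_top_iff.2 fun g _ => ?_)
  have h1 := pi_trivial (QuotientGroup.mk' M) (fun f s => pow_triv h f s) hx hy hxy g
  exact (QuotientGroup.eq_one_iff g).1 h1

end Pool.Agent.P8H58
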