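import Pool.Agent.N85.WM.Cov
import Pool.Agent.N85.WM.Ww

/-!
# The weights `Q` of `Γ` with `NQ = Γ` and the invariant classes of weights of `N`, for quotients
`Γ/N` which are `p`-groups
-/

set_option autoImplicit false

open scoped Classical

noncomputable section

namespace Pool.Agent.P8H58

open Pool.Agent.N85.WM
open Pool.Agent.N85.WM.Cov
open Pool.Agent.Y63.NV
open Pool.Agent.Y210.NV3 (nw_comap card_comap)
open Pool.Agent.Y487.NV (fib comap_eq_range nw_gen card_gen wl wsum_eq)

attribute [local instance] Pool.Agent.Y487.NV.fsubL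

/-- the conjugation by `g` fixes the pair `(Q, χ)` of the normal subgroup `N` -/
def Fx {Γ : Type} [Group Γ] (N : Subgroup Γ) (Q : Subgroup N) (χ : N → ℂ) (g : Γ) : Prop :=
  (∀ x y : N, (y : Γ) = g * x * g⁻¹ → (x ∈ Q ↔ y ∈ Q)) ∧
    ∀ x y : N, (y : Γ) = g * x * g⁻¹ → χ x = χ y

/-- the conjugation by `g` fixes the `N`-class of the pair `(Q, χ)` of the normal subgroup `N` -/
def FxC {Γ : Type} [Group Γ] (N : Subgroup Γ) (Q : Subgroup N) (χ : N → ℂ) (g : Γ) : Prop :=
  ∃ n ∈ N, Fx N Q χ (n * g)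

section fixed

variable {Γ : Type} [Group Γ] [Finite Γ] {p : ℕ}

theorem fixed_iff' (G : Subgroup Γ) [G.Normal]
    (Q₁ : Subgroup G) (N : Subgroup Γ)
    (hNdef : N = Subgroup.normalizer ((Q₁.map G.subtype : Subgroup Γ) : Set Γ))
    (hN : G ⊔ N = ⊤)
    (hA0 : ∀ x : G, x ∈ Subgroup.normalizer (Q₁ : Set G) ↔ (x : Γ) ∈ N)
    (χ : G → ℂ) (h0 : ∀ x : G, x ∉ Subgroup.normalizer (Q₁ : Set G) → χ x = 0)
    (hcl : ∀ a x : Subgroup.normalizer (Q₁ : Set G), χ ((a * x * a⁻¹ : Subgroup.normalizer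
      (Q₁ : Set G)) : G) = χ x) :
    (∀ g, FxC G Q₁ χ g) ↔ ∀ n ∈ N, ∀ a b : Subgroup.normalizer (Q₁ : Set G),
      ((b : G) : Γ) = n * ((a : G) : Γ) * n⁻¹ → χ b = χ a := by
  have hconj : ∀ n ∈ N, ∀ x y : G, (y : Γ) = n * x * n⁻¹ →
      (x ∈ Subgroup.normalizer (Q₁ : Set G) ↔ y ∈ Subgroup.normalizer (Q₁ : Set G)) := by
    intro n hn x y hxy
    rw [hA0, hA0, hxy]
    constructor
    · intro h
      exact N.mul_mem (N.mul_mem hn h) (N.inv_mem hn)
    · intro h
      have h1 := N.mul_mem (N.mul_mem (N.inv_mem hn) h) hn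
      have h2 : n⁻¹ * (n * (x : Γ) * n⁻¹) * n = x := by group
      rwa [h2] at h1
  constructor
  · intro h n hn a b hab
    obtain ⟨g, hg, hgQ, hgχ⟩ := h n
    have hgnN : g * n ∈ N := by
      rw [hNdef]
      exact mem_norm_of G Q₁ (g * n) hgQ
    have hgN : g ∈ N := by
      have h1 := N.mul_mem hgnN (N.inv_mem hn)
      rwa [mul_inv_cancel_right] at h1
    have hg1 : (⟨g, hg⟩ : G) ∈ Subgroup.normalizer (Q₁ : Set G) := (hA0 _).2 hgN
    have h1 := hgχ a ((⟨⟨g, hg⟩, hg1⟩ * b * (⟨⟨g, hg⟩, hg1⟩)⁻¹ :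
      Subgroup.normalizer (Q₁ : Set G)) : G) (by
      change g * ((b : G) : Γ) * g⁻¹ = g * n * ((a : G) : Γ) * (g * n)⁻¹
      rw [hab]
      group)
    rw [h1, hcl]
  · intro h g
    have h1 : g ∈ ((G ⊔ N : Subgroup Γ) : Set Γ) := by
      rw [hN]; exact Subgroup.mem_top _
    rw [Subgroup.normal_mul, Set.mem_mul] at h1
    obtain ⟨g', hg', n, hn, rfl⟩ := h1
    refine ⟨g'⁻¹, G.inv_mem hg', ?_⟩
    rw [inv_mul_cancel_left]
    refine ⟨?_, ?_⟩
    · intro x y hxy
      have h1 : n ∈ Subgroup.normalizer ((Q₁.map G.subtype : Subgroup Γ) : Set Γ) := by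
        rw [← hNdef]
        exact hn
      rw [Subgroup.mem_normalizer_iff] at h1
      have h2 := h1 x
      have h3 : ∀ u : G, (u : Γ) ∈ Q₁.map G.subtype ↔ u ∈ Q₁ := by
        intro u
        constructor
        · rintro ⟨v, hv, hvu⟩
          have h4 : v = u := Subtype.ext hvu
          rwa [← h4]
        · intro hu
          exact ⟨u, hu, rfl⟩
      rw [← hxy] at h2
      rwa [h3, h3] at h2
    · intro x y hxy
      by_cases hx : x ∈ Subgroup.normalizer (Q₁ : Set G)
      · exact (h n hn ⟨x, hx⟩ ⟨y, (hconj n hn x y hxy).1 hx⟩ hxy).symm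
      · rw [h0 x hx, h0 y fun h => hx ((hconj n hn x y hxy).2 h)]

end fixed

section main

variable {F Γ : Type} [Field F] [Group Γ] [Finite Γ] {p : ℕ}

/-- the local statement -/
theorem local_cov [Fact p.Prime] [CharP F p] (h1 : S_DGNL)
    (red : integralClosure ℤ ℂ →+* F) (G : Subgroup Γ) [G.Normal] (z : Γ → F) (c : F)
    (hz : InZ G z) (hG : IsPGroup p (Γ ⧸ G)) (Q₁ : Subgroup G) (hQ₁ : IsPGroup p Q₁) :
    (∑ R : Subgroup Γ,
      if IsPGroup p R ∧ G ⊔ R = ⊤ ∧ R.subgroupOf G = Q₁ then wl p red z c R else 0) =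
    Nat.card (Γ ⧸ G) * (Nat.card (Subgroup.normalizer (Q₁ : Set G)) *
      Nat.card {χ : G → ℂ // IsW p Q₁ χ ∧ wcv red Q₁ χ (fun x : G => z x) = c ∧
        ∀ g : Γ, FxC G Q₁ χ g}) := by
  have hp : p.Prime := Fact.out
  obtain ⟨Q, hQ⟩ : ∃ Q : Subgroup Γ, Q = Q₁.map G.subtype := ⟨_, rfl⟩
  have hQG : Q ≤ G := by
    rw [hQ]
    exact Subgroup.map_subtype_le Q₁
  have hQcomap : Q.comap G.subtype = Q₁ := by
    rw [hQ]
    exact Subgroup.comap_map_eq_self_of_injective (Subgroup.subtype_injective G) Q₁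
  have hQp : IsPGroup p Q := by
    rw [hQ]
    exact hQ₁.map _
  have hmemQ : ∀ x : G, (x : Γ) ∈ Q ↔ x ∈ Q₁ := by
    intro x
    rw [← hQcomap]
    rfl
  -- the subgroups `R` with `R ∩ G = Q`
  have hRQ : ∀ R : Subgroup Γ, R.subgroupOf G = Q₁ → ∀ x : Γ, x ∈ Q ↔ x ∈ R ∧ x ∈ G := by
    intro R hR x
    constructor
    · intro hx
      have h3 : (⟨x, hQG hx⟩ : G) ∈ Q₁ := (hmemQ ⟨x, hQG hx⟩).1 hx
      rw [← hR] at h3
      exact ⟨h3, hQG hx⟩
    · rintro ⟨hx, hxG⟩
      have h3 : (⟨x, hxG⟩ : G) ∈ R.subgroupOf G := hx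
      rw [hR] at h3
      exact (hmemQ ⟨x, hxG⟩).2 h3
  have hNR : ∀ R : Subgroup Γ, R.subgroupOf G = Q₁ →
      Subgroup.normalizer (R : Set Γ) ≤ Subgroup.normalizer (Q : Set Γ) := by
    intro R hR x hx
    rw [Subgroup.mem_normalizer_iff] at hx ⊢
    intro h
    rw [hRQ R hR, hRQ R hR]
    refine and_congr (hx h) ⟨fun h3 => (inferInstance : G.Normal).conj_mem h h3 x, fun h3 => ?_⟩
    have h4 := (inferInstance : G.Normal).conj_mem _ h3 x⁻¹
    have h5 : x⁻¹ * (x * h * x⁻¹) * x⁻¹⁻¹ = h := by group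
    rwa [h5] at h4
  have hAG := Subgroup.comap_normalizer_eq_of_le_range (f := G.subtype) (H := Q)
    (by rw [Subgroup.range_subtype]; exact hQG)
  rw [hQcomap] at hAG
  have hA0 : ∀ x : G, x ∈ Subgroup.normalizer (Q₁ : Set G) ↔
      (x : Γ) ∈ Subgroup.normalizer (Q : Set Γ) := by
    intro x
    rw [← hAG]
    rfl
  by_cases hN : ¬ G ⊔ Subgroup.normalizer (Q : Set Γ) = ⊤
  · -- no subgroups `R`
    have h0 : (∑ R : Subgroup Γ,
        if IsPGroup p R ∧ G ⊔ R = ⊤ ∧ R.subgroupOf G = Q₁ then wl p red z c R else 0) = 0 := by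
      refine Finset.sum_eq_zero fun R _ => if_neg ?_
      rintro ⟨-, hR2, hR3⟩
      have h3 : R ≤ Subgroup.normalizer (Q : Set Γ) := Subgroup.le_normalizer.trans (hNR R hR3)
      apply hN
      rw [eq_top_iff, ← hR2]
      exact sup_le_sup_left h3 G
    have h3 : IsEmpty {χ : G → ℂ // IsW p Q₁ χ ∧ wcv red Q₁ χ (fun x : G => z x) = c ∧
        ∀ g : Γ, FxC G Q₁ χ g} := by
      refine ⟨fun χ => ?_⟩
      apply hN
      rw [eq_top_iff]
      intro x _
      obtain ⟨g, hg, hgQ, -⟩ := χ.2.2.2 x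
      have h4 : g * x ∈ Subgroup.normalizer (Q : Set Γ) := by
        rw [hQ]
        exact mem_norm_of G Q₁ (g * x) hgQ
      have h5 := Subgroup.mul_mem_sup (G.inv_mem hg) h4
      rwa [inv_mul_cancel_left] at h5
    have h4 : Nat.card {χ : G → ℂ // IsW p Q₁ χ ∧ wcv red Q₁ χ (fun x : G => z x) = c ∧
        ∀ g : Γ, FxC G Q₁ χ g} = 0 := Nat.card_of_isEmpty
    rw [h0, h4, mul_zero, mul_zero]
  · -- the quotient
    rw [not_not] at hN
    obtain ⟨N, hNdef⟩ : ∃ N : Subgroup Γ, N = Subgroup.normalizer (Q : Set Γ) := ⟨_, rfl⟩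
    rw [← hNdef] at hN hA0
    have hQN : Q ≤ N := by rw [hNdef]; exact Subgroup.le_normalizer
    have hnorm : (Q.subgroupOf N).Normal := by
      subst hNdef
      infer_instance
    obtain ⟨π, hπ⟩ : ∃ π : N →* N ⧸ Q.subgroupOf N, π = QuotientGroup.mk' (Q.subgroupOf N) :=
      ⟨_, rfl⟩
    have hπs : Function.Surjective π := by
      rw [hπ]; exact QuotientGroup.mk'_surjective _
    have hπr : π.range = ⊤ := MonoidHom.range_eq_top.2 hπs
    have hπk : π.ker = Q.subgroupOf N := by
      rw [hπ]; exact QuotientGroup.ker_mk' _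
    have hπ1 : ∀ x : N, π x = 1 ↔ (x : Γ) ∈ Q := by
      intro x
      rw [← MonoidHom.mem_ker, hπk, Subgroup.mem_subgroupOf]
    have hcardQ : Nat.card (Q.subgroupOf N) = Nat.card Q :=
      Nat.card_congr (Subgroup.subgroupOfEquivOfLe hQN).toEquiv
    -- the image of `G ∩ N`
    obtain ⟨X, hX⟩ : ∃ X : Subgroup (N ⧸ Q.subgroupOf N), X = (G.subgroupOf N).map π := ⟨_, rfl⟩
    have hXn : X.Normal := by
      rw [hX]
      exact Subgroup.Normal.map inferInstance π hπs
    have hXm : ∀ x : N, π x ∈ X ↔ (x : Γ) ∈ G := by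
      intro x
      rw [hX]
      constructor
      · rintro ⟨y, hy, hyx⟩
        have h3 : π (y⁻¹ * x) = 1 := by rw [map_mul, map_inv, hyx, inv_mul_cancel]
        have h4 : ((y⁻¹ * x : N) : Γ) ∈ G := hQG ((hπ1 _).1 h3)
        have h5 : (y : Γ) ∈ G := hy
        have h6 := G.mul_mem h5 h4
        have h7 : (y : Γ) * ((y⁻¹ * x : N) : Γ) = x := by
          push_cast
          group
        rwa [h7] at h6
      · intro hx
        exact ⟨x, hx, rfl⟩
    have hXc : X.comap π = G.subgroupOf N := by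
      ext x
      rw [Subgroup.mem_comap, hXm, Subgroup.mem_subgroupOf]
    have hXidx : Nat.card ((N ⧸ Q.subgroupOf N) ⧸ X) = Nat.card (Γ ⧸ G) := by
      have h3 : (X.comap π).index = X.index := Subgroup.index_comap_of_surjective X hπs
      rw [hXc] at h3
      have h4 : G.relIndex N = G.index := by
        rw [← Subgroup.relIndex_sup_right, sup_comm, hN, Subgroup.relIndex_top_right]
      exact h3.symm.trans h4
    have hXp : IsPGroup p ((N ⧸ Q.subgroupOf N) ⧸ X) := by
      obtain ⟨k, hk⟩ := IsPGroup.iff_card.1 hG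
      exact IsPGroup.of_card (n := k) (by rw [hXidx, hk])
    have hcardN : Nat.card N = Nat.card Q * Nat.card (N ⧸ Q.subgroupOf N) := by
      rw [Subgroup.card_eq_card_quotient_mul_card_subgroup (Q.subgroupOf N), hcardQ, mul_comm]
    have hcardY : Nat.card (N ⧸ Q.subgroupOf N) = Nat.card (Γ ⧸ G) * Nat.card X := by
      rw [Subgroup.card_eq_card_quotient_mul_card_subgroup X, hXidx]
    -- the label function
    obtain ⟨zY, hzY⟩ : ∃ zY : N ⧸ Q.subgroupOf N → F, zY = fib π (fun x : N => z x) := ⟨_, rfl⟩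
    have hInZ : InZ X zY := by
      constructor
      · intro g x
        obtain ⟨g', rfl⟩ := hπs g
        rw [hzY]
        unfold fib
        rw [← finsum_comp_equiv (MulAut.conj g').toEquiv]
        refine finsum_congr fun n => ?_
        have h3 : (MulAut.conj g').toEquiv n = g' * n * g'⁻¹ := rfl
        rw [h3, map_mul, map_mul, map_inv]
        have h4 : (fun x : N => z (x : Γ)) (g' * n * g'⁻¹) = (fun x : N => z (x : Γ)) n :=
          hz.conj g' n
        rw [h4]
        have h5 : π g' * π n * (π g')⁻¹ = π g' * x * (π g')⁻¹ ↔ π n = x := by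
          rw [mul_left_inj, mul_right_inj]
        by_cases h6 : π n = x
        · rw [if_pos h6, if_pos (h5.2 h6)]
        · rw [if_neg h6, if_neg fun h7 => h6 (h5.1 h7)]
      · intro x hx
        rw [hzY]
        unfold fib
        refine (finsum_congr fun n => ?_).trans finsum_zero
        split_ifs with h4
        · refine hz.supp n fun h5 => hx ?_
          rw [← h4, hXm]
          exact h5
        · rfl
    -- the group `N_G(Q) / Q`
    obtain ⟨j, hj⟩ : ∃ j : Subgroup.normalizer (Q₁ : Set G) →* N, ∀ x, (j x : Γ) = ((x : G) : Γ) :=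
      ⟨(G.subtype.comp (Subgroup.subtype _)).codRestrict N fun x => (hA0 x).1 x.2, fun x => rfl⟩
    have hji : Function.Injective j := by
      intro x y hxy
      have h3 := congrArg (fun t : N => (t : Γ)) hxy
      simp only [hj] at h3
      exact Subtype.ext (Subtype.ext h3)
    have hjV : ∀ n : N, π n ∈ X ↔ n ∈ j.range := by
      intro n
      rw [hXm]
      constructor
      · intro hn
        exact ⟨⟨⟨n, hn⟩, (hA0 _).2 n.2⟩, Subtype.ext (hj _)⟩
      · rintro ⟨x, rfl⟩
        rw [hj]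
        exact (x : G).2
    have hinv := inv_gen p red π hπs (fun x : N => z x) j hji X hjV
      (Q₁.subgroupOf (Subgroup.normalizer (Q₁ : Set G))) (by
        intro a
        rw [hπ1, hj, hmemQ, Subgroup.mem_subgroupOf]) (fun x => z x) (fun a => by rw [hj])
        (fun g x => hz.conj _ _) c
    have hcardA := card_gen π hπs j hji X hjV
    rw [hπk, hcardQ] at hcardA
    have hext := ext_card (p := p) red Q₁ hQ₁ (fun x : G => z x) c (fun χ => ∀ g : Γ, FxC G Q₁ χ g)
      (fun ψ => ∀ (n : N) (a b : Subgroup.normalizer (Q₁ : Set G)), j b = n * j a * n⁻¹ →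
        ψ b = ψ a) (by
        intro χ hχ
        have : Fintype (Subgroup.normalizer (Q₁ : Set G)) := Fintype.ofFinite _
        rw [fixed_iff' G Q₁ N (by rw [hNdef, hQ]) hN hA0 χ hχ.supp
          (fun a x => Pool.Agent.Y930.NV.irr_Cf hχ.wt.irr a x)]
        constructor
        · intro h n a b hab
          refine h n n.2 a b ?_
          have h3 := congrArg (fun t : N => (t : Γ)) hab
          simpa only [hj, Subgroup.coe_mul, Subgroup.coe_inv] using h3
        · intro h n hn a b hab
          refine h ⟨n, hn⟩ a b (Subtype.ext ?_)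
          simpa only [hj, Subgroup.coe_mul, Subgroup.coe_inv] using hab)
    have hdgn := h1 p F red (N ⧸ Q.subgroupOf N) X zY c hXp hInZ
    -- the sum over the complements
    have hsum : (∑ R : Subgroup Γ,
        if IsPGroup p R ∧ G ⊔ R = ⊤ ∧ R.subgroupOf G = Q₁ then wl p red z c R else 0) =
        Nat.card Q * ∑ R' : Subgroup (N ⧸ Q.subgroupOf N),
          if IsPGroup p R' ∧ X ⊔ R' = ⊤ ∧ X ⊓ R' = ⊥ then
            Nat.card (Subgroup.normalizer (R' : Set (N ⧸ Q.subgroupOf N))) *
              Nw p red (R'.subgroupOf (Subgroup.normalizer (R' : Set (N ⧸ Q.subgroupOf N))))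
                (fun x => zY x) c else 0 := by
      rw [Finset.mul_sum, ← Finset.sum_filter]
      have h3 : ∀ R' : Subgroup (N ⧸ Q.subgroupOf N), Nat.card Q *
          (if IsPGroup p R' ∧ X ⊔ R' = ⊤ ∧ X ⊓ R' = ⊥ then
            Nat.card (Subgroup.normalizer (R' : Set (N ⧸ Q.subgroupOf N))) *
              Nw p red (R'.subgroupOf (Subgroup.normalizer (R' : Set (N ⧸ Q.subgroupOf N))))
                (fun x => zY x) c else 0) =
          if IsPGroup p R' ∧ X ⊔ R' = ⊤ ∧ X ⊓ R' = ⊥ then
            Nat.card Q * (Nat.card (Subgroup.normalizer (R' : Set (N ⧸ Q.subgroupOf N))) *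
              Nw p red (R'.subgroupOf (Subgroup.normalizer (R' : Set (N ⧸ Q.subgroupOf N))))
                (fun x => zY x) c) else 0 := fun R' => by
        rw [mul_ite, mul_zero]
      rw [Finset.sum_congr rfl fun R' _ => h3 R', ← Finset.sum_filter]
      have hfix : ∀ R : Subgroup Γ, R.subgroupOf G = Q₁ →
          ((R.subgroupOf N).map π).comap π = R.subgroupOf N := by
        intro R hR
        rw [Subgroup.comap_map_eq, hπk, sup_eq_left]
        intro x hx
        exact ((hRQ R hR _).1 hx).1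
      have hRN : ∀ R : Subgroup Γ, R.subgroupOf G = Q₁ → R ≤ N := by
        intro R hR
        rw [hNdef]
        exact Subgroup.le_normalizer.trans (hNR R hR)
      refine Finset.sum_nbij' (fun R => (R.subgroupOf N).map π)
        (fun R' => (R'.comap π).map N.subtype) ?_ ?_ ?_ ?_ ?_
      · intro R hR
        rw [Finset.mem_filter] at hR ⊢
        obtain ⟨-, hR1, hR2, hR3⟩ := hR
        refine ⟨Finset.mem_univ _, IsPGroup.map (IsPGroup.comap_subtype hR1) π, ?_, ?_⟩
        · rw [eq_top_iff]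
          intro y _
          obtain ⟨n, rfl⟩ := hπs y
          have h4 : (n : Γ) ∈ ((G ⊔ R : Subgroup Γ) : Set Γ) := by
            rw [hR2]; exact Subgroup.mem_top _
          rw [Subgroup.normal_mul, Set.mem_mul] at h4
          obtain ⟨g, hg, r, hr, hgr⟩ := h4
          have hrN : r ∈ N := hRN R hR3 hr
          have hgN : g ∈ N := by
            have : g = (n : Γ) * r⁻¹ := by rw [← hgr]; group
            rw [this]
            exact N.mul_mem n.2 (N.inv_mem hrN)
          have h5 : n = ⟨g, hgN⟩ * ⟨r, hrN⟩ := Subtype.ext hgr.symm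
          rw [h5, map_mul]
          exact Subgroup.mul_mem_sup ((hXm _).2 hg) ⟨⟨r, hrN⟩, hr, rfl⟩
        · rw [eq_bot_iff]
          intro y hy
          obtain ⟨hy1, hy2⟩ := hy
          obtain ⟨r, hr, rfl⟩ := hy2
          have hy3 : (r : Γ) ∈ G := (hXm r).1 hy1
          rw [Subgroup.mem_bot, hπ1, hRQ R hR3]
          exact ⟨hr, hy3⟩
      · intro R' hR'
        rw [Finset.mem_filter] at hR' ⊢
        obtain ⟨-, hR1, hR2, hR3⟩ := hR'
        have hker : IsPGroup p π.ker := by
          rw [hπk]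
          exact IsPGroup.comap_subtype hQp
        refine ⟨Finset.mem_univ _, IsPGroup.map (IsPGroup.comap_of_ker_isPGroup hR1 π hker) _,
          ?_, ?_⟩
        · rw [eq_top_iff, ← hN]
          refine sup_le le_sup_left ?_
          intro x hx
          have h4 : π ⟨x, hx⟩ ∈ ((X ⊔ R' : Subgroup _) : Set (N ⧸ Q.subgroupOf N)) := by
            rw [hR2]; exact Subgroup.mem_top _
          rw [Subgroup.normal_mul, Set.mem_mul] at h4
          obtain ⟨y, hy, r, hr, hyr⟩ := h4
          obtain ⟨n, rfl⟩ := hπs r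
          have h5 : π (⟨x, hx⟩ * n⁻¹) = y := by
            rw [map_mul, map_inv, ← hyr, mul_inv_cancel_right]
          have h6 : ((⟨x, hx⟩ * n⁻¹ : N) : Γ) ∈ G := by
            rw [← hXm, h5]
            exact hy
          have h7 : x = ((⟨x, hx⟩ * n⁻¹ : N) : Γ) * (n : Γ) := by
            push_cast
            group
          rw [h7]
          exact Subgroup.mul_mem_sup h6 ⟨n, hr, rfl⟩
        · ext x
          rw [Subgroup.mem_subgroupOf]
          constructor
          · rintro ⟨n, hn, hnx⟩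
            have hnx' : (n : Γ) = (x : Γ) := hnx
            have h4 : π n ∈ X ⊓ R' := ⟨(hXm n).2 (by rw [hnx']; exact x.2), hn⟩
            rw [hR3, Subgroup.mem_bot, hπ1, hnx', hmemQ] at h4
            exact h4
          · intro hx
            have h4 : (x : Γ) ∈ Q := (hmemQ x).2 hx
            refine ⟨⟨x, hQN h4⟩, ?_, rfl⟩
            have h5 : π ⟨x, hQN h4⟩ = 1 := (hπ1 _).2 h4
            rw [SetLike.mem_coe, Subgroup.mem_comap, h5]
            exact R'.one_mem
      · intro R hR
        rw [Finset.mem_filter] at hR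
        obtain ⟨-, hR1, hR2, hR3⟩ := hR
        rw [hfix R hR3, Subgroup.subgroupOf_map_subtype, inf_eq_left]
        exact hRN R hR3
      · intro R' _
        have h4 : ((R'.comap π).map N.subtype).subgroupOf N = R'.comap π :=
          Subgroup.comap_map_eq_self_of_injective (Subgroup.subtype_injective N) _
        rw [h4, Subgroup.map_comap_eq_self_of_surjective hπs]
      · intro R hR
        rw [Finset.mem_filter] at hR
        obtain ⟨-, hR1, hR2, hR3⟩ := hR
        have hle : Subgroup.normalizer (R : Set Γ) ≤ N := by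
          rw [hNdef]; exact hNR R hR3
        obtain ⟨i, hi⟩ : ∃ i : Subgroup.normalizer (R : Set Γ) →* N,
            ∀ x, (i x : Γ) = (x : Γ) := ⟨Subgroup.inclusion hle, fun x => rfl⟩
        have hii : Function.Injective i := by
          intro x y hxy
          have h3 := congrArg (fun t : N => (t : Γ)) hxy
          simp only [hi] at h3
          exact Subtype.ext h3
        have hmem : ∀ n : N, π n ∈ (R.subgroupOf N).map π ↔ (n : Γ) ∈ R := by
          intro n
          have h4 := hfix R hR3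
          have h5 : n ∈ ((R.subgroupOf N).map π).comap π ↔ n ∈ R.subgroupOf N := by rw [h4]
          rw [Subgroup.mem_comap, Subgroup.mem_subgroupOf] at h5
          exact h5
        have hnn : (Subgroup.normalizer (((R.subgroupOf N).map π : Subgroup _) : Set
            (N ⧸ Q.subgroupOf N))).comap π = Subgroup.normalizer ((R.subgroupOf N : Subgroup N) :
              Set N) := by
          rw [Subgroup.comap_normalizer_eq_of_le_range (by rw [hπr]; exact le_top), hfix R hR3]
        have hnn2 : (Subgroup.normalizer (R : Set Γ)).comap N.subtype =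
            Subgroup.normalizer ((R.subgroupOf N : Subgroup N) : Set N) :=
          Subgroup.comap_normalizer_eq_of_le_range (by
            rw [Subgroup.range_subtype]; exact hRN R hR3)
        have hiV : ∀ n : N, π n ∈ Subgroup.normalizer (((R.subgroupOf N).map π : Subgroup _) :
            Set (N ⧸ Q.subgroupOf N)) ↔ n ∈ i.range := by
          intro n
          rw [← Subgroup.mem_comap, hnn, ← hnn2, Subgroup.mem_comap]
          constructor
          · intro hn
            exact ⟨⟨n, hn⟩, Subtype.ext (hi _)⟩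
          · rintro ⟨x, rfl⟩
            change (i x : Γ) ∈ _
            rw [hi]
            exact x.2
        have h4 := card_gen π hπs i hii _ hiV
        have h5 := nw_gen p red π hπs (fun x : N => z x) i hii _ hiV
          (R.subgroupOf (Subgroup.normalizer (R : Set Γ)))
          (((R.subgroupOf N).map π).subgroupOf _) (by
            intro a h
            rw [Subgroup.mem_subgroupOf, Subgroup.mem_subgroupOf]
            change _ ↔ π (i a) ∈ _
            rw [hmem, hi]) (fun x => z x) (fun a => by rw [hi]) (fun g x => hz.conj _ _) c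
        unfold wl
        rw [h4, h5, hπk, hcardQ, mul_assoc, hzY]
    rw [finsum_eq_sum_of_fintype] at hdgn
    rw [← hzY] at hinv
    rw [hsum, ← hdgn, hinv, hext, hcardA, hcardY]
    ring


/-- **the weights of `Γ` with `NQ = Γ` and the invariant classes of weights of `N`** -/
theorem covp [Fact p.Prime] [CharP F p] (red : integralClosure ℤ ℂ →+* F) (G : Subgroup Γ)
    [G.Normal] (z : Γ → F) (c : F) (hG : IsPGroup p (Γ ⧸ G)) (hz : InZ G z) :
    Wsum p red G ⊤ z c = (Nat.card (Γ ⧸ G) : ℤ) *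
      Ww.tot (fun Q χ => IsW p Q χ ∧ wcv red Q χ (fun x : G => z x) = c ∧
        ∀ g : Γ, FxC G Q χ g) := by
  rw [Pool.Agent.Y487.NV.wsum_eq]
  obtain ⟨cov, e3⟩ : ∃ cov : ℕ, cov =
      ∑ Q : Subgroup Γ, if IsPGroup p Q ∧ G ⊔ Q = ⊤ then wl p red z c Q else 0 := ⟨_, rfl⟩
  rw [← e3]
  -- the sum over `R`
  have e6 : cov = ∑ Q₁ : Subgroup G, if IsPGroup p Q₁ then (∑ R : Subgroup Γ,
      if IsPGroup p R ∧ G ⊔ R = ⊤ ∧ R.subgroupOf G = Q₁ then wl p red z c R else 0) else 0 := by
    rw [e3, ← Finset.sum_filter, ← Finset.sum_filter]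
    rw [← Finset.sum_fiberwise_of_maps_to (s := Finset.univ.filter fun Q : Subgroup Γ =>
      IsPGroup p Q ∧ G ⊔ Q = ⊤) (t := Finset.univ.filter fun Q₁ : Subgroup G => IsPGroup p Q₁)
      (g := fun R => R.subgroupOf G) (by
        intro R hR
        rw [Finset.mem_filter] at hR ⊢
        exact ⟨Finset.mem_univ _, IsPGroup.comap_subtype hR.2.1⟩)]
    refine Finset.sum_congr rfl fun Q₁ _ => ?_
    rw [Finset.filter_filter, ← Finset.sum_filter]
    refine Finset.sum_congr ?_ fun _ _ => rfl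
    ext R
    simp only [Finset.mem_filter, Finset.mem_univ, true_and]
    tauto
  have e7 : cov = Nat.card (Γ ⧸ G) * ∑ Q₁ : Subgroup G,
      Nat.card (Subgroup.normalizer (Q₁ : Set G)) *
      Nat.card {χ : G → ℂ // IsW p Q₁ χ ∧ wcv red Q₁ χ (fun x : G => z x) = c ∧
        ∀ g : Γ, FxC G Q₁ χ g} := by
    rw [e6, Finset.mul_sum]
    refine Finset.sum_congr rfl fun Q₁ _ => ?_
    by_cases hQ₁ : IsPGroup p Q₁
    · rw [if_pos hQ₁]
      exact local_cov dgnL' red G z c hz hG Q₁ hQ₁
    · rw [if_neg hQ₁]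
      have h3 : IsEmpty {χ : G → ℂ // IsW p Q₁ χ ∧ wcv red Q₁ χ (fun x : G => z x) = c ∧
          ∀ g : Γ, FxC G Q₁ χ g} := ⟨fun χ => hQ₁ χ.2.1.pg⟩
      have h4 : Nat.card {χ : G → ℂ // IsW p Q₁ χ ∧ wcv red Q₁ χ (fun x : G => z x) = c ∧
          ∀ g : Γ, FxC G Q₁ χ g} = 0 := Nat.card_of_isEmpty
      rw [h4, mul_zero, mul_zero]
  rw [e7]
  unfold Ww.tot
  rw [finsum_eq_sum_of_fintype]
  push_cast
  rfl

end main

end Pool.Agent.P8H58
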