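import Pool.Agent.P8H58.Ext

/-!
# Modules of cyclic extensions of degree prime to the characteristic
-/

set_option autoImplicit false
set_option linter.unusedSectionVars false

open scoped Classical

noncomputable section

namespace Pool.Agent.P8H58

open Pool.Agent.Y63.NV Representation
open scoped MonoidAlgebra

variable {F : Type} [Field F] {M : Type} [Group M] {N : Subgroup M} [N.Normal]

theorem cj_key {A : Md F M} {B : Md F N} {f : A.V →ₗ[F] B.V}
    (hf2 : ∀ (n : N) (v : A.V), f (A.ρ n v) = B.ρ n (f v)) (x : M) (n : N) (v : A.V) :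
    f (A.ρ x (A.ρ n v)) = B.ρ (MulAut.conjNormal x n) (f (A.ρ x v)) := by
  rw [← hf2, MulAut.conjNormal_apply, ← Module.End.mul_apply, ← Module.End.mul_apply, ← map_mul,
    ← map_mul, inv_mul_cancel_right]

theorem Lies.cj {A : Md F M} {B : Md F N} (h : Lies N A B) (x : M) : Lies N A (B.cj x) := by
  obtain ⟨f, hf, hf2⟩ := h
  refine ⟨f ∘ₗ A.ρ x, ?_, fun n v => cj_key hf2 x n v⟩
  intro h0
  apply hf
  ext v
  have h1 := LinearMap.congr_fun h0 (A.ρ x⁻¹ v)
  rw [LinearMap.comp_apply, ← Module.End.mul_apply, ← map_mul, mul_inv_cancel, map_one,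
    Module.End.one_apply] at h1
  exact h1

/-- the modules under a module are conjugate -/
theorem Lies.conj [IsAlgClosed F] [Finite M] {A : Md F M} {B B' : Md F N} (h : Lies N A B)
    (h' : Lies N A B') : ∃ x : M, B'.tr = (B.cj x).tr := by
  obtain ⟨f, hf, hf2⟩ := h
  obtain ⟨f', hf', hf2'⟩ := h'
  by_contra hcon
  push Not at hcon
  haveI := Fintype.ofFinite M
  obtain ⟨y, hy1, hy2⟩ := manyM B' (fun x : M => B.cj x) Finset.univ
    (fun x _ => (hcon x).symm)
  apply hf'
  ext v
  have h1 : (A.rs N).asAlgebraHom y v = 0 := by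
    refine Md.inj hf _ fun x => ?_
    have h3 := alg_comm (B := B.cj x) (f := f ∘ₗ A.ρ x) (fun n v => cj_key hf2 x n v) y v
    rw [hy2 x (Finset.mem_univ x), LinearMap.zero_apply] at h3
    exact h3
  have h2 := alg_comm hf2' y v
  rw [h1, map_zero, hy1, Module.End.one_apply] at h2
  rw [← h2, LinearMap.zero_apply]

/-- the stabilizer -/
def St (B : Md F N) : Subgroup M where
  carrier := {x | (B.cj x).tr = B.tr}
  one_mem' := by
    funext n
    rw [Md.cj_tr]
    congr 1
    apply Subtype.ext
    rw [MulAut.conjNormal_apply]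
    simp
  mul_mem' := by
    intro x y hx hy
    funext n
    rw [Md.cj_tr, map_mul, MulAut.mul_apply]
    have h1 := congrFun hx (MulAut.conjNormal y n)
    have h2 := congrFun hy n
    rw [Md.cj_tr] at h1 h2
    rw [h1, h2]
  inv_mem' := by
    intro x hx
    funext n
    have h1 := congrFun hx (MulAut.conjNormal x⁻¹ n)
    rw [Md.cj_tr] at h1 ⊢
    rw [← h1]
    congr 1
    apply Subtype.ext
    rw [MulAut.conjNormal_apply, MulAut.conjNormal_apply]
    group

theorem mem_St {B : Md F N} {x : M} : x ∈ St B ↔ (B.cj x).tr = B.tr := Iff.rfl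

theorem le_St (B : Md F N) : N ≤ St B := by
  intro x hx
  rw [mem_St]
  funext n
  rw [Md.cj_tr]
  have h1 : MulAut.conjNormal x n = (⟨x, hx⟩ : N) * n * (⟨x, hx⟩ : N)⁻¹ := by
    apply Subtype.ext
    rw [MulAut.conjNormal_apply]
    rfl
  rw [h1]
  exact B.ρ.char_conj n ⟨x, hx⟩

theorem cj_ne {B : Md F N} {x y : M} (h : (B.cj x).tr = (B.cj y).tr) : y * x⁻¹ ∈ St B := by
  rw [mem_St]
  funext n
  have h1 := congrFun h (MulAut.conjNormal x⁻¹ n)
  rw [Md.cj_tr, Md.cj_tr] at h1
  rw [Md.cj_tr]
  have e1 : MulAut.conjNormal x (MulAut.conjNormal x⁻¹ n) = n := by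
    apply Subtype.ext
    rw [MulAut.conjNormal_apply, MulAut.conjNormal_apply]
    group
  have e2 : MulAut.conjNormal y (MulAut.conjNormal x⁻¹ n) = MulAut.conjNormal (y * x⁻¹) n := by
    rw [map_mul]
    rfl
  rw [e1, e2] at h1
  exact h1.symm

/-- the dimension is at least the number of conjugates times the dimension -/
theorem dim_ge [IsAlgClosed F] [Finite M] {A : Md F M} {B : Md F N} (h : Lies N A B) :
    (St B).index * Module.finrank F B.V ≤ Module.finrank F A.V := by
  haveI : Fintype (M ⧸ St B) := Fintype.ofFinite _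
  have h1 : ∀ q : M ⧸ St B, Lies N A (B.cj (q.out)⁻¹) := fun q => h.cj _
  choose f hf hf2 using h1
  have h2 := dim_below A (fun q : M ⧸ St B => B.cj (q.out)⁻¹) (fun q q' hne h3 => hne (by
    have h4 := cj_ne h3
    rw [inv_inv] at h4
    have h5 : (q'.out : M)⁻¹ * q.out ∈ St B := h4
    rw [← QuotientGroup.out_eq' q, ← QuotientGroup.out_eq' q']
    exact (QuotientGroup.eq.2 h5).symm)) f hf hf2
  have h3 : ∑ q : M ⧸ St B, Module.finrank F (B.cj (q.out)⁻¹).V =
      (St B).index * Module.finrank F B.V := by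
    rw [Finset.sum_congr rfl fun q _ => show Module.finrank F (B.cj (q.out)⁻¹).V =
      Module.finrank F B.V from rfl, Finset.sum_const, smul_eq_mul, Finset.card_univ,
      Subgroup.index, Nat.card_eq_fintype_card]
  rwa [h3] at h2

theorem up_fin [IsAlgClosed F] [Finite M] (B : Md F N) :
    {φ : M → F | ∃ A : Md F M, A.tr = φ ∧ Lies N A B}.Finite :=
  ((Pool.Agent.Y914.NV.irr F M).1).subset fun φ ⟨A, hA, _⟩ => hA ▸ A.isIrr

/-- the modules above -/
def up (B : Md F N) [IsAlgClosed F] [Finite M] : Finset (M → F) := (up_fin B).toFinset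

theorem mem_up [IsAlgClosed F] [Finite M] {B : Md F N} {φ : M → F} :
    φ ∈ up B ↔ ∃ A : Md F M, A.tr = φ ∧ Lies N A B := by
  unfold up
  rw [Set.Finite.mem_toFinset, Set.mem_setOf_eq]

theorem index_St [Finite M] (B : Md F N) :
    (St B).index * Nat.card (St B) = N.index * Nat.card N := by
  rw [Subgroup.index_mul_card, Subgroup.index_mul_card]

theorem up_le [IsAlgClosed F] [Finite M] (B : Md F N) :
    (up B).card * Nat.card N ≤ Nat.card (St B) := by
  have h1 : ∀ φ : up B, ∃ A : Md F M, A.tr = φ.1 ∧ Lies N A B := fun φ => mem_up.1 φ.2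
  choose A hA hL using h1
  have hL' := hL
  choose f hf hf2 using hL
  have h2 := dim_above B A (fun i j hij h2 => hij (Subtype.ext (by rw [← hA i, ← hA j, h2]))) f hf
    hf2
  have h3 := Finset.card_nsmul_le_sum (Finset.univ : Finset (up B))
    (fun i => Module.finrank F (A i).V) ((St B).index * Module.finrank F B.V)
    (fun i _ => dim_ge (hL' i))
  rw [Finset.card_univ, Fintype.card_coe, smul_eq_mul] at h3
  have h4 := h3.trans h2
  have h5 : (up B).card * (St B).index ≤ N.index := by
    refine Nat.le_of_mul_le_mul_right ?_ B.pos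
    calc (up B).card * (St B).index * Module.finrank F B.V =
        (up B).card * ((St B).index * Module.finrank F B.V) := by ring
      _ ≤ _ := h4
  have h6 : 0 < (St B).index := Nat.pos_of_ne_zero Subgroup.index_ne_zero_of_finite
  refine Nat.le_of_mul_le_mul_left ?_ h6
  calc (St B).index * ((up B).card * Nat.card N) = ((up B).card * (St B).index) * Nat.card N := by
        ring
    _ ≤ N.index * Nat.card N := Nat.mul_le_mul_right _ h5
    _ = _ := (index_St B).symm

end Pool.Agent.P8H58
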