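import Pool.Agent.P8H58.Cyc

/-!
# Modules of cyclic extensions of degree prime to the characteristic: the number of modules above
-/

set_option autoImplicit false
set_option linter.unusedSectionVars false

open scoped Classical

noncomputable section

namespace Pool.Agent.P8H58

open Pool.Agent.Y63.NV Representation
open scoped MonoidAlgebra

variable {F : Type} [Field F] {M : Type} [Group M]

/-- the twist of a module -/
def Md.twi (A : Md F M) (ν : M →* F) : Md F M where
  V := A.V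
  ρ :=
    { toFun := fun x => ν x • A.ρ x
      map_one' := by rw [map_one, map_one, one_smul]
      map_mul' := fun x y => by rw [map_mul, map_mul, smul_mul_smul_comm] }
  irr := by
    haveI := A.nontriv
    refine irr_of (G := M) _ fun S hS => A.sub S fun g v hv => ?_
    have h1 := hS g v hv
    change (ν g • A.ρ g) v ∈ S at h1
    have h2 := S.smul_mem (ν g⁻¹) h1
    rw [LinearMap.smul_apply, smul_smul, ← map_mul, inv_mul_cancel, map_one, one_smul] at h2
    exact h2

theorem Md.twi_rho (A : Md F M) (ν : M →* F) (x : M) : (A.twi ν).ρ x = ν x • A.ρ x := rfl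

theorem Md.twi_tr (A : Md F M) (ν : M →* F) (x : M) :
    (A.twi ν).tr x = ν x * A.tr x := by
  change LinearMap.trace F A.V (ν x • A.ρ x) = _
  rw [map_smul, smul_eq_mul]
  rfl

variable {N : Subgroup M} [N.Normal]

theorem Lies.twi {A : Md F M} {B : Md F N} (h : Lies N A B) (ν : M →* F) (hν : ∀ n ∈ N, ν n = 1) :
    Lies N (A.twi ν) B := by
  obtain ⟨f, hf, hf2⟩ := h
  refine ⟨f, hf, fun n v => ?_⟩
  change f ((ν n • A.ρ n) v) = B.ρ n (f v)
  rw [hν n n.2, one_smul]
  exact hf2 n v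

section
variable [IsAlgClosed F] [Finite M]

/-- a linear character which fixes the module is trivial on the stabilizer -/
theorem twist_triv (A : Md F M) (B : Md F N) (D : Md F (St B)) (eD : D.V ≃ₗ[F] B.V)
    (heD : ∀ (n : N) (v : D.V), eD (D.ρ ⟨n, le_St B n.2⟩ v) = B.ρ n (eD v)) (f0 : A.V →ₗ[F] D.V)
    (hf0 : f0 ≠ 0) (hf0' : ∀ (s : St B) (v : A.V), f0 (A.ρ s v) = D.ρ s (f0 v)) (ν : M →* F)
    (hν : ∀ n ∈ N, ν n = 1) (h : (A.twi ν).tr = A.tr) (s : St B) : ν s = 1 := by
  haveI := Fintype.ofFinite M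
  obtain ⟨T, hT⟩ : ∃ T : A.V ≃ₗ[F] A.V, ∀ (x : M) (v : A.V), T (A.ρ x v) = ν x • A.ρ x (T v) :=
    iso_of_tr A (A.twi ν) h.symm
  let f : A.V →ₗ[F] B.V := eD.toLinearMap ∘ₗ f0
  have hfa : ∀ v, f v = eD (f0 v) := fun v => rfl
  have hfN : ∀ (n : N) (v : A.V), f (A.ρ n v) = B.ρ n (f v) := by
    intro n v
    rw [hfa, hfa, ← heD]
    congr 1
    exact hf0' ⟨n, le_St B n.2⟩ v
  have hf : f ≠ 0 := by
    intro h0
    apply hf0
    ext v
    have h1 := LinearMap.congr_fun h0 v
    rw [hfa, LinearMap.zero_apply, LinearEquiv.map_eq_zero_iff] at h1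
    rw [h1, LinearMap.zero_apply]
  let f' : A.V →ₗ[F] B.V := f ∘ₗ T.toLinearMap
  have hfa' : ∀ v, f' v = f (T v) := fun v => rfl
  have hfN' : ∀ (n : N) (v : A.V), f' (A.ρ n v) = B.ρ n (f' v) := by
    intro n v
    rw [hfa', hfa', hT, hν n n.2, one_smul, hfN]
  obtain ⟨y, hy1, hy2⟩ := manyM B (fun x : M => B.cj x) (Finset.univ.filter (· ∉ St B))
    (fun x hx => (Finset.mem_filter.1 hx).2)
  have hker : ∀ v, f v = 0 → f' v = 0 := by
    intro v hv
    have h1 : (A.rs N).asAlgebraHom y v = 0 := by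
      refine Md.inj hf _ fun x => ?_
      by_cases hx : x ∈ St B
      · have h2 : f ((A.rs N).asAlgebraHom y v) = 0 := by
          rw [alg_comm hfN, hy1, Module.End.one_apply, hv]
        rw [hfa, LinearEquiv.map_eq_zero_iff] at h2
        rw [hfa, hf0' ⟨x, hx⟩, h2, map_zero, map_zero]
      · have h3 := alg_comm (B := B.cj x) (f := f ∘ₗ A.ρ x) (fun n v => cj_key hfN x n v) y v
        rw [hy2 x (Finset.mem_filter.2 ⟨Finset.mem_univ x, hx⟩), LinearMap.zero_apply] at h3
        exact h3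
    have h2 := alg_comm hfN' y v
    rw [h1, map_zero, hy1, Module.End.one_apply] at h2
    exact h2.symm
  have hsurj : Function.Surjective f := Md.surj hf hfN
  obtain ⟨g, hg⟩ := f.exists_rightInverse_of_surjective (LinearMap.range_eq_top.2 hsurj)
  have hg' : ∀ u, f (g u) = u := fun u => LinearMap.congr_fun hg u
  have hS : ∀ v, f' (g (f v)) = f' v := by
    intro v
    have h1 : f (g (f v) - v) = 0 := by rw [map_sub, hg', sub_self]
    have h2 := hker _ h1
    rw [map_sub, sub_eq_zero] at h2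
    exact h2
  obtain ⟨t, ht⟩ := B.schur (f' ∘ₗ g) (by
    intro n
    ext u
    obtain ⟨v, rfl⟩ := hsurj u
    change f' (g (B.ρ n (f v))) = B.ρ n (f' (g (f v)))
    rw [← hfN, hS, hS, hfN'])
  have hft : ∀ v, f (T v) = t • f v := by
    intro v
    rw [← hfa', ← hS v]
    exact LinearMap.congr_fun ht (f v)
  have ht0 : t ≠ 0 := by
    rintro rfl
    apply hf
    ext v
    have h1 := hft (T.symm v)
    rw [LinearEquiv.apply_symm_apply, zero_smul] at h1
    rw [h1, LinearMap.zero_apply]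
  obtain ⟨v, hv⟩ : ∃ v, f0 v ≠ 0 := by
    by_contra hcon
    push Not at hcon
    exact hf0 (LinearMap.ext hcon)
  have h0 : ∀ v, f0 (T v) = t • f0 v := by
    intro v
    have h1 := hft v
    rw [hfa, hfa, ← map_smul] at h1
    exact eD.injective h1
  have h1 := h0 (A.ρ s v)
  rw [hT, map_smul, hf0', hf0', h0, map_smul, smul_smul] at h1
  have h2 : (ν s * t - t) • D.ρ s (f0 v) = 0 := by rw [sub_smul, h1, sub_self]
  rcases smul_eq_zero.1 h2 with h3 | h3
  · have h4 : (ν s - 1) * t = 0 := by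
      rw [← h3]
      ring
    exact sub_eq_zero.1 ((mul_eq_zero.1 h4).resolve_right ht0)
  · exfalso
    apply hv
    have h4 := congrArg (D.ρ s⁻¹) h3
    rw [← Module.End.mul_apply, ← map_mul, inv_mul_cancel, map_one, Module.End.one_apply,
      map_zero] at h4
    exact h4

/-- pull back along an isomorphism -/
def Md.pull {G G' : Type} [Group G] [Group G'] (e : G' ≃* G) (B : Md F G) : Md F G' where
  V := B.V
  ρ := B.ρ.comp e.toMonoidHom
  irr := by
    haveI := B.nontriv
    refine irr_of (G := G') _ fun S hS => B.sub S fun n v hv => ?_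
    have h1 := hS (e.symm n) v hv
    change B.ρ (e (e.symm n)) v ∈ S at h1
    rwa [MulEquiv.apply_symm_apply] at h1

theorem exists_D (hc : IsCyclic (M ⧸ N)) (B : Md F N) : ∃ (D : Md F (St B)) (eD : D.V ≃ₗ[F] B.V),
    ∀ (n : N) (v : D.V), eD (D.ρ ⟨n, le_St B n.2⟩ v) = B.ρ n (eD v) := by
  let N' : Subgroup (St B) := N.subgroupOf (St B)
  let e : N' ≃* N := Subgroup.subgroupOfEquivOfLe (le_St B)
  have he : ∀ n : N', ((e n : N) : M) = ((n : St B) : M) := fun n => rfl
  let f : (St B ⧸ N') →* (M ⧸ N) := QuotientGroup.map N' N (St B).subtype (fun x hx => hx)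
  have hf : Function.Injective f := by
    rw [injective_iff_map_eq_one]
    intro x hx
    obtain ⟨s, rfl⟩ := QuotientGroup.mk_surjective x
    rw [QuotientGroup.eq_one_iff]
    have hx' : ((s : M) : M ⧸ N) = 1 := hx
    exact (QuotientGroup.eq_one_iff (s : M)).1 hx'
  haveI : IsCyclic (St B ⧸ N') := isCyclic_of_injective f hf
  obtain ⟨γ, hγ⟩ := IsCyclic.exists_generator (α := St B ⧸ N')
  obtain ⟨g, rfl⟩ := QuotientGroup.mk_surjective γ
  have hg : ∀ x : St B, ∃ k : ℤ, x * g ^ (-k) ∈ N' := by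
    intro x
    obtain ⟨k, hk⟩ := Subgroup.mem_zpowers_iff.1 (hγ x)
    refine ⟨k, ?_⟩
    rw [← QuotientGroup.eq_one_iff, QuotientGroup.mk_mul, QuotientGroup.mk_zpow, ← hk, zpow_neg,
      mul_inv_cancel]
  obtain ⟨D, e1, he1⟩ := exists_extension g hg (B.pull e) (by
    funext n
    have h1 := congrFun (mem_St.1 g.2) (e n)
    change B.tr (e (MulAut.conjNormal g n)) = B.tr (e n)
    rw [← h1]
    change _ = B.tr (MulAut.conjNormal (g : M) (e n))
    congr 1)
  refine ⟨D, e1, fun n v => ?_⟩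
  exact he1 (e.symm n) v

theorem up_ge (hc : IsCyclic (M ⧸ N)) (hF : (Nat.card (M ⧸ N) : F) ≠ 0) (B : Md F N) :
    Nat.card (St B) ≤ (up B).card * Nat.card N := by
  obtain ⟨D, eD, heD⟩ := exists_D hc B
  obtain ⟨A, f0, hf0, hf0'⟩ := exists_above D
  have hLies : Lies N A B := by
    refine ⟨eD.toLinearMap ∘ₗ f0, ?_, fun n v => ?_⟩
    · intro h0
      apply hf0
      ext v
      have h1 := LinearMap.congr_fun h0 v
      change eD (f0 v) = 0 at h1
      rw [LinearEquiv.map_eq_zero_iff] at h1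
      rw [h1, LinearMap.zero_apply]
    · change eD (f0 (A.ρ n v)) = B.ρ n (eD (f0 v))
      rw [← heD]
      congr 1
      exact hf0' ⟨n, le_St B n.2⟩ v
  letI : CommGroup (M ⧸ N) := IsCyclic.commGroup
  obtain ⟨γ, hγ⟩ := IsCyclic.exists_generator (α := M ⧸ N)
  obtain ⟨g, rfl⟩ := QuotientGroup.mk_surjective γ
  haveI : NeZero ((Nat.card (M ⧸ N) : ℕ) : F) := ⟨hF⟩
  haveI : NeZero ((Monoid.exponent (M ⧸ N) : ℕ) : F) := by
    refine ⟨fun h0 => hF ?_⟩
    obtain ⟨c, hc⟩ := Group.exponent_dvd_nat_card (G := M ⧸ N)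
    rw [hc, Nat.cast_mul, h0, zero_mul]
  have hcard : Nat.card ((M ⧸ N) →* Fˣ) = N.index :=
    CommGroup.card_monoidHom_of_hasEnoughRootsOfUnity (M ⧸ N) F
  have hidx0 : N.index ≠ 0 := Subgroup.index_ne_zero_of_finite
  haveI : Finite ((M ⧸ N) →* Fˣ) := Nat.finite_of_card_ne_zero (by rw [hcard]; exact hidx0)
  haveI : Fintype ((M ⧸ N) →* Fˣ) := Fintype.ofFinite _
  let til : ((M ⧸ N) →* Fˣ) → (M →* F) := fun ν =>
    (Units.coeHom F).comp (ν.comp (QuotientGroup.mk' N))
  have htil : ∀ ν, ∀ n ∈ N, til ν n = 1 := by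
    intro ν n hn
    change ((ν (n : M ⧸ N) : Fˣ) : F) = 1
    rw [(QuotientGroup.eq_one_iff n).2 hn, map_one, Units.val_one]
  have hnorm : ∀ x ∈ St B, ∀ m : M, m * x * m⁻¹ ∈ St B := by
    intro x hx m
    have h1 : m * x * m⁻¹ * x⁻¹ ∈ N := by
      rw [← QuotientGroup.eq_one_iff]
      simp only [QuotientGroup.mk_mul, QuotientGroup.mk_inv]
      have h2 : (m : M ⧸ N) * (x : M ⧸ N) = (x : M ⧸ N) * (m : M ⧸ N) := mul_comm _ _
      rw [h2]
      group
    have h2 := (St B).mul_mem (le_St B h1) hx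
    rwa [inv_mul_cancel_right] at h2
  haveI : (St B).Normal := ⟨fun x hx m => hnorm x hx m⟩
  have ha : g ^ (St B).index ∈ St B := Subgroup.pow_index_mem _ g
  have ha0 : 0 < (St B).index := Nat.pos_of_ne_zero Subgroup.index_ne_zero_of_finite
  have hext : ∀ ν ν' : (M ⧸ N) →* Fˣ, ν g = ν' g → ν = ν' := by
    intro ν ν' h
    refine DFunLike.ext _ _ fun x => ?_
    obtain ⟨k, hk⟩ := Subgroup.mem_zpowers_iff.1 (hγ x)
    rw [← hk, map_zpow, map_zpow, h]
  have hfib : ∀ φ : M → F, (Finset.univ.filter fun ν : (M ⧸ N) →* Fˣ =>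
      (A.twi (til ν)).tr = φ).card ≤ (St B).index := by
    intro φ
    rcases (Finset.univ.filter fun ν : (M ⧸ N) →* Fˣ =>
      (A.twi (til ν)).tr = φ).eq_empty_or_nonempty with h0 | ⟨ν0, hν0⟩
    · rw [h0, Finset.card_empty]
      exact Nat.zero_le _
    · rw [Finset.mem_filter] at hν0
      have hmap : ∀ ν ∈ (Finset.univ.filter fun ν : (M ⧸ N) →* Fˣ => (A.twi (til ν)).tr = φ),
          (((ν0 g)⁻¹ * ν g : Fˣ) : F) ∈ (Polynomial.nthRoots (St B).index (1 : F)).toFinset := by
        intro ν hν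
        rw [Finset.mem_filter] at hν
        rw [Multiset.mem_toFinset, Polynomial.mem_nthRoots ha0]
        have h1 : (A.twi (til (ν0⁻¹ * ν))).tr = A.tr := by
          funext x
          have h2 := congrFun (hν.2.trans hν0.2.symm) x
          rw [Md.twi_tr, Md.twi_tr] at h2
          rw [Md.twi_tr]
          have h3 : til (ν0⁻¹ * ν) x = (til ν0 x)⁻¹ * til ν x := by
            change (((ν0⁻¹ * ν) (x : M ⧸ N) : Fˣ) : F) = ((ν0 (x : M ⧸ N) : Fˣ) : F)⁻¹ *
              ((ν (x : M ⧸ N) : Fˣ) : F)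
            rw [MonoidHom.mul_apply, MonoidHom.inv_apply, Units.val_mul, Units.val_inv_eq_inv_val]
          have h4 : til ν0 x ≠ 0 := Units.ne_zero _
          rw [h3, mul_assoc, h2, inv_mul_cancel_left₀ h4]
        have h2 := twist_triv A B D eD heD f0 hf0 hf0' (til (ν0⁻¹ * ν)) (htil _) h1
          ⟨g ^ (St B).index, ha⟩
        change (((ν0⁻¹ * ν) ((g ^ (St B).index : M) : M ⧸ N) : Fˣ) : F) = 1 at h2
        rw [QuotientGroup.mk_pow, map_pow, Units.val_pow_eq_pow_val] at h2
        exact h2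
      refine (Finset.card_le_card_of_injOn _ hmap ?_).trans ?_
      · intro ν _ ν' _ h
        apply hext
        have h1 := Units.ext h
        exact mul_left_cancel h1
      · exact (Multiset.toFinset_card_le _).trans (Polynomial.card_nthRoots _ _)
  have hmain : N.index ≤ (St B).index * (up B).card := by
    rw [← hcard, Nat.card_eq_fintype_card, ← Finset.card_univ]
    refine Finset.card_le_mul_card_image_of_maps_to (f := fun ν => (A.twi (til ν)).tr)
      (t := up B) ?_ _ (fun φ _ => hfib φ)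
    intro ν _
    exact mem_up.2 ⟨A.twi (til ν), rfl, hLies.twi _ (htil ν)⟩
  refine Nat.le_of_mul_le_mul_left ?_ ha0
  rw [index_St]
  calc N.index * Nat.card N ≤ (St B).index * (up B).card * Nat.card N :=
        Nat.mul_le_mul_right _ hmain
    _ = _ := by ring

/-- **the number of the modules above** -/
theorem up_card (hc : IsCyclic (M ⧸ N)) (hF : (Nat.card (M ⧸ N) : F) ≠ 0) (B : Md F N) :
    (up B).card * Nat.card N = Nat.card (St B) := le_antisymm (up_le B) (up_ge hc hF B)

end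

end Pool.Agent.P8H58
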