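import Pool.Agent.P8H58.Cyc2

/-!
# Modules of abelian extensions of degree prime to the characteristic: twists
-/

set_option autoImplicit false
set_option linter.unusedSectionVars false

open scoped Classical

noncomputable section

namespace Pool.Agent.P8H58

open Pool.Agent.Y63.NV Representation
open Pool.Agent.Y914.NV (expand)
open scoped MonoidAlgebra

variable {F : Type} [Field F] {M : Type} [Group M] {N : Subgroup M} [N.Normal]

theorem rs_alg_single (A : Md F M) (n : N) : (A.rs N).asAlgebraHom (MonoidAlgebra.single n 1) =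
    A.ρ n := by
  rw [asAlgebraHom_single, one_smul]
  rfl

/-- **the modules above a module are twists of each other** -/
theorem Lies.twist [IsAlgClosed F] [Finite M] (hc : IsCyclic (M ⧸ N))
    (hF : (Nat.card (M ⧸ N) : F) ≠ 0) {A A' : Md F M} {B : Md F N} (h : Lies N A B)
    (h' : Lies N A' B) : ∃ ν : M →* F, (∀ n ∈ N, ν n = 1) ∧ A'.tr = (A.twi ν).tr := by
  letI : CommGroup (M ⧸ N) := IsCyclic.commGroup
  haveI : NeZero ((Nat.card (M ⧸ N) : ℕ) : F) := ⟨hF⟩
  haveI : NeZero ((Monoid.exponent (M ⧸ N) : ℕ) : F) := by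
    refine ⟨fun h0 => hF ?_⟩
    obtain ⟨c, hc⟩ := Group.exponent_dvd_nat_card (G := M ⧸ N)
    rw [hc, Nat.cast_mul, h0, zero_mul]
  have hcard : Nat.card ((M ⧸ N) →* Fˣ) = Nat.card (M ⧸ N) :=
    CommGroup.card_monoidHom_of_hasEnoughRootsOfUnity (M ⧸ N) F
  haveI : Finite ((M ⧸ N) →* Fˣ) := Nat.finite_of_card_ne_zero (by
    rw [hcard]; exact Nat.card_pos.ne')
  haveI : Fintype ((M ⧸ N) →* Fˣ) := Fintype.ofFinite _
  haveI : Fintype (M ⧸ N) := Fintype.ofFinite _
  haveI : Fintype M := Fintype.ofFinite _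
  let til : ((M ⧸ N) →* Fˣ) → (M →* F) := fun ν =>
    (Units.coeHom F).comp (ν.comp (QuotientGroup.mk' N))
  have htil : ∀ ν, ∀ n ∈ N, til ν n = 1 := by
    intro ν n hn
    change ((ν (n : M ⧸ N) : Fˣ) : F) = 1
    rw [(QuotientGroup.eq_one_iff n).2 hn, map_one, Units.val_one]
  by_contra hcon
  push Not at hcon
  obtain ⟨y, hy1, hy2⟩ := manyM A' (fun ν : (M ⧸ N) →* Fˣ => A.twi (til ν)) Finset.univ
    (fun ν _ => (hcon (til ν) (htil ν)).symm)
  obtain ⟨a, rfl⟩ := expand y
  -- the parts in the cosets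
  have hpart : ∀ c : M ⧸ N, ∑ m ∈ Finset.univ.filter (fun m : M => (m : M ⧸ N) = c),
      a m • A.ρ m = 0 := by
    intro c0
    have h1 : ∀ ν : (M ⧸ N) →* Fˣ, ∑ m : M, (((ν (m : M ⧸ N) : Fˣ) : F) * a m) • A.ρ m = 0 := by
      intro ν
      have h2 := hy2 ν (Finset.mem_univ ν)
      rw [map_sum] at h2
      refine Eq.trans (Finset.sum_congr rfl fun m _ => ?_) h2
      rw [asAlgebraHom_single]
      change _ = a m • (((ν (m : M ⧸ N) : Fˣ) : F) • A.ρ m)
      rw [smul_smul, mul_comm]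
    have h3 : ∑ ν : (M ⧸ N) →* Fˣ, (((ν c0)⁻¹ : Fˣ) : F) •
        ∑ m : M, (((ν (m : M ⧸ N) : Fˣ) : F) * a m) • A.ρ m = 0 :=
      Finset.sum_eq_zero fun ν _ => by rw [h1, smul_zero]
    have h4 : ∀ m : M, ∑ ν : (M ⧸ N) →* Fˣ, (((ν c0)⁻¹ : Fˣ) : F) * ((ν (m : M ⧸ N) : Fˣ) : F) =
        if (m : M ⧸ N) = c0 then (Nat.card (M ⧸ N) : F) else 0 := by
      intro m
      by_cases hm : (m : M ⧸ N) = c0
      · rw [if_pos hm, hm, Finset.sum_congr rfl fun ν _ => by
          rw [← Units.val_mul, inv_mul_cancel, Units.val_one], Finset.sum_const, Finset.card_univ,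
          ← Nat.card_eq_fintype_card, hcard, nsmul_eq_mul, mul_one]
      · rw [if_neg hm]
        have hne : c0⁻¹ * (m : M ⧸ N) ≠ 1 := fun h0 => hm (inv_mul_eq_one.1 h0).symm
        obtain ⟨ν0, hν0⟩ := CommGroup.exists_apply_ne_one_of_hasEnoughRootsOfUnity (M ⧸ N) F hne
        have h5 : ∀ ν : (M ⧸ N) →* Fˣ, (((ν c0)⁻¹ : Fˣ) : F) * ((ν (m : M ⧸ N) : Fˣ) : F) =
            ((ν (c0⁻¹ * (m : M ⧸ N)) : Fˣ) : F) := by
          intro ν
          rw [map_mul, map_inv, Units.val_mul]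
        rw [Finset.sum_congr rfl fun ν _ => h5 ν]
        have h6 : ((ν0 (c0⁻¹ * (m : M ⧸ N)) : Fˣ) : F) *
            ∑ ν : (M ⧸ N) →* Fˣ, ((ν (c0⁻¹ * (m : M ⧸ N)) : Fˣ) : F) =
            ∑ ν : (M ⧸ N) →* Fˣ, ((ν (c0⁻¹ * (m : M ⧸ N)) : Fˣ) : F) := by
          rw [Finset.mul_sum]
          refine Fintype.sum_equiv (Equiv.mulLeft ν0) _ _ fun ν => ?_
          change _ = (((ν0 * ν) (c0⁻¹ * (m : M ⧸ N)) : Fˣ) : F)
          rw [MonoidHom.mul_apply, Units.val_mul]
        have h7 : (((ν0 (c0⁻¹ * (m : M ⧸ N)) : Fˣ) : F) - 1) *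
            ∑ ν : (M ⧸ N) →* Fˣ, ((ν (c0⁻¹ * (m : M ⧸ N)) : Fˣ) : F) = 0 := by
          rw [sub_mul, one_mul, h6, sub_self]
        refine (mul_eq_zero.1 h7).resolve_left fun h8 => hν0 ?_
        exact Units.ext (sub_eq_zero.1 h8)
    simp only [Finset.smul_sum, smul_smul] at h3
    rw [Finset.sum_comm] at h3
    have h5 : ∀ m : M, ∑ ν : (M ⧸ N) →* Fˣ,
        ((((ν c0)⁻¹ : Fˣ) : F) * (((ν (m : M ⧸ N) : Fˣ) : F) * a m)) • A.ρ m =
        (if (m : M ⧸ N) = c0 then (Nat.card (M ⧸ N) : F) • (a m • A.ρ m) else 0) := by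
      intro m
      rw [← Finset.sum_smul]
      have h6 : ∑ ν : (M ⧸ N) →* Fˣ, (((ν c0)⁻¹ : Fˣ) : F) * (((ν (m : M ⧸ N) : Fˣ) : F) * a m) =
          (if (m : M ⧸ N) = c0 then (Nat.card (M ⧸ N) : F) else 0) * a m := by
        rw [← h4 m, Finset.sum_mul]
        exact Finset.sum_congr rfl fun ν _ => by ring
      rw [h6]
      by_cases hm : (m : M ⧸ N) = c0
      · rw [if_pos hm, if_pos hm, mul_smul]
      · rw [if_neg hm, if_neg hm, zero_mul, zero_smul]
    rw [Finset.sum_congr rfl fun m _ => h5 m, ← Finset.sum_filter, ← Finset.smul_sum] at h3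
    exact (smul_eq_zero.1 h3).resolve_left hF
  obtain ⟨f, hf, hf2⟩ := h
  obtain ⟨f', hf', hf2'⟩ := h'
  have hpart' : ∀ c : M ⧸ N, ∑ m ∈ Finset.univ.filter (fun m : M => (m : M ⧸ N) = c),
      a m • A'.ρ m = 0 := by
    intro c
    obtain ⟨m0, rfl⟩ := QuotientGroup.mk_surjective c
    haveI : Fintype N := Fintype.ofFinite _
    let z : F[N] := ∑ n : N, MonoidAlgebra.single n (a (m0 * n))
    have hz : ∀ C : Md F M, ∑ m ∈ Finset.univ.filter (fun m : M => (m : M ⧸ N) = (m0 : M ⧸ N)),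
        a m • C.ρ m = C.ρ m0 * (C.rs N).asAlgebraHom z := by
      intro C
      rw [map_sum, Finset.mul_sum]
      symm
      refine Finset.sum_nbij' (fun n : N => m0 * (n : M)) (fun m => if h : m0⁻¹ * m ∈ N then
        ⟨m0⁻¹ * m, h⟩ else 1) ?_ ?_ ?_ ?_ ?_
      · intro n _
        rw [Finset.mem_filter]
        refine ⟨Finset.mem_univ _, ?_⟩
        rw [eq_comm, QuotientGroup.eq, inv_mul_cancel_left]
        exact n.2
      · intro m _
        exact Finset.mem_univ _
      · intro n _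
        have h1 : m0⁻¹ * (m0 * (n : M)) ∈ N := by
          rw [inv_mul_cancel_left]
          exact n.2
        rw [dif_pos h1]
        exact Subtype.ext (inv_mul_cancel_left _ _)
      · intro m hm
        rw [Finset.mem_filter, eq_comm, QuotientGroup.eq] at hm
        rw [dif_pos hm.2]
        exact mul_inv_cancel_left _ _
      · intro n _
        rw [asAlgebraHom_single, mul_smul_comm]
        change a (m0 * n) • (C.ρ m0 * C.ρ n) = _
        rw [← map_mul]
    have h1 : (A.rs N).asAlgebraHom z = 0 := by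
      have h2 := (hz A).symm.trans (hpart _)
      have h3 := congrArg (fun T => A.ρ m0⁻¹ * T) h2
      simp only [← mul_assoc, ← map_mul, inv_mul_cancel, map_one, one_mul, mul_zero] at h3
      exact h3
    rw [hz]
    have h2 : (A'.rs N).asAlgebraHom z = 0 := by
      ext w
      rw [LinearMap.zero_apply]
      refine Md.inj hf' _ fun x => ?_
      have h3 := alg_comm (B := B.cj x) (f := f' ∘ₗ A'.ρ x) (fun n v => cj_key hf2' x n v) z w
      have h4 : (B.cj x).ρ.asAlgebraHom z = 0 := by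
        ext u
        have hs : Function.Surjective (f ∘ₗ A.ρ x) := by
          refine Md.surj (B := B.cj x) (f := f ∘ₗ A.ρ x) ?_ (fun n v => cj_key hf2 x n v)
          intro h0
          apply hf
          ext v
          have h1 := LinearMap.congr_fun h0 (A.ρ x⁻¹ v)
          rw [LinearMap.comp_apply, ← Module.End.mul_apply, ← map_mul, mul_inv_cancel, map_one,
            Module.End.one_apply] at h1
          exact h1
        obtain ⟨v, hv⟩ := hs u
        have h5 := alg_comm (B := B.cj x) (f := f ∘ₗ A.ρ x) (fun n v => cj_key hf2 x n v) z v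
        rw [h1, LinearMap.zero_apply, map_zero] at h5
        exact (congrArg ((B.cj x).ρ.asAlgebraHom z) hv).symm.trans h5.symm
      rw [h4, LinearMap.zero_apply] at h3
      exact h3
    rw [h2, mul_zero]
  have h1 : A'.ρ.asAlgebraHom (∑ g : M, MonoidAlgebra.single g (a g)) = 0 := by
    rw [map_sum, Finset.sum_congr rfl fun g _ => by rw [asAlgebraHom_single],
      ← Finset.sum_fiberwise_of_maps_to (s := Finset.univ) (t := Finset.univ)
        (g := fun m : M => (m : M ⧸ N)) (fun _ _ => Finset.mem_univ _)]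
    exact Finset.sum_eq_zero fun c _ => hpart' c
  rw [hy1] at h1
  haveI := A'.nontriv
  exact one_ne_zero h1

end Pool.Agent.P8H58
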