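import Pool.Agent.P8H58.Eqv

/-!
# The equivariant form of the blockwise weight conjecture: the equivalence
-/

set_option autoImplicit false
set_option linter.unusedSectionVars false

open scoped Classical

noncomputable section

namespace Pool.Agent.P8H58

open Pool.Agent.Y63.NV Representation
open Pool.Agent.Y63.AWC (IsIrreducibleCharacter pSubgroupSetoid)
open Pool.Agent.N85.WM (IsW wcv BEq exists_idem YS cvS cvS_block numWts numWts_eq)
open Pool.Agent.N85.WM.Ww (tot cm mem_cm isW_cm_iff wcv_cm tot_cm wsum_tot)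

variable {p : ℕ} [Fact p.Prime] {F : Type} [Field F] [IsAlgClosed F] [CharP F p]
  (red : integralClosure ℤ ℂ →+* F)

/-- from the conjecture to the equivariant form -/
theorem eqv_of {X : ∀ (L : Type) [Group L], Prop} (hX : Closed p X)
    (hB : ∀ (L : Type) [Group L] [Finite L], X L → BAWC p red L) {Γ : Type} [Group Γ] [Finite Γ]
    {G K H : Subgroup Γ} [G.Normal] [K.Normal] [H.Normal] (f : Fr p G K H) (hKH : K ⊔ H = ⊤)
    (hXH : X H) {B : (G → F) → F} (hBB : IsBlock B) (hI : IsInvBlock G B) :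
    numIBr G B = ∑ᶠ c : Quotient (pSubgroupSetoid p G), numInvWt p red G c.out.1 B := by
  obtain ⟨z, hz, h1, h2⟩ := exists_z hBB hI
  have h3 := f.main red hX hB hKH hXH hz 1
  rw [← numInvWt_tot red hBB hz h1 h2, ← numIBr_lnum hBB hz h1 h2] at h3
  have h4 : (Nat.card G : ℤ) ≠ 0 := by exact_mod_cast (Nat.card_pos (α := G)).ne'
  exact_mod_cast mul_left_cancel₀ h4 h3

/-- the equality for the whole group -/
theorem bawc_of {L : Type} [Group L] [Finite L]
    (h : ∀ B : ((⊤ : Subgroup L) → F) → F, IsBlock B → IsInvBlock (⊤ : Subgroup L) B →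
      numIBr (⊤ : Subgroup L) B = ∑ᶠ c : Quotient (pSubgroupSetoid p (⊤ : Subgroup L)),
        numInvWt p red (⊤ : Subgroup L) c.out.1 B) : BAWC p red L := by
  rw [bawc_iff]
  intro B hB hI
  rw [h B hB hI]
  obtain ⟨z, hz, h1, h2⟩ := exists_z hB hI
  have h3 := numInvWt_tot red hB hz h1 h2
  let e : (⊤ : Subgroup L) ≃* L := Subgroup.topEquiv
  have hcl : IsClassFun z := fun g x => hz.conj g x
  have h4 : tot (fun (Q : Subgroup (⊤ : Subgroup L)) χ => IsW p Q χ ∧
      wcv red Q χ (fun x : (⊤ : Subgroup L) => z x) = 1 ∧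
      ∀ g : L, FxC (⊤ : Subgroup L) Q χ g) =
      tot (fun (Q : Subgroup L) χ => IsW p Q χ ∧ wcv red Q χ z = 1) := by
    refine tot_cm e fun Q χ => ?_
    constructor
    · rintro ⟨h5, h6, -⟩
      have h7 := (isW_cm_iff e).1 h5
      refine ⟨h7, ?_⟩
      rw [← h6]
      exact (wcv_cm red e h7 hcl).symm
    · rintro ⟨h5, h6⟩
      refine ⟨(isW_cm_iff e).2 h5, ?_, fun g => ⟨g⁻¹, Subgroup.mem_top _, ?_, ?_⟩⟩
      · rw [← h6]
        exact wcv_cm red e h5 hcl
      · intro x y hxy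
        have h8 : y = x := by
          apply Subtype.ext
          rw [hxy]
          group
        rw [h8]
      · intro x y hxy
        have h8 : y = x := by
          apply Subtype.ext
          rw [hxy]
          group
        rw [h8]
  rw [h4, ← wsum_tot, Pool.Agent.N85.WM.wsum_top red hcl] at h3
  have h5 : (Nat.card (⊤ : Subgroup L) : ℤ) = Nat.card L := by rw [Subgroup.card_top]
  rw [h5] at h3
  have h6 : (Nat.card L : ℤ) ≠ 0 := by exact_mod_cast (Nat.card_pos (α := L)).ne'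
  have h7 : (∑ᶠ c : Quotient (pSubgroupSetoid p (⊤ : Subgroup L)),
        numInvWt p red (⊤ : Subgroup L) c.out.1 B) =
      Nat.card {y : YS p L // cvS red y z = 1} := by
    exact_mod_cast mul_left_cancel₀ h6 h3
  rw [h7]
  have h8 : (∑ᶠ c : Quotient (pSubgroupSetoid p L),
      if (⊤ : Subgroup L) ⊔ c.out.1 = ⊤ then numDz p red (⊤ : Subgroup L) c.out.1 B else 0) =
      numWts p red (fun f : L → F => B (fun x : (⊤ : Subgroup L) => f x)) := by
    unfold numWts
    refine finsum_congr fun c => ?_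
    rw [if_pos (top_sup_eq _), numDz_eq]
  rw [h8, numWts_eq]
  refine Nat.card_congr (Equiv.subtypeEquivRight fun y => ?_)
  constructor
  · intro h9 f hf
    have h10 := h2 (Pool.Agent.Y63.NV.up (cvS red y)) (up_block (cvS_block red y)) h9
    exact (h10 (fun x : (⊤ : Subgroup L) => f x) (fun g x => hf g x)).symm
  · intro h9
    rw [h9 z hcl]
    exact h1

/-- **The conjecture and its equivariant form.** -/
theorem eqv_iff {X : ∀ (L : Type) [Group L], Prop} (hX : Closed p X) :
    (∀ (L : Type) [Group L] [Finite L], X L → BAWC p red L) ↔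
    ∀ (Γ : Type) [Group Γ] [Finite Γ] (G K H : Subgroup Γ) [G.Normal] [K.Normal] [H.Normal],
      K ⊓ H = G → K ⊔ H = ⊤ → (∀ k ∈ K, ∃ a : ℕ, k ^ p ^ a ∈ G) →
      IsCyclic (H ⧸ G.subgroupOf H) → ¬ p ∣ Nat.card (H ⧸ G.subgroupOf H) → X H →
      ∀ B : (G → F) → F, IsBlock B → IsInvBlock G B →
        numIBr G B = ∑ᶠ c : Quotient (pSubgroupSetoid p G), numInvWt p red G c.out.1 B := by
  constructor
  · intro hB Γ _ _ G K H _ _ _ h1 h2 h3 h4 h5 hXH B hBB hI
    exact eqv_of red hX hB ⟨h1 ▸ inf_le_left, h1 ▸ inf_le_right, h1.le, h3, h4, h5⟩ h2 hXH hBB hI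
  · intro h L _ _ hL
    refine bawc_of red fun B hB hI => ?_
    have h1 : Nat.card ((⊤ : Subgroup L) ⧸ (⊤ : Subgroup L).subgroupOf (⊤ : Subgroup L)) = 1 := by
      change ((⊤ : Subgroup L).subgroupOf (⊤ : Subgroup L)).index = 1
      rw [Subgroup.index_eq_one, Subgroup.subgroupOf_self]
    refine h L ⊤ ⊤ ⊤ (inf_idem _) (sup_idem _) (fun k _ => ⟨0, Subgroup.mem_top _⟩) ?_ ?_
      (hX.iso _ _ hL ⟨Subgroup.topEquiv.symm⟩) B hB hI
    · haveI : Subsingleton ((⊤ : Subgroup L) ⧸ (⊤ : Subgroup L).subgroupOf (⊤ : Subgroup L)) :=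
        (Nat.card_eq_one_iff_unique.1 h1).1
      exact isCyclic_of_subsingleton
    · rw [h1]
      exact (Fact.out : p.Prime).one_lt.ne' ∘ Nat.dvd_one.1

end Pool.Agent.P8H58
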