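import Pool.Agent.P8H58.Gam6
import Pool.Agent.N85.WM.Val
import Pool.Agent.N85.WM.Sep

/-!
# The equivariant form of the blockwise weight conjecture
-/

set_option autoImplicit false
set_option linter.unusedSectionVars false

open scoped Classical

noncomputable section

namespace Pool.Agent.P8H58

open Pool.Agent.Y63.NV Representation
open Pool.Agent.Y63.AWC (IsIrreducibleCharacter pSubgroupSetoid)
open Pool.Agent.N85.WM (IsW wcv BEq exists_idem)
open Pool.Agent.N85.WM.Ww (tot cm mem_cm isW_cm_iff wcv_cm)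
open Pool.Agent.Y405.NV (nrm sg toRH ofC ofS toRH_ofC toRH_nrm sg_nrm coeff_sg conj_symm_eq class_iff
  toRH_apply toRH_ofS)

section z

variable {Γ : Type} [Group Γ] [Finite Γ] {G : Subgroup Γ} [G.Normal] {F : Type} [Field F]

/-- an invariant element which separates an invariant block from the other ones -/
theorem exists_z {B : (G → F) → F} (hB : IsBlock B) (hI : IsInvBlock G B) :
    ∃ z : Γ → F, InZ G z ∧ B (fun x : G => z x) = 1 ∧
      ∀ B' : (G → F) → F, IsBlock B' → B' (fun x : G => z x) = 1 → BEq B B' := by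
  obtain ⟨e, he, h1, h2⟩ := exists_idem hB
  let w := nrm G (ofC e he.cl) (0 : F)
  let zz : Γ → F := fun x => if hx : x ∈ G then w.1.coeff ⟨x, hx⟩ else 0
  have hzz : ∀ x : G, zz x = w.1.coeff x := fun x => dif_pos x.2
  have hfun : (fun x : G => zz x) = fun x : G => w.1.coeff x := funext hzz
  refine ⟨zz, ⟨fun g x => ?_, fun x hx => dif_neg hx⟩, ?_, ?_⟩
  · by_cases hx : x ∈ G
    · have hx' : g * x * g⁻¹ ∈ G := (inferInstance : G.Normal).conj_mem x hx g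
      have h3 := hzz ⟨x, hx⟩
      have h4 := hzz ⟨g * x * g⁻¹, hx'⟩
      simp only at h3 h4
      rw [h3, h4]
      have h5 : (sg G g w).1.coeff ⟨g * x * g⁻¹, hx'⟩ = w.1.coeff ⟨g * x * g⁻¹, hx'⟩ := by
        rw [sg_nrm]
      rw [← h5, coeff_sg, conj_symm_eq G (x := ⟨x, hx⟩) (y := ⟨g * x * g⁻¹, hx'⟩) rfl]
    · have hx' : g * x * g⁻¹ ∉ G := by
        intro h
        apply hx
        have := (inferInstance : G.Normal).conj_mem _ h g⁻¹
        simpa [mul_assoc] using this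
      show zz (g * x * g⁻¹) = zz x
      rw [show zz (g * x * g⁻¹) = 0 from dif_neg hx', show zz x = 0 from dif_neg hx]
  · rw [hfun]
    change toRH hB w = 1
    rw [toRH_nrm G hB hI, toRH_ofC, h1, sub_zero, one_pow]
  · intro B' hB' h3
    rw [hfun] at h3
    have h4 : toRH hB' w = 1 := h3
    refine h2 B' hB' ((he.val B' hB').resolve_left fun h5 => ?_)
    have h6 : toRH hB' w = 0 := by
      letI := Fintype.ofFinite Γ
      change toRH hB' (∏ g : Γ, (sg G g (ofC e he.cl) - ofS 0)) = 0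
      rw [map_prod]
      refine Finset.prod_eq_zero (Finset.mem_univ (1 : Γ)) ?_
      rw [map_sub, toRH_ofS, sub_zero]
      have h7 : sg G (1 : Γ) (ofC e he.cl) = ofC e he.cl := by
        apply Subtype.ext
        ext x
        rw [coeff_sg, map_one]
        rfl
      rw [h7, toRH_ofC]
      exact h5
    rw [h6] at h4
    exact zero_ne_one h4

end z

section cnt

variable {Γ : Type} [Group Γ] [Finite Γ] {G : Subgroup Γ} [G.Normal] {F : Type} [Field F]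
  [IsAlgClosed F]

theorem numIBr_lnum {B : (G → F) → F} (hB : IsBlock B) {z : Γ → F} (hz : InZ G z)
    (h1 : B (fun x : G => z x) = 1)
    (h2 : ∀ B' : (G → F) → F, IsBlock B' → B' (fun x : G => z x) = 1 → BEq B B') :
    numIBr G B = Lnum G ⊤ z 1 := by
  unfold numIBr Lnum
  refine Nat.card_congr (Equiv.subtypeEquivRight fun φ => ?_)
  constructor
  · rintro ⟨h3, h4, h5⟩
    refine ⟨h3, h4, fun x => ?_⟩
    have h6 := h5 (fun x : G => z x) (fun g x => hz.conj g x) x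
    rw [h1] at h6
    exact h6
  · rintro ⟨h3, h4, h5⟩
    refine ⟨h3, h4, ?_⟩
    obtain ⟨⟨y, hy⟩, B', hB', h6⟩ := schur' F G φ h3
    have h7 := h6 (fun x : G => z x) (fun g x => hz.conj g x) y
    rw [h5 y] at h7
    have h8 : B' (fun x : G => z x) = 1 := (mul_right_cancel₀ hy h7).symm
    have h9 := h2 B' hB' h8
    intro f hf x
    rw [h9 f hf]
    exact h6 f hf x

/-- The number of the irreducible characters `χ` of `N_G(Q)/Q` of `p`-defect zero such that the block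
of `G` induced by the block of the inflation of `χ` is `B` and such that the `G`-class of `(Q, χ)` is
invariant under `Γ`. -/
def numInvWt (p : ℕ) {F : Type} [Field F] (red : integralClosure ℤ ℂ →+* F) {Γ : Type} [Group Γ]
    (G : Subgroup Γ) (Q : Subgroup G) (B : (G → F) → F) : ℕ :=
  Nat.card {χ : Subgroup.normalizer (Q : Set G) → ℂ //
    IsWt p (Q.subgroupOf (Subgroup.normalizer (Q : Set G))) χ ∧
    (∀ f : G → F, IsClassFun f → centralValue red χ (fun x => f x) = B f) ∧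
    ∀ γ : Γ, ∃ g ∈ G, (∀ x y : G, (y : Γ) = g * γ * x * (g * γ)⁻¹ → (x ∈ Q ↔ y ∈ Q)) ∧
      ∀ x y : Subgroup.normalizer (Q : Set G),
        ((y : G) : Γ) = g * γ * ((x : G) : Γ) * (g * γ)⁻¹ → χ x = χ y}

variable {p : ℕ} [Fact p.Prime] [CharP F p] (red : integralClosure ℤ ℂ →+* F)

theorem numInvWt_eq {B : (G → F) → F} (hB : IsBlock B) {z : Γ → F} (hz : InZ G z)
    (h1 : B (fun x : G => z x) = 1)
    (h2 : ∀ B' : (G → F) → F, IsBlock B' → B' (fun x : G => z x) = 1 → BEq B B')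
    {Q : Subgroup G} (hQ : IsPGroup p Q) :
    numInvWt p red G Q B = Nat.card {χ : G → ℂ // IsW p Q χ ∧
      wcv red Q χ (fun x : G => z x) = 1 ∧ ∀ γ : Γ, FxC G Q χ γ} := by
  rw [← Pool.Agent.N85.WM.Cov.ext_card red Q hQ (fun x : G => z x) 1
    (fun χ => ∀ γ : Γ, FxC G Q χ γ)
    (fun χ => ∀ γ : Γ, ∃ g ∈ G, (∀ x y : G, (y : Γ) = g * γ * x * (g * γ)⁻¹ → (x ∈ Q ↔ y ∈ Q)) ∧
      ∀ x y : Subgroup.normalizer (Q : Set G),
        ((y : G) : Γ) = g * γ * ((x : G) : Γ) * (g * γ)⁻¹ → χ x = χ y) (by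
      intro χ hχ
      refine forall_congr' fun γ => ?_
      constructor
      · rintro ⟨g, hg, hF⟩
        exact ⟨g, hg, hF.1, fun x y hxy => hF.2 x y hxy⟩
      · rintro ⟨g, hg, h3, h4⟩
        refine ⟨g, hg, fx_of hχ ?_ fun x y hxy => (h4 x y hxy).symm⟩
        exact Pool.Agent.N85.WM.Cov.mem_norm_of G Q (g * γ) h3)]
  unfold numInvWt
  refine Nat.card_congr (Equiv.subtypeEquivRight fun χ => ?_)
  constructor
  · rintro ⟨h3, h4, h5⟩
    refine ⟨h3, ?_, h5⟩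
    rw [← h1]
    exact h4 (fun x : G => z x) (fun g x => hz.conj g x)
  · rintro ⟨h3, h4, h5⟩
    refine ⟨h3, ?_, h5⟩
    have h6 := wblk' p F red G Q χ hQ h3
    have h7 := h2 _ h6 h4
    intro f hf
    exact (h7 f hf).symm

omit [G.Normal] in
theorem fx_cm {Q : Subgroup G} {χ : G → ℂ} (g : G) (γ : Γ) :
    Fx G (cm (MulAut.conj g⁻¹) Q) (fun x => χ (MulAut.conj g⁻¹ x)) γ ↔
      Fx G Q χ ((g : Γ)⁻¹ * γ * g) := by
  have key : ∀ x : G, MulAut.conj g⁻¹ x = g⁻¹ * x * g := fun x => by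
    rw [MulAut.conj_apply, inv_inv]
  constructor
  · rintro ⟨h1, h2⟩
    have h3 : ∀ x y : G, (y : Γ) = (g : Γ)⁻¹ * γ * g * x * ((g : Γ)⁻¹ * γ * g)⁻¹ →
        ((g * y * g⁻¹ : G) : Γ) = γ * ((g * x * g⁻¹ : G) : Γ) * γ⁻¹ := by
      intro x y hxy
      change (g : Γ) * y * (g : Γ)⁻¹ = γ * ((g : Γ) * x * (g : Γ)⁻¹) * γ⁻¹
      rw [hxy]
      group
    have h4 : ∀ x : G, MulAut.conj g⁻¹ (g * x * g⁻¹) = x := fun x => by
      rw [key]
      group
    constructor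
    · intro x y hxy
      have h5 := h1 _ _ (h3 x y hxy)
      rw [mem_cm, mem_cm, h4, h4] at h5
      exact h5
    · intro x y hxy
      have h5 := h2 _ _ (h3 x y hxy)
      simp only [h4] at h5
      exact h5
  · rintro ⟨h1, h2⟩
    have h3 : ∀ x y : G, (y : Γ) = γ * x * γ⁻¹ → ((MulAut.conj g⁻¹ y : G) : Γ) =
        (g : Γ)⁻¹ * γ * g * ((MulAut.conj g⁻¹ x : G) : Γ) * ((g : Γ)⁻¹ * γ * g)⁻¹ := by
      intro x y hxy
      rw [key, key]
      change (g : Γ)⁻¹ * y * (g : Γ) = _ * ((g : Γ)⁻¹ * x * g) * _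
      rw [hxy]
      group
    exact ⟨fun x y hxy => h1 _ _ (h3 x y hxy), fun x y hxy => h2 _ _ (h3 x y hxy)⟩

theorem fxc_cm {Q : Subgroup G} {χ : G → ℂ} (g : G) (h : ∀ γ : Γ, FxC G Q χ γ) (γ : Γ) :
    FxC G (cm (MulAut.conj g⁻¹) Q) (fun x => χ (MulAut.conj g⁻¹ x)) γ := by
  obtain ⟨n, hn, hF⟩ := h (γ * g)
  refine ⟨g * n, G.mul_mem g.2 hn, ?_⟩
  rw [fx_cm]
  have h1 : (g : Γ)⁻¹ * (g * n * γ) * g = n * (γ * g) := by group
  rwa [h1]

theorem h_conj {z : Γ → F} (hz : InZ G z) (g : G) (Q : Subgroup G) :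
    Nat.card {χ : G → ℂ // IsW p (Q.map (MulAut.conj g).toMonoidHom) χ ∧
      wcv red (Q.map (MulAut.conj g).toMonoidHom) χ (fun x : G => z x) = 1 ∧
        ∀ γ : Γ, FxC G (Q.map (MulAut.conj g).toMonoidHom) χ γ} =
    Nat.card {χ : G → ℂ // IsW p Q χ ∧
      wcv red Q χ (fun x : G => z x) = 1 ∧ ∀ γ : Γ, FxC G Q χ γ} := by
  have hcm : ∀ (g : G) (Q : Subgroup G), Q.map (MulAut.conj g).toMonoidHom =
      cm (MulAut.conj g⁻¹) Q := by
    intro g Q
    ext x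
    rw [mem_cm]
    constructor
    · rintro ⟨y, hy, rfl⟩
      have h1 : MulAut.conj g⁻¹ ((MulAut.conj g).toMonoidHom y) = y := by
        change g⁻¹ * (g * y * g⁻¹) * g⁻¹⁻¹ = y
        group
      rw [h1]
      exact hy
    · intro hx
      refine ⟨_, hx, ?_⟩
      change g * (g⁻¹ * x * g⁻¹⁻¹) * g⁻¹ = x
      group
  rw [hcm]
  have hcl : IsClassFun (fun x : G => z x) := fun g x => hz.conj g x
  have hzc : ∀ g : G, (fun x : G => z (MulAut.conj g⁻¹ x : G)) = fun x : G => z x := by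
    intro g
    funext x
    exact hcl g⁻¹ x
  have step : ∀ (g : G) (Q : Subgroup G) (χ : G → ℂ), (IsW p Q χ ∧
      wcv red Q χ (fun x : G => z x) = 1 ∧ ∀ γ : Γ, FxC G Q χ γ) →
      (IsW p (cm (MulAut.conj g⁻¹) Q) (fun x => χ (MulAut.conj g⁻¹ x)) ∧
        wcv red (cm (MulAut.conj g⁻¹) Q) (fun x => χ (MulAut.conj g⁻¹ x))
          (fun x : G => z x) = 1 ∧
        ∀ γ : Γ, FxC G (cm (MulAut.conj g⁻¹) Q) (fun x => χ (MulAut.conj g⁻¹ x)) γ) := by
    rintro g Q χ ⟨h1, h2, h3⟩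
    refine ⟨Pool.Agent.N85.WM.Ww.isW_cm _ h1, ?_, fxc_cm g h3⟩
    have h4 := wcv_cm red (MulAut.conj g⁻¹) h1 hcl
    rw [hzc] at h4
    rw [h4]
    exact h2
  have hinv : ∀ x : G, MulAut.conj g⁻¹ (MulAut.conj g⁻¹⁻¹ x) = x := by
    intro x
    change g⁻¹ * (g⁻¹⁻¹ * x * g⁻¹⁻¹⁻¹) * g⁻¹⁻¹ = x
    group
  have hinv' : ∀ x : G, MulAut.conj g⁻¹⁻¹ (MulAut.conj g⁻¹ x) = x := by
    intro x
    change g⁻¹⁻¹ * (g⁻¹ * x * g⁻¹⁻¹) * g⁻¹⁻¹⁻¹ = x
    group
  have hQ : cm (MulAut.conj g⁻¹⁻¹) (cm (MulAut.conj g⁻¹) Q) = Q := by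
    ext x
    rw [mem_cm, mem_cm, hinv]
  refine Nat.card_congr ?_
  refine
    { toFun := fun χ => ⟨fun x => χ.1 (MulAut.conj g⁻¹⁻¹ x), ?_⟩
      invFun := fun χ => ⟨fun x => χ.1 (MulAut.conj g⁻¹ x), step g Q χ.1 χ.2⟩
      left_inv := fun χ => Subtype.ext (funext fun x => by
        change χ.1 (MulAut.conj g⁻¹⁻¹ (MulAut.conj g⁻¹ x)) = χ.1 x
        rw [hinv'])
      right_inv := fun χ => Subtype.ext (funext fun x => by
        change χ.1 (MulAut.conj g⁻¹ (MulAut.conj g⁻¹⁻¹ x)) = χ.1 x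
        rw [hinv]) }
  have h1 := step g⁻¹ _ χ.1 χ.2
  rw [hQ] at h1
  exact h1

/-- **the number of the invariant classes of weights** -/
theorem numInvWt_tot {B : (G → F) → F} (hB : IsBlock B) {z : Γ → F} (hz : InZ G z)
    (h1 : B (fun x : G => z x) = 1)
    (h2 : ∀ B' : (G → F) → F, IsBlock B' → B' (fun x : G => z x) = 1 → BEq B B') :
    (Nat.card G : ℤ) * ((∑ᶠ c : Quotient (pSubgroupSetoid p G), numInvWt p red G c.out.1 B : ℕ) : ℤ)
      = tot (fun Q χ => IsW p Q χ ∧ wcv red Q χ (fun x : G => z x) = 1 ∧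
        ∀ g : Γ, FxC G Q χ g) := by
  have h3 := Pool.Agent.Y286.NV.orbit_weights (Γ := G) p (fun Q => Nat.card {χ : G → ℂ // IsW p Q χ ∧
      wcv red Q χ (fun x : G => z x) = 1 ∧ ∀ γ : Γ, FxC G Q χ γ}) (fun g Q => h_conj red hz g Q)
  have h4 : (∑ᶠ c : Quotient (pSubgroupSetoid p G), numInvWt p red G c.out.1 B) =
      ∑ᶠ c : Quotient (pSubgroupSetoid p G), Nat.card {χ : G → ℂ // IsW p c.out.1 χ ∧
      wcv red c.out.1 χ (fun x : G => z x) = 1 ∧ ∀ γ : Γ, FxC G c.out.1 χ γ} :=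
    finsum_congr fun c => numInvWt_eq red hB hz h1 h2 c.out.2
  rw [← h4] at h3
  have h5 : ((Nat.card G * ∑ᶠ c : Quotient (pSubgroupSetoid p G),
      numInvWt p red G c.out.1 B : ℕ) : ℤ) = _ := congrArg Nat.cast h3
  rw [Nat.cast_mul] at h5
  rw [h5]
  unfold tot
  haveI : Fintype (Subgroup G) := Fintype.ofFinite _
  haveI : Fintype {Q : Subgroup G // IsPGroup p Q} := Fintype.ofFinite _
  rw [finsum_eq_sum_of_fintype, finsum_eq_sum_of_fintype, Nat.cast_sum]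
  have h6 : ∀ Q : Subgroup G, ¬ IsPGroup p Q →
      (Nat.card (Subgroup.normalizer (Q : Set G)) : ℤ) * (Nat.card {χ : G → ℂ // IsW p Q χ ∧
      wcv red Q χ (fun x : G => z x) = 1 ∧ ∀ γ : Γ, FxC G Q χ γ} : ℤ) = 0 := by
    intro Q hQ
    have : IsEmpty {χ : G → ℂ // IsW p Q χ ∧
      wcv red Q χ (fun x : G => z x) = 1 ∧ ∀ γ : Γ, FxC G Q χ γ} := ⟨fun χ => hQ χ.2.1.pg⟩
    have h7 : Nat.card {χ : G → ℂ // IsW p Q χ ∧
      wcv red Q χ (fun x : G => z x) = 1 ∧ ∀ γ : Γ, FxC G Q χ γ} = 0 := Nat.card_of_isEmpty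
    rw [h7]
    simp
  rw [← Finset.sum_subset (Finset.subset_univ (Finset.univ.filter (fun Q : Subgroup G =>
    IsPGroup p Q))) (fun Q _ hQ => h6 Q (by simpa using hQ))]
  rw [Finset.sum_subtype (Finset.univ.filter (fun Q : Subgroup G => IsPGroup p Q))
    (p := fun Q : Subgroup G => IsPGroup p Q) (by simp)]
  refine Finset.sum_congr rfl fun Q _ => ?_
  push_cast
  rfl

end cnt

end Pool.Agent.P8H58
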