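import Pool.Agent.P8H58.Rel2

/-!
# Extension of invariant modules to cyclic extensions
-/

set_option autoImplicit false
set_option linter.unusedSectionVars false

open scoped Classical

noncomputable section

namespace Pool.Agent.P8H58

open Pool.Agent.Y63.NV Representation

variable {F : Type} [Field F]

/-- Schur -/
theorem Md.schur [IsAlgClosed F] {G : Type} [Group G] (A : Md F G) (T : Module.End F A.V)
    (h : ∀ g, T * A.ρ g = A.ρ g * T) : ∃ c : F, T = c • 1 := by
  have := A.irr
  let T' : IntertwiningMap A.ρ A.ρ := ⟨T, fun x => by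
    ext v
    exact LinearMap.congr_fun (h x) v⟩
  obtain ⟨c, hc⟩ := (IsIrreducible.algebraMap_intertwiningMap_bijective_of_isAlgClosed
    (ρ := A.ρ)).2 T'
  exact ⟨c, (congrArg IntertwiningMap.toLinearMap hc).symm⟩

variable {M : Type} [Group M] {N : Subgroup M} [N.Normal]

/-- the conjugate of a module -/
def Md.cj (B : Md F N) (x : M) : Md F N where
  V := B.V
  ρ := B.ρ.comp (MulAut.conjNormal x : MulAut N).toMonoidHom
  irr := by
    haveI := B.nontriv
    refine irr_of (G := N) _ fun S hS => B.sub S fun n v hv => ?_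
    have h1 := hS ((MulAut.conjNormal x : MulAut N).symm n) v hv
    change B.ρ ((MulAut.conjNormal x : MulAut N) ((MulAut.conjNormal x : MulAut N).symm n)) v ∈ S
      at h1
    rwa [MulEquiv.apply_symm_apply] at h1

theorem Md.cj_rho (B : Md F N) (x : M) (n : N) : (B.cj x).ρ n = B.ρ (MulAut.conjNormal x n) := rfl

theorem Md.cj_tr (B : Md F N) (x : M) (n : N) : (B.cj x).tr n = B.tr (MulAut.conjNormal x n) := rfl

/-- **Extension.** -/
theorem exists_extension [IsAlgClosed F] [Finite M] (g : M) (hg : ∀ x : M, ∃ k : ℤ, x * g ^ (-k) ∈ N)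
    (B : Md F N) (hB : (B.cj g).tr = B.tr) :
    ∃ D : Md F M, ∃ e : D.V ≃ₗ[F] B.V, ∀ (n : N) (v : D.V), e (D.ρ n v) = B.ρ n (e v) := by
  obtain ⟨e1, he1⟩ := iso_of_tr B (B.cj g) hB.symm
  obtain ⟨e0, he0⟩ : ∃ e0 : B.V ≃ₗ[F] B.V, ∀ (n : N) (v : B.V), e0 (B.ρ n v) =
    B.ρ (MulAut.conjNormal g n) (e0 v) := ⟨e1, he1⟩
  let U := (Module.End F B.V)ˣ
  let R : N →* U := MonoidHom.toHomUnits B.ρ
  have hR : ∀ n, ((R n : U) : Module.End F B.V) = B.ρ n := fun n => rfl
  let T0 : U := ⟨e0.toLinearMap, e0.symm.toLinearMap, by ext v; simp, by ext v; simp⟩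
  have hT0 : ∀ n : N, T0 * R n = R (MulAut.conjNormal g n) * T0 := by
    intro n
    apply Units.ext
    ext v
    exact he0 n v
  set m := orderOf (g : M ⧸ N) with hm
  have hm0 : 0 < m := orderOf_pos _
  have hgm : g ^ m ∈ N := by
    rw [← QuotientGroup.eq_one_iff, QuotientGroup.mk_pow]
    exact pow_orderOf_eq_one _
  let gm : N := ⟨g ^ m, hgm⟩
  have hTk : ∀ (k : ℕ) (n : N), T0 ^ k * R n = R (MulAut.conjNormal (g ^ k) n) * T0 ^ k := by
    intro k
    induction k with
    | zero =>
      intro n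
      rw [pow_zero, one_mul, mul_one, pow_zero, map_one]
      rfl
    | succ k ih =>
      intro n
      rw [pow_succ, mul_assoc, hT0, ← mul_assoc, ih, mul_assoc, pow_succ g, map_mul]
      rfl
  have hconj : ∀ n : N, MulAut.conjNormal (g ^ m) n = gm * n * gm⁻¹ := by
    intro n
    apply Subtype.ext
    rw [MulAut.conjNormal_apply]
    rfl
  let S : U := (R gm)⁻¹ * T0 ^ m
  have hS : ∀ n : N, (S : Module.End F B.V) * B.ρ n = B.ρ n * (S : Module.End F B.V) := by
    intro n
    have h1 : S * R n = R n * S := by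
      change (R gm)⁻¹ * T0 ^ m * R n = R n * ((R gm)⁻¹ * T0 ^ m)
      rw [mul_assoc, hTk, hconj, map_mul, map_mul, map_inv]
      simp only [mul_assoc]
      exact inv_mul_cancel_left (R gm) _
    exact congrArg Units.val h1
  obtain ⟨c, hc⟩ := B.schur _ hS
  have hc0 : c ≠ 0 := by
    rintro rfl
    haveI := B.nontriv
    rw [zero_smul] at hc
    exact S.ne_zero hc
  obtain ⟨u, hu⟩ := IsAlgClosed.exists_pow_nat_eq c⁻¹ hm0
  have hu0 : u ≠ 0 := by
    rintro rfl
    rw [zero_pow hm0.ne'] at hu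
    exact inv_ne_zero hc0 hu.symm
  let uU : U := Units.map (algebraMap F (Module.End F B.V)).toMonoidHom (Units.mk0 u hu0)
  have huc : ∀ x : U, uU * x = x * uU := by
    intro x
    apply Units.ext
    exact Algebra.commutes u (x : Module.End F B.V)
  let T : U := uU * T0
  have hT : ∀ n : N, T * R n = R (MulAut.conjNormal g n) * T := by
    intro n
    change uU * T0 * R n = R (MulAut.conjNormal g n) * (uU * T0)
    rw [mul_assoc, hT0, ← mul_assoc, huc, mul_assoc]
  have hTm : T ^ m = R gm := by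
    have h1 : T ^ m = uU ^ m * T0 ^ m := (show Commute uU T0 from huc T0).mul_pow m
    have h2 : T0 ^ m = R gm * S := by
      change T0 ^ m = R gm * ((R gm)⁻¹ * T0 ^ m)
      rw [mul_inv_cancel_left]
    have h3 : uU ^ m * S = 1 := by
      apply Units.ext
      rw [Units.val_mul, Units.val_pow_eq_pow_val, Units.val_one, hc]
      change (algebraMap F (Module.End F B.V) u) ^ m * (c • 1) = 1
      rw [← map_pow, hu, Algebra.algebraMap_eq_smul_one, smul_mul_smul_comm, mul_one,
        inv_mul_cancel₀ hc0, one_smul]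
    rw [h1, h2, ← mul_assoc, (show Commute (uU ^ m) (R gm) from
      (show Commute uU (R gm) from huc _).pow_left m).eq, mul_assoc, h3, mul_one]
  let φ : Multiplicative ℤ →* MulAut N := zpowersHom _ (MulAut.conjNormal g)
  have hφ : ∀ k : Multiplicative ℤ, φ k = MulAut.conjNormal (g ^ k.toAdd) := by
    intro k
    change (MulAut.conjNormal g) ^ k.toAdd = _
    rw [map_zpow]
  have hTz : ∀ (k : ℤ) (n : N), R (MulAut.conjNormal (g ^ k) n) = T ^ k * R n * (T ^ k)⁻¹ := by
    have h1 : ∀ (k : ℕ) (n : N), T ^ k * R n = R (MulAut.conjNormal (g ^ k) n) * T ^ k := by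
      intro k
      induction k with
      | zero =>
        intro n
        rw [pow_zero, one_mul, mul_one, pow_zero, map_one]
        rfl
      | succ k ih =>
        intro n
        rw [pow_succ, mul_assoc, hT, ← mul_assoc, ih, mul_assoc, pow_succ g, map_mul]
        rfl
    intro k n
    rcases Int.eq_nat_or_neg k with ⟨j, rfl | rfl⟩
    · rw [zpow_natCast, zpow_natCast, h1]
      group
    · rw [zpow_neg, zpow_neg, zpow_natCast, zpow_natCast, inv_inv]
      have h2 := h1 j (MulAut.conjNormal (g ^ j)⁻¹ n)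
      have h3 : MulAut.conjNormal (g ^ j) (MulAut.conjNormal (g ^ j)⁻¹ n) = n := by
        apply Subtype.ext
        rw [MulAut.conjNormal_apply, MulAut.conjNormal_apply]
        group
      rw [h3] at h2
      rw [mul_assoc, ← h2]
      group
  let π : N ⋊[φ] Multiplicative ℤ →* M := SemidirectProduct.lift N.subtype (zpowersHom M g) (by
    intro k
    ext n
    change ((φ k n : N) : M) = (g ^ k.toAdd) * n * (g ^ k.toAdd)⁻¹
    rw [hφ, MulAut.conjNormal_apply])
  let τ : N ⋊[φ] Multiplicative ℤ →* U := SemidirectProduct.lift R (zpowersHom U T) (by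
    intro k
    ext1 n
    change R (φ k n) = (T ^ k.toAdd) * R n * (T ^ k.toAdd)⁻¹
    rw [hφ, hTz])
  have hπ1 : ∀ y, π y = (y.left : M) * g ^ y.right.toAdd := fun y => rfl
  have hτ1 : ∀ y, τ y = R y.left * T ^ y.right.toAdd := fun y => rfl
  have hπ : Function.Surjective π := by
    intro x
    obtain ⟨k, hk⟩ := hg x
    refine ⟨⟨⟨_, hk⟩, Multiplicative.ofAdd k⟩, ?_⟩
    rw [hπ1]
    change x * g ^ (-k) * g ^ k = x
    rw [mul_assoc, ← zpow_add, neg_add_cancel, zpow_zero, mul_one]
  have hker : π.ker ≤ τ.ker := by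
    intro y hy
    rw [MonoidHom.mem_ker] at hy ⊢
    rw [hπ1] at hy
    rw [hτ1]
    set k := y.right.toAdd with hk
    have h1 : (y.left : M) = g ^ (-k) := by
      rw [zpow_neg]
      exact eq_inv_of_mul_eq_one_left hy
    have h2 : (g : M ⧸ N) ^ k = 1 := by
      have h3 : g ^ (-k) ∈ N := h1 ▸ y.left.2
      have h4 : g ^ k ∈ N := by
        have := inv_mem h3
        rwa [zpow_neg, inv_inv] at this
      rw [← QuotientGroup.mk_zpow]
      exact (QuotientGroup.eq_one_iff _).2 h4
    obtain ⟨j, hj⟩ := orderOf_dvd_iff_zpow_eq_one.2 h2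
    have h3 : y.left = gm ^ (-j) := by
      apply Subtype.ext
      rw [h1, hj]
      change g ^ (-((m : ℤ) * j)) = ((gm ^ (-j) : N) : M)
      rw [Subgroup.coe_zpow]
      change _ = (g ^ m) ^ (-j)
      rw [← zpow_natCast, ← zpow_mul]
      congr 1
      ring
    rw [h3, map_zpow, hj, zpow_mul, zpow_natCast]
    change (R gm) ^ (-j) * (T ^ m) ^ j = 1
    rw [hTm, ← zpow_add, neg_add_cancel, zpow_zero]
  let ρM : M →* U := π.liftOfSurjective hπ ⟨τ, hker⟩
  have hρM : ∀ y, ρM (π y) = τ y := fun y =>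
    MonoidHom.liftOfRightInverse_comp_apply π _ _ ⟨τ, hker⟩ y
  have hN : ∀ n : N, ((ρM n : U) : Module.End F B.V) = B.ρ n := by
    intro n
    have h1 : (n : M) = π (SemidirectProduct.inl n) := by
      rw [hπ1]
      simp
    rw [h1, hρM, hτ1]
    simp [hR]
  let ρ : Representation F M B.V := (Units.coeHom _).comp ρM
  haveI := B.nontriv
  refine ⟨⟨B.V, ρ, irr_of ρ fun S' hS' => B.sub S' fun n v hv => ?_⟩, LinearEquiv.refl F B.V,
    fun n v => ?_⟩
  · have h1 := hS' n v hv
    change ((ρM n : U) : Module.End F B.V) v ∈ S' at h1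
    rwa [hN] at h1
  · change ((ρM n : U) : Module.End F B.V) v = B.ρ n v
    rw [hN]

end Pool.Agent.P8H58
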