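import Mathlib

/-!
# Growth
-/

set_option autoImplicit false
set_option linter.unusedSectionVars false

open scoped Classical

noncomputable section

namespace Pool.Agent.P8H58

/-- an exponential inequality up to a polynomial and an arbitrarily small exponential error -/
theorem grow {a b R : ℝ} (ha : 0 ≤ a) (hb : 0 ≤ b) (hR : 1 < R) (u : ℕ → ℕ)
    (hu : Filter.Tendsto u Filter.atTop Filter.atTop)
    (h : ∀ ε : ℝ, 0 < ε → ∃ D : ℝ, ∀ k : ℕ, a ^ u k ≤ D * (u k : ℝ) ^ 3 * (R ^ u k) ^ ε * b ^ u k) :
    a ≤ b := by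
  by_contra hab
  push Not at hab
  rcases hb.lt_or_eq with hb0 | hb0
  · have hq : 1 < a / b := (one_lt_div hb0).2 hab
    have hlq : 0 < Real.log (a / b) := Real.log_pos hq
    have hlR : 0 < Real.log R := Real.log_pos hR
    obtain ⟨D, hD⟩ := h (Real.log (a / b) / (2 * Real.log R)) (by positivity)
    set ε := Real.log (a / b) / (2 * Real.log R) with hε
    have hR0 : 0 < R := by linarith
    have hRe : R ^ ε = Real.exp (Real.log (a / b) / 2) := by
      rw [Real.rpow_def_of_pos hR0, hε]
      congr 1
      field_simp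
    have hc : 1 < a / b / R ^ ε := by
      rw [one_lt_div (by positivity), hRe]
      have h1 : Real.exp (Real.log (a / b) / 2) < Real.exp (Real.log (a / b)) :=
        Real.exp_lt_exp.2 (by linarith)
      rwa [Real.exp_log (by positivity)] at h1
    have ht := (tendsto_pow_const_div_const_pow_of_one_lt 3 hc).comp hu
    have ht2 : Filter.Tendsto (fun k => D * ((fun n : ℕ => (n : ℝ) ^ 3 / (a / b / R ^ ε) ^ n) ∘ u) k)
        Filter.atTop (nhds (D * 0)) := ht.const_mul D
    rw [mul_zero] at ht2
    have hev := ht2.eventually (gt_mem_nhds (show (0 : ℝ) < 1 by norm_num))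
    obtain ⟨k, hk⟩ := hev.exists
    have h2 := hD k
    have h3 : (R ^ u k) ^ ε = (R ^ ε) ^ u k := by
      rw [← Real.rpow_natCast, ← Real.rpow_natCast, ← Real.rpow_mul hR0.le,
        ← Real.rpow_mul hR0.le, mul_comm]
    rw [h3] at h2
    simp only [Function.comp_apply] at hk
    rw [div_pow, div_pow] at hk
    have hpb : 0 < b ^ u k := by positivity
    have hpR : 0 < (R ^ ε) ^ u k := by positivity
    have hpa : 0 < a ^ u k := by
      have : 0 < a := lt_of_le_of_lt hb0.le hab
      positivity
    have h4 : D * ((u k : ℝ) ^ 3 / (a ^ u k / b ^ u k / (R ^ ε) ^ u k)) =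
        D * (u k : ℝ) ^ 3 * (R ^ ε) ^ u k * b ^ u k / a ^ u k := by
      field_simp
    rw [h4, div_lt_one hpa] at hk
    linarith
  · obtain ⟨D, hD⟩ := h 1 one_pos
    have hev := hu.eventually (Filter.eventually_ge_atTop 1)
    obtain ⟨k, hk⟩ := hev.exists
    have h2 := hD k
    rw [← hb0, zero_pow (by omega), mul_zero] at h2
    have hpa : 0 < a ^ u k := by
      have : 0 < a := lt_of_le_of_lt (hb0 ▸ le_rfl) hab
      positivity
    linarith

/-- no normal subgroup of index `p` -/
theorem index_p {p : ℕ} [Fact p.Prime] {G : Type} [Group G] [Finite G]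
    (h : ∀ N : Subgroup G, N.Normal → N.index ≠ p) : ¬ p ∣ Nat.card (Abelianization G) := by
  intro hd
  have hp : p.Prime := Fact.out
  have hcard : Nat.card (Abelianization G →* ℂˣ) = Nat.card (Abelianization G) :=
    CommGroup.card_monoidHom_of_hasEnoughRootsOfUnity _ _
  rw [← hcard] at hd
  haveI : Finite (Abelianization G →* ℂˣ) := Nat.finite_of_card_ne_zero (by
    rw [hcard]; exact Nat.card_pos.ne')
  obtain ⟨μ, hμ⟩ := exists_prime_orderOf_dvd_card' p hd
  have hle : μ.range ≤ rootsOfUnity p ℂ := by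
    rintro _ ⟨a, rfl⟩
    rw [mem_rootsOfUnity]
    have h1 : μ ^ p = 1 := by rw [← hμ]; exact pow_orderOf_eq_one μ
    have h2 := DFunLike.congr_fun h1 a
    exact h2
  haveI : NeZero p := ⟨hp.ne_zero⟩
  have h1 : Nat.card μ.range ∣ p := by
    have h2 := Subgroup.card_dvd_of_le hle
    rwa [Complex.card_rootsOfUnity] at h2
  rcases (Nat.dvd_prime hp).1 h1 with h2 | h2
  · have h3 : μ.range = ⊥ := Subgroup.card_eq_one.1 h2
    have h4 : μ = 1 := MonoidHom.range_eq_bot_iff.1 h3
    rw [h4, orderOf_one] at hμ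
    exact hp.one_lt.ne hμ
  · refine h (μ.comp Abelianization.of).ker inferInstance ?_
    rw [Subgroup.index_ker]
    have h3 : (μ.comp (Abelianization.of (G := G))).range = μ.range := by
      rw [MonoidHom.range_comp]
      have h4 : (Abelianization.of (G := G)).range = ⊤ :=
        MonoidHom.range_eq_top.2 (QuotientGroup.mk'_surjective _)
      rw [h4, ← MonoidHom.range_eq_map]
    rw [h3, h2]

/-- a prime divisor different from `p` -/
theorem exists_q (p : ℕ) [Fact p.Prime] (S : Type) [Group S] [Finite S] [IsSimpleGroup S]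
    {s t : S} (hst : s * t ≠ t * s) : ∃ q : ℕ, q.Prime ∧ q ≠ p ∧ q ∣ Nat.card S := by
  by_contra hcon
  push Not at hcon
  have hpg : IsPGroup p S := by
    rw [IsPGroup.iff_card]
    refine ⟨_, Nat.eq_prime_pow_of_unique_prime_dvd Nat.card_pos.ne' ?_⟩
    intro d hd hdv
    by_contra hne
    exact hcon d hd hne hdv
  haveI := IsPGroup.center_nontrivial hpg
  have h1 : (Subgroup.center S) ≠ ⊥ := by
    intro h
    rw [h] at this
    exact not_nontrivial _ this
  have h2 : Subgroup.center S = ⊤ := by
    rcases (inferInstance : (Subgroup.center S).Normal).eq_bot_or_eq_top with h | h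
    · exact absurd h h1
    · exact h
  have h3 : t ∈ Subgroup.center S := by rw [h2]; trivial
  exact hst (Subgroup.mem_center_iff.1 h3 s)

end Pool.Agent.P8H58
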