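import Pool.Agent.P8H58.Twi

/-!
# The orbit of a block under twists
-/

set_option autoImplicit false
set_option linter.unusedSectionVars false

open scoped Classical

noncomputable section

namespace Pool.Agent.P8H58

open Pool.Agent.Y63.NV
open Pool.Agent.N85.WM (IsW wcv blkOf blkOf_block blkOf_spec BEq YS cvS cvS_block numWts
  numWts_eq numIrrBlock_eq uno uno_class block_uno cvS_uno card_YS IsIdem cl_add cl_smul)
open Pool.Agent.Y930.NV (redC_mul redC_one redC_sum redC_zero)

variable {F : Type} [Field F] {G : Type} [Group G] [Finite G] (red : integralClosure ℤ ℂ →+* F)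

theorem tw_add (μ : Lam G) (f g : G → F) : tw red μ (f + g) = tw red μ f + tw red μ g := by
  funext x
  unfold tw
  rw [Pi.add_apply, Pi.add_apply, mul_add]

theorem tw_smul (μ : Lam G) (a : F) (f : G → F) : tw red μ (a • f) = a • tw red μ f := by
  funext x
  unfold tw
  rw [Pi.smul_apply, Pi.smul_apply, smul_eq_mul, smul_eq_mul]
  ring

theorem tw_single (μ : Lam G) : tw red μ (Pi.single 1 1 : G → F) = Pi.single 1 1 := by
  funext x
  unfold tw
  by_cases hx : x = 1
  · subst hx
    rw [map_one, one_mul]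
  · rw [Pi.single_eq_of_ne hx, mul_zero]

theorem tw_conv (μ : Lam G) (f g : G → F) :
    tw red μ (conv f g) = conv (tw red μ f) (tw red μ g) := by
  haveI := Fintype.ofFinite G
  funext x
  unfold tw conv
  rw [finsum_eq_sum_of_fintype, finsum_eq_sum_of_fintype, Finset.mul_sum]
  refine Finset.sum_congr rfl fun y _ => ?_
  have h1 : rH red (hat μ) x = rH red (hat μ) y * rH red (hat μ) (y⁻¹ * x) := by
    rw [← map_mul, mul_inv_cancel_left]
  rw [h1]
  ring

theorem tw_block {B : (G → F) → F} (hB : IsBlock B) (μ : Lam G) :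
    IsBlock (fun f => B (tw red μ f)) where
  add f g hf hg := by rw [tw_add, hB.add _ _ (tw_cl red μ hf) (tw_cl red μ hg)]
  smul a f hf := by rw [tw_smul, hB.smul _ _ (tw_cl red μ hf)]
  one := by rw [tw_single, hB.one]
  mul f g hf hg := by rw [tw_conv, hB.mul _ _ (tw_cl red μ hf) (tw_cl red μ hg)]

/-- the restriction to the commutator subgroup -/
def cG (e0 : G → F) : G → F := fun x => if x ∈ commutator G then e0 x else 0

theorem cG_cl {e0 : G → F} (h : IsClassFun e0) : IsClassFun (cG e0) := by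
  intro g x
  unfold cG
  have : g * x * g⁻¹ ∈ commutator G ↔ x ∈ commutator G := by
    constructor
    · intro h1
      have h2 := Subgroup.Normal.conj_mem (inferInstance : (commutator G).Normal) _ h1 g⁻¹
      have e : g⁻¹ * (g * x * g⁻¹) * g⁻¹⁻¹ = x := by group
      rwa [e] at h2
    · intro h1
      exact Subgroup.Normal.conj_mem inferInstance _ h1 g
  simp only [this, h g x]

theorem sum_hat_zero {x : G} (hx : x ∉ commutator G) [Fintype (Lam G)] :
    ∑ μ : Lam G, hat μ x = 0 := by
  have h1 : Abelianization.of x ≠ 1 := fun h => hx ((QuotientGroup.eq_one_iff x).1 h)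
  obtain ⟨μ0, h0⟩ := CommGroup.exists_apply_ne_one_of_hasEnoughRootsOfUnity
    (Abelianization G) ℂ h1
  have h2 : ∑ μ : Lam G, hat μ x = hat μ0 x * ∑ μ : Lam G, hat μ x := by
    rw [Finset.mul_sum]
    refine (Fintype.sum_equiv (Equiv.mulLeft μ0) _ _ fun μ => ?_).symm
    change hat μ0 x * hat μ x = hat (μ0 * μ) x
    rw [hat_mul, MonoidHom.mul_apply]
  have h3 : (1 - hat μ0 x) * ∑ μ : Lam G, hat μ x = 0 := by
    rw [sub_mul, one_mul, ← h2, sub_self]
  rcases mul_eq_zero.1 h3 with h4 | h4
  · exfalso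
    apply h0
    apply Units.ext
    exact (sub_eq_zero.1 h4).symm
  · exact h4

theorem sum_tw [Fintype (Lam G)] (e0 : G → F) :
    ∑ μ : Lam G, tw red μ e0 = (Nat.card (Lam G) : F) • cG e0 := by
  funext x
  rw [Finset.sum_apply, Pi.smul_apply, smul_eq_mul]
  unfold tw cG
  rw [← Finset.sum_mul]
  by_cases hx : x ∈ commutator G
  · rw [if_pos hx]
    congr 1
    have h1 : ∀ μ : Lam G, rH red (hat μ) x = 1 := by
      intro μ
      change redC red (((μ (Abelianization.of x)) : ℂˣ) : ℂ) = 1
      have : Abelianization.of x = 1 := (QuotientGroup.eq_one_iff x).2 hx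
      rw [this, map_one, Units.val_one, redC_one]
    rw [Finset.sum_congr rfl fun μ _ => h1 μ, Finset.sum_const, Finset.card_univ, nsmul_eq_mul,
      mul_one, Nat.card_eq_fintype_card]
  · rw [if_neg hx, mul_zero]
    have h1 : ∑ μ : Lam G, rH red (hat μ) x = redC red (∑ μ : Lam G, hat μ x) := by
      rw [redC_sum red _ _ (fun μ _ => hom_int (hat μ) x)]
      rfl
    rw [h1, sum_hat_zero hx, redC_zero, zero_mul]

theorem block_sum {B : (G → F) → F} (hB : IsBlock B) {ι : Type} (s : Finset ι) (f : ι → G → F)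
    (hf : ∀ i, IsClassFun (f i)) :
    B (∑ i ∈ s, f i) = ∑ i ∈ s, B (f i) ∧ IsClassFun (∑ i ∈ s, f i) := by
  induction s using Finset.induction_on with
  | empty =>
    constructor
    · rw [Finset.sum_empty, Finset.sum_empty]
      have h1 := hB.smul 0 (0 : G → F) (fun _ _ => rfl)
      rw [zero_smul, zero_mul] at h1
      exact h1
    · rw [Finset.sum_empty]
      exact fun _ _ => rfl
  | insert u s hu ih =>
    rw [Finset.sum_insert hu, Finset.sum_insert hu]
    refine ⟨?_, ?_⟩
    · rw [hB.add _ _ (hf u) ih.2, ih.1]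
    · intro a b
      rw [Pi.add_apply, Pi.add_apply, hf u a b, ih.2 a b]

section orb

variable {p : ℕ} [Fact p.Prime] [CharP F p] (hG : ¬ p ∣ Nat.card (Abelianization G))
  {B : (G → F) → F} (hB : IsBlock B) {e0 : G → F} (he0 : IsIdem e0) (h1 : B e0 = 1)
  (h2 : ∀ B' : (G → F) → F, IsBlock B' → B' e0 = 1 → BEq B B')

/-- the twists which map a block to the orbit of `e0` -/
abbrev TT (red : integralClosure ℤ ℂ →+* F) (e0 : G → F) (B' : (G → F) → F) : Type :=
  {μ : Lam G // B' (tw red μ e0) ≠ 0}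

include hB he0 h1 h2

theorem shift_T {B' : (G → F) → F} (hB' : IsBlock B') {μ0 : Lam G}
    (h : B' (tw red μ0 e0) ≠ 0) (μ : Lam G) : B' (tw red (μ0 * μ) e0) = B (tw red μ e0) := by
  have hb := tw_block red hB' μ0
  have h3 : B' (tw red μ0 e0) = 1 := (he0.val _ hb).resolve_left h
  have h4 := h2 _ hb h3 (tw red μ e0) (tw_cl red μ he0.cl)
  rw [h4, tw_mul]

theorem card_T {B' : (G → F) → F} (hB' : IsBlock B') (hne : Nonempty (TT red e0 B')) :
    Nat.card (TT red e0 B') = Nat.card (TT red e0 B) := by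
  obtain ⟨μ0, h0⟩ := hne
  symm
  refine Nat.card_congr ((Equiv.mulLeft μ0).subtypeEquiv fun μ => ?_)
  change B (tw red μ e0) ≠ 0 ↔ B' (tw red (μ0 * μ) e0) ≠ 0
  rw [shift_T red hB he0 h1 h2 hB' h0 μ]

theorem card_T_dvd : Nat.card (TT red e0 B) ∣ Nat.card (Lam G) := by
  let S : Subgroup (Lam G) :=
    { carrier := {μ | B (tw red μ e0) ≠ 0}
      one_mem' := by
        change B (tw red 1 e0) ≠ 0
        rw [tw_one, h1]
        exact one_ne_zero
      mul_mem' := fun {μ ν} hμ hν => by
        change B (tw red (μ * ν) e0) ≠ 0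
        rw [shift_T red hB he0 h1 h2 hB hμ ν]
        exact hν
      inv_mem' := fun {μ} hμ => by
        change B (tw red μ⁻¹ e0) ≠ 0
        have h3 := shift_T red hB he0 h1 h2 hB hμ μ⁻¹
        have h4 : μ * μ⁻¹ = 1 := by
          ext x
          simp
        rw [h4, tw_one, h1] at h3
        rw [← h3]
        exact one_ne_zero }
  exact Subgroup.card_subgroup_dvd_card S

omit hB h1 h2 in
theorem val_cG {B' : (G → F) → F} (hB' : IsBlock B') :
    (Nat.card (Lam G) : F) * B' (cG e0) = (Nat.card (TT red e0 B') : F) := by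
  haveI : Fintype (Lam G) := Fintype.ofFinite _
  have h3 := (block_sum hB' Finset.univ (fun μ : Lam G => tw red μ e0)
    (fun μ => tw_cl red μ he0.cl)).1
  rw [sum_tw, hB'.smul _ _ (cG_cl he0.cl)] at h3
  rw [h3]
  have h4 : ∀ μ : Lam G, B' (tw red μ e0) = if B' (tw red μ e0) ≠ 0 then 1 else 0 := by
    intro μ
    rcases he0.val _ (tw_block red hB' μ) with h5 | h5
    · have h6 : B' (tw red μ e0) = 0 := h5
      rw [if_neg (fun h => h h6), h6]
    · have h6 : B' (tw red μ e0) = 1 := h5
      rw [if_pos (by rw [h6]; exact one_ne_zero), h6]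
  rw [Finset.sum_congr rfl fun μ _ => h4 μ, Finset.sum_boole, Nat.card_eq_fintype_card,
    Fintype.card_subtype]

include hG

theorem T_ne : (Nat.card (TT red e0 B) : F) ≠ 0 := by
  intro h
  have h3 := (CharP.cast_eq_zero_iff F p _).1 h
  have h4 := h3.trans (card_T_dvd red hB he0 h1 h2)
  rw [card_Lam] at h4
  exact hG h4

theorem cG_ne_iff {B' : (G → F) → F} (hB' : IsBlock B') :
    B' (cG e0) ≠ 0 ↔ Nonempty (TT red e0 B') := by
  have h3 := val_cG red he0 hB'
  constructor
  · intro h
    by_contra hcon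
    rw [not_nonempty_iff] at hcon
    have h6 : Nat.card (TT red e0 B') = 0 := Nat.card_of_isEmpty
    rw [h6, Nat.cast_zero] at h3
    rcases mul_eq_zero.1 h3 with h4 | h4
    · have h5 := (CharP.cast_eq_zero_iff F p _).1 h4
      rw [card_Lam] at h5
      exact hG h5
    · exact h h4
  · intro hne h
    rw [h, mul_zero, card_T red hB he0 h1 h2 hB' hne] at h3
    exact T_ne red hG hB he0 h1 h2 h3.symm

/-- the double count -/
theorem double_count {X : Type} [Finite X] (a : X → (G → F) → F) (ha : ∀ x, IsBlock (a x))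
    [Fintype (Lam G)] : ∑ μ : Lam G, Nat.card {x : X // a x (tw red μ e0) ≠ 0} =
      Nat.card (TT red e0 B) * Nat.card {x : X // a x (cG e0) ≠ 0} := by
  haveI : Fintype X := Fintype.ofFinite X
  have e1 : ∀ μ : Lam G, Nat.card {x : X // a x (tw red μ e0) ≠ 0} =
      ∑ x : X, if a x (tw red μ e0) ≠ 0 then 1 else 0 := by
    intro μ
    rw [Nat.card_eq_fintype_card, Fintype.card_subtype, Finset.card_filter]
  have e2 : ∀ x : X, (∑ μ : Lam G, if a x (tw red μ e0) ≠ 0 then 1 else 0) =
      Nat.card (TT red e0 (a x)) := by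
    intro x
    rw [Nat.card_eq_fintype_card, Fintype.card_subtype, Finset.card_filter]
  rw [Finset.sum_congr rfl fun μ _ => e1 μ, Finset.sum_comm, Finset.sum_congr rfl fun x _ => e2 x]
  have e3 : ∀ x : X, Nat.card (TT red e0 (a x)) =
      Nat.card (TT red e0 B) * if a x (cG e0) ≠ 0 then 1 else 0 := by
    intro x
    by_cases hx : a x (cG e0) ≠ 0
    · rw [if_pos hx, mul_one]
      exact card_T red hB he0 h1 h2 (ha x) ((cG_ne_iff red hG hB he0 h1 h2 (ha x)).1 hx)
    · rw [if_neg hx, mul_zero]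
      have : IsEmpty (TT red e0 (a x)) := by
        rw [← not_nonempty_iff]
        exact fun h => hx ((cG_ne_iff red hG hB he0 h1 h2 (ha x)).2 h)
      exact Nat.card_of_isEmpty
  rw [Finset.sum_congr rfl fun x _ => e3 x, ← Finset.mul_sum]
  congr 1
  rw [Nat.card_eq_fintype_card, Fintype.card_subtype, Finset.card_filter]

omit hG in
theorem e0_iff {B' : (G → F) → F} (hB' : IsBlock B') : B' e0 ≠ 0 ↔ BEq B' B := by
  constructor
  · intro h
    exact (h2 B' hB' ((he0.val B' hB').resolve_left h)).symm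
  · intro h
    rw [h e0 he0.cl, h1]
    exact one_ne_zero

/-- **from the orbit to the block** -/
theorem of_orbit [IsAlgClosed F]
    (heq : (Nat.card G : ℤ) * LL (cG e0) = WT p red (cG e0)) :
    numIrrBlock B = numWts p red B := by
  haveI : Fintype (Lam G) := Fintype.ofFinite _
  have a1 := double_count red hG hB he0 h1 h2 (fun φ : {φ : G → F // IsIrrTrace φ} => blkOf φ)
    blkOf_block
  have a2 := double_count red hG hB he0 h1 h2 (fun y : YS p G => cvS red y) (cvS_block red)
  have b1 : ∀ μ : Lam G, Nat.card {φ : {φ : G → F // IsIrrTrace φ} // blkOf φ (tw red μ e0) ≠ 0} =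
      numIrrBlock B := by
    intro μ
    rw [← LL_blk (tw_cl red μ he0.cl), LL_tw, LL_blk he0.cl, numIrrBlock_eq]
    refine Nat.card_congr (Equiv.subtypeEquivRight fun φ => ?_)
    exact e0_iff hB he0 h1 h2 (blkOf_block φ)
  have g0 : (Nat.card G : ℤ) ≠ 0 := by exact_mod_cast (Nat.card_pos (α := G)).ne'
  have b2 : ∀ μ : Lam G, Nat.card {y : YS p G // cvS red y (tw red μ e0) ≠ 0} =
      numWts p red B := by
    intro μ
    have h3 := WT_tw red (Fact.out : p.Prime) hG μ e0
    rw [WT_blk red (tw_cl red μ he0.cl), WT_blk red he0.cl] at h3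
    have h4 := mul_left_cancel₀ g0 h3
    have h5 : Nat.card {y : YS p G // cvS red y (tw red μ e0) ≠ 0} =
        Nat.card {y : YS p G // cvS red y e0 ≠ 0} := by exact_mod_cast h4
    rw [h5, numWts_eq]
    refine Nat.card_congr (Equiv.subtypeEquivRight fun y => ?_)
    exact e0_iff hB he0 h1 h2 (cvS_block red y)
  have c1 : Nat.card {φ : {φ : G → F // IsIrrTrace φ} // blkOf φ (cG e0) ≠ 0} =
      Nat.card {y : YS p G // cvS red y (cG e0) ≠ 0} := by
    rw [LL_blk (cG_cl he0.cl), WT_blk red (cG_cl he0.cl)] at heq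
    exact_mod_cast mul_left_cancel₀ g0 heq
  rw [Finset.sum_congr rfl fun μ _ => b1 μ, Finset.sum_const, smul_eq_mul] at a1
  rw [Finset.sum_congr rfl fun μ _ => b2 μ, Finset.sum_const, smul_eq_mul] at a2
  rw [c1, ← a2] at a1
  have h3 : 0 < (Finset.univ : Finset (Lam G)).card := by
    rw [Finset.card_univ]
    exact Fintype.card_pos
  exact Nat.eq_of_mul_eq_mul_left h3 a1

end orb

end Pool.Agent.P8H58
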