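import Pool.Agent.P8H58.Asm
import Pool.Agent.P8H58.Blk
import Pool.Agent.P8H58.Twi2
import Pool.Agent.P8H58.Grw
import Pool.Agent.P8H58.Cls

/-!
# The weight conjecture and its approximate form for groups without small quotients
-/

set_option autoImplicit false
set_option linter.unusedSectionVars false

open scoped Classical

noncomputable section

namespace Pool.Agent.P8H58

open Pool.Agent.Y63.NV
open Pool.Agent.N85.WM (BEq numWts exists_idem)

variable {F : Type} [Field F] [IsAlgClosed F] {p : ℕ} [Fact p.Prime] [CharP F p]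

/-- the approximate form for `Γ` -/
def Apx (p : ℕ) {F : Type} [Field F] (red : integralClosure ℤ ℂ →+* F) (Γ : Type) [Group Γ]
    (K : ℝ) : Prop :=
  ∀ B : (Γ → F) → F, IsBlock B →
    (numIrrBlock B : ℝ) ≤ K * (numWts p red B : ℝ) ∧ (numWts p red B : ℝ) ≤ K * (numIrrBlock B : ℝ)

variable (red : integralClosure ℤ ℂ →+* F)

theorem exists_l {q : ℕ} (hq : q.Prime) (hqp : q ≠ p) :
    ∃ (l : Multiplicative (ZMod q) →* ℂ) (a : Multiplicative (ZMod q)),
      haveI := Fact.mk hq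
      rH red l a ≠ 1 := by
  haveI := Fact.mk hq
  haveI : NeZero (Monoid.exponent (Multiplicative (ZMod q))) :=
    ⟨Monoid.exponent_ne_zero_of_finite⟩
  haveI : NeZero ((Monoid.exponent (Multiplicative (ZMod q)) : ℕ) : ℂ) :=
    ⟨by exact_mod_cast Monoid.exponent_ne_zero_of_finite⟩
  obtain ⟨a, ha⟩ := exists_ne (1 : Multiplicative (ZMod q))
  obtain ⟨ψ, hψ⟩ := CommGroup.exists_apply_ne_one_of_hasEnoughRootsOfUnity
    (Multiplicative (ZMod q)) ℂ ha
  have hcard : ¬ p ∣ Nat.card (Multiplicative (ZMod q)) := by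
    rw [Nat.card_congr Multiplicative.toAdd, Nat.card_zmod]
    intro h
    exact hqp ((Nat.prime_dvd_prime_iff_eq Fact.out hq).1 h).symm
  refine ⟨(Units.coeHom ℂ).comp ψ, ?_⟩
  by_contra hcon
  push Not at hcon
  have h1 : rH red ((Units.coeHom ℂ).comp ψ) = 1 := MonoidHom.ext hcon
  have h2 := rH_eq_one red hcard h1
  apply hψ
  have h3 := DFunLike.congr_fun h2 a
  exact Units.ext h3

theorem card_Gam_le {H G Y : Type} [Group H] [Fintype H] [Group G] [Finite G] [CommGroup Y]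
    [Finite Y] : Nat.card (Gam H G Y) ≤
      Nat.card G ^ Fintype.card H * Nat.card (V H Y) * Fintype.card H ∧
    Nat.card G ^ Fintype.card H * Nat.card (V H Y) * Fintype.card H ≤
      Nat.card (Abelianization G) * Nat.card (Gam H G Y) := by
  have hW : Nat.card (W H G Y) =
      Nat.card G ^ Fintype.card H * Nat.card (V H Y) * Fintype.card H := by
    rw [Nat.card_congr (SemidirectProduct.equivProd (φ := act H G Y)), Nat.card_prod,
      Nat.card_prod, Nat.card_fun, Nat.card_eq_fintype_card (α := H)]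
  rw [← hW]
  constructor
  · exact Nat.le_of_dvd Nat.card_pos (Subgroup.card_subgroup_dvd_card _)
  · have h1 := Subgroup.index_mul_card (Gam H G Y)
    rw [← h1]
    exact Nat.mul_le_mul_right _ (Nat.le_of_dvd Nat.card_pos index_Gam)

/-- the main inequality, in both directions -/
theorem two_ineq {H G Y : Type} [Group H] [Fintype H] [Group G] [Finite G] [CommGroup Y]
    [Finite Y] (hY : ¬ p ∣ Nat.card Y) {l : Y →* ℂ} {a : Y} (ha : rH red l a ≠ 1) {x y : H}
    (hx : x ≠ 1) (hy : y ≠ 1) (hxy : x ≠ y) {e : G → F} (he : IsClassFun e)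
    (hs : ∀ x, x ∉ commutator G → e x = 0) (hG : ¬ p ∣ Nat.card (Abelianization G))
    {K : ℝ} (hK : 0 ≤ K) (h : Apx p red (Gam H G Y) K) :
    ((Nat.card G : ℝ) * LL e) ^ Fintype.card H ≤
      (Nat.card (Abelianization G) : ℝ) ^ 3 * K * (Fintype.card H : ℝ) ^ 3 *
        (WT p red e : ℝ) ^ Fintype.card H ∧
    (WT p red e : ℝ) ^ Fintype.card H ≤
      (Nat.card (Abelianization G) : ℝ) ^ 3 * K * (Fintype.card H : ℝ) ^ 3 *
        ((Nat.card G : ℝ) * LL e) ^ Fintype.card H := by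
  obtain ⟨e1, e2, e3, e4⟩ := est hY ha hx hy hxy he hs hG
  have hzG := zz_inZ_Gam (H := H) he hs (rH red l)
  have hcl : IsClassFun (fun b : Gam H G Y => zz e (rH red l) (b : W H G Y)) :=
    fun g b => hzG.conj (g : W H G Y) (b : W H G Y)
  have A := LL_le_WT red hcl K hK fun B hB => (h B hB).1
  have B := WT_le_LL red hcl K hK fun B hB => (h B hB).2
  obtain ⟨c1, c2⟩ := card_Gam_le (H := H) (G := G) (Y := Y)
  have q3 : 0 ≤ WT p red e := WT_nonneg _
  set n := Fintype.card H with hn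
  set m := Nat.card (Abelianization G) with hm
  set g := Nat.card G with hg
  set v := Nat.card (V H Y) with hv
  set N := Nat.card (Gam H G Y) with hN
  set LG := LL (fun b : Gam H G Y => zz e (rH red l) (b : W H G Y)) with hLG
  set WG := WT p red (fun b : Gam H G Y => zz e (rH red l) (b : W H G Y)) with hWG
  set L := LL e with hL
  set w := WT p red e with hw
  have hv0 : 0 < v := Nat.card_pos
  have hn0 : 0 < n := Fintype.card_pos
  have hm0 : 0 < m := Nat.card_pos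
  -- casts
  have f1 : (L : ℝ) ^ n ≤ m * (LG : ℝ) := by exact_mod_cast e1
  have f2 : (LG : ℝ) ≤ m * (n : ℝ) ^ 2 * (L : ℝ) ^ n := by exact_mod_cast e2
  have f3 : (v : ℝ) * (w : ℝ) ^ n ≤ (m : ℝ) ^ 2 * (WG : ℝ) := by exact_mod_cast e3
  have f4 : (WG : ℝ) ≤ (m : ℝ) * (n : ℝ) ^ 3 * v * (w : ℝ) ^ n := by exact_mod_cast e4
  have d1 : (N : ℝ) ≤ (g : ℝ) ^ n * v * n := by exact_mod_cast c1
  have d2 : (g : ℝ) ^ n * v * n ≤ (m : ℝ) * N := by exact_mod_cast c2
  have g1 : (1 : ℝ) ≤ (n : ℝ) := by exact_mod_cast hn0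
  have v0 : (0 : ℝ) < (v : ℝ) := by exact_mod_cast hv0
  have m0 : (0 : ℝ) ≤ (m : ℝ) := Nat.cast_nonneg _
  have L0 : (0 : ℝ) ≤ (L : ℝ) := Nat.cast_nonneg _
  have N0 : (0 : ℝ) ≤ (N : ℝ) := Nat.cast_nonneg _
  have LG0 : (0 : ℝ) ≤ (LG : ℝ) := Nat.cast_nonneg _
  have gg0 : (0 : ℝ) ≤ (g : ℝ) ^ n := by positivity
  constructor
  · have h1 : (v : ℝ) * ((g : ℝ) * L) ^ n ≤ v * ((m : ℝ) ^ 3 * K * (n : ℝ) ^ 3 * (w : ℝ) ^ n) := by
      calc (v : ℝ) * ((g : ℝ) * L) ^ n = ((g : ℝ) ^ n * v) * (L : ℝ) ^ n := by rw [mul_pow]; ring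
        _ ≤ ((g : ℝ) ^ n * v) * (m * (LG : ℝ)) := mul_le_mul_of_nonneg_left f1 (by positivity)
        _ = ((g : ℝ) ^ n * v * 1) * (m * (LG : ℝ)) := by ring
        _ ≤ ((g : ℝ) ^ n * v * n) * (m * (LG : ℝ)) :=
            mul_le_mul_of_nonneg_right (mul_le_mul_of_nonneg_left g1 (by positivity)) (by positivity)
        _ ≤ ((m : ℝ) * N) * (m * (LG : ℝ)) := mul_le_mul_of_nonneg_right d2 (by positivity)
        _ = (m : ℝ) ^ 2 * ((N : ℝ) * LG) := by ring
        _ ≤ (m : ℝ) ^ 2 * (K * WG) := mul_le_mul_of_nonneg_left A (by positivity)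
        _ ≤ (m : ℝ) ^ 2 * (K * ((m : ℝ) * (n : ℝ) ^ 3 * v * (w : ℝ) ^ n)) :=
            mul_le_mul_of_nonneg_left (mul_le_mul_of_nonneg_left f4 hK) (by positivity)
        _ = _ := by ring
    exact le_of_mul_le_mul_left h1 v0
  · have h1 : (v : ℝ) * (w : ℝ) ^ n ≤ v * ((m : ℝ) ^ 3 * K * (n : ℝ) ^ 3 * ((g : ℝ) * L) ^ n) := by
      calc (v : ℝ) * (w : ℝ) ^ n ≤ (m : ℝ) ^ 2 * (WG : ℝ) := f3
        _ ≤ (m : ℝ) ^ 2 * (K * ((N : ℝ) * LG)) := mul_le_mul_of_nonneg_left B (by positivity)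
        _ ≤ (m : ℝ) ^ 2 * (K * (((g : ℝ) ^ n * v * n) * (m * (n : ℝ) ^ 2 * (L : ℝ) ^ n))) :=
            mul_le_mul_of_nonneg_left (mul_le_mul_of_nonneg_left
              (mul_le_mul d1 f2 LG0 (by positivity)) hK) (by positivity)
        _ = _ := by rw [mul_pow]; ring
    exact le_of_mul_le_mul_left h1 v0

/-- **The approximate form for groups without small quotients gives the equality for an element
supported on the commutator subgroup.** -/
theorem eq_of_apx {X : ∀ (G : Type) [Group G], Prop} (hX : Cls p X) {S : Type} [Group S]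
    [Finite S] [IsSimpleGroup S] {s t : S} (hst : s * t ≠ t * s) (hS : X S)
    (h : ∀ ε : ℝ, 0 < ε → ∃ C : ℝ, ∀ (Γ : Type) [Group Γ] [Finite Γ], X Γ →
      (∀ P : Subgroup Γ, P.Normal → IsPGroup p P → P = ⊥) → Top S Γ →
      Apx p red Γ (C * (Nat.card Γ : ℝ) ^ ε))
    {G : Type} [Group G] [Finite G] (hGX : X G) (hG : Reduced p G) {e : G → F}
    (he : IsClassFun e) (hs : ∀ x, x ∉ commutator G → e x = 0) :
    (Nat.card G : ℤ) * LL e = WT p red e := by
  have hp : p.Prime := Fact.out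
  have hab := index_p (G := G) hG.perfect
  haveI : Fintype S := Fintype.ofFinite S
  obtain ⟨q, hq, hqp, hqS⟩ := exists_q p S hst
  haveI := Fact.mk hq
  obtain ⟨l, a, ha⟩ := exists_l red hq hqp
  have hYc : Nat.card (Multiplicative (ZMod q)) = q := by
    rw [Nat.card_congr Multiplicative.toAdd, Nat.card_zmod]
  have hY : ¬ p ∣ Nat.card (Multiplicative (ZMod q)) := by
    rw [hYc]
    intro h
    exact hqp ((Nat.prime_dvd_prime_iff_eq hp hq).1 h).symm
  have hYX : X (Multiplicative (ZMod q)) := by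
    obtain ⟨u, hu⟩ := exists_prime_orderOf_dvd_card' q hqS
    have h1 : X (Subgroup.zpowers u) := hX.closed.sub S hS _
    refine hX.closed.iso _ _ h1 ⟨mulEquivOfPrimeCardEq (p := q) ?_ hYc⟩
    rw [Nat.card_zpowers, hu]
  have ha1 : a ≠ 1 := by
    rintro rfl
    exact ha (map_one _)
  have hs1 : s ≠ 1 := by rintro rfl; exact hst (by simp)
  have ht1 : t ≠ 1 := by rintro rfl; exact hst (by simp)
  have hst1 : s ≠ t := by rintro rfl; exact hst rfl
  have hS1 : 1 < Fintype.card S := Fintype.one_lt_card_iff.2 ⟨s, 1, hs1⟩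
  -- the exponents
  let u : ℕ → ℕ := fun k => Fintype.card (Fin (k + 1) → S)
  have hu_eq : ∀ k, u k = Fintype.card S ^ (k + 1) := fun k => by
    change Fintype.card (Fin (k + 1) → S) = _
    rw [Fintype.card_fun, Fintype.card_fin]
  have hu : Filter.Tendsto u Filter.atTop Filter.atTop := by
    have h1 : u = fun k => Fintype.card S ^ (k + 1) := funext hu_eq
    rw [h1]
    exact (tendsto_pow_atTop_atTop_of_one_lt hS1).comp (Filter.tendsto_add_atTop_nat 1)
  have hR : (1 : ℝ) < (2 * Nat.card G * q : ℕ) := by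
    have h1 : 0 < Nat.card G := Nat.card_pos
    have h2 := hq.two_le
    exact_mod_cast (by nlinarith : 1 < 2 * Nat.card G * q)
  have key : ∀ ε : ℝ, 0 < ε → ∃ D : ℝ, ∀ k : ℕ,
      (((Nat.card G : ℝ) * LL e) ^ u k ≤
        D * (u k : ℝ) ^ 3 * (((2 * Nat.card G * q : ℕ) : ℝ) ^ u k) ^ ε * (WT p red e : ℝ) ^ u k) ∧
      (WT p red e : ℝ) ^ u k ≤ D * (u k : ℝ) ^ 3 * (((2 * Nat.card G * q : ℕ) : ℝ) ^ u k) ^ ε *
        ((Nat.card G : ℝ) * LL e) ^ u k := by
    intro ε hε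
    obtain ⟨C, hC⟩ := h ε hε
    refine ⟨(Nat.card (Abelianization G) : ℝ) ^ 3 * max C 0, fun k => ?_⟩
    have hx : (fun _ : Fin (k + 1) => s) ≠ 1 := fun h0 => hs1 (congrFun h0 0)
    have hy : (fun _ : Fin (k + 1) => t) ≠ 1 := fun h0 => ht1 (congrFun h0 0)
    have hxy : (fun _ : Fin (k + 1) => s) ≠ (fun _ => t) := fun h0 => hst1 (congrFun h0 0)
    have h1 := hC (Gam (Fin (k + 1) → S) G (Multiplicative (ZMod q)))
      (hX.Gam (hX.fin hS _) hGX hYX)
      (no_normal_p p hG.radical ((Nat.Prime.coprime_iff_not_dvd hp).2 hY) hx hy hxy ha1)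
      (top_Gam hx hy hxy)
    set N : ℕ := Nat.card (Gam (Fin (k + 1) → S) G (Multiplicative (ZMod q))) with hN
    have hNe : (0 : ℝ) ≤ (N : ℝ) ^ ε := by positivity
    have hK0 : 0 ≤ max C 0 * (N : ℝ) ^ ε := mul_nonneg (le_max_right _ _) hNe
    have h2 : Apx p red (Gam (Fin (k + 1) → S) G (Multiplicative (ZMod q)))
        (max C 0 * (N : ℝ) ^ ε) := by
      intro B hB
      obtain ⟨h3, h4⟩ := h1 B hB
      have h5 : C * (N : ℝ) ^ ε ≤ max C 0 * (N : ℝ) ^ ε :=
        mul_le_mul_of_nonneg_right (le_max_left _ _) hNe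
      exact ⟨h3.trans (mul_le_mul_of_nonneg_right h5 (Nat.cast_nonneg _)),
        h4.trans (mul_le_mul_of_nonneg_right h5 (Nat.cast_nonneg _))⟩
    obtain ⟨i1, i2⟩ := two_ineq red hY ha hx hy hxy he hs hab hK0 h2
    -- the bound for `N`
    have hNR : N ≤ (2 * Nat.card G * q) ^ u k := by
      have h3 := (card_Gam_le (H := Fin (k + 1) → S) (G := G) (Y := Multiplicative (ZMod q))).1
      have h4 : Nat.card (V (Fin (k + 1) → S) (Multiplicative (ZMod q))) ≤ q ^ u k := by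
        have h5 : Nat.card (V (Fin (k + 1) → S) (Multiplicative (ZMod q))) ≤
            Nat.card ((Fin (k + 1) → S) → Multiplicative (ZMod q)) :=
          Nat.le_of_dvd Nat.card_pos (Subgroup.card_subgroup_dvd_card _)
        rwa [Nat.card_fun, hYc, Nat.card_eq_fintype_card (α := Fin (k + 1) → S)] at h5
      calc N ≤ Nat.card G ^ u k * Nat.card (V (Fin (k + 1) → S) (Multiplicative (ZMod q))) *
            u k := h3
        _ ≤ Nat.card G ^ u k * q ^ u k * 2 ^ u k :=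
            Nat.mul_le_mul (Nat.mul_le_mul_left _ h4) Nat.lt_two_pow_self.le
        _ = _ := by rw [mul_pow, mul_pow]; ring
    have hNR' : (N : ℝ) ^ ε ≤ (((2 * Nat.card G * q : ℕ) : ℝ) ^ u k) ^ ε :=
      Real.rpow_le_rpow (Nat.cast_nonneg _) (by exact_mod_cast hNR) hε.le
    have w0 : (0 : ℝ) ≤ (WT p red e : ℝ) ^ u k := by
      have : (0 : ℝ) ≤ (WT p red e : ℝ) := by exact_mod_cast WT_nonneg (p := p) (red := red) e
      positivity
    have l0 : (0 : ℝ) ≤ ((Nat.card G : ℝ) * LL e) ^ u k := by positivity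
    have hfac : (Nat.card (Abelianization G) : ℝ) ^ 3 * (max C 0 * (N : ℝ) ^ ε) * (u k : ℝ) ^ 3 ≤
        (Nat.card (Abelianization G) : ℝ) ^ 3 * max C 0 * (u k : ℝ) ^ 3 *
          (((2 * Nat.card G * q : ℕ) : ℝ) ^ u k) ^ ε := by
      have hC0 : 0 ≤ max C 0 := le_max_right _ _
      calc _ = (Nat.card (Abelianization G) : ℝ) ^ 3 * max C 0 * (u k : ℝ) ^ 3 * (N : ℝ) ^ ε := by
            ring
        _ ≤ _ := mul_le_mul_of_nonneg_left hNR' (by positivity)
    exact ⟨i1.trans (mul_le_mul_of_nonneg_right hfac w0),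
      i2.trans (mul_le_mul_of_nonneg_right hfac l0)⟩
  have hw0 : (0 : ℝ) ≤ (WT p red e : ℝ) := by exact_mod_cast WT_nonneg (p := p) (red := red) e
  have hl0 : (0 : ℝ) ≤ (Nat.card G : ℝ) * LL e := by positivity
  have r1 := grow hl0 hw0 hR u hu fun ε hε => by
    obtain ⟨D, hD⟩ := key ε hε
    exact ⟨D, fun k => (hD k).1⟩
  have r2 := grow hw0 hl0 hR u hu fun ε hε => by
    obtain ⟨D, hD⟩ := key ε hε
    exact ⟨D, fun k => (hD k).2⟩
  have r3 : ((Nat.card G : ℝ) * LL e) = (WT p red e : ℝ) := le_antisymm r1 r2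
  exact_mod_cast r3

/-- **Main theorem.** -/
theorem main {X : ∀ (G : Type) [Group G], Prop} (hX : Cls p X) {S : Type} [Group S]
    [Finite S] [IsSimpleGroup S] {s t : S} (hst : s * t ≠ t * s) (hS : X S) :
    (∀ (Γ : Type) [Group Γ] [Finite Γ] (G : Subgroup Γ) [G.Normal], X G → IsPGroup p (Γ ⧸ G) →
      BAWC p red Γ) ↔
    ∀ ε : ℝ, 0 < ε → ∃ C : ℝ, ∀ (Γ : Type) [Group Γ] [Finite Γ], X Γ →
      (∀ P : Subgroup Γ, P.Normal → IsPGroup p P → P = ⊥) → Top S Γ →
      Apx p red Γ (C * (Nat.card Γ : ℝ) ^ ε) := by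
  rw [← bawc_strong red X hX.closed]
  constructor
  · intro h ε hε
    refine ⟨1, fun Γ _ _ hΓ hP hT B hB => ?_⟩
    have hR : Reduced p Γ := by
      refine ⟨fun N hN hi => ?_, hP⟩
      have hp : p.Prime := Fact.out
      have hNt : N ≠ ⊤ := by
        rintro rfl
        rw [Subgroup.index_top] at hi
        exact hp.one_lt.ne hi
      obtain ⟨f, hf⟩ := hT N hNt
      have hcard : Nat.card (Γ ⧸ N) = p := hi
      haveI := Fact.mk hp
      haveI : IsCyclic (Γ ⧸ N) := isCyclic_of_prime_card hcard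
      apply hst
      apply hf
      rw [map_mul, map_mul]
      exact (IsCyclic.commGroup (α := Γ ⧸ N)).mul_comm (f s) (f t)
    have h1 : numIrrBlock B = numWts p red B := h Γ hΓ hR B hB
    have h2 : (1 : ℝ) ≤ 1 * (Nat.card Γ : ℝ) ^ ε := by
      rw [one_mul]
      exact Real.one_le_rpow (by exact_mod_cast (Nat.card_pos (α := Γ))) hε.le
    rw [h1]
    exact ⟨le_mul_of_one_le_left (Nat.cast_nonneg _) h2,
      le_mul_of_one_le_left (Nat.cast_nonneg _) h2⟩
  · intro h G _ _ hGX hG B hB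
    obtain ⟨e0, he0, h1, h2⟩ := exists_idem hB
    have hab := index_p (G := G) hG.perfect
    refine of_orbit red hab hB he0 h1 h2 ?_
    exact eq_of_apx red hX hst hS h hGX hG (cG_cl he0.cl) fun x hx => if_neg hx

end Pool.Agent.P8H58
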