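import Pool.Agent.P8H58.Grp

/-!
# Normal `p`-subgroups of the group `Gam`
-/

set_option autoImplicit false

open scoped Classical

noncomputable section

namespace Pool.Agent.P8H58

variable {H G Y : Type} [Group H] [Fintype H] [Group G] [CommGroup Y]

theorem conj_V (g : W H G Y) (v : V H Y) :
    g * bs 1 v * g⁻¹ = bs 1 (shiftV H Y g.right v) := by
  have e : g = bs g.left.1 g.left.2 * tp g.right := eq_bs_tp g
  have h1 : g * bs 1 v * g⁻¹ = bs g.left.1 g.left.2 *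
      (tp g.right * bs 1 v * (tp g.right)⁻¹) * (bs g.left.1 g.left.2)⁻¹ := by
    conv_lhs => rw [e]
    group
  rw [h1, tp_conj, bs_inv, ← bs_mul, ← bs_mul, map_one, mul_one, mul_inv_cancel,
    mul_comm g.left.2, mul_assoc, mul_inv_cancel, mul_one]

theorem bs_pow (f : H → G) (v : V H Y) (n : ℕ) : bs f v ^ n = bs (f ^ n) (v ^ n) := by
  unfold bs
  rw [← map_pow]
  rfl

theorem bs_injective {f f' : H → G} {v v' : V H Y} (h : bs f v = bs f' v') : f = f' ∧ v = v' := by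
  have := SemidirectProduct.inl_injective h
  exact Prod.ext_iff.1 this

theorem V_pow [Finite Y] (v : V H Y) : v ^ Nat.card Y = 1 := by
  apply Subtype.ext
  funext h
  change (v : H → Y) h ^ Nat.card Y = 1
  exact pow_card_eq_one'

theorem bs_one_of_p [Finite Y] {p : ℕ} (hpY : Nat.Coprime p (Nat.card Y)) {v : V H Y} {k : ℕ}
    (h : (bs 1 v : W H G Y) ^ p ^ k = 1) : v = 1 := by
  have h1 : v ^ p ^ k = 1 := by
    rw [bs_pow] at h
    exact (bs_injective (f' := 1) (v' := 1) h).2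
  have h2 := V_pow v
  have h3 : orderOf v ∣ p ^ k := orderOf_dvd_of_pow_eq_one h1
  have h4 : orderOf v ∣ Nat.card Y := orderOf_dvd_of_pow_eq_one h2
  have h5 : Nat.Coprime (p ^ k) (Nat.card Y) := Nat.Coprime.pow_left k hpY
  have h6 : orderOf v = 1 := Nat.eq_one_of_dvd_coprimes h5 h3 h4
  exact orderOf_eq_one_iff.1 h6

theorem shift_eq {s : H} {x y : H} (hx : x ≠ 1) (hy : y ≠ 1) (hxy : x ≠ y) {a : Y} (ha : a ≠ 1)
    (h : ∀ v : V H Y, shiftV H Y s v = v) : s = 1 := by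
  by_contra hs
  obtain ⟨w, hw1, hws⟩ : ∃ w : H, w ≠ 1 ∧ w ≠ s := by
    by_cases hxs : x = s
    · exact ⟨y, hy, fun h => hxy (hxs.trans h.symm)⟩
    · exact ⟨x, hx, hxs⟩
  have h1 := congrArg (fun v : V H Y => (v : H → Y) s) (h (dv w a))
  have h2 : (df w a : H → Y) (s⁻¹ * s) = (df w a : H → Y) s := h1
  rw [inv_mul_cancel] at h2
  unfold df at h2
  rw [Pi.mul_apply, Pi.mul_apply, Pi.inv_apply, Pi.inv_apply, Pi.mulSingle_eq_same,
    Pi.mulSingle_eq_of_ne hw1.symm, Pi.mulSingle_eq_of_ne hs, Pi.mulSingle_eq_of_ne hws.symm] at h2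
  simp only [mul_one, inv_one, inv_eq_one] at h2
  exact ha h2

theorem left_mul (u v : W H G Y) (hu : u.right = 1) (h : H) :
    (u * v).left.1 h = u.left.1 h * v.left.1 h := by
  rw [SemidirectProduct.mul_left, hu, map_one]
  rfl

theorem left_inv (u : W H G Y) (hu : u.right = 1) (h : H) :
    (u⁻¹).left.1 h = (u.left.1 h)⁻¹ := by
  rw [SemidirectProduct.inv_left, hu, inv_one, map_one]
  rfl

theorem eq_bs (u : W H G Y) (hu : u.right = 1) : u = bs u.left.1 u.left.2 := by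
  have := eq_bs_tp u
  rw [hu] at this
  simpa [tp] using this

theorem left_conj (f : H → G) (v : V H Y) (u : W H G Y) (hu : u.right = 1) (h : H) :
    (bs f v * u * (bs f v)⁻¹).left.1 h = f h * u.left.1 h * (f h)⁻¹ := by
  have e : bs f v * u * (bs f v)⁻¹ = bs (f * u.left.1 * f⁻¹) (v * u.left.2 * v⁻¹) := by
    conv_lhs => rw [eq_bs u hu]
    rw [bs_inv, ← bs_mul, ← bs_mul]
  rw [e]
  rfl

/-- the element `b` at `h`, `b⁻¹` at `h'` -/
theorem two_mem (h h' : H) (b : G) :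
    (bs (Pi.mulSingle h b * (Pi.mulSingle h' b)⁻¹) 1 : W H G Y) ∈ Gam H G Y := by
  have : prodA H G (Pi.mulSingle h b * (Pi.mulSingle h' b)⁻¹) = 1 := by
    rw [map_mul, map_inv]
    change (∏ i, Abelianization.of ((Pi.mulSingle h b : H → G) i)) *
      (∏ i, Abelianization.of ((Pi.mulSingle h' b : H → G) i))⁻¹ = 1
    rw [ab_single, ab_single, mul_inv_cancel]
  exact this

/-- the projection of a subgroup of the base group to a coordinate -/
def proj (P : Subgroup (Gam H G Y)) (hr : ∀ g ∈ P, g.1.right = 1) (h : H) : Subgroup G where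
  carrier := {a | ∃ g ∈ P, g.1.left.1 h = a}
  one_mem' := ⟨1, one_mem _, rfl⟩
  mul_mem' := by
    rintro _ _ ⟨u, hu, rfl⟩ ⟨v, hv, rfl⟩
    exact ⟨u * v, mul_mem hu hv, left_mul u.1 v.1 (hr u hu) h⟩
  inv_mem' := by
    rintro _ ⟨u, hu, rfl⟩
    exact ⟨u⁻¹, inv_mem hu, left_inv u.1 (hr u hu) h⟩

theorem proj_normal (P : Subgroup (Gam H G Y)) (hP : P.Normal) (hr : ∀ g ∈ P, g.1.right = 1)
    (h h' : H) (hh' : h' ≠ h) : (proj P hr h).Normal := by
  refine ⟨?_⟩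
  rintro _ ⟨u, hu, rfl⟩ b
  have h1 := hP.conj_mem _ hu ⟨_, two_mem h h' b⟩
  refine ⟨_, h1, ?_⟩
  have h2 := left_conj (Pi.mulSingle h b * (Pi.mulSingle h' b)⁻¹) 1 u.1 (hr u hu) h
  rw [Pi.mul_apply, Pi.inv_apply, Pi.mulSingle_eq_same, Pi.mulSingle_eq_of_ne hh'.symm, inv_one,
    mul_one] at h2
  exact h2

theorem proj_p {p : ℕ} (P : Subgroup (Gam H G Y)) (hp : IsPGroup p P)
    (hr : ∀ g ∈ P, g.1.right = 1) (h : H) : IsPGroup p (proj P hr h) := by
  rintro ⟨_, u, hu, rfl⟩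
  obtain ⟨k, hk⟩ := hp ⟨u, hu⟩
  refine ⟨k, ?_⟩
  have h1 : u.1 ^ p ^ k = 1 := congrArg (fun z : P => ((z : Gam H G Y) : W H G Y)) hk
  rw [eq_bs u.1 (hr u hu), bs_pow] at h1
  have h2 := (bs_injective (f' := 1) (v' := 1) h1).1
  apply Subtype.ext
  exact congrFun h2 h

theorem no_normal_p (p : ℕ) (hG : ∀ P : Subgroup G, P.Normal → IsPGroup p P → P = ⊥)
    [Finite Y] (hpY : Nat.Coprime p (Nat.card Y)) {x y : H} (hx : x ≠ 1) (hy : y ≠ 1)
    (hxy : x ≠ y) {a : Y} (ha : a ≠ 1) (P : Subgroup (Gam H G Y)) (hP : P.Normal)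
    (hp : IsPGroup p P) : P = ⊥ := by
  -- all elements of `P` lie in the base group
  have hr : ∀ g ∈ P, g.1.right = 1 := by
    intro g hg
    refine shift_eq (Y := Y) hx hy hxy ha fun v => ?_
    have h1 : g * ⟨bs 1 v, bs_one_mem v⟩ * g⁻¹ * (⟨bs 1 v, bs_one_mem v⟩ : Gam H G Y)⁻¹ ∈ P := by
      have h2 : g * ⟨bs 1 v, bs_one_mem v⟩ * g⁻¹ * (⟨bs 1 v, bs_one_mem v⟩ : Gam H G Y)⁻¹ =
          g * ((⟨bs 1 v, bs_one_mem v⟩ : Gam H G Y) * g⁻¹ * (⟨bs 1 v, bs_one_mem v⟩ : Gam H G Y)⁻¹) := by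
        group
      rw [h2]
      exact mul_mem hg (hP.conj_mem _ (inv_mem hg) _)
    obtain ⟨k, hk⟩ := hp ⟨_, h1⟩
    have h3 : (g.1 * bs 1 v * g.1⁻¹ * (bs 1 v)⁻¹) ^ p ^ k = 1 := by
      have := congrArg (fun z : P => ((z : Gam H G Y) : W H G Y)) hk
      exact this
    rw [conj_V, bs_inv, ← bs_mul, inv_one, mul_one] at h3
    have h4 := bs_one_of_p hpY h3
    exact mul_inv_eq_one.1 h4
  -- the coordinates
  have hc : ∀ (h : H) (g : Gam H G Y), g ∈ P → g.1.left.1 h = 1 := by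
    intro h g hg
    obtain ⟨h', hh'⟩ : ∃ h' : H, h' ≠ h := by
      by_cases hh : h = 1
      · exact ⟨x, fun e => hx (e.trans hh)⟩
      · exact ⟨1, fun e => hh e.symm⟩
    have h1 : g.1.left.1 h ∈ proj P hr h := ⟨g, hg, rfl⟩
    rw [hG _ (proj_normal P hP hr h h' hh') (proj_p P hp hr h)] at h1
    exact Subgroup.mem_bot.1 h1
  rw [eq_bot_iff]
  intro g hg
  rw [Subgroup.mem_bot]
  have h1 : g.1 = bs 1 g.1.left.2 := by
    have h3 : g.1.left.1 = 1 := funext fun h => hc h g hg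
    have h2 := eq_bs g.1 (hr g hg)
    rwa [h3] at h2
  obtain ⟨k, hk⟩ := hp ⟨g, hg⟩
  have h2 : g.1 ^ p ^ k = 1 := congrArg (fun z : P => ((z : Gam H G Y) : W H G Y)) hk
  rw [h1] at h2
  have h3 := bs_one_of_p hpY h2
  apply Subtype.ext
  rw [h1, h3]
  rfl

end Pool.Agent.P8H58
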