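import Pool.Agent.P8H58.Chn
import Pool.Agent.P8H58.Grp2
import Pool.Agent.Y63.NV.Final

/-!
# The base group of the semidirect product
-/

set_option autoImplicit false
set_option linter.unusedSectionVars false

open scoped Classical

noncomputable section

namespace Pool.Agent.P8H58

open Pool.Agent.Y63.NV
open Pool.Agent.Y63.AWC (IsIrreducibleCharacter mult mult_spec cj cj_irr mult_cj clifford res res_eq
  cj_one cj_mul)
open Pool.Agent.Helper884.IC (B Irr mem_Irr IsClass IsIrrChar B_comm)
open Pool.Agent.N85.WM (IsW wcv)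
open Pool.Agent.N85.WM.Ww (tot)

variable {F : Type} [Field F] {H G Y : Type} [Group H] [Fintype H] [Group G] [CommGroup Y]

/-- the base group -/
def Bs (H G Y : Type) [Group H] [Fintype H] [Group G] [CommGroup Y] : Subgroup (W H G Y) :=
  (SemidirectProduct.rightHom : W H G Y →* H).ker

theorem mem_Bs {x : W H G Y} : x ∈ Bs H G Y ↔ x.right = 1 := Iff.rfl

instance : (Bs H G Y).Normal := MonoidHom.normal_ker _

/-- the element of the group algebra, on the base group -/
def zb (e : G → F) (la : Y →* F) (f : H → G) (v : H → Y) : F :=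
  (∏ h, e (f h)) * ∑ u, la (v u)

/-- the element of the group algebra -/
def zz (e : G → F) (la : Y →* F) (x : W H G Y) : F :=
  if x.right = 1 then zb e la x.left.1 x.left.2 else 0

theorem zz_bs (e : G → F) (la : Y →* F) (f : H → G) (v : V H Y) :
    zz e la (bs f v) = zb e la f v := if_pos (rfl : (bs f v : W H G Y).right = 1)

theorem bs_mem (f : H → G) (v : V H Y) : bs f v ∈ Bs H G Y := rfl

theorem bs_right (f : H → G) (v : V H Y) : (bs f v : W H G Y).right = 1 := rfl

theorem right_conj (g x : W H G Y) : (g * x * g⁻¹).right = 1 ↔ x.right = 1 := by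
  rw [← mem_Bs, ← mem_Bs]
  exact ⟨fun h => by
    have := Subgroup.Normal.conj_mem inferInstance _ h g⁻¹
    have e : g⁻¹ * (g * x * g⁻¹) * g⁻¹⁻¹ = x := by group
    rwa [e] at this, fun h => Subgroup.Normal.conj_mem inferInstance _ h g⟩

/-- conjugation on the base group -/
theorem shiftE_one {A : Type} [Group A] (f : H → A) : shiftE H A 1 f = f := by
  funext h
  change f (1⁻¹ * h) = f h
  rw [inv_one, one_mul]

theorem conj_bs (g : W H G Y) (f : H → G) (v : V H Y) :
    g * bs f v * g⁻¹ = bs (g.left.1 * shiftE H G g.right f * g.left.1⁻¹) (shiftV H Y g.right v) := by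
  have e : g = bs g.left.1 g.left.2 * tp g.right := eq_bs_tp g
  have h1 : g * bs f v * g⁻¹ = bs g.left.1 g.left.2 *
      (tp g.right * bs f v * (tp g.right)⁻¹) * (bs g.left.1 g.left.2)⁻¹ := by
    conv_lhs => rw [e]
    group
  rw [h1, tp_conj, bs_inv, ← bs_mul, ← bs_mul, mul_comm g.left.2, mul_assoc (shiftV H Y g.right v),
    mul_inv_cancel, mul_one]

theorem zb_conj {e : G → F} (he : IsClassFun e) (la : Y →* F) (a f : H → G) (v : V H Y) (s : H) :
    zb e la (a * shiftE H G s f * a⁻¹) (shiftV H Y s v : V H Y) = zb e la f v := by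
  unfold zb
  congr 1
  · refine Fintype.prod_equiv (Equiv.mulLeft s⁻¹) _ _ fun h => ?_
    exact he (a h) (f (s⁻¹ * h))
  · refine Fintype.sum_equiv (Equiv.mulLeft s⁻¹) _ _ fun h => rfl

theorem zz_inZ {e : G → F} (he : IsClassFun e) (la : Y →* F) :
    InZ (Bs H G Y) (zz e la : W H G Y → F) := by
  refine ⟨fun g x => ?_, fun x hx => if_neg hx⟩
  by_cases hx : x.right = 1
  · have e1 : x = bs x.left.1 x.left.2 := eq_bs x hx
    rw [e1, conj_bs, zz_bs, zz_bs]
    exact zb_conj he la _ _ _ _
  · unfold zz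
    rw [if_neg hx, if_neg (fun h => hx ((right_conj g x).1 h))]

section free

variable {p : ℕ} {red : integralClosure ℤ ℂ →+* F}

/-- the element of `V` -/
theorem V_norm [Finite G] [Finite Y] (Q' : Subgroup (Bs H G Y)) (v : V H Y) :
    (bs 1 v : W H G Y) ∈ NM Q' := by
  have h : ∀ y : W H G Y, y ∈ Q'.map (Bs H G Y).subtype →
      ∀ w : V H Y, (bs (1 : H → G) w : W H G Y) * y * (bs (1 : H → G) w : W H G Y)⁻¹ = y := by
    rintro y ⟨q, _, rfl⟩ w
    have e1 : ((q : Bs H G Y) : W H G Y) = bs q.1.left.1 q.1.left.2 := eq_bs _ q.2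
    change (bs (1 : H → G) w : W H G Y) * (q : W H G Y) * (bs (1 : H → G) w : W H G Y)⁻¹ = q
    rw [e1, bs_inv, ← bs_mul, ← bs_mul, one_mul, inv_one, mul_one, mul_comm w, mul_assoc,
      mul_inv_cancel, mul_one]
  unfold NM
  rw [Subgroup.mem_normalizer_iff]
  intro y
  constructor
  · intro hy
    rw [h y hy v]
    exact hy
  · intro hy
    have h1 := h _ hy v⁻¹
    have h2 : bs 1 v⁻¹ * (bs 1 v * y * (bs 1 v)⁻¹) * (bs 1 v⁻¹)⁻¹ = (y : W H G Y) := by
      have h3 : (bs 1 v⁻¹ : W H G Y) = (bs 1 v)⁻¹ := by rw [bs_inv, inv_one]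
      rw [h3]
      group
    rw [h2] at h1
    rw [h1]
    exact hy

variable [Finite Y]

theorem la_ne (la : Y →* F) (a : Y) : la a ≠ 0 := by
  have h1 : la a ^ Nat.card Y = 1 := by
    rw [← map_pow, pow_card_eq_one', map_one]
  intro h
  rw [h, zero_pow Nat.card_pos.ne'] at h1
  exact zero_ne_one h1

/-- an element which fixes the character of `V` at the coordinate `u` -/
theorem fix_u {la : Y →* F} {a : Y} (ha : la a ≠ 1) {x y : H} (hx : x ≠ 1) (hy : y ≠ 1)
    (hxy : x ≠ y) (u s : H) (h : ∀ v : V H Y, la ((v : H → Y) u) = la ((v : H → Y) (s⁻¹ * u))) :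
    s = 1 := by
  by_contra hs
  have h0 : s⁻¹ * u ≠ u := fun h => hs (by
    have := mul_eq_right.1 h
    rwa [inv_eq_one] at this)
  obtain ⟨w, hw1, hw2⟩ : ∃ w : H, w ≠ u ∧ w ≠ s⁻¹ * u := by
    by_contra hcon
    push Not at hcon
    have h1 : ∀ t : H, t ≠ 1 → u * t = s⁻¹ * u := fun t ht =>
      hcon (u * t) (fun h => ht (mul_eq_left.1 h))
    have h2 := (h1 x hx).trans (h1 y hy).symm
    exact hxy (mul_left_cancel h2)
  let g : H → Y := Pi.mulSingle u a * (Pi.mulSingle w a)⁻¹
  have hg : g ∈ (prodY H Y).ker := by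
    have h1 : ∀ t : H, prodY H Y (Pi.mulSingle t a) = a := by
      intro t
      change ∏ h, (Pi.mulSingle t a : H → Y) h = a
      rw [Finset.prod_eq_single t]
      · simp
      · intro b _ hb
        rw [Pi.mulSingle_eq_of_ne hb]
      · simp
    rw [MonoidHom.mem_ker, map_mul, map_inv, h1, h1, mul_inv_cancel]
  have h1 := h ⟨g, hg⟩
  have h2 : g u = a := by
    change (Pi.mulSingle u a : H → Y) u * ((Pi.mulSingle w a : H → Y) u)⁻¹ = a
    rw [Pi.mulSingle_eq_same, Pi.mulSingle_eq_of_ne hw1.symm, inv_one, mul_one]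
  have h3 : g (s⁻¹ * u) = 1 := by
    change (Pi.mulSingle u a : H → Y) (s⁻¹ * u) * ((Pi.mulSingle w a : H → Y) (s⁻¹ * u))⁻¹ = 1
    rw [Pi.mulSingle_eq_of_ne h0, Pi.mulSingle_eq_of_ne hw2.symm, inv_one, mul_one]
  change la (g u) = la (g (s⁻¹ * u)) at h1
  rw [h2, h3, map_one] at h1
  exact ha h1

variable [Finite G]

instance : Finite (W H G Y) := by
  have : Finite ((H → G) × V H Y) := inferInstance
  exact Finite.of_injective (fun x : W H G Y => (x.left, x.right)) (fun a b h => by
    have := Prod.ext_iff.1 h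
    exact SemidirectProduct.ext this.1 this.2)

/-- the summand of `z` on a subgroup -/
def zu (e : G → F) (la : Y →* F) (u : H) {J : Type} (f : J → H → G) (v : J → H → Y) (x : J) : F :=
  (∏ h, e (f x h)) * la (v x u)

/-- the intersection of the base group and the normalizer -/
abbrev X0 (Q' : Subgroup (Bs H G Y)) : Subgroup (NM Q') := (Bs H G Y).subgroupOf (NM Q')

/-- **the stabilizers are trivial** -/
theorem stab_triv {e : G → F} (he : IsClassFun e) {la : Y →* F} {a : Y} (ha : la a ≠ 1)
    {x y : H} (hx : x ≠ 1) (hy : y ≠ 1) (hxy : x ≠ y) (Q' : Subgroup (Bs H G Y))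
    [Fintype (NM Q')] (ψ : X0 Q' → ℂ) (hψ : IsIrrChar ψ)
    (hcv : centralValue red ψ (fun m => zz e la ((m : NM Q') : W H G Y)) ≠ 0)
    (g : NM Q') (hg : cj (X0 Q') g ψ = ψ) :
    g ∈ (Bs H G Y).subgroupOf (NM Q') := by
  have hB : IsBlock (centralValue red ψ) := Pool.Agent.Y930.NV.cvh F red (X0 Q') ψ hψ
  let w : H → X0 Q' → F := fun u m => (∏ h, e ((m : W H G Y).left.1 h)) *
    la (((m : W H G Y).left.2 : H → Y) u)
  have hconj : ∀ (m m' : X0 Q'), ((m * m' * m⁻¹ : X0 Q') : W H G Y) =
      bs ((m : W H G Y).left.1 * (m' : W H G Y).left.1 * ((m : W H G Y).left.1)⁻¹)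
        ((m' : W H G Y).left.2) := by
    intro m m'
    have h1 : ((m : NM Q') : W H G Y).right = 1 := m.2
    have h2 : ((m' : NM Q') : W H G Y).right = 1 := m'.2
    change (m : W H G Y) * (m' : W H G Y) * (m : W H G Y)⁻¹ = _
    conv_lhs => rw [eq_bs _ h2, conj_bs, h1, shiftE_one]
    congr 1
    apply Subtype.ext
    funext t
    change ((m' : W H G Y).left.2 : H → Y) (1⁻¹ * t) = _
    rw [inv_one, one_mul]
  have hwc : ∀ u, IsClassFun (w u) := by
    intro u m m'
    change (∏ h, e (((m * m' * m⁻¹ : X0 Q') : W H G Y).left.1 h)) *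
      la ((((m * m' * m⁻¹ : X0 Q') : W H G Y).left.2 : H → Y) u) = _
    rw [hconj]
    congr 1
    exact Finset.prod_congr rfl fun t _ => he _ _
  have hsum : (fun m : X0 Q' => zz e la ((m : NM Q') : W H G Y)) = ∑ u, w u := by
    funext m
    have h1 : ((m : NM Q') : W H G Y).right = 1 := m.2
    rw [Finset.sum_apply]
    change zz e la ((m : NM Q') : W H G Y) = ∑ u, (∏ h, e ((m : W H G Y).left.1 h)) *
      la (((m : W H G Y).left.2 : H → Y) u)
    unfold zz zb
    rw [if_pos h1, Finset.mul_sum]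
  have hBsum : ∀ s : Finset H, centralValue red ψ (∑ u ∈ s, w u) =
      ∑ u ∈ s, centralValue red ψ (w u) ∧ IsClassFun (∑ u ∈ s, w u) := by
    intro s
    induction s using Finset.induction_on with
    | empty =>
      constructor
      · rw [Finset.sum_empty, Finset.sum_empty]
        have h1 := hB.smul 0 (0 : X0 Q' → F) (fun _ _ => rfl)
        rw [zero_smul, zero_mul] at h1
        exact h1
      · rw [Finset.sum_empty]
        exact fun _ _ => rfl
    | insert u s hu ih =>
      rw [Finset.sum_insert hu, Finset.sum_insert hu]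
      refine ⟨?_, ?_⟩
      · rw [hB.add _ _ (hwc u) ih.2, ih.1]
      · intro a b
        rw [Pi.add_apply, Pi.add_apply, hwc u a b, ih.2 a b]
  obtain ⟨u, hu⟩ : ∃ u, centralValue red ψ (w u) ≠ 0 := by
    by_contra hcon
    push Not at hcon
    apply hcv
    rw [hsum, (hBsum Finset.univ).1]
    exact Finset.sum_eq_zero fun u _ => hcon u
  -- the central elements
  let c : V H Y → X0 Q' := fun v => ⟨⟨bs 1 v, V_norm Q' v⟩, rfl⟩
  have hc : ∀ (v : V H Y) (m : X0 Q'), m * c v = c v * m := by
    intro v m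
    apply Subtype.ext
    apply Subtype.ext
    have h1 : ((m : NM Q') : W H G Y).right = 1 := m.2
    change (m : W H G Y) * bs 1 v = bs 1 v * (m : W H G Y)
    rw [eq_bs _ h1, ← bs_mul, ← bs_mul, mul_one, one_mul, mul_comm v]
  let δ : V H Y → X0 Q' → F := fun v m => if m = c v then 1 else 0
  have hδ : ∀ v, IsClassFun (δ v) := by
    intro v g m
    change (if g * m * g⁻¹ = c v then (1 : F) else 0) = if m = c v then 1 else 0
    have : g * m * g⁻¹ = c v ↔ m = c v := by
      constructor
      · intro h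
        have h1 : g * m = c v * g := by rw [← h]; group
        rw [← hc] at h1
        exact mul_left_cancel h1
      · rintro rfl
        rw [hc, mul_assoc, mul_inv_cancel, mul_one]
    simp only [this]
  have hval : ∀ v : V H Y, centralValue red ψ (δ v) = la (((v : H → Y) u)⁻¹) := by
    intro v
    have h1 : conv (δ v) (w u) = la (((v : H → Y) u)⁻¹) • w u := by
      funext m
      unfold conv
      rw [finsum_eq_single _ (c v) (fun y hy => by
        change (if y = c v then (1 : F) else 0) * _ = 0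
        rw [if_neg hy, zero_mul])]
      change (if c v = c v then (1 : F) else 0) * w u ((c v)⁻¹ * m) = _
      rw [if_pos rfl, one_mul]
      have h2 : (((c v)⁻¹ * m : X0 Q') : W H G Y) = bs (m : W H G Y).left.1
          (v⁻¹ * (m : W H G Y).left.2) := by
        have h3 : ((m : NM Q') : W H G Y).right = 1 := m.2
        change (bs 1 v)⁻¹ * (m : W H G Y) = _
        conv_lhs => rw [eq_bs _ h3]
        rw [bs_inv, ← bs_mul, inv_one, one_mul]
      change (∏ h, e ((((c v)⁻¹ * m : X0 Q') : W H G Y).left.1 h)) *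
        la (((((c v)⁻¹ * m : X0 Q') : W H G Y).left.2 : H → Y) u) = _
      rw [h2]
      change (∏ h, e ((m : W H G Y).left.1 h)) *
        la (((v : H → Y) u)⁻¹ * (((m : W H G Y).left.2 : H → Y) u)) =
          la (((v : H → Y) u)⁻¹) * ((∏ h, e ((m : W H G Y).left.1 h)) *
            la (((m : W H G Y).left.2 : H → Y) u))
      rw [map_mul]
      ring
    have h2 := hB.mul (δ v) (w u) (hδ v) (hwc u)
    rw [h1, hB.smul _ _ (hwc u)] at h2
    exact (mul_right_cancel₀ hu h2).symm
  -- invariance
  have hinv : ∀ v : V H Y, centralValue red ψ (δ (shiftV H Y ((g : W H G Y).right) v)) =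
      centralValue red ψ (δ v) := by
    intro v
    have h1 := Pool.Agent.Y624.NV.centralValue_comp red (MulAut.conjNormal g : X0 Q' ≃* X0 Q') hψ
      (hδ (shiftV H Y ((g : W H G Y).right) v))
    have h2 : (fun m : X0 Q' => ψ ((MulAut.conjNormal g : X0 Q' ≃* X0 Q') m)) = ψ := hg
    rw [h2] at h1
    rw [← h1]
    congr 1
    funext m
    change (if (MulAut.conjNormal g : X0 Q' ≃* X0 Q') m = c (shiftV H Y ((g : W H G Y).right) v) then
      (1 : F) else 0) = if m = c v then 1 else 0
    have h3 : (MulAut.conjNormal g : X0 Q' ≃* X0 Q') (c v) = c (shiftV H Y ((g : W H G Y).right) v) := by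
      apply Subtype.ext
      apply Subtype.ext
      rw [MulAut.conjNormal_apply]
      exact conj_V (g : W H G Y) v
    have h4 : (MulAut.conjNormal g : X0 Q' ≃* X0 Q') m = c (shiftV H Y ((g : W H G Y).right) v) ↔
        m = c v := by
      rw [← h3]
      exact (MulAut.conjNormal g : X0 Q' ≃* X0 Q').injective.eq_iff
    simp only [h4]
  have hfin : (g : W H G Y).right = 1 := by
    refine fix_u ha hx hy hxy u _ fun v => ?_
    have h1 := hinv v⁻¹
    rw [hval, hval] at h1
    have h2 : (((shiftV H Y ((g : W H G Y).right) v⁻¹ : V H Y) : H → Y) u)⁻¹ =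
        (v : H → Y) (((g : W H G Y).right)⁻¹ * u) := by
      change ((v : H → Y) (((g : W H G Y).right)⁻¹ * u))⁻¹⁻¹ = _
      rw [inv_inv]
    have h3 : (((v⁻¹ : V H Y) : H → Y) u)⁻¹ = (v : H → Y) u := by
      change ((v : H → Y) u)⁻¹⁻¹ = _
      rw [inv_inv]
    rw [h2, h3] at h1
    exact h1.symm
  exact hfin

theorem niceN_free {e : G → F} (he : IsClassFun e) {la : Y →* F} {a : Y} (ha : la a ≠ 1)
    {x y : H} (hx : x ≠ 1) (hy : y ≠ 1) (hxy : x ≠ y) :
    NiceN p red (Bs H G Y) (zz e la : W H G Y → F) := by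
  intro Q' _ _ χ ψ hχ hψ hm hcv
  have h1 : stb ((Bs H G Y).subgroupOf (NM Q')) ψ = Nat.card ((Bs H G Y).subgroupOf (NM Q')) := by
    have h2 : Nat.card ((Bs H G Y).subgroupOf (NM Q')) ∣ stb ((Bs H G Y).subgroupOf (NM Q')) ψ :=
      ⟨_, (clifford _ ψ ψ hψ hψ).symm⟩
    refine le_antisymm ?_ (Nat.le_of_dvd (stb_pos ψ) h2)
    unfold stb
    refine Nat.card_le_card_of_injective (fun g => (⟨g.1, stab_triv he ha hx hy hxy Q' ψ hψ hcv
      g.1 g.2⟩ : (Bs H G Y).subgroupOf (NM Q'))) ?_
    intro g g' h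
    exact Subtype.ext (congrArg (fun t : (Bs H G Y).subgroupOf (NM Q') => t.1) h)
  refine ⟨?_, by rw [h1]⟩
  have h2 := clifford ((Bs H G Y).subgroupOf (NM Q')) ψ ψ hψ hψ
  have h3 : Nat.card {x : NM Q' // cj ((Bs H G Y).subgroupOf (NM Q')) x ψ = ψ} =
      Nat.card ((Bs H G Y).subgroupOf (NM Q')) := h1
  rw [h3] at h2
  have h4 : ∑ chi ∈ Irr (NM Q'), mult ((Bs H G Y).subgroupOf (NM Q')) chi ψ *
      mult ((Bs H G Y).subgroupOf (NM Q')) chi ψ = 1 :=
    Nat.eq_of_mul_eq_mul_left (Nat.card_pos (α := (Bs H G Y).subgroupOf (NM Q')))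
      (by rw [h2, mul_one])
  have h5 := Finset.single_le_sum (f := fun chi => mult ((Bs H G Y).subgroupOf (NM Q')) chi ψ *
      mult ((Bs H G Y).subgroupOf (NM Q')) chi ψ) (fun _ _ => Nat.zero_le _) (mem_Irr.2 hχ)
  rw [h4] at h5
  have h6 : mult ((Bs H G Y).subgroupOf (NM Q')) χ ψ ≤ 1 := by
    by_contra hcon
    push Not at hcon
    have := Nat.mul_le_mul hcon.le hcon.le
    nlinarith
  omega

/-- sums of functions which are invariant under an element of order divisible by `p` -/
theorem sum_inv_zero [CharP F p] {s : H} (hs : p ∣ orderOf s) (g : H → F)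
    (hg : ∀ u, g (s * u) = g u) : ∑ u, g u = 0 := by
  have h1 : ∀ t ∈ Subgroup.zpowers s, ∀ u, g (t * u) = g u := by
    intro t ht
    rw [Subgroup.mem_zpowers_iff] at ht
    obtain ⟨k, rfl⟩ := ht
    have hn : ∀ (n : ℕ) (u : H), g (s ^ n * u) = g u := by
      intro n
      induction n with
      | zero => intro u; rw [pow_zero, one_mul]
      | succ n ih => intro u; rw [pow_succ', mul_assoc, hg, ih]
    intro u
    cases k with
    | ofNat n =>
      simp only [Int.ofNat_eq_natCast, zpow_natCast]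
      exact hn n u
    | negSucc n =>
      have := hn (n + 1) (s ^ (Int.negSucc n) * u)
      rw [zpow_negSucc, mul_inv_cancel_left] at this
      rw [zpow_negSucc]
      exact this.symm
  have h2 : ∑ u, g u = ∑ u, g u⁻¹ := by
    exact (Fintype.sum_equiv (Equiv.inv H) _ _ fun u => rfl).symm
  rw [h2]
  haveI : Fintype (H ⧸ Subgroup.zpowers s) := Fintype.ofFinite _
  haveI : Fintype (Subgroup.zpowers s) := Fintype.ofFinite _
  let E : (H ⧸ Subgroup.zpowers s) × Subgroup.zpowers s ≃ H :=
    { toFun := fun q => q.1.out * q.2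
      invFun := fun u => ((u : H ⧸ Subgroup.zpowers s),
        ⟨(u : H ⧸ Subgroup.zpowers s).out⁻¹ * u,
          QuotientGroup.eq.1 (QuotientGroup.out_eq' (u : H ⧸ Subgroup.zpowers s))⟩)
      left_inv := by
        rintro ⟨q, t⟩
        have h : ((q.out * t : H) : H ⧸ Subgroup.zpowers s) = q := by
          rw [QuotientGroup.mk_mul_of_mem _ t.2]
          exact QuotientGroup.out_eq' q
        refine Prod.ext h (Subtype.ext ?_)
        change ((q.out * t : H) : H ⧸ Subgroup.zpowers s).out⁻¹ * (q.out * t) = t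
        rw [h, inv_mul_cancel_left]
      right_inv := fun u => mul_inv_cancel_left _ _ }
  rw [← Equiv.sum_comp E, Fintype.sum_prod_type]
  refine Finset.sum_eq_zero fun q _ => ?_
  have h4 : ∀ t : Subgroup.zpowers s, g (E (q, t))⁻¹ = g (q.out)⁻¹ := by
    intro t
    change g (q.out * (t : H))⁻¹ = _
    rw [mul_inv_rev]
    exact h1 _ (inv_mem t.2) _
  rw [Finset.sum_congr rfl fun t _ => h4 t, Finset.sum_const, Finset.card_univ, nsmul_eq_mul]
  have h3 : ((Fintype.card (Subgroup.zpowers s) : ℕ) : F) = 0 := by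
    rw [CharP.cast_eq_zero_iff F p, ← Nat.card_eq_fintype_card, Nat.card_zpowers]
    exact hs
  rw [h3, zero_mul]

/-- **weights which do not lie in the base group** -/
theorem wt_le_base [Fact p.Prime] [CharP F p] (e : G → F) (la : Y →* F)
    (hz : IsClassFun (zz e la : W H G Y → F)) (Q : Subgroup (W H G Y)) (χ : W H G Y → ℂ)
    (hw : IsW p Q χ) (hcv : wcv red Q χ (zz e la) ≠ 0) : Q ≤ Bs H G Y := by
  by_contra hcon
  obtain ⟨q, hq, hqB⟩ : ∃ q ∈ Q, q ∉ Bs H G Y := by
    by_contra h
    push Not at h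
    exact hcon h
  apply hcv
  unfold wcv
  have h1 := cutw' p F red (Subgroup.normalizer (Q : Set (W H G Y)))
    (Q.subgroupOf (Subgroup.normalizer (Q : Set (W H G Y)))) (fun x => zz e la (x : W H G Y))
    (fun x => χ x) inferInstance (hw.pg.comap_of_injective _ (Subgroup.subtype_injective _))
    (fun g x => hz g x) hw.wt
  rw [← h1]
  have h2 : cut (fun x : Subgroup.normalizer (Q : Set (W H G Y)) => zz e la (x : W H G Y))
      (Subgroup.centralizer ((Q.subgroupOf (Subgroup.normalizer (Q : Set (W H G Y))) :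
        Subgroup (Subgroup.normalizer (Q : Set (W H G Y)))) : Set _)) = fun _ => 0 := by
    funext x
    unfold cut
    by_cases hx : x ∈ Subgroup.centralizer ((Q.subgroupOf
        (Subgroup.normalizer (Q : Set (W H G Y))) :
          Subgroup (Subgroup.normalizer (Q : Set (W H G Y)))) : Set _)
    · rw [if_pos hx]
      by_cases hr : (x : W H G Y).right = 1
      · have h3 := Subgroup.mem_centralizer_iff.1 hx
          ⟨q, Subgroup.le_normalizer hq⟩ (by
            rw [SetLike.mem_coe, Subgroup.mem_subgroupOf]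
            exact hq)
        have h4 : q * (x : W H G Y) = (x : W H G Y) * q := congrArg Subtype.val h3
        have h5 : q * (x : W H G Y) * q⁻¹ = (x : W H G Y) := by
          rw [h4, mul_assoc, mul_inv_cancel, mul_one]
        rw [eq_bs _ hr, conj_bs] at h5
        have h6 := (bs_injective h5).2
        have h7 : ∀ u, ((x : W H G Y).left.2 : H → Y) (q.right⁻¹ * u) =
            ((x : W H G Y).left.2 : H → Y) u := fun u =>
          congrFun (congrArg (fun v : V H Y => (v : H → Y)) h6) u
        have hord : p ∣ orderOf (q.right⁻¹) := by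
          obtain ⟨k, hk⟩ := hw.pg ⟨q, hq⟩
          have h8 : q ^ p ^ k = 1 := congrArg Subtype.val hk
          have h9 : (q.right⁻¹) ^ p ^ k = 1 := by
            rw [inv_pow, inv_eq_one]
            have h10 : (SemidirectProduct.rightHom q : H) ^ p ^ k = 1 := by
              rw [← map_pow, h8, map_one]
            exact h10
          rw [(Nat.dvd_prime_pow Fact.out).1 (orderOf_dvd_of_pow_eq_one h9) |>.choose_spec.2]
          have h11 := (Nat.dvd_prime_pow (Fact.out : p.Prime)).1 (orderOf_dvd_of_pow_eq_one h9)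
          refine dvd_pow_self p ?_
          intro h12
          have h13 := h11.choose_spec.2
          rw [h12, pow_zero, orderOf_eq_one_iff, inv_eq_one] at h13
          exact hqB h13
        change zz e la (x : W H G Y) = 0
        unfold zz zb
        rw [if_pos hr, sum_inv_zero (p := p) hord (fun u => la (((x : W H G Y).left.2 : H → Y) u))
          (fun u => by
            change la (((x : W H G Y).left.2 : H → Y) (q.right⁻¹ * u)) = _
            rw [h7]), mul_zero]
      · exact if_neg hr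
    · rw [if_neg hx]
  rw [h2]
  unfold centralValue
  simp

end free

end Pool.Agent.P8H58
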