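import Pool.Agent.P8H58.Loc

/-!
# Local counting for pairs of subgroups of an ambient group
-/

set_option autoImplicit false
set_option linter.unusedSectionVars false

open scoped Classical

noncomputable section

namespace Pool.Agent.P8H58

open Pool.Agent.Y63.NV Representation

section gam

variable {Γ : Type} [Group Γ] [Finite Γ] {G H : Subgroup Γ} [G.Normal]
  {A B : Type} [Group A] [Group B] {j : A →* B} {b : B →* Γ}

/-- `B` is a subgroup of `H` and `A = B ∩ G` -/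
structure Loc (G H : Subgroup Γ) (j : A →* B) (b : B →* Γ) : Prop where
  bi : Function.Injective b
  ji : Function.Injective j
  le : ∀ x, b x ∈ H
  ran : ∀ x, b x ∈ G ↔ x ∈ j.range

theorem Loc.normal (L : Loc G H j b) : j.range.Normal := by
  refine ⟨fun x hx g => ?_⟩
  rw [← L.ran] at hx ⊢
  rw [map_mul, map_mul, map_inv]
  exact (inferInstance : G.Normal).conj_mem _ hx _

/-- the homomorphism to the quotient -/
def Loc.hom (L : Loc G H j b) : B →* (H ⧸ G.subgroupOf H) :=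
  (QuotientGroup.mk' (G.subgroupOf H)).comp (b.codRestrict H L.le)

theorem Loc.hom_ker (L : Loc G H j b) : L.hom.ker = j.range := by
  ext x
  rw [← L.ran, MonoidHom.mem_ker]
  change ((b.codRestrict H L.le x : H) : H ⧸ G.subgroupOf H) = 1 ↔ _
  rw [QuotientGroup.eq_one_iff, Subgroup.mem_subgroupOf]
  rfl

theorem Loc.quot (L : Loc G H j b) [j.range.Normal] :
    ∃ f : (B ⧸ j.range) →* (H ⧸ G.subgroupOf H), Function.Injective f := by
  refine ⟨QuotientGroup.lift j.range L.hom (fun x hx => ?_), ?_⟩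
  · rw [← L.hom_ker] at hx
    exact hx
  · rw [injective_iff_map_eq_one]
    intro x hx
    obtain ⟨y, rfl⟩ := QuotientGroup.mk_surjective x
    rw [QuotientGroup.eq_one_iff, ← L.hom_ker]
    exact hx

theorem Loc.cyc (L : Loc G H j b) [j.range.Normal] (hc : IsCyclic (H ⧸ G.subgroupOf H)) :
    IsCyclic (B ⧸ j.range) := by
  obtain ⟨f, hf⟩ := L.quot
  exact isCyclic_of_injective f hf

theorem Loc.dvd (L : Loc G H j b) [j.range.Normal] :
    Nat.card (B ⧸ j.range) ∣ Nat.card (H ⧸ G.subgroupOf H) := by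
  obtain ⟨f, hf⟩ := L.quot
  exact Subgroup.card_dvd_of_injective f hf

theorem Loc.finB (L : Loc G H j b) : Finite B := Finite.of_injective b L.bi

theorem Loc.finA (L : Loc G H j b) : Finite A := by
  haveI := L.finB
  exact Finite.of_injective j L.ji

omit [Finite Γ] in
theorem exists_aut {C : Type} [Group C] [Finite C] (c : C →* Γ) (hc : Function.Injective c) (k : Γ)
    (h : ∀ x, ∃ y, c y = k * c x * k⁻¹) : ∃ α : MulAut C, ∀ x, c (α x) = k * c x * k⁻¹ := by
  let e : C ≃* c.range := MonoidHom.ofInjective hc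
  let φ : C →* c.range := ((MulAut.conj k).toMonoidHom.comp c).codRestrict c.range (fun x => h x)
  let ψ : C →* C := e.symm.toMonoidHom.comp φ
  have h1 : ∀ n : c.range, c (e.symm n) = n := fun n => by
    conv_rhs => rw [← e.apply_symm_apply n]
    rfl
  have h2 : ∀ x, c (ψ x) = k * c x * k⁻¹ := fun x => h1 (φ x)
  have h3 : Function.Injective ψ := by
    intro x y hxy
    have h4 := congrArg c hxy
    rw [h2, h2] at h4
    exact hc (mul_left_cancel (mul_right_cancel h4))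
  exact ⟨MulEquiv.ofBijective ψ (Finite.injective_iff_bijective.1 h3), h2⟩

omit [Finite Γ] in
theorem aut_pow {C : Type} [Group C] (c : C →* Γ) (k : Γ) (α : MulAut C)
    (h : ∀ x, c (α x) = k * c x * k⁻¹) (q : ℕ) (x : C) :
    c ((α ^ q) x) = k ^ q * c x * (k ^ q)⁻¹ := by
  induction q generalizing x with
  | zero => simp
  | succ q ih =>
    rw [pow_succ, MulAut.mul_apply, ih, h, pow_succ]
    group

/-- the elements which act like `p`-elements -/
structure Good (G : Subgroup Γ) (n : ℕ) (j : A →* B) (b : B →* Γ) (κ : Γ) : Prop where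
  norm : ∀ x, ∃ y, b y = κ * b x * κ⁻¹
  comm : ∀ x, κ * b x * κ⁻¹ * (b x)⁻¹ ∈ G
  pw : ∃ q : ℕ, Nat.Coprime q n ∧ κ ^ q ∈ G ∧ ∃ x, κ ^ q = b x

variable {k : Type} [Field k]

/-- `φ` is invariant under `κ` -/
def IvK (b : B →* Γ) (κ : Γ) (φ : B → k) : Prop :=
  ∀ x y : B, b y = κ * b x * κ⁻¹ → φ y = φ x

theorem ivk_iff (hb : Function.Injective b) {κ : Γ} (α : MulAut B)
    (hα : ∀ x, b (α x) = κ * b x * κ⁻¹) {φ : B → k} :
    IvK b κ φ ↔ ∀ x, φ (α x) = φ x := by
  constructor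
  · intro h x
    exact h x _ (hα x)
  · intro h x y hxy
    have h1 : y = α x := hb (by rw [hα, hxy])
    rw [h1, h]

theorem good_iff [IsAlgClosed k] (L : Loc G H j b) (hc : IsCyclic (H ⧸ G.subgroupOf H))
    (hF : (Nat.card (H ⧸ G.subgroupOf H) : k) ≠ 0) {κ : Γ}
    (hκ : Good G (Nat.card (H ⧸ G.subgroupOf H)) j b κ) {X : Md k B} {Y : Md k A}
    (h : LiesJ j X Y) : IvK b κ X.tr ↔ IvK (b.comp j) κ Y.tr := by
  haveI := L.finA
  haveI := L.finB
  haveI := L.normal
  obtain ⟨α, hα⟩ := exists_aut b L.bi κ hκ.norm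
  have hbj : Function.Injective (b.comp j) := L.bi.comp L.ji
  have hnA : ∀ x : A, ∃ y : A, b.comp j y = κ * b.comp j x * κ⁻¹ := by
    intro x
    obtain ⟨y, hy⟩ := hκ.norm (j x)
    have h1 : b y ∈ G := by
      rw [hy]
      exact (inferInstance : G.Normal).conj_mem _ ((L.ran _).2 ⟨x, rfl⟩) _
    obtain ⟨z, rfl⟩ := (L.ran _).1 h1
    exact ⟨z, hy⟩
  obtain ⟨β, hβ⟩ := exists_aut (b.comp j) hbj κ hnA
  rw [ivk_iff L.bi α hα, ivk_iff hbj β hβ]
  obtain ⟨q, hq1, hq2, x, hx⟩ := hκ.pw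
  obtain ⟨a0, rfl⟩ := (L.ran x).1 (by rw [← hx]; exact hq2)
  have hFB : (Nat.card (B ⧸ j.range) : k) ≠ 0 := by
    obtain ⟨d, hd⟩ := L.dvd
    intro h0
    apply hF
    rw [hd, Nat.cast_mul, h0, zero_mul]
  refine invj L.ji (L.cyc hc) hFB α β ?_ ?_ (Nat.Coprime.coprime_dvd_right L.dvd hq1) a0 ?_ h
  · intro a
    apply L.bi
    rw [hα]
    exact hβ a
  · intro y
    rw [← L.ran, map_mul, map_inv, hα]
    exact hκ.comm y
  · intro y
    apply L.bi
    rw [aut_pow b κ α hα, map_mul, map_mul, map_inv, ← hx]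

/-- **Local counting.** -/
theorem loc_count [IsAlgClosed k] [Finite A] [Finite B] (L : Loc G H j b)
    (hc : IsCyclic (H ⧸ G.subgroupOf H))
    (hF : (Nat.card (H ⧸ G.subgroupOf H) : k) ≠ 0) (𝒦 : Set Γ)
    (h𝒦 : ∀ κ ∈ 𝒦, Good G (Nat.card (H ⧸ G.subgroupOf H)) j b κ)
    (P : (B → k) → Prop) (P' : (A → k) → Prop)
    (h : ∀ (X : Md k B) (Y : Md k A), LiesJ j X Y → (P X.tr ↔ P' Y.tr)) :
    ∑ φ ∈ irs (fun φ : A → k => P' φ ∧ ∀ κ ∈ 𝒦, IvK (b.comp j) κ φ), (scj j φ) ^ 2 =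
      Nat.card B * Nat.card A *
        (irs (fun ψ : B → k => P ψ ∧ ∀ κ ∈ 𝒦, IvK b κ ψ)).card := by
  haveI := L.normal
  have hFB : (Nat.card (B ⧸ j.range) : k) ≠ 0 := by
    obtain ⟨d, hd⟩ := L.dvd
    intro h0
    apply hF
    rw [hd, Nat.cast_mul, h0, zero_mul]
  refine mclj L.ji (L.cyc hc) hFB _ _ ?_
  intro X Y hXY
  refine and_congr (h X Y hXY) (forall_congr' fun κ => forall_congr' fun hκ => ?_)
  exact good_iff L hc hF (h𝒦 κ hκ) hXY

end gam

end Pool.Agent.P8H58
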