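import Pool.Agent.P8H58.Gam
import Pool.Agent.P8H58.Cvp

/-!
# Invariant irreducible traces of intermediate groups
-/

set_option autoImplicit false
set_option linter.unusedSectionVars false

open scoped Classical

noncomputable section

namespace Pool.Agent.P8H58

open Pool.Agent.Y63.NV Representation
open Pool.Agent.Y63.AWC (IsIrreducibleCharacter)
open scoped MonoidAlgebra

/-- `z` acts as `c` -/
def Vl {F : Type} [Field F] {N : Type} [Group N] (z : N → F) (c : F) (φ : N → F) : Prop :=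
  ∀ x : N, ∑ᶠ g : N, z g * φ (g * x) = c * φ x

section vl

variable {F : Type} [Field F] [IsAlgClosed F]

theorem vl_iff {N : Type} [Group N] [Finite N] (A : Md F N) (z : N → F) (c : F) :
    Vl z c A.tr ↔ A.za z = c • 1 := by
  haveI := Fintype.ofFinite N
  constructor
  · intro h
    have h1 : A.za z - c • 1 = 0 := by
      refine tr_zero A _ fun x => ?_
      rw [sub_mul, map_sub, A.za_tr, h x, smul_mul_assoc, one_mul, map_smul, smul_eq_mul, sub_eq_zero]
      rfl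
    exact sub_eq_zero.1 h1
  · intro h x
    rw [← A.za_tr, h, smul_mul_assoc, one_mul, map_smul, smul_eq_mul]
    rfl

variable {A B : Type} [Group A] [Group B] [Finite A] [Finite B] {j : A →* B}
  (hj : Function.Injective j)

omit [IsAlgClosed F] in
include hj in
theorem za_liesJ {X : Md F B} {Y : Md F A} {f : X.V →ₗ[F] Y.V}
    (hf2 : ∀ (n : A) (v : X.V), f (X.ρ (j n) v) = Y.ρ n (f v)) {z : B → F}
    (hz : ∀ x, x ∉ j.range → z x = 0) (v : X.V) :
    f (X.za z v) = Y.za (fun a => z (j a)) (f v) := by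
  haveI := Fintype.ofFinite A
  haveI := Fintype.ofFinite B
  rw [X.za_eq, Y.za_eq, LinearMap.sum_apply, LinearMap.sum_apply, map_sum]
  rw [← Finset.sum_subset (Finset.subset_univ (Finset.univ.image j))
    (fun x _ hx => by
      have : x ∉ j.range := by
        rintro ⟨a, rfl⟩
        exact hx (Finset.mem_image_of_mem _ (Finset.mem_univ a))
      rw [hz x this, zero_smul, LinearMap.zero_apply, map_zero])]
  rw [Finset.sum_image fun a _ b _ h => hj h]
  refine Finset.sum_congr rfl fun n _ => ?_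
  rw [LinearMap.smul_apply, map_smul, hf2, LinearMap.smul_apply]

include hj in
theorem vl_lies {X : Md F B} {Y : Md F A} (h : LiesJ j X Y) {z : B → F} (hz : InZ j.range z)
    (c : F) : Vl z c X.tr ↔ Vl (fun a => z (j a)) c Y.tr := by
  obtain ⟨f, hf, hf2⟩ := h
  rw [vl_iff, vl_iff]
  have h1 := za_liesJ hj hf2 hz.supp
  obtain ⟨v, hv⟩ : ∃ v, f v ≠ 0 := by
    by_contra hcon
    push Not at hcon
    exact hf (LinearMap.ext hcon)
  obtain ⟨a, ha⟩ := X.za_scalar (z := z) (fun g x => hz.conj g x)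
  obtain ⟨a', ha'⟩ := Y.za_scalar (z := fun n : A => z (j n)) (fun g x => by
    simp only [map_mul, map_inv]
    exact hz.conj _ _)
  have h3 := h1 v
  rw [ha, ha', LinearMap.smul_apply, LinearMap.smul_apply, Module.End.one_apply,
    Module.End.one_apply, map_smul] at h3
  have h4 : a = a' := by
    have h5 : (a - a') • f v = 0 := by rw [sub_smul, h3, sub_self]
    rcases smul_eq_zero.1 h5 with h6 | h6
    · exact sub_eq_zero.1 h6
    · exact absurd h6 hv
  subst h4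
  rw [ha, ha']
  haveI := X.nontriv
  haveI := Y.nontriv
  have key : ∀ {V : Type} [AddCommGroup V] [Module F V] [Nontrivial V],
      (a • (1 : Module.End F V) = c • 1 ↔ a = c) := by
    intro V _ _ _
    constructor
    · intro h5
      have h6 : (a - c) • (1 : Module.End F V) = 0 := by rw [sub_smul, h5, sub_self]
      rcases smul_eq_zero.1 h6 with h7 | h7
      · exact sub_eq_zero.1 h7
      · exact absurd h7 one_ne_zero
    · intro h5
      rw [h5]
  rw [key, key]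

end vl

section fr

variable {Γ : Type} [Group Γ] [Finite Γ] {G K H : Subgroup Γ} [G.Normal] [K.Normal] [H.Normal]
  {p : ℕ}

/-- `K/G` is a `p`-group, `H/G` is a cyclic `p'`-group, `K ∩ H = G` -/
structure Fr (p : ℕ) (G K H : Subgroup Γ) [G.Normal] : Prop where
  GK : G ≤ K
  GH : G ≤ H
  inf : K ⊓ H ≤ G
  pK : ∀ k ∈ K, ∃ a : ℕ, k ^ p ^ a ∈ G
  cyc : IsCyclic (H ⧸ G.subgroupOf H)
  p' : ¬ p ∣ Nat.card (H ⧸ G.subgroupOf H)

theorem Fr.comm (f : Fr p G K H) {k x : Γ} (hk : k ∈ K) (hx : x ∈ H) : k * x * k⁻¹ * x⁻¹ ∈ G := by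
  refine f.inf ⟨?_, ?_⟩
  · have h1 : k * x * k⁻¹ * x⁻¹ = k * (x * k⁻¹ * x⁻¹) := by group
    rw [h1]
    exact K.mul_mem hk ((inferInstance : K.Normal).conj_mem _ (K.inv_mem hk) x)
  · exact H.mul_mem ((inferInstance : H.Normal).conj_mem _ hx k) (H.inv_mem hx)

theorem Fr.conj (f : Fr p G K H) {J : Subgroup Γ} (hGJ : G ≤ J) (hJH : J ≤ H) {k x : Γ}
    (hk : k ∈ K) (hx : x ∈ J) : k * x * k⁻¹ ∈ J := by
  have h1 := J.mul_mem (hGJ (f.comm hk (hJH hx))) hx
  rwa [inv_mul_cancel_right] at h1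

theorem Fr.cop (f : Fr p G K H) (hp : p.Prime) (a : ℕ) :
    Nat.Coprime (p ^ a) (Nat.card (H ⧸ G.subgroupOf H)) :=
  Nat.Coprime.pow_left a ((Nat.Prime.coprime_iff_not_dvd hp).2 f.p')

theorem Fr.ne (f : Fr p G K H) {F : Type} [Field F] [CharP F p] :
    (Nat.card (H ⧸ G.subgroupOf H) : F) ≠ 0 := by
  intro h0
  exact f.p' ((CharP.cast_eq_zero_iff F p _).1 h0)

/-- the stabilizer of a function -/
def st {k : Type} {G : Subgroup Γ} [hG : G.Normal] (φ : G → k) : Subgroup Γ where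
  carrier := {g | ∀ x y : G, (y : Γ) = g * x * g⁻¹ → φ y = φ x}
  one_mem' := by
    intro x y hxy
    have : y = x := Subtype.ext (by rw [hxy]; group)
    rw [this]
  mul_mem' := by
    intro a b ha hb x y hxy
    have h1 : b * (x : Γ) * b⁻¹ ∈ G := hG.conj_mem _ x.2 b
    rw [← hb x ⟨_, h1⟩ rfl]
    refine ha _ y ?_
    rw [hxy]
    change a * b * (x : Γ) * (a * b)⁻¹ = a * (b * (x : Γ) * b⁻¹) * a⁻¹
    group
  inv_mem' := by
    intro a ha x y hxy
    refine (ha y x ?_).symm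
    rw [hxy]
    group

theorem mem_st {k : Type} {φ : G → k} {g : Γ} :
    g ∈ st φ ↔ ∀ x y : G, (y : Γ) = g * x * g⁻¹ → φ y = φ x := Iff.rfl

/-- the intermediate group -/
theorem loc_J {J : Subgroup Γ} (hGJ : G ≤ J) (hJH : J ≤ H) :
    Loc G H (Subgroup.inclusion hGJ) J.subtype where
  bi := J.subtype_injective
  ji := Subgroup.inclusion_injective hGJ
  le x := hJH x.2
  ran x := by
    constructor
    · intro h
      exact ⟨⟨x, h⟩, rfl⟩
    · rintro ⟨y, rfl⟩
      exact y.2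

theorem Fr.good_J (f : Fr p G K H) (hp : p.Prime) {J : Subgroup Γ} (hGJ : G ≤ J) (hJH : J ≤ H)
    {κ : Γ} (hκ : κ ∈ K) :
    Good G (Nat.card (H ⧸ G.subgroupOf H)) (Subgroup.inclusion hGJ) J.subtype κ where
  norm x := ⟨⟨_, f.conj hGJ hJH hκ x.2⟩, rfl⟩
  comm x := f.comm hκ (hJH x.2)
  pw := by
    obtain ⟨a, ha⟩ := f.pK κ hκ
    exact ⟨p ^ a, f.cop hp a, ha, ⟨_, hGJ ha⟩, rfl⟩

theorem mem_supK {J : Subgroup Γ} {m : Γ} : m ∈ J ⊔ K ↔ ∃ x ∈ J, ∃ k ∈ K, x * k = m := by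
  constructor
  · intro hm
    have h1 : m ∈ ((J ⊔ K : Subgroup Γ) : Set Γ) := hm
    rw [Subgroup.mul_normal, Set.mem_mul] at h1
    obtain ⟨x, hx, k, hk, h⟩ := h1
    exact ⟨x, hx, k, hk, h⟩
  · rintro ⟨x, hx, k, hk, rfl⟩
    exact Subgroup.mul_mem_sup hx hk

variable {F : Type} [Field F]

theorem irr_class {N : Type} [Group N] {φ : N → F} (h : IsIrrTrace φ) (g x : N) :
    φ (g * x * g⁻¹) = φ x := by
  obtain ⟨V, _, _, _, ρ, _, rfl⟩ := h
  exact ρ.char_conj x g

theorem inv_supK (f : Fr p G K H) {J : Subgroup Γ} (hGJ : G ≤ J) (hJH : J ≤ H) {φ : J → F}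
    (hφ : IsIrrTrace φ) : IsInvUnder (J ⊔ K) φ ↔ ∀ κ ∈ K, IvK J.subtype κ φ := by
  constructor
  · intro h κ hκ
    exact h κ (Subgroup.mem_sup_right hκ)
  · intro h m hm x y hxy
    obtain ⟨u, hu, k, hk, rfl⟩ := mem_supK.1 hm
    have h1 : k * (x : Γ) * k⁻¹ ∈ J := f.conj hGJ hJH hk x.2
    rw [← h k hk x ⟨_, h1⟩ rfl]
    have h2 : y = ⟨u, hu⟩ * ⟨_, h1⟩ * (⟨u, hu⟩ : J)⁻¹ := by
      apply Subtype.ext
      rw [hxy]
      change u * k * (x : Γ) * (u * k)⁻¹ = u * (k * (x : Γ) * k⁻¹) * u⁻¹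
      group
    rw [h2]
    exact irr_class hφ _ _

/-- **Invariant irreducible traces of the intermediate groups.** -/
theorem lnum_eq [IsAlgClosed F] [CharP F p] (hp : p.Prime) (f : Fr p G K H) {J : Subgroup Γ}
    (hGJ : G ≤ J) (hJH : J ≤ H) {z : Γ → F} (hz : InZ G z) (c : F) :
    ∑ φ ∈ irs (fun φ : G → F => Vl (fun x : G => z x) c φ ∧ IsInvUnder K φ),
      (Nat.card ↥(J ⊓ st φ)) ^ 2 = Nat.card J * Nat.card G * Lnum J (J ⊔ K) z c := by
  have h1 := loc_count (k := F) (loc_J hGJ hJH) f.cyc f.ne (K : Set Γ)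
    (fun κ hκ => f.good_J hp hGJ hJH hκ) (Vl (fun x : J => z x) c) (Vl (fun x : G => z x) c)
    (fun X Y hXY => vl_lies (Subgroup.inclusion_injective hGJ) hXY ⟨fun g x => hz.conj _ _,
      fun x hx => hz.supp _ fun h => hx (((loc_J hGJ hJH).ran x).1 h)⟩ c)
  have h2 : (irs (fun ψ : J → F => Vl (fun x : J => z x) c ψ ∧ ∀ κ ∈ (K : Set Γ),
      IvK J.subtype κ ψ)).card = Lnum J (J ⊔ K) z c := by
    rw [← card_irs]
    unfold Lnum
    refine Nat.card_congr (Equiv.subtypeEquivRight fun ψ => ?_)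
    constructor
    · rintro ⟨h3, h4, h5⟩
      exact ⟨h3, (inv_supK f hGJ hJH h3).2 h5, h4⟩
    · rintro ⟨h3, h4, h5⟩
      exact ⟨h3, h5, (inv_supK f hGJ hJH h3).1 h4⟩
  rw [h2] at h1
  rw [← h1]
  refine Finset.sum_congr rfl fun φ _ => ?_
  congr 1
  unfold scj
  refine Nat.card_congr ?_
  exact
    { toFun := fun m => ⟨⟨m.1, m.2.1⟩, fun x y hxy => m.2.2 x y (congrArg Subtype.val hxy)⟩
      invFun := fun b => ⟨b.1, b.1.2, fun x y hxy => b.2 x y (Subtype.ext hxy)⟩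
      left_inv := fun m => rfl
      right_inv := fun b => rfl }

end fr

end Pool.Agent.P8H58
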