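import Pool.Agent.P8H58.Gam2

/-!
# Invariant weights of intermediate groups
-/

set_option autoImplicit false
set_option linter.unusedSectionVars false

open scoped Classical

noncomputable section

namespace Pool.Agent.P8H58

open Pool.Agent.Y63.NV Representation
open Pool.Agent.Y63.AWC (IsIrreducibleCharacter)
open Pool.Agent.N85.WM (IsW wcv)

section ext

variable {G : Type} [Group G] [Finite G] {p : ℕ}

/-- extension by zero -/
theorem ext_sum {F : Type} [Field F] (red : integralClosure ℤ ℂ →+* F) (Q : Subgroup G)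
    (hQ : IsPGroup p Q) (z : G → F) (c : F) (P : (G → ℂ) → Prop)
    (P' : (Subgroup.normalizer (Q : Set G) → ℂ) → Prop)
    (hP : ∀ χ : G → ℂ, IsW p Q χ →
      (P χ ↔ P' fun x : Subgroup.normalizer (Q : Set G) => χ x))
    (f : (Subgroup.normalizer (Q : Set G) → ℂ) → ℕ) :
    ∑ᶠ χ : {χ : G → ℂ // IsW p Q χ ∧ wcv red Q χ z = c ∧ P χ},
      f (fun x : Subgroup.normalizer (Q : Set G) => χ.1 x) =
    ∑ ψ ∈ irs (fun ψ : Subgroup.normalizer (Q : Set G) → ℂ =>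
      (IsWt p (Q.subgroupOf (Subgroup.normalizer (Q : Set G))) ψ ∧
      centralValue red ψ (fun x => z x) = c) ∧ P' ψ), f ψ := by
  set s := irs (fun ψ : Subgroup.normalizer (Q : Set G) → ℂ =>
      (IsWt p (Q.subgroupOf (Subgroup.normalizer (Q : Set G))) ψ ∧
      centralValue red ψ (fun x => z x) = c) ∧ P' ψ) with hs
  have h0 : ∑ ψ ∈ s, f ψ = ∑ᶠ ψ : s, f ψ.1 := by
    rw [finsum_eq_sum_of_fintype, Finset.sum_coe_sort]
  rw [h0]
  have E : Function.Bijective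
      (fun χ : {χ : G → ℂ // IsW p Q χ ∧ wcv red Q χ z = c ∧ P χ} =>
        (⟨fun x : Subgroup.normalizer (Q : Set G) => χ.1 x, mem_irs.2 ⟨χ.2.1.wt.irr,
          ⟨χ.2.1.wt, χ.2.2.1⟩, (hP _ χ.2.1).1 χ.2.2.2⟩⟩ : s)) := by
    constructor
    · intro χ χ' h
      apply Subtype.ext
      funext x
      by_cases hx : x ∈ Subgroup.normalizer (Q : Set G)
      · exact congrFun (congrArg Subtype.val h) ⟨x, hx⟩
      · rw [χ.2.1.supp x hx, χ'.2.1.supp x hx]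
    · rintro ⟨ψ, hψ⟩
      obtain ⟨-, ⟨h1, h2⟩, h3⟩ := mem_irs.1 hψ
      obtain ⟨χ, hχ⟩ : ∃ χ : G → ℂ, χ = fun x =>
          if h : x ∈ Subgroup.normalizer (Q : Set G) then ψ ⟨x, h⟩ else 0 := ⟨_, rfl⟩
      have h4 : (fun x : Subgroup.normalizer (Q : Set G) => χ x) = ψ := by
        funext x
        rw [hχ]
        exact dif_pos x.2
      have h5 : IsW p Q χ := by
        refine ⟨hQ, fun x hx => ?_, ?_⟩
        · rw [hχ]
          exact dif_neg hx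
        · rw [h4]
          exact h1
      refine ⟨⟨χ, h5, ?_, ?_⟩, Subtype.ext h4⟩
      · unfold wcv
        rw [h4]
        exact h2
      · rw [hP χ h5, h4]
        exact h3
  exact finsum_comp_equiv (Equiv.ofBijective _ E) (f := fun ψ : s => f ψ.1)

end ext

section nq

variable {Γ : Type} [Group Γ] [Finite Γ]

/-- the normalizer in `Γ` -/
abbrev NQ {N : Subgroup Γ} (R : Subgroup N) : Subgroup Γ :=
  Subgroup.normalizer ((R.map N.subtype : Subgroup Γ) : Set Γ)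

theorem mem_mapsub {N : Subgroup Γ} {R : Subgroup N} {u : N} :
    (u : Γ) ∈ R.map N.subtype ↔ u ∈ R := by
  constructor
  · rintro ⟨v, hv, hvu⟩
    have h4 : v = u := Subtype.ext hvu
    rwa [← h4]
  · intro hu
    exact ⟨u, hu, rfl⟩

theorem mem_NQ_of {N : Subgroup Γ} {R : Subgroup N} {κ : Γ} (h : κ ∈ NQ R) (x y : N)
    (hxy : (y : Γ) = κ * x * κ⁻¹) : x ∈ R ↔ y ∈ R := by
  rw [Subgroup.mem_normalizer_iff] at h
  have h2 := h x
  have h3 : (x : Γ) ∈ ((R.map N.subtype : Subgroup Γ) : Set Γ) ↔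
    κ * x * κ⁻¹ ∈ ((R.map N.subtype : Subgroup Γ) : Set Γ) := h2
  rw [← hxy, SetLike.mem_coe, SetLike.mem_coe, mem_mapsub, mem_mapsub] at h3
  exact h3

theorem mem_NQ_iff {N : Subgroup Γ} {R : Subgroup N} {κ : Γ} (h1 : ∀ x ∈ N, κ * x * κ⁻¹ ∈ N)
    (h2 : ∀ x ∈ N, κ⁻¹ * x * κ ∈ N) :
    κ ∈ NQ R ↔ ∀ x y : N, (y : Γ) = κ * x * κ⁻¹ → (x ∈ R ↔ y ∈ R) := by
  refine ⟨fun h => mem_NQ_of h, fun h => ?_⟩
  rw [Subgroup.mem_normalizer_iff]
  intro x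
  constructor
  · rintro ⟨x', hx', rfl⟩
    exact ⟨⟨_, h1 _ x'.2⟩, (h x' ⟨_, h1 _ x'.2⟩ rfl).1 hx', rfl⟩
  · rintro ⟨y, hy, hxy⟩
    have h3 : (y : Γ) = κ * x * κ⁻¹ := hxy
    have h4 : x = κ⁻¹ * (y : Γ) * κ := by
      rw [h3]
      group
    have h5 : x ∈ N := by
      rw [h4]
      exact h2 _ y.2
    exact ⟨⟨x, h5⟩, (h ⟨x, h5⟩ y h3).2 hy, rfl⟩

theorem mem_NQ {N : Subgroup Γ} {R : Subgroup N} {x : N} :
    x ∈ Subgroup.normalizer (R : Set N) ↔ (x : Γ) ∈ NQ R := by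
  have h1 : ∀ y ∈ N, (x : Γ) * y * (x : Γ)⁻¹ ∈ N := fun y hy =>
    N.mul_mem (N.mul_mem x.2 hy) (N.inv_mem x.2)
  have h2 : ∀ y ∈ N, (x : Γ)⁻¹ * y * (x : Γ) ∈ N := fun y hy =>
    N.mul_mem (N.mul_mem (N.inv_mem x.2) hy) x.2
  rw [mem_NQ_iff h1 h2, Subgroup.mem_normalizer_iff]
  constructor
  · intro h a b hab
    have h3 : b = x * a * x⁻¹ := Subtype.ext hab
    rw [h3]
    exact h a
  · intro h a
    exact h a _ rfl

theorem fx_of {N : Subgroup Γ} {p : ℕ} {R : Subgroup N} {χ : N → ℂ} (hχ : IsW p R χ) {κ : Γ}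
    (hκ : κ ∈ NQ R) (h : ∀ x y : Subgroup.normalizer (R : Set N),
      ((y : N) : Γ) = κ * ((x : N) : Γ) * κ⁻¹ → χ y = χ x) : Fx N R χ κ := by
  refine ⟨mem_NQ_of hκ, fun x y hxy => ?_⟩
  have h3 : x ∈ Subgroup.normalizer (R : Set N) ↔ y ∈ Subgroup.normalizer (R : Set N) := by
    rw [mem_NQ, mem_NQ, hxy]
    constructor
    · intro h4
      exact mul_mem (mul_mem hκ h4) (inv_mem hκ)
    · intro h4
      have h5 := mul_mem (mul_mem (inv_mem hκ) h4) hκ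
      have h6 : κ⁻¹ * (κ * (x : Γ) * κ⁻¹) * κ = x := by group
      rwa [h6] at h5
  by_cases hx : x ∈ Subgroup.normalizer (R : Set N)
  · exact (h ⟨x, hx⟩ ⟨y, h3.1 hx⟩ hxy).symm
  · rw [hχ.supp x hx, hχ.supp y fun h4 => hx (h3.2 h4)]

theorem w_class {N : Subgroup Γ} {p : ℕ} {R : Subgroup N} {χ : N → ℂ} (hχ : IsW p R χ)
    (g x : Subgroup.normalizer (R : Set N)) :
    χ ((g * x * g⁻¹ : Subgroup.normalizer (R : Set N)) : N) = χ x :=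
  irr_class (F := ℂ) (φ := fun x : Subgroup.normalizer (R : Set N) => χ x) hχ.wt.irr g x

end nq

section fr

variable {Γ : Type} [Group Γ] [Finite Γ] {G K H : Subgroup Γ} [G.Normal] [K.Normal] [H.Normal]
  {p : ℕ}

/-- an element whose powers separate the two factors -/
theorem Fr.pow (f : Fr p G K H) (hp : p.Prime) {n κ : Γ} (hn : n ∈ H) (hκ : κ ∈ K) :
    ∃ m : ℕ, (n * κ) ^ m * κ⁻¹ ∈ G := by
  obtain ⟨a, ha⟩ := f.pK κ hκ
  obtain ⟨m, hm1, hm2⟩ := Nat.chineseRemainder (f.cop hp a).symm 0 1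
  refine ⟨m, ?_⟩
  rw [← QuotientGroup.eq_one_iff, QuotientGroup.mk_mul, QuotientGroup.mk_pow,
    QuotientGroup.mk_mul, QuotientGroup.mk_inv]
  have h1 : Commute (n : Γ ⧸ G) (κ : Γ ⧸ G) := by
    have h2 := f.comm hκ hn
    rw [← QuotientGroup.eq_one_iff] at h2
    simp only [QuotientGroup.mk_mul, QuotientGroup.mk_inv] at h2
    have h3 : (κ : Γ ⧸ G) * n = n * κ := by
      rw [mul_inv_eq_one, mul_inv_eq_iff_eq_mul] at h2
      exact h2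
    exact h3.symm
  rw [h1.mul_pow]
  have h2 : (n : Γ ⧸ G) ^ m = 1 := by
    have h3 : n ^ Nat.card (H ⧸ G.subgroupOf H) ∈ G :=
      Subgroup.pow_index_mem (G.subgroupOf H) (⟨n, hn⟩ : H)
    have h4 : (n : Γ ⧸ G) ^ Nat.card (H ⧸ G.subgroupOf H) = 1 := by
      rw [← QuotientGroup.mk_pow, QuotientGroup.eq_one_iff]
      exact h3
    obtain ⟨t, ht⟩ := (Nat.modEq_zero_iff_dvd.1 hm1)
    rw [ht, pow_mul, h4, one_pow]
  have h3 : (κ : Γ ⧸ G) ^ m = κ := by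
    have h4 : (κ : Γ ⧸ G) ^ (p ^ a) = 1 := by
      rw [← QuotientGroup.mk_pow, QuotientGroup.eq_one_iff]
      exact ha
    have h5 : (κ : Γ ⧸ G) ^ m = (κ : Γ ⧸ G) ^ 1 := by
      rw [pow_eq_pow_iff_modEq]
      exact hm2.of_dvd (orderOf_dvd_of_pow_eq_one h4)
    rw [h5, pow_one]
  rw [h2, h3, one_mul, mul_inv_cancel]

theorem Fr.norm1 (f : Fr p G K H) {N : Subgroup Γ} (hGN : G ≤ N) (hNH : N ≤ H) {n κ : Γ}
    (hn : n ∈ N) (hκ : κ ∈ K) : ∀ x ∈ N, n * κ * x * (n * κ)⁻¹ ∈ N := by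
  intro x hx
  have h1 : n * κ * x * (n * κ)⁻¹ = n * (κ * x * κ⁻¹) * n⁻¹ := by group
  rw [h1]
  exact N.mul_mem (N.mul_mem hn (f.conj hGN hNH hκ hx)) (N.inv_mem hn)

theorem Fr.norm2 (f : Fr p G K H) {N : Subgroup Γ} (hGN : G ≤ N) (hNH : N ≤ H) {n κ : Γ}
    (hn : n ∈ N) (hκ : κ ∈ K) : ∀ x ∈ N, (n * κ)⁻¹ * x * (n * κ) ∈ N := by
  intro x hx
  have h1 : (n * κ)⁻¹ * x * (n * κ) = κ⁻¹ * (n⁻¹ * x * n) * κ⁻¹⁻¹ := by group
  rw [h1]
  exact f.conj hGN hNH (K.inv_mem hκ) (N.mul_mem (N.mul_mem (N.inv_mem hn) hx) hn)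

theorem Fr.fxc_iff (f : Fr p G K H) (hp : p.Prime) {N : Subgroup Γ} (hGN : G ≤ N) (hNH : N ≤ H)
    {R : Subgroup N} {χ : N → ℂ} (hχ : IsW p R χ) :
    (∀ κ ∈ K, FxC N R χ κ) ↔ (∀ κ ∈ K, ∃ g ∈ G, g * κ ∈ NQ R) ∧
      ∀ κ ∈ K, κ ∈ NQ R → ∀ x y : Subgroup.normalizer (R : Set N),
        ((y : N) : Γ) = κ * ((x : N) : Γ) * κ⁻¹ → χ y = χ x := by
  constructor
  · intro h
    refine ⟨fun κ hκ => ?_, fun κ hκ hκN x y hxy => ?_⟩
    · obtain ⟨n, hn, hF⟩ := h κ hκ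
      have h1 : n * κ ∈ NQ R :=
        (mem_NQ_iff (f.norm1 hGN hNH hn hκ) (f.norm2 hGN hNH hn hκ)).2 hF.1
      obtain ⟨m, hm⟩ := f.pow hp (hNH hn) hκ
      refine ⟨_, hm, ?_⟩
      rw [inv_mul_cancel_right]
      exact pow_mem h1 m
    · obtain ⟨n, hn, hF⟩ := h κ hκ
      have h1 : n * κ ∈ NQ R :=
        (mem_NQ_iff (f.norm1 hGN hNH hn hκ) (f.norm2 hGN hNH hn hκ)).2 hF.1
      have h2 : n ∈ NQ R := by
        have := mul_mem h1 (inv_mem hκN)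
        rwa [mul_inv_cancel_right] at this
      have h3 : (⟨n, hn⟩ : N) ∈ Subgroup.normalizer (R : Set N) := mem_NQ.2 h2
      have h4 := hF.2 x ((⟨⟨n, hn⟩, h3⟩ * y * (⟨⟨n, hn⟩, h3⟩)⁻¹ :
        Subgroup.normalizer (R : Set N)) : N) (by
          change n * ((y : N) : Γ) * n⁻¹ = n * κ * ((x : N) : Γ) * (n * κ)⁻¹
          rw [hxy]
          group)
      rw [h4, w_class hχ]
  · rintro ⟨h1, h2⟩ κ hκ
    obtain ⟨g, hg, hgκ⟩ := h1 κ hκ
    exact ⟨g, hGN hg, fx_of hχ hgκ (h2 _ (K.mul_mem (f.GK hg) hκ) hgκ)⟩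

theorem Fr.fxc_sup (f : Fr p G K H) {N : Subgroup Γ} {R : Subgroup N} {χ : N → ℂ} :
    (∀ g ∈ N ⊔ K, FxC N R χ g) ↔ ∀ κ ∈ K, FxC N R χ κ := by
  constructor
  · intro h κ hκ
    exact h κ (Subgroup.mem_sup_right hκ)
  · intro h m hm
    obtain ⟨u, hu, k, hk, rfl⟩ := mem_supK.1 hm
    obtain ⟨n, hn, hF⟩ := h k hk
    refine ⟨n * u⁻¹, N.mul_mem hn (N.inv_mem hu), ?_⟩
    have h1 : n * u⁻¹ * (u * k) = n * k := by group
    rwa [h1]

end fr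

end Pool.Agent.P8H58
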