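import Pool.Agent.P8H58.Gam3

/-!
# Invariant weights of intermediate groups: the local count
-/

set_option autoImplicit false
set_option linter.unusedSectionVars false

open scoped Classical

noncomputable section

namespace Pool.Agent.P8H58

open Pool.Agent.Y63.NV Representation
open Pool.Agent.Y63.AWC (IsIrreducibleCharacter)
open Pool.Agent.N85.WM (IsW wcv)

section fr

variable {Γ : Type} [Group Γ] [Finite Γ] {G K H : Subgroup Γ} [G.Normal] [K.Normal] [H.Normal]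
  {p : ℕ}

/-- the subgroup `Q₁` of `G` as a subgroup of `J` -/
abbrev RJ {J : Subgroup Γ} (hGJ : G ≤ J) (Q₁ : Subgroup G) : Subgroup J :=
  Q₁.map (Subgroup.inclusion hGJ)

omit [Finite Γ] [G.Normal] in
theorem RJ_map {J : Subgroup Γ} (hGJ : G ≤ J) (Q₁ : Subgroup G) :
    (RJ hGJ Q₁).map J.subtype = Q₁.map G.subtype := by
  rw [Subgroup.map_map]
  rfl

omit [Finite Γ] [G.Normal] in
theorem NQ_RJ {J : Subgroup Γ} (hGJ : G ≤ J) (Q₁ : Subgroup G) : NQ (RJ hGJ Q₁) = NQ Q₁ := by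
  unfold NQ
  rw [RJ_map]

/-- the inclusion of the normalizers -/
def jn {J : Subgroup Γ} (hGJ : G ≤ J) (Q₁ : Subgroup G) :
    Subgroup.normalizer (Q₁ : Set G) →* Subgroup.normalizer ((RJ hGJ Q₁ : Subgroup J) : Set J) :=
  ((Subgroup.inclusion hGJ).comp (Subgroup.subtype _)).codRestrict _ (fun x => by
    rw [mem_NQ, NQ_RJ]
    exact mem_NQ.1 x.2)

/-- the embedding of the normalizer in the ambient group -/
def bn {J : Subgroup Γ} (hGJ : G ≤ J) (Q₁ : Subgroup G) :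
    Subgroup.normalizer ((RJ hGJ Q₁ : Subgroup J) : Set J) →* Γ :=
  J.subtype.comp (Subgroup.subtype _)

theorem jn_coe {J : Subgroup Γ} (hGJ : G ≤ J) (Q₁ : Subgroup G)
    (x : Subgroup.normalizer (Q₁ : Set G)) : (((jn hGJ Q₁ x : _) : J) : Γ) = ((x : G) : Γ) := rfl

theorem loc_N {J : Subgroup Γ} (hGJ : G ≤ J) (hJH : J ≤ H) (Q₁ : Subgroup G) :
    Loc G H (jn hGJ Q₁) (bn hGJ Q₁) where
  bi x y h := Subtype.ext (Subtype.ext h)
  ji x y h := by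
    have h1 := congrArg (fun t => bn hGJ Q₁ t) h
    exact Subtype.ext (Subtype.ext h1)
  le x := hJH x.1.2
  ran x := by
    constructor
    · intro h
      refine ⟨⟨⟨_, h⟩, ?_⟩, Subtype.ext (Subtype.ext rfl)⟩
      rw [mem_NQ, ← NQ_RJ hGJ]
      exact mem_NQ.1 x.2
    · rintro ⟨y, rfl⟩
      exact y.1.2

theorem Fr.good_N (f : Fr p G K H) (hp : p.Prime) {J : Subgroup Γ} (hGJ : G ≤ J) (hJH : J ≤ H)
    (Q₁ : Subgroup G) {κ : Γ} (hκ : κ ∈ K) (hκN : κ ∈ NQ Q₁) :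
    Good G (Nat.card (H ⧸ G.subgroupOf H)) (jn hGJ Q₁) (bn hGJ Q₁) κ where
  norm x := by
    have h1 : κ * ((x : J) : Γ) * κ⁻¹ ∈ J := f.conj hGJ hJH hκ x.1.2
    refine ⟨⟨⟨_, h1⟩, ?_⟩, rfl⟩
    rw [mem_NQ, NQ_RJ]
    have h2 := mem_NQ.1 x.2
    rw [NQ_RJ] at h2
    exact mul_mem (mul_mem hκN h2) (inv_mem hκN)
  comm x := f.comm hκ (hJH x.1.2)
  pw := by
    obtain ⟨a, ha⟩ := f.pK κ hκ
    refine ⟨p ^ a, f.cop hp a, ha, ⟨⟨_, hGJ ha⟩, ?_⟩, rfl⟩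
    rw [mem_NQ, NQ_RJ]
    exact pow_mem hκN _

theorem pg_RJ {J : Subgroup Γ} (hGJ : G ≤ J) {Q₁ : Subgroup G} (h : IsPGroup p Q₁) :
    IsPGroup p (RJ hGJ Q₁) := h.map _

theorem mem_RJ {J : Subgroup Γ} (hGJ : G ≤ J) (Q₁ : Subgroup G) (x : G) :
    Subgroup.inclusion hGJ x ∈ RJ hGJ Q₁ ↔ x ∈ Q₁ := by
  constructor
  · rintro ⟨y, hy, hyx⟩
    have := Subgroup.inclusion_injective hGJ hyx
    rwa [← this]
  · intro h
    exact ⟨x, h, rfl⟩

variable {F : Type} [Field F] (red : integralClosure ℤ ℂ →+* F)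

/-- **The local count.** -/
theorem Fr.local_w (f : Fr p G K H) (hp : p.Prime) {J : Subgroup Γ} (hGJ : G ≤ J)
    (hJH : J ≤ H) {z : Γ → F} (hz : InZ G z) (c : F) {Q₁ : Subgroup G} (hQ : IsPGroup p Q₁) :
    ∑ᶠ χ : {χ : G → ℂ // IsW p Q₁ χ ∧ wcv red Q₁ χ (fun x : G => z x) = c ∧
      ∀ κ ∈ K, FxC G Q₁ χ κ}, (Nat.card {x : J // Fx G Q₁ χ.1 x}) ^ 2 =
    Nat.card (Subgroup.normalizer ((RJ hGJ Q₁ : Subgroup J) : Set J)) *
      Nat.card (Subgroup.normalizer (Q₁ : Set G)) *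
      Nat.card {χ : J → ℂ // IsW p (RJ hGJ Q₁) χ ∧
        wcv red (RJ hGJ Q₁) χ (fun x : J => z x) = c ∧ ∀ g ∈ J ⊔ K, FxC J (RJ hGJ Q₁) χ g} := by
  by_cases hst : ∀ κ ∈ K, ∃ g ∈ G, g * κ ∈ NQ Q₁
  · have hG : ∀ χ : G → ℂ, IsW p Q₁ χ → ((∀ κ ∈ K, FxC G Q₁ χ κ) ↔
        (fun ψ : Subgroup.normalizer (Q₁ : Set G) → ℂ => ∀ κ ∈ {κ : Γ | κ ∈ K ∧ κ ∈ NQ Q₁},
          IvK ((bn hGJ Q₁).comp (jn hGJ Q₁)) κ ψ)
            (fun x : Subgroup.normalizer (Q₁ : Set G) => χ x)) := by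
      intro χ hχ
      rw [f.fxc_iff hp le_rfl f.GH hχ]
      constructor
      · rintro ⟨-, h2⟩ κ ⟨hκ, hκN⟩ x y hxy
        exact h2 κ hκ hκN x y hxy
      · intro h
        exact ⟨hst, fun κ hκ hκN x y hxy => h κ ⟨hκ, hκN⟩ x y hxy⟩
    have hJ : ∀ χ : J → ℂ, IsW p (RJ hGJ Q₁) χ → ((∀ g ∈ J ⊔ K, FxC J (RJ hGJ Q₁) χ g) ↔
        (fun ψ : Subgroup.normalizer ((RJ hGJ Q₁ : Subgroup J) : Set J) → ℂ =>
          ∀ κ ∈ {κ : Γ | κ ∈ K ∧ κ ∈ NQ Q₁}, IvK (bn hGJ Q₁) κ ψ)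
            (fun x : Subgroup.normalizer ((RJ hGJ Q₁ : Subgroup J) : Set J) => χ x)) := by
      intro χ hχ
      rw [f.fxc_sup, f.fxc_iff hp hGJ hJH hχ, NQ_RJ]
      constructor
      · rintro ⟨-, h2⟩ κ ⟨hκ, hκN⟩ x y hxy
        exact h2 κ hκ hκN x y hxy
      · intro h
        exact ⟨hst, fun κ hκ hκN x y hxy => h κ ⟨hκ, hκN⟩ x y hxy⟩
    have hext := ext_sum red (RJ hGJ Q₁) (pg_RJ hGJ hQ) (fun x : J => z x) c
      (fun χ => ∀ g ∈ J ⊔ K, FxC J (RJ hGJ Q₁) χ g)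
      (fun ψ => ∀ κ ∈ {κ : Γ | κ ∈ K ∧ κ ∈ NQ Q₁}, IvK (bn hGJ Q₁) κ ψ) hJ (fun _ => 1)
    have hcard : Nat.card {χ : J → ℂ // IsW p (RJ hGJ Q₁) χ ∧
        wcv red (RJ hGJ Q₁) χ (fun x : J => z x) = c ∧ ∀ g ∈ J ⊔ K, FxC J (RJ hGJ Q₁) χ g} =
        (irs (fun ψ : Subgroup.normalizer ((RJ hGJ Q₁ : Subgroup J) : Set J) → ℂ =>
          (IsWt p ((RJ hGJ Q₁).subgroupOf (Subgroup.normalizer
            ((RJ hGJ Q₁ : Subgroup J) : Set J))) ψ ∧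
          centralValue red ψ (fun x => z x) = c) ∧
          ∀ κ ∈ {κ : Γ | κ ∈ K ∧ κ ∈ NQ Q₁}, IvK (bn hGJ Q₁) κ ψ)).card := by
      rw [Finset.card_eq_sum_ones, ← hext]
      have hfin : Finite {χ : J → ℂ // IsW p (RJ hGJ Q₁) χ ∧
        wcv red (RJ hGJ Q₁) χ (fun x : J => z x) = c ∧ ∀ g ∈ J ⊔ K, FxC J (RJ hGJ Q₁) χ g} := by
        haveI := irs_fin (F := ℂ)
          (fun ψ : Subgroup.normalizer ((RJ hGJ Q₁ : Subgroup J) : Set J) → ℂ => True)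
        haveI : Finite {ψ : Subgroup.normalizer ((RJ hGJ Q₁ : Subgroup J) : Set J) → ℂ |
          IsIrrTrace ψ ∧ True} := this
        refine Finite.of_injective (β :=
          {ψ : Subgroup.normalizer ((RJ hGJ Q₁ : Subgroup J) : Set J) → ℂ |
          IsIrrTrace ψ ∧ True}) (fun χ => ⟨fun x => χ.1 x, χ.2.1.wt.irr, trivial⟩) ?_
        intro χ χ' h
        apply Subtype.ext
        funext x
        by_cases hx : x ∈ Subgroup.normalizer ((RJ hGJ Q₁ : Subgroup J) : Set J)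
        · exact congrFun (congrArg Subtype.val h) ⟨x, hx⟩
        · rw [χ.2.1.supp x hx, χ'.2.1.supp x hx]
      have := Fintype.ofFinite {χ : J → ℂ // IsW p (RJ hGJ Q₁) χ ∧
        wcv red (RJ hGJ Q₁) χ (fun x : J => z x) = c ∧ ∀ g ∈ J ⊔ K, FxC J (RJ hGJ Q₁) χ g}
      rw [finsum_eq_sum_of_fintype, Nat.card_eq_fintype_card, Fintype.card_eq_sum_ones]
    rw [hcard]
    have hcardH : (Nat.card (H ⧸ G.subgroupOf H) : ℂ) ≠ 0 := by
      exact_mod_cast (Nat.card_pos (α := H ⧸ G.subgroupOf H)).ne'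
    haveI hnorm : (jn hGJ Q₁).range.Normal := (loc_N hGJ hJH Q₁).normal
    have hp' : ¬ p ∣ Nat.card (Subgroup.normalizer ((RJ hGJ Q₁ : Subgroup J) : Set J) ⧸
        (jn hGJ Q₁).range) := fun h => f.p' (h.trans (loc_N hGJ hJH Q₁).dvd)
    have h1 := loc_count (k := ℂ) (loc_N hGJ hJH Q₁) f.cyc hcardH
      {κ : Γ | κ ∈ K ∧ κ ∈ NQ Q₁} (fun κ hκ => f.good_N hp hGJ hJH Q₁ hκ.1 hκ.2)
      (fun ψ : Subgroup.normalizer ((RJ hGJ Q₁ : Subgroup J) : Set J) → ℂ =>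
        IsWt p ((RJ hGJ Q₁).subgroupOf (Subgroup.normalizer
            ((RJ hGJ Q₁ : Subgroup J) : Set J))) ψ ∧
          centralValue red ψ (fun x => z x) = c)
      (fun ψ : Subgroup.normalizer (Q₁ : Set G) → ℂ =>
        IsWt p (Q₁.subgroupOf (Subgroup.normalizer (Q₁ : Set G))) ψ ∧
          centralValue red ψ (fun x => z x) = c) (by
        intro X Y hXY
        have hf : InZ (jn hGJ Q₁).range
            (fun x : Subgroup.normalizer ((RJ hGJ Q₁ : Subgroup J) : Set J) => z x) :=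
          ⟨fun g x => hz.conj _ _, fun x hx => hz.supp _ fun h =>
            hx (((loc_N hGJ hJH Q₁).ran x).1 h)⟩
        have h2 := cvj (loc_N hGJ hJH Q₁).ji red hf hXY
        have h3 := wtj (loc_N hGJ hJH Q₁).ji red hp ((loc_N hGJ hJH Q₁).cyc f.cyc) hp' hXY
          (T := (RJ hGJ Q₁).subgroupOf (Subgroup.normalizer ((RJ hGJ Q₁ : Subgroup J) : Set J)))
          (by
            rintro x ⟨y, hy, hyx⟩
            refine ((loc_N hGJ hJH Q₁).ran x).1 ?_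
            have h4 : (((Subgroup.inclusion hGJ y : J) : Γ)) = ((x : J) : Γ) :=
              congrArg Subtype.val hyx
            change ((x : J) : Γ) ∈ G
            rw [← h4]
            exact y.2)
          (S := Q₁.subgroupOf (Subgroup.normalizer (Q₁ : Set G))) (by
            intro a
            rw [Subgroup.mem_subgroupOf, Subgroup.mem_subgroupOf]
            exact (mem_RJ hGJ Q₁ a).symm)
        rw [h3, h2]
        rfl)
    rw [← h1, ← ext_sum red Q₁ hQ (fun x : G => z x) c (fun χ => ∀ κ ∈ K, FxC G Q₁ χ κ)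
      (fun ψ => ∀ κ ∈ {κ : Γ | κ ∈ K ∧ κ ∈ NQ Q₁},
        IvK ((bn hGJ Q₁).comp (jn hGJ Q₁)) κ ψ) hG]
    refine finsum_congr fun χ => ?_
    congr 1
    unfold scj
    refine Nat.card_congr ?_
    have hmem : ∀ x : J, Fx G Q₁ χ.1 x → x ∈ Subgroup.normalizer
        ((RJ hGJ Q₁ : Subgroup J) : Set J) := by
      intro x hx
      rw [mem_NQ, NQ_RJ]
      exact Pool.Agent.N85.WM.Cov.mem_norm_of G Q₁ x hx.1
    exact
      { toFun := fun x => ⟨⟨x.1, hmem x.1 x.2⟩, fun a b hab => by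
          have h2 : (((b : G) : Γ)) = ((x.1 : J) : Γ) * ((a : G) : Γ) * ((x.1 : J) : Γ)⁻¹ :=
            congrArg (fun t : Subgroup.normalizer ((RJ hGJ Q₁ : Subgroup J) : Set J) =>
              ((t : J) : Γ)) hab
          exact (x.2.2 _ _ h2).symm⟩
        invFun := fun y => ⟨y.1.1, by
          refine fx_of χ.2.1 ?_ ?_
          · have h2 := mem_NQ.1 y.1.2
            rwa [NQ_RJ] at h2
          · intro a b hab
            exact y.2 a b (Subtype.ext (Subtype.ext hab))⟩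
        left_inv := fun x => rfl
        right_inv := fun y => rfl }
  · have h1 : IsEmpty {χ : G → ℂ // IsW p Q₁ χ ∧ wcv red Q₁ χ (fun x : G => z x) = c ∧
        ∀ κ ∈ K, FxC G Q₁ χ κ} :=
      ⟨fun χ => hst ((f.fxc_iff hp le_rfl f.GH χ.2.1).1 χ.2.2.2).1⟩
    have h2 : IsEmpty {χ : J → ℂ // IsW p (RJ hGJ Q₁) χ ∧
        wcv red (RJ hGJ Q₁) χ (fun x : J => z x) = c ∧ ∀ g ∈ J ⊔ K, FxC J (RJ hGJ Q₁) χ g} := by
      refine ⟨fun χ => hst ?_⟩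
      have h3 := ((f.fxc_iff hp hGJ hJH χ.2.1).1 (f.fxc_sup.1 χ.2.2.2)).1
      rwa [NQ_RJ] at h3
    have h3 : Nat.card {χ : J → ℂ // IsW p (RJ hGJ Q₁) χ ∧
        wcv red (RJ hGJ Q₁) χ (fun x : J => z x) = c ∧ ∀ g ∈ J ⊔ K, FxC J (RJ hGJ Q₁) χ g} = 0 :=
      Nat.card_of_isEmpty
    rw [h3, mul_zero, finsum_of_isEmpty]

end fr

end Pool.Agent.P8H58
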