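import Pool.Agent.P8H58.Nav

/-!
# The sum over the weights
-/

set_option autoImplicit false
set_option linter.unusedSectionVars false

open scoped Classical

noncomputable section

namespace Pool.Agent.P8H58

open Pool.Agent.Y63.NV Representation
open Pool.Agent.Y63.AWC (IsIrreducibleCharacter)
open Pool.Agent.N85.WM (IsW wcv)
open Pool.Agent.N85.WM.Ww (tot)

section stw

variable {Γ : Type} [Group Γ] [Finite Γ] {G : Subgroup Γ} [hG : G.Normal] {p : ℕ}

/-- the stabilizer of a pair -/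
def StW (Q : Subgroup G) (χ : G → ℂ) : Subgroup Γ where
  carrier := {g | Fx G Q χ g}
  one_mem' := by
    constructor
    · intro x y hxy
      have : y = x := Subtype.ext (by rw [hxy]; group)
      rw [this]
    · intro x y hxy
      have : y = x := Subtype.ext (by rw [hxy]; group)
      rw [this]
  mul_mem' := by
    rintro a b ⟨ha1, ha2⟩ ⟨hb1, hb2⟩
    constructor
    · intro x y hxy
      have h1 : b * (x : Γ) * b⁻¹ ∈ G := hG.conj_mem _ x.2 b
      rw [hb1 x ⟨_, h1⟩ rfl]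
      refine ha1 _ y ?_
      rw [hxy]
      change a * b * (x : Γ) * (a * b)⁻¹ = a * (b * (x : Γ) * b⁻¹) * a⁻¹
      group
    · intro x y hxy
      have h1 : b * (x : Γ) * b⁻¹ ∈ G := hG.conj_mem _ x.2 b
      rw [hb2 x ⟨_, h1⟩ rfl]
      refine ha2 _ y ?_
      rw [hxy]
      change a * b * (x : Γ) * (a * b)⁻¹ = a * (b * (x : Γ) * b⁻¹) * a⁻¹
      group
  inv_mem' := by
    rintro a ⟨ha1, ha2⟩
    constructor
    · intro x y hxy
      refine (ha1 y x ?_).symm
      rw [hxy]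
      group
    · intro x y hxy
      refine (ha2 y x ?_).symm
      rw [hxy]
      group

theorem mem_StW {Q : Subgroup G} {χ : G → ℂ} {g : Γ} : g ∈ StW Q χ ↔ Fx G Q χ g := Iff.rfl

/-- the stabilizer of the class of a pair -/
def UW (Q : Subgroup G) (χ : G → ℂ) : Subgroup Γ := G ⊔ StW Q χ

theorem mem_UW {Q : Subgroup G} {χ : G → ℂ} {g : Γ} : g ∈ UW Q χ ↔ FxC G Q χ g := by
  constructor
  · intro h
    have h1 : g ∈ ((G ⊔ StW Q χ : Subgroup Γ) : Set Γ) := h
    rw [Subgroup.normal_mul, Set.mem_mul] at h1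
    obtain ⟨n, hn, s, hs, rfl⟩ := h1
    exact ⟨n⁻¹, G.inv_mem hn, by rw [inv_mul_cancel_left]; exact hs⟩
  · rintro ⟨n, hn, h⟩
    have h1 := Subgroup.mul_mem_sup (G.inv_mem hn) (mem_StW.2 h)
    rwa [inv_mul_cancel_left] at h1

theorem le_UW (Q : Subgroup G) (χ : G → ℂ) : G ≤ UW Q χ := le_sup_left

theorem stW_G {Q : Subgroup G} {χ : G → ℂ} (hχ : IsW p Q χ) (n : G) :
    (n : Γ) ∈ StW Q χ ↔ n ∈ Subgroup.normalizer (Q : Set G) := by
  constructor
  · intro h
    rw [mem_NQ]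
    exact Pool.Agent.N85.WM.Cov.mem_norm_of G Q n h.1
  · intro h
    refine fx_of hχ (mem_NQ.1 h) fun x y hxy => ?_
    have h1 : y = ⟨n, h⟩ * x * ⟨n, h⟩⁻¹ := Subtype.ext (Subtype.ext hxy)
    rw [h1]
    exact w_class hχ _ _

theorem card_UW {Q : Subgroup G} {χ : G → ℂ} (hχ : IsW p Q χ) {J : Subgroup Γ} (hGJ : G ≤ J) :
    Nat.card ↥(J ⊓ UW Q χ) * Nat.card (Subgroup.normalizer (Q : Set G)) =
      Nat.card G * Nat.card {x : J // Fx G Q χ x} := by
  have h1 : Nat.card {x : J // Fx G Q χ x} = Nat.card ↥(J ⊓ StW Q χ) := by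
    refine Nat.card_congr ?_
    exact
      { toFun := fun x => ⟨x.1, x.1.2, x.2⟩
        invFun := fun x => ⟨⟨x.1, x.2.1⟩, x.2.2⟩
        left_inv := fun x => rfl
        right_inv := fun x => rfl }
  have h2 : Nat.card (Subgroup.normalizer (Q : Set G)) = Nat.card ↥(G ⊓ (J ⊓ StW Q χ)) := by
    refine Nat.card_congr ?_
    exact
      { toFun := fun x => ⟨x.1, x.1.2, hGJ x.1.2, (stW_G hχ x.1).2 x.2⟩
        invFun := fun x => ⟨⟨x.1, x.2.1⟩, (stW_G hχ _).1 x.2.2.2⟩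
        left_inv := fun x => rfl
        right_inv := fun x => rfl }
  have h3 : J ⊓ UW Q χ = G ⊔ (J ⊓ StW Q χ) := by
    apply le_antisymm
    · intro x hx
      have h4 : x ∈ ((G ⊔ StW Q χ : Subgroup Γ) : Set Γ) := hx.2
      rw [Subgroup.normal_mul, Set.mem_mul] at h4
      obtain ⟨n, hn, s, hs, rfl⟩ := h4
      refine Subgroup.mul_mem_sup hn ⟨?_, hs⟩
      have h5 := J.mul_mem (J.inv_mem (hGJ hn)) hx.1
      rwa [inv_mul_cancel_left] at h5
    · exact sup_le (le_inf hGJ (le_UW Q χ)) (inf_le_inf_left J le_sup_right)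
  have h4 : Nat.card ↥(G ⊔ (J ⊓ StW Q χ)) = Nat.card G * G.relIndex (J ⊓ StW Q χ) := by
    have h5 := Subgroup.card_mul_index (G.subgroupOf (G ⊔ (J ⊓ StW Q χ)))
    rw [Nat.card_congr (Subgroup.subgroupOfEquivOfLe
      (le_sup_left : G ≤ G ⊔ (J ⊓ StW Q χ))).toEquiv] at h5
    rw [← h5]
    congr 1
    change G.relIndex (G ⊔ (J ⊓ StW Q χ)) = _
    rw [sup_comm, Subgroup.relIndex_sup_right]
  have h5 : Nat.card ↥(J ⊓ StW Q χ) = Nat.card ↥(G ⊓ (J ⊓ StW Q χ)) *
      G.relIndex (J ⊓ StW Q χ) := by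
    have h6 := Subgroup.card_mul_index (G.subgroupOf (J ⊓ StW Q χ))
    rw [← h6]
    congr 1
    refine Nat.card_congr ?_
    exact
      { toFun := fun x => ⟨x.1.1, x.2, x.1.2⟩
        invFun := fun x => ⟨⟨x.1, x.2.2⟩, x.2.1⟩
        left_inv := fun x => rfl
        right_inv := fun x => rfl }
  rw [h1, h2, h3, h4, h5]
  ring

end stw

section fr

variable {Γ : Type} [Group Γ] [Finite Γ] {G K H : Subgroup Γ} [G.Normal] [K.Normal] [H.Normal]
  {p : ℕ}

/-- the weights whose class is invariant under `K` -/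
abbrev WK (p : ℕ) {F : Type} [Field F] (red : integralClosure ℤ ℂ →+* F) (G K : Subgroup Γ)
    (z : Γ → F) (c : F) : Type :=
  {w : Subgroup G × (G → ℂ) // IsW p w.1 w.2 ∧ wcv red w.1 w.2 (fun x : G => z x) = c ∧
    ∀ κ ∈ K, FxC G w.1 w.2 κ}

theorem wk_fin [Fact p.Prime] {F : Type} [Field F] (red : integralClosure ℤ ℂ →+* F)
    (z : Γ → F) (c : F) : Finite (WK p red G K z c) := by
  haveI := Pool.Agent.N85.WM.Ww.isW_fin (p := p) (H := G)
  exact Finite.of_injective (β := {w : Subgroup G × (G → ℂ) // IsW p w.1 w.2})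
    (fun w => ⟨w.1, w.2.1⟩) (fun w w' h => Subtype.ext
      (congrArg (fun t : {w : Subgroup G × (G → ℂ) // IsW p w.1 w.2} => t.1) h))

theorem le_of_pg (f : Fr p G K H) (hp : p.Prime) {J : Subgroup Γ} (hJH : J ≤ H) {R : Subgroup J}
    (hR : IsPGroup p R) : R.map J.subtype ≤ G := by
  rintro _ ⟨x, hx, rfl⟩
  obtain ⟨a, ha⟩ := hR ⟨x, hx⟩
  have h1 : ((x : J) : Γ) ^ p ^ a ∈ G := by
    have h2 := congrArg (fun t : R => ((t : J) : Γ)) ha
    have h3 : ((x : J) : Γ) ^ p ^ a = 1 := h2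
    rw [h3]
    exact G.one_mem
  have h2 : ((x : J) : Γ) ^ Nat.card (H ⧸ G.subgroupOf H) ∈ G :=
    Subgroup.pow_index_mem (G.subgroupOf H) (⟨x, hJH x.2⟩ : H)
  exact pow_mem_coprime (f.cop hp a) h1 h2

variable {F : Type} [Field F] (red : integralClosure ℤ ℂ →+* F)

/-- **The count of the weights of the intermediate groups.** -/
theorem Fr.tot_eq [Fact p.Prime] (f : Fr p G K H) {J : Subgroup Γ} (hGJ : G ≤ J)
    (hJH : J ≤ H) {z : Γ → F} (hz : InZ G z) (c : F) [Fintype (WK p red G K z c)] :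
    ∑ w : WK p red G K z c, (Nat.card (Subgroup.normalizer (w.1.1 : Set G)) : ℤ) *
      (Nat.card ↥(J ⊓ UW w.1.1 w.1.2) : ℤ) ^ 2 =
    (Nat.card G : ℤ) ^ 2 * tot (fun (Q : Subgroup J) χ => IsW p Q χ ∧
      wcv red Q χ (fun x : J => z x) = c ∧ ∀ g ∈ J ⊔ K, FxC J Q χ g) := by
  have hp : p.Prime := Fact.out
  haveI : Fintype (Subgroup G) := Fintype.ofFinite _
  haveI : Fintype (Subgroup J) := Fintype.ofFinite _
  let P : Subgroup G → (G → ℂ) → Prop := fun Q χ => IsW p Q χ ∧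
    wcv red Q χ (fun x : G => z x) = c ∧ ∀ κ ∈ K, FxC G Q χ κ
  have hfP : ∀ Q, Finite {χ // P Q χ} := by
    intro Q
    haveI := wk_fin (p := p) (G := G) (K := K) red z c
    exact Finite.of_injective (β := WK p red G K z c) (fun χ => ⟨(Q, χ.1), χ.2⟩)
      (fun χ χ' h => Subtype.ext (congrArg (fun t => t.1.2) h))
  haveI : ∀ Q, Fintype {χ // P Q χ} := fun Q => Fintype.ofFinite _
  have h1 : ∑ w : WK p red G K z c, (Nat.card (Subgroup.normalizer (w.1.1 : Set G)) : ℤ) *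
      (Nat.card ↥(J ⊓ UW w.1.1 w.1.2) : ℤ) ^ 2 = ∑ Q : Subgroup G, ∑ χ : {χ // P Q χ},
      (Nat.card (Subgroup.normalizer (Q : Set G)) : ℤ) * (Nat.card ↥(J ⊓ UW Q χ.1) : ℤ) ^ 2 := by
    rw [← Fintype.sum_sigma (fun s : Σ Q : Subgroup G, {χ // P Q χ} =>
      (Nat.card (Subgroup.normalizer (s.1 : Set G)) : ℤ) *
        (Nat.card ↥(J ⊓ UW s.1 s.2.1) : ℤ) ^ 2)]
    exact Fintype.sum_equiv (Equiv.subtypeProdEquivSigmaSubtype P) _ _ fun w => rfl
  rw [h1]
  unfold tot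
  rw [finsum_eq_sum_of_fintype, Finset.mul_sum]
  -- only the subgroups of `G` matter
  let g : Subgroup J → ℤ := fun R => (Nat.card G : ℤ) ^ 2 *
    ((Nat.card (Subgroup.normalizer (R : Set J)) : ℤ) * Nat.card {χ : J → ℂ // IsW p R χ ∧
      wcv red R χ (fun x : J => z x) = c ∧ ∀ g ∈ J ⊔ K, FxC J R χ g})
  have hg0 : ∀ R : Subgroup J, ¬ IsPGroup p R → g R = 0 := by
    intro R hR
    have : IsEmpty {χ : J → ℂ // IsW p R χ ∧
      wcv red R χ (fun x : J => z x) = c ∧ ∀ g ∈ J ⊔ K, FxC J R χ g} := ⟨fun χ => hR χ.2.1.pg⟩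
    have h2 : Nat.card {χ : J → ℂ // IsW p R χ ∧
      wcv red R χ (fun x : J => z x) = c ∧ ∀ g ∈ J ⊔ K, FxC J R χ g} = 0 := Nat.card_of_isEmpty
    change (Nat.card G : ℤ) ^ 2 * (_ * ((Nat.card {χ : J → ℂ // IsW p R χ ∧
      wcv red R χ (fun x : J => z x) = c ∧ ∀ g ∈ J ⊔ K, FxC J R χ g} : ℕ) : ℤ)) = 0
    rw [h2]
    simp
  have hinj : Function.Injective (fun Q : Subgroup G => RJ hGJ Q) :=
    Subgroup.map_injective (Subgroup.inclusion_injective hGJ)
  have hsum : ∑ R : Subgroup J, g R = ∑ Q : Subgroup G, g (RJ hGJ Q) := by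
    rw [← Finset.sum_image (g := fun Q : Subgroup G => RJ hGJ Q) (s := Finset.univ)
      (fun a _ b _ h => hinj h)]
    symm
    refine Finset.sum_subset (Finset.subset_univ _) fun R _ hR => ?_
    by_contra hne
    have hRp : IsPGroup p R := by
      by_contra h2
      exact hne (hg0 R h2)
    apply hR
    refine Finset.mem_image.2 ⟨R.comap (Subgroup.inclusion hGJ), Finset.mem_univ _, ?_⟩
    apply Subgroup.map_comap_eq_self
    intro x hx
    have h2 : ((x : J) : Γ) ∈ G := le_of_pg f hp hJH hRp ⟨x, hx, rfl⟩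
    exact ⟨⟨x, h2⟩, rfl⟩
  refine Eq.trans ?_ hsum.symm
  refine Finset.sum_congr rfl fun Q _ => ?_
  by_cases hQ : IsPGroup p Q
  · have h2 := f.local_w red hp hGJ hJH hz c hQ
    rw [finsum_eq_sum_of_fintype] at h2
    have hNG : (Nat.card (Subgroup.normalizer (Q : Set G)) : ℤ) ≠ 0 := by
      exact_mod_cast (Nat.card_pos (α := Subgroup.normalizer (Q : Set G))).ne'
    apply mul_left_cancel₀ hNG
    have h3 : (Nat.card (Subgroup.normalizer (Q : Set G)) : ℤ) * ∑ χ : {χ // P Q χ},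
        (Nat.card (Subgroup.normalizer (Q : Set G)) : ℤ) *
          (Nat.card ↥(J ⊓ UW Q χ.1) : ℤ) ^ 2 =
        (Nat.card G : ℤ) ^ 2 * ((∑ χ : {χ // P Q χ},
          (Nat.card {x : J // Fx G Q χ.1 x}) ^ 2 : ℕ) : ℤ) := by
      rw [Nat.cast_sum, Finset.mul_sum, Finset.mul_sum]
      refine Finset.sum_congr rfl fun χ _ => ?_
      have h4 := card_UW χ.2.1 hGJ
      have h5 : (Nat.card ↥(J ⊓ UW Q χ.1) : ℤ) *
          Nat.card (Subgroup.normalizer (Q : Set G)) =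
          Nat.card G * Nat.card {x : J // Fx G Q χ.1 x} := by exact_mod_cast h4
      calc (Nat.card (Subgroup.normalizer (Q : Set G)) : ℤ) *
            ((Nat.card (Subgroup.normalizer (Q : Set G)) : ℤ) *
              (Nat.card ↥(J ⊓ UW Q χ.1) : ℤ) ^ 2) =
            ((Nat.card ↥(J ⊓ UW Q χ.1) : ℤ) *
              Nat.card (Subgroup.normalizer (Q : Set G))) ^ 2 := by ring
        _ = _ := by
            rw [h5]
            push_cast
            ring
    rw [h3]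
    have h4 : (∑ χ : {χ // P Q χ}, (Nat.card {x : J // Fx G Q χ.1 x}) ^ 2 : ℕ) =
        Nat.card (Subgroup.normalizer ((RJ hGJ Q : Subgroup J) : Set J)) *
      Nat.card (Subgroup.normalizer (Q : Set G)) *
      Nat.card {χ : J → ℂ // IsW p (RJ hGJ Q) χ ∧
        wcv red (RJ hGJ Q) χ (fun x : J => z x) = c ∧
          ∀ g ∈ J ⊔ K, FxC J (RJ hGJ Q) χ g} := by
      rw [← h2]
    rw [h4]
    change _ = _ * ((Nat.card G : ℤ) ^ 2 * _)
    push_cast
    ring
  · have h2 : IsEmpty {χ // P Q χ} := ⟨fun χ => hQ χ.2.1.pg⟩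
    have h3 : ¬ IsPGroup p (RJ hGJ Q) := by
      intro h4
      apply hQ
      have h5 := h4.comap_of_injective (Subgroup.inclusion hGJ)
        (Subgroup.inclusion_injective hGJ)
      rwa [Subgroup.comap_map_eq_self_of_injective (Subgroup.inclusion_injective hGJ)] at h5
    rw [hg0 _ h3]
    exact Finset.sum_of_isEmpty _

end fr

end Pool.Agent.P8H58
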