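import Pool.Agent.P8H58.Gam5
import Pool.Agent.N232.DICOMB

/-!
# Fully invariant irreducible traces and weights
-/

set_option autoImplicit false
set_option linter.unusedSectionVars false

open scoped Classical

noncomputable section

namespace Pool.Agent.P8H58

open Pool.Agent.Y63.NV Representation
open Pool.Agent.Y63.AWC (IsIrreducibleCharacter)
open Pool.Agent.N85.WM (IsW wcv)
open Pool.Agent.N85.WM.Ww (tot)

section fr

variable {Γ : Type} [Group Γ] [Finite Γ] {G K H : Subgroup Γ} [G.Normal] [K.Normal] [H.Normal]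
  {p : ℕ}

theorem card_quo {S : Subgroup Γ} (hS : G ≤ S) (U : Subgroup (Γ ⧸ G)) :
    Nat.card G * Nat.card ↥(S.map (QuotientGroup.mk' G) ⊓ U) =
      Nat.card ↥(U.comap (QuotientGroup.mk' G) ⊓ S) := by
  have h1 : (S.map (QuotientGroup.mk' G) ⊓ U).comap (QuotientGroup.mk' G) =
      U.comap (QuotientGroup.mk' G) ⊓ S := by
    rw [Subgroup.comap_inf, Subgroup.comap_map_eq, QuotientGroup.ker_mk', sup_eq_left.2 hS,
      inf_comm]
  rw [← h1, Pool.Agent.Y210.NV3.card_comap (QuotientGroup.mk' G)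
    (QuotientGroup.mk'_surjective G), QuotientGroup.ker_mk']

theorem le_quo {S T : Subgroup Γ} (hS : G ≤ S) :
    T.map (QuotientGroup.mk' G) ≤ S.map (QuotientGroup.mk' G) ↔ T ≤ S := by
  rw [Subgroup.map_le_map_iff, QuotientGroup.ker_mk', sup_eq_left.2 hS]

theorem le_st {k : Type} [Field k] {φ : G → k} (h : IsIrrTrace φ) : G ≤ st φ := by
  intro g hg x y hxy
  have h1 : y = ⟨g, hg⟩ * x * ⟨g, hg⟩⁻¹ := Subtype.ext hxy
  rw [h1]
  exact irr_class h _ _

theorem Fr.sup_pow (f : Fr p G K H) {J : Subgroup Γ} (hGJ : G ≤ J) (hJH : J ≤ H) {m : Γ}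
    (hm : m ∈ J ⊔ K) : ∃ a : ℕ, m ^ p ^ a ∈ J := by
  obtain ⟨u, hu, k, hk, rfl⟩ := mem_supK.1 hm
  have key : ∀ n : ℕ, (u * k) ^ n * (k ^ n)⁻¹ ∈ J := by
    intro n
    induction n with
    | zero => simp
    | succ n ih =>
      have h1 : (u * k) ^ (n + 1) * (k ^ (n + 1))⁻¹ =
          ((u * k) ^ n * (k ^ n)⁻¹) * (k ^ n * u * (k ^ n)⁻¹) := by
        rw [pow_succ, pow_succ]
        group
      rw [h1]
      exact J.mul_mem ih (f.conj hGJ hJH (K.pow_mem hk n) hu)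
  obtain ⟨a, ha⟩ := f.pK k hk
  refine ⟨a, ?_⟩
  have h1 := J.mul_mem (key (p ^ a)) (hGJ ha)
  rwa [inv_mul_cancel_right] at h1

theorem Fr.sup_conj (f : Fr p G K H) {J : Subgroup Γ} (hGJ : G ≤ J) (hJH : J ≤ H) {m : Γ}
    (hm : m ∈ J ⊔ K) {x : Γ} (hx : x ∈ J) : m * x * m⁻¹ ∈ J := by
  obtain ⟨u, hu, k, hk, rfl⟩ := mem_supK.1 hm
  exact f.norm1 hGJ hJH hu hk x hx

variable [Fact p.Prime] {F : Type} [Field F] [IsAlgClosed F] [CharP F p]
  (red : integralClosure ℤ ℂ →+* F) {X : ∀ (L : Type) [Group L], Prop} (hX : Closed p X)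
  (hB : ∀ (L : Type) [Group L] [Finite L], X L → BAWC p red L)

include hX hB

/-- the equations for the intermediate groups -/
theorem Fr.eqJ (f : Fr p G K H) (hXH : X H) {J : Subgroup Γ} (hGJ : G ≤ J) (hJH : J ≤ H)
    {z : Γ → F} (hz : InZ G z) (c : F) [Fintype (WK p red G K z c)] :
    (Nat.card G : ℤ) * ((∑ φ ∈ irs (fun φ : G → F => Vl (fun x : G => z x) c φ ∧
      IsInvUnder K φ), (Nat.card ↥(J ⊓ st φ)) ^ 2 : ℕ) : ℤ) =
    ∑ w : WK p red G K z c, (Nat.card (Subgroup.normalizer (w.1.1 : Set G)) : ℤ) *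
      (Nat.card ↥(J ⊓ UW w.1.1 w.1.2) : ℤ) ^ 2 := by
  have hXJ : X J := by
    have h1 : X (J.subgroupOf H) := hX.sub H hXH _
    exact hX.iso _ _ h1 ⟨Subgroup.subgroupOfEquivOfLe hJH⟩
  have h1 := lnum_eq (F := F) Fact.out f hGJ hJH hz c
  have h2 := lnum_tot_sub red hX hB (J := J) (M := J ⊔ K) le_sup_left
    (fun m hm x hx => f.sup_conj hGJ hJH hm hx) (fun m hm => f.sup_pow hGJ hJH hm) hXJ
    (z := z) (fun g _ x => hz.conj g x) (fun x hx => hz.supp x fun h => hx (hGJ h)) c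
  rw [f.tot_eq red hGJ hJH hz c, ← h2, h1]
  push_cast
  ring

/-- **Equality for the invariant objects.** -/
theorem Fr.main (f : Fr p G K H) (hKH : K ⊔ H = ⊤) (hXH : X H) {z : Γ → F} (hz : InZ G z)
    (c : F) : (Nat.card G : ℤ) * Lnum G ⊤ z c =
      tot (fun Q χ => IsW p Q χ ∧ wcv red Q χ (fun x : G => z x) = c ∧
        ∀ g : Γ, FxC G Q χ g) := by
  haveI := wk_fin (p := p) (G := G) (K := K) red z c
  haveI : Fintype (WK p red G K z c) := Fintype.ofFinite _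
  let Φ : Type := {φ : G → F // φ ∈ irs (fun φ : G → F => Vl (fun x : G => z x) c φ ∧
      IsInvUnder K φ)}
  letI iΦ : Fintype Φ := inferInstanceAs (Fintype {φ : G → F // φ ∈ irs (fun φ : G → F =>
    Vl (fun x : G => z x) c φ ∧ IsInvUnder K φ)})
  let Ω : Type := Φ ⊕ WK p red G K z c
  let wt : Ω → ℤ := Sum.elim (fun _ => (Nat.card G : ℤ))
    (fun w => -(Nat.card (Subgroup.normalizer (w.1.1 : Set G)) : ℤ))
  let U : Ω → Subgroup Γ := Sum.elim (fun φ => st φ.1) (fun w => UW w.1.1 w.1.2)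
  have hU : ∀ ω, G ≤ U ω := by
    rintro (φ | w)
    · exact le_st (mem_irs.1 φ.2).1
    · exact le_UW _ _
  let T : Ω → Subgroup (Γ ⧸ G) := fun ω => (U ω).map (QuotientGroup.mk' G)
  let U₀ : Subgroup (Γ ⧸ G) := H.map (QuotientGroup.mk' G)
  -- the cyclic group
  let q : (H ⧸ G.subgroupOf H) →* U₀ :=
    QuotientGroup.lift (G.subgroupOf H)
      (((QuotientGroup.mk' G).comp H.subtype).codRestrict U₀ (fun x => ⟨x, x.2, rfl⟩))
      (fun x hx => by
        apply Subtype.ext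
        change ((x : Γ) : Γ ⧸ G) = 1
        rw [QuotientGroup.eq_one_iff]
        exact hx)
  have hq : Function.Surjective q := by
    rintro ⟨_, x, hx, rfl⟩
    exact ⟨((⟨x, hx⟩ : H) : H ⧸ G.subgroupOf H), rfl⟩
  haveI := f.cyc
  have hcyc : IsCyclic U₀ := isCyclic_of_surjective q hq
  have hp0 : ¬ p ∣ Nat.card U₀ := by
    intro h
    apply f.p'
    refine h.trans ?_
    exact Subgroup.card_dvd_of_surjective q hq
  have h1 := Pool.Agent.N232.DICOMB.COMB Ω (Γ ⧸ G) p wt (fun _ => 1) T U₀ hcyc (by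
    intro V hV D _
    have hv : ∀ ω, (Nat.card ↥(T ω ⊓ V)).factorization p = 0 := by
      intro ω
      refine Nat.factorization_eq_zero_of_not_dvd fun h => hp0 (h.trans ?_)
      exact Subgroup.card_dvd_of_le (inf_le_right.trans hV)
    rw [finsum_eq_sum_of_fintype]
    by_cases hD : D = 1
    · subst hD
      have h2 : ∀ ω : Ω, (if 1 + (Nat.card ↥(T ω ⊓ V)).factorization p = 1 then
          wt ω * (Nat.card ↥(T ω ⊓ V) : ℤ) ^ 2 else 0) =
          wt ω * (Nat.card ↥(T ω ⊓ V) : ℤ) ^ 2 := fun ω => by rw [hv, if_pos rfl]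
      rw [Finset.sum_congr rfl fun ω _ => h2 ω]
      let J : Subgroup Γ := V.comap (QuotientGroup.mk' G)
      have hGJ : G ≤ J := by
        intro x hx
        change ((x : Γ) : Γ ⧸ G) ∈ V
        rw [(QuotientGroup.eq_one_iff x).2 hx]
        exact V.one_mem
      have hJH : J ≤ H := by
        intro x hx
        have h3 : ((x : Γ) : Γ ⧸ G) ∈ U₀ := hV hx
        obtain ⟨y, hy, hyx⟩ := h3
        have h4 : y⁻¹ * x ∈ G := QuotientGroup.eq.1 hyx
        have h5 := H.mul_mem hy (f.GH h4)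
        rwa [mul_inv_cancel_left] at h5
      have h3 : ∀ ω : Ω, (Nat.card G : ℤ) ^ 2 * (wt ω * (Nat.card ↥(T ω ⊓ V) : ℤ) ^ 2) =
          wt ω * (Nat.card ↥(J ⊓ U ω) : ℤ) ^ 2 := by
        intro ω
        have h4 := card_quo (hU ω) V
        have h5 : (Nat.card G : ℤ) * Nat.card ↥(T ω ⊓ V) = Nat.card ↥(J ⊓ U ω) := by
          exact_mod_cast h4
        rw [← h5]
        ring
      have h4 : (Nat.card G : ℤ) ^ 2 * ∑ ω : Ω, wt ω * (Nat.card ↥(T ω ⊓ V) : ℤ) ^ 2 = 0 := by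
        rw [Finset.mul_sum, Finset.sum_congr rfl fun ω _ => h3 ω]
        have h5 := f.eqJ red hX hB hXH hGJ hJH hz c
        have h6 : ∑ ω : Ω, wt ω * (Nat.card ↥(J ⊓ U ω) : ℤ) ^ 2 =
            (Nat.card G : ℤ) * ((∑ φ ∈ irs (fun φ : G → F => Vl (fun x : G => z x) c φ ∧
              IsInvUnder K φ), (Nat.card ↥(J ⊓ st φ)) ^ 2 : ℕ) : ℤ) -
            ∑ w : WK p red G K z c, (Nat.card (Subgroup.normalizer (w.1.1 : Set G)) : ℤ) *
              (Nat.card ↥(J ⊓ UW w.1.1 w.1.2) : ℤ) ^ 2 := by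
          refine (Fintype.sum_sum_type _).trans ?_
          rw [sub_eq_add_neg, ← Finset.sum_neg_distrib]
          congr 1
          · rw [Nat.cast_sum, Finset.mul_sum]
            have h7 := Finset.sum_coe_sort (irs (fun φ : G → F =>
              Vl (fun x : G => z x) c φ ∧ IsInvUnder K φ))
              (fun φ => (Nat.card G : ℤ) * (((Nat.card ↥(J ⊓ st φ)) ^ 2 : ℕ) : ℤ))
            refine Eq.trans ?_ h7
            refine Finset.sum_congr (M := ℤ) rfl fun φ _ => ?_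
            rw [Nat.cast_pow]
            rfl
          · refine Finset.sum_congr (M := ℤ) rfl fun w _ => ?_
            exact neg_mul _ _
        rw [h6, h5, sub_self]
      have h5 : (Nat.card G : ℤ) ^ 2 ≠ 0 := by
        have : (Nat.card G : ℤ) ≠ 0 := by exact_mod_cast (Nat.card_pos (α := G)).ne'
        exact pow_ne_zero 2 this
      exact (mul_eq_zero.1 h4).resolve_left h5
    · have h2 : ∀ ω : Ω, (if 1 + (Nat.card ↥(T ω ⊓ V)).factorization p = D then
          wt ω * (Nat.card ↥(T ω ⊓ V) : ℤ) ^ 2 else 0) = 0 := fun ω => by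
        rw [hv, if_neg (by omega)]
      exact Finset.sum_eq_zero fun ω _ => h2 ω) 1 le_rfl
  have hUT : ∀ ω, U₀ ≤ T ω ↔ H ≤ U ω := fun ω => le_quo (hU ω)
  rw [finsum_eq_sum_of_fintype] at h1
  have h2 : ∀ ω : Ω, (if (fun _ : Ω => 1) ω = 1 ∧ U₀ ≤ T ω then wt ω else 0) =
      if H ≤ U ω then wt ω else 0 := by
    intro ω
    by_cases h : H ≤ U ω
    · rw [if_pos h, if_pos ⟨rfl, (hUT ω).2 h⟩]
    · rw [if_neg h, if_neg fun h' => h ((hUT ω).1 h'.2)]
  rw [Finset.sum_congr rfl fun ω _ => h2 ω] at h1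
  have h3 := (Fintype.sum_sum_type (fun ω : Ω => if H ≤ U ω then wt ω else 0)).symm.trans h1
  have h4 : ∑ φ : Φ, (if H ≤ U (Sum.inl φ) then wt (Sum.inl φ) else 0) =
      (Nat.card G : ℤ) * Lnum G ⊤ z c := by
    have h5 : ∑ φ : Φ, (if H ≤ U (Sum.inl φ) then wt (Sum.inl φ) else 0) =
        ∑ φ : Φ, if H ≤ st φ.1 then (Nat.card G : ℤ) else 0 := rfl
    rw [h5, ← Finset.sum_filter, Finset.sum_const, nsmul_eq_mul, mul_comm]
    congr 2
    rw [← Fintype.card_subtype, ← Nat.card_eq_fintype_card]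
    unfold Lnum
    refine Nat.card_congr ?_
    have hinv : ∀ φ : G → F, (IsInvUnder K φ ∧ H ≤ st φ) ↔ IsInvUnder ⊤ φ := by
      intro φ
      have e1 : ∀ L : Subgroup Γ, IsInvUnder L φ ↔ L ≤ st φ := fun L =>
        ⟨fun h g hg x y hxy => h g hg x y hxy, fun h g hg x y hxy => h hg x y hxy⟩
      rw [e1, e1, ← hKH, sup_le_iff]
    refine
      { toFun := fun φ => ⟨φ.1.1, (mem_irs.1 φ.1.2).1,
          (hinv _).1 ⟨(mem_irs.1 φ.1.2).2.2, φ.2⟩, (mem_irs.1 φ.1.2).2.1⟩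
        invFun := fun φ => ⟨⟨φ.1, mem_irs.2 ⟨φ.2.1, φ.2.2.2, ((hinv _).2 φ.2.2.1).1⟩⟩,
          ((hinv _).2 φ.2.2.1).2⟩
        left_inv := fun φ => rfl
        right_inv := fun φ => rfl }
  have h5 : ∑ w : WK p red G K z c, (if H ≤ U (Sum.inr w) then wt (Sum.inr w) else 0) =
      - tot (fun Q χ => IsW p Q χ ∧ wcv red Q χ (fun x : G => z x) = c ∧
        ∀ g : Γ, FxC G Q χ g) := by
    let P : Subgroup G → (G → ℂ) → Prop := fun Q χ => IsW p Q χ ∧
      wcv red Q χ (fun x : G => z x) = c ∧ ∀ κ ∈ K, FxC G Q χ κ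
    have h6 : tot (fun Q χ => IsW p Q χ ∧ wcv red Q χ (fun x : G => z x) = c ∧
        ∀ g : Γ, FxC G Q χ g) = tot (fun Q χ => P Q χ ∧ H ≤ UW Q χ) := by
      refine Pool.Agent.N85.WM.Ww.tot_congr fun Q χ => ?_
      constructor
      · rintro ⟨h7, h8, h9⟩
        exact ⟨⟨h7, h8, fun κ _ => h9 κ⟩, fun g _ => mem_UW.2 (h9 g)⟩
      · rintro ⟨⟨h7, h8, h9⟩, h10⟩
        refine ⟨h7, h8, fun g => mem_UW.1 ?_⟩
        have h11 : K ⊔ H ≤ UW Q χ := sup_le (fun κ hκ => mem_UW.2 (h9 κ hκ)) h10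
        rw [hKH] at h11
        exact h11 (Subgroup.mem_top g)
    letI hfP : Fintype {w : Subgroup G × (G → ℂ) // P w.1 w.2} :=
      inferInstanceAs (Fintype (WK p red G K z c))
    have h7 := Pool.Agent.N85.WM.Ww.tot_eq P (fun Q χ => H ≤ UW Q χ)
    rw [h6, h7, ← Finset.sum_neg_distrib]
    refine Finset.sum_congr (M := ℤ) rfl fun w _ => ?_
    change (if H ≤ UW w.1.1 w.1.2 then -(Nat.card (Subgroup.normalizer (w.1.1 : Set G)) : ℤ)
      else 0) = -(if H ≤ UW w.1.1 w.1.2 then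
        (Nat.card (Subgroup.normalizer (w.1.1 : Set G)) : ℤ) else 0)
    by_cases h : H ≤ UW w.1.1 w.1.2
    · rw [if_pos h, if_pos h]
    · rw [if_neg h, if_neg h, neg_zero]
  rw [h4, h5] at h3
  exact add_neg_eq_zero.1 h3

end fr

end Pool.Agent.P8H58
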