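import Mathlib

/-!
# A group with few quotients built from a group `G`

`H` acts by shifts on `H → G` and on the group `V` of the functions `H → Y` with product `1`. `W` is the
semidirect product of `(H → G) × V` and `H` and `Gam` is the normal subgroup of the elements for which
the product of the coordinates in `G` is trivial in the abelianization of `G`.
-/

set_option autoImplicit false

open scoped Classical

noncomputable section

namespace Pool.Agent.P8H58

variable (H G Y : Type) [Group H] [Fintype H] [Group G] [CommGroup Y]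

/-- the shift of a function -/
def shiftE (A : Type) [Group A] (s : H) : MulAut (H → A) where
  toFun f h := f (s⁻¹ * h)
  invFun f h := f (s * h)
  left_inv f := by funext h; simp
  right_inv f := by funext h; simp
  map_mul' f g := rfl

/-- the product of the values, in the abelianization -/
def prodA : (H → G) →* Abelianization G where
  toFun f := ∏ h, Abelianization.of (f h)
  map_one' := by simp
  map_mul' f g := by simp [Finset.prod_mul_distrib]

/-- the product of the values -/
def prodY : (H → Y) →* Y where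
  toFun f := ∏ h, f h
  map_one' := by simp
  map_mul' f g := by simp [Finset.prod_mul_distrib]

/-- the functions with product `1` -/
abbrev V : Type := (prodY H Y).ker

variable {H G Y}

theorem prodA_shift (s : H) (f : H → G) : prodA H G (shiftE H G s f) = prodA H G f := by
  change ∏ h, Abelianization.of (f (s⁻¹ * h)) = ∏ h, Abelianization.of (f h)
  exact Fintype.prod_equiv (Equiv.mulLeft s⁻¹) _ _ fun h => rfl

theorem prodY_shift (s : H) (f : H → Y) : prodY H Y (shiftE H Y s f) = prodY H Y f := by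
  change ∏ h, f (s⁻¹ * h) = ∏ h, f h
  exact Fintype.prod_equiv (Equiv.mulLeft s⁻¹) _ _ fun h => rfl

variable (H G Y)

/-- the shift on `V` -/
def shiftV (s : H) : MulAut (V H Y) where
  toFun v := ⟨shiftE H Y s v.1, by
    have := v.2
    rw [MonoidHom.mem_ker] at this ⊢
    rw [prodY_shift, this]⟩
  invFun v := ⟨shiftE H Y s⁻¹ v.1, by
    have := v.2
    rw [MonoidHom.mem_ker] at this ⊢
    rw [prodY_shift, this]⟩
  left_inv v := by
    apply Subtype.ext
    funext h
    simp [shiftE]
  right_inv v := by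
    apply Subtype.ext
    funext h
    simp [shiftE]
  map_mul' v w := Subtype.ext rfl

/-- the action of `H` -/
def act : H →* MulAut ((H → G) × V H Y) where
  toFun s :=
    { toFun := fun x => (shiftE H G s x.1, shiftV H Y s x.2)
      invFun := fun x => ((shiftE H G s).symm x.1, (shiftV H Y s).symm x.2)
      left_inv := fun x => by simp
      right_inv := fun x => by simp
      map_mul' := fun x y => by simp }
  map_one' := by
    ext x h
    · simp [shiftE]
    · simp [shiftV, shiftE]
  map_mul' s t := by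
    ext x h
    · simp [shiftE, mul_assoc]
    · simp [shiftV, shiftE, mul_assoc]

/-- the semidirect product -/
abbrev W : Type := ((H → G) × V H Y) ⋊[act H G Y] H

variable {H G Y}

@[simp] theorem act_fst (s : H) (x : (H → G) × V H Y) (h : H) : (act H G Y s x).1 h = x.1 (s⁻¹ * h) := rfl

@[simp] theorem act_snd (s : H) (x : (H → G) × V H Y) (h : H) :
    ((act H G Y s x).2 : H → Y) h = (x.2 : H → Y) (s⁻¹ * h) := rfl

variable (H G Y)

/-- the product of the coordinates in the abelianization of `G` -/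
def toAb : W H G Y →* Abelianization G where
  toFun x := prodA H G x.left.1
  map_one' := by simp
  map_mul' x y := by
    rw [SemidirectProduct.mul_left, Prod.fst_mul, map_mul]
    congr 1
    exact prodA_shift _ _

/-- the elements whose coordinates have trivial product in the abelianization -/
def Gam : Subgroup (W H G Y) := (toAb H G Y).ker

variable {H G Y}

theorem mem_Gam {x : W H G Y} : x ∈ Gam H G Y ↔ ∏ h, Abelianization.of (x.left.1 h) = 1 := Iff.rfl

instance : (Gam H G Y).Normal := MonoidHom.normal_ker _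

/-- an element of the base group -/
def bs (f : H → G) (v : V H Y) : W H G Y := SemidirectProduct.inl (f, v)

theorem bs_mul (f f' : H → G) (v v' : V H Y) : bs (f * f') (v * v') = bs f v * bs f' v' := by
  unfold bs
  rw [← map_mul]
  rfl

theorem bs_inv (f : H → G) (v : V H Y) : (bs f v)⁻¹ = bs f⁻¹ v⁻¹ := by
  unfold bs
  rw [← map_inv]
  rfl

theorem toAb_bs (f : H → G) (v : V H Y) : toAb H G Y (bs f v) = ∏ h, Abelianization.of (f h) := rfl

/-- an element of the top group -/
def tp (s : H) : W H G Y := SemidirectProduct.inr s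

theorem toAb_tp (s : H) : toAb H G Y (tp s) = 1 := by
  change prodA H G (tp (G := G) (Y := Y) s).left.1 = 1
  have : (tp (G := G) (Y := Y) s).left = 1 := rfl
  rw [this, Prod.fst_one, map_one]

theorem tp_conj (s : H) (f : H → G) (v : V H Y) :
    tp s * bs f v * (tp s)⁻¹ = bs (shiftE H G s f) (shiftV H Y s v) := by
  unfold tp bs
  rw [← map_inv, ← SemidirectProduct.inl_aut]
  rfl

theorem eq_bs_tp (x : W H G Y) : x = bs x.left.1 x.left.2 * tp x.right :=
  (SemidirectProduct.inl_left_mul_inr_right x).symm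

/-! ### quotients of `Gam` -/

section quot

variable (Q : Type) [Group Q] (π : Gam H G Y →* Q)

theorem tp_mem (s : H) : (tp s : W H G Y) ∈ Gam H G Y := toAb_tp s

/-- the element with `a` at `x` and `a⁻¹` at `1` -/
def df (x : H) (a : G) : H → G := (Pi.mulSingle 1 a)⁻¹ * Pi.mulSingle x a

theorem ab_single (x : H) (a : G) :
    ∏ h, Abelianization.of ((Pi.mulSingle x a : H → G) h) = Abelianization.of a := by
  rw [Finset.prod_eq_single x]
  · simp
  · intro b _ hb
    rw [Pi.mulSingle_eq_of_ne hb, map_one]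
  · simp

theorem ab_df (x : H) (a : G) : ∏ h, Abelianization.of (df x a h) = 1 := by
  have : prodA H G (df x a) = 1 := by
    unfold df
    rw [map_mul, map_inv]
    change (∏ h, Abelianization.of ((Pi.mulSingle 1 a : H → G) h))⁻¹ *
      ∏ h, Abelianization.of ((Pi.mulSingle x a : H → G) h) = 1
    rw [ab_single, ab_single, inv_mul_cancel]
  exact this

theorem df_mem (x : H) (a : G) : (bs (df x a) 1 : W H G Y) ∈ Gam H G Y := ab_df x a

theorem shift_single {A : Type} [Group A] (s x : H) (a : A) :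
    shiftE H A s (Pi.mulSingle x a) = Pi.mulSingle (s * x) a := by
  funext h
  change (Pi.mulSingle x a : H → A) (s⁻¹ * h) = (Pi.mulSingle (s * x) a : H → A) h
  by_cases hh : h = s * x
  · subst hh
    simp
  · rw [Pi.mulSingle_eq_of_ne hh, Pi.mulSingle_eq_of_ne]
    intro h'
    apply hh
    rw [← h']
    simp

theorem df_mul (x y : H) (a : G) : df (x * y) a = df x a * shiftE H G x (df y a) := by
  unfold df
  rw [map_mul, map_inv, shift_single, shift_single, mul_one]
  group

theorem shiftV_one (s : H) : shiftV H Y s 1 = 1 := map_one _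

variable {Q} (hQ : ∀ f : H →* Q, ∀ s, f s = 1)

/-- the homomorphism is trivial on the top group -/
theorem pi_tp (hQ : ∀ f : H →* Q, ∀ s, f s = 1) (s : H) : π ⟨tp s, tp_mem s⟩ = 1 := by
  let j : H →* Gam H G Y :=
    { toFun := fun s => ⟨tp s, tp_mem s⟩
      map_one' := rfl
      map_mul' := fun s t => Subtype.ext (map_mul SemidirectProduct.inr s t) }
  exact hQ (π.comp j) s

/-- conjugation with the top group does not change the values -/
theorem pi_shift (hQ : ∀ f : H →* Q, ∀ s, f s = 1) (s : H) (f : H → G) (v : V H Y)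
    (h : (bs f v : W H G Y) ∈ Gam H G Y)
    (h' : (bs (shiftE H G s f) (shiftV H Y s v) : W H G Y) ∈ Gam H G Y) :
    π ⟨_, h'⟩ = π ⟨_, h⟩ := by
  have e : (⟨_, h'⟩ : Gam H G Y) = ⟨tp s, tp_mem s⟩ * ⟨_, h⟩ * ⟨tp s, tp_mem s⟩⁻¹ := by
    apply Subtype.ext
    exact (tp_conj s f v).symm
  rw [e, map_mul, map_mul, map_inv, pi_tp π hQ s]
  simp

theorem pi_df (hQ : ∀ f : H →* Q, ∀ s, f s = 1) (x : H) (a : G) :
    π ⟨bs (df x a) 1, df_mem x a⟩ = 1 := by
  have hone : (⟨bs (df (1 : H) a) 1, df_mem 1 a⟩ : Gam H G Y) = 1 := by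
    apply Subtype.ext
    change bs (df (1 : H) a) 1 = 1
    have : df (1 : H) a = 1 := by
      unfold df
      rw [inv_mul_cancel]
    rw [this]
    rfl
  have hshift : ∀ x y : H, (bs (shiftE H G x (df y a)) (shiftV H Y x 1) : W H G Y) ∈ Gam H G Y := by
    intro x y
    have h1 := (Subgroup.Normal.conj_mem inferInstance _ (df_mem (Y := Y) y a) (tp x))
    rw [tp_conj] at h1
    exact h1
  let D : H →* Q :=
    { toFun := fun x => π ⟨bs (df x a) 1, df_mem x a⟩
      map_one' := by rw [hone, map_one]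
      map_mul' := fun x y => by
        have e : (⟨bs (df (x * y) a) 1, df_mem (x * y) a⟩ : Gam H G Y) =
            ⟨bs (df x a) 1, df_mem x a⟩ * ⟨_, hshift x y⟩ := by
          apply Subtype.ext
          change bs (df (x * y) a) 1 = bs (df x a) 1 * bs (shiftE H G x (df y a)) (shiftV H Y x 1)
          rw [← bs_mul, df_mul, shiftV_one, one_mul]
        rw [e, map_mul, pi_shift π hQ x _ _ (df_mem y a) (hshift x y)] }
  exact hQ D x

theorem comm_df {x y : H} (hx : x ≠ 1) (hy : y ≠ 1) (hxy : x ≠ y) (a b : G) :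
    df x a * df y b * (df x a)⁻¹ * (df y b)⁻¹ = Pi.mulSingle 1 (a⁻¹ * b⁻¹ * a * b) := by
  have hyx : y ≠ x := fun h => hxy h.symm
  funext h
  unfold df
  by_cases h1 : h = 1
  · subst h1
    simp [Pi.mulSingle_eq_of_ne, hx.symm, hy.symm]
  · by_cases h2 : h = x
    · subst h2
      simp [Pi.mulSingle_eq_of_ne, hx, hxy]
    · by_cases h3 : h = y
      · subst h3
        simp [Pi.mulSingle_eq_of_ne, hy, hyx]
      · simp [Pi.mulSingle_eq_of_ne, h1, h2, h3]

theorem single_mem {c : G} (hc : c ∈ commutator G) :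
    (bs (Pi.mulSingle 1 c) 1 : W H G Y) ∈ Gam H G Y := by
  rw [mem_Gam]
  change ∏ h, Abelianization.of ((Pi.mulSingle 1 c : H → G) h) = 1
  rw [ab_single]
  exact (QuotientGroup.eq_one_iff c).2 hc

theorem pi_single (hQ : ∀ f : H →* Q, ∀ s, f s = 1) {x y : H} (hx : x ≠ 1) (hy : y ≠ 1)
    (hxy : x ≠ y) {c : G} (hc : c ∈ commutator G) :
    π ⟨bs (Pi.mulSingle 1 c) 1, single_mem hc⟩ = 1 := by
  let i : commutator G →* Gam H G Y :=
    { toFun := fun c => ⟨bs (Pi.mulSingle 1 c.1) 1, single_mem c.2⟩
      map_one' := by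
        apply Subtype.ext
        change bs (Pi.mulSingle 1 (1 : G)) 1 = 1
        rw [Pi.mulSingle_one]
        rfl
      map_mul' := fun c d => by
        apply Subtype.ext
        change bs (Pi.mulSingle 1 (c.1 * d.1)) 1 = bs (Pi.mulSingle 1 c.1) 1 * bs (Pi.mulSingle 1 d.1) 1
        rw [← bs_mul, Pi.mulSingle_mul, one_mul] }
  have key : ∀ a b : G, ∀ h : a⁻¹ * b⁻¹ * a * b ∈ commutator G,
      π ⟨bs (Pi.mulSingle 1 (a⁻¹ * b⁻¹ * a * b)) 1, single_mem h⟩ = 1 := by
    intro a b h
    have e : (⟨bs (Pi.mulSingle 1 (a⁻¹ * b⁻¹ * a * b)) 1, single_mem h⟩ : Gam H G Y) =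
        ⟨bs (df x a) 1, df_mem x a⟩ * ⟨bs (df y b) 1, df_mem y b⟩ *
          ⟨bs (df x a) 1, df_mem x a⟩⁻¹ * ⟨bs (df y b) 1, df_mem y b⟩⁻¹ := by
      apply Subtype.ext
      change bs (Pi.mulSingle 1 (a⁻¹ * b⁻¹ * a * b)) 1 =
        bs (df x a) 1 * bs (df y b) 1 * (bs (df x a) 1)⁻¹ * (bs (df y b) 1)⁻¹
      rw [bs_inv, bs_inv, ← bs_mul, ← bs_mul, ← bs_mul, comm_df hx hy hxy]
      simp
    rw [e, map_mul, map_mul, map_mul, map_inv, map_inv, pi_df π hQ, pi_df π hQ]
    simp
  have hk : ∀ c : G, c ∈ commutator G → ∀ h : c ∈ commutator G, (π.comp i) ⟨c, h⟩ = 1 := by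
    intro c hc
    rw [commutator_eq_closure] at hc
    induction hc using Subgroup.closure_induction with
    | mem c hc =>
      intro h
      obtain ⟨a, b, rfl⟩ := hc
      have := key a⁻¹ b⁻¹ (by rw [inv_inv, inv_inv]; exact h)
      simp only [inv_inv] at this
      exact this
    | one => intro h; exact map_one _
    | mul c d hc hd ihc ihd =>
      intro h
      rw [← commutator_eq_closure] at hc hd
      have : (⟨c * d, h⟩ : commutator G) = ⟨c, hc⟩ * ⟨d, hd⟩ := rfl
      rw [this, map_mul, ihc hc, ihd hd, one_mul]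
    | inv c hc ih =>
      intro h
      rw [← commutator_eq_closure] at hc
      have : (⟨c⁻¹, h⟩ : commutator G) = ⟨c, hc⟩⁻¹ := rfl
      rw [this, map_inv, ih hc, inv_one]
  exact hk c hc hc

theorem pi_fun (hQ : ∀ f : H →* Q, ∀ s, f s = 1) {x y : H} (hx : x ≠ 1) (hy : y ≠ 1)
    (hxy : x ≠ y) (S : Finset H) : ∀ f : H → G, (∀ h, h ∉ S → h ≠ 1 → f h = 1) →
      ∀ hf : (bs f 1 : W H G Y) ∈ Gam H G Y, π ⟨bs f 1, hf⟩ = 1 := by
  induction S using Finset.induction_on with
  | empty =>
    intro f h1 hf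
    have h2 : f = Pi.mulSingle 1 (f 1) := by
      funext h
      by_cases hh : h = 1
      · subst hh; simp
      · rw [h1 h (by simp) hh, Pi.mulSingle_eq_of_ne hh]
    have h3 : f 1 ∈ commutator G := by
      have h4 := hf
      rw [h2, mem_Gam] at h4
      have h5 : ∏ h, Abelianization.of ((Pi.mulSingle 1 (f 1) : H → G) h) = 1 := h4
      rw [ab_single] at h5
      exact (QuotientGroup.eq_one_iff (f 1)).1 h5
    have h4 := pi_single (Y := Y) π hQ hx hy hxy h3
    have e : (⟨bs f 1, hf⟩ : Gam H G Y) = ⟨bs (Pi.mulSingle 1 (f 1)) 1, single_mem h3⟩ := by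
      apply Subtype.ext
      change bs f 1 = bs (Pi.mulSingle 1 (f 1)) 1
      rw [← h2]
    rw [e, h4]
  | insert w S hw ih =>
    intro f h1 hf
    by_cases hw1 : w = 1
    · exact ih f (fun h hh hh1 => h1 h (by
        simp only [Finset.mem_insert, not_or]
        exact ⟨fun h' => hh1 (h'.trans hw1), hh⟩) hh1) hf
    · have hmem : (bs (f * (df w (f w))⁻¹) 1 : W H G Y) ∈ Gam H G Y := by
        have : (bs (f * (df w (f w))⁻¹) 1 : W H G Y) = bs f 1 * (bs (df w (f w)) 1)⁻¹ := by
          rw [bs_inv, ← bs_mul]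
          simp
        rw [this]
        exact mul_mem hf (inv_mem (df_mem w (f w)))
      have h2 := ih (f * (df w (f w))⁻¹) (fun h hh hh1 => by
        by_cases hhw : h = w
        · subst hhw
          simp [df, Pi.mulSingle_eq_of_ne hh1]
        · rw [Pi.mul_apply, h1 h (by simp [hhw, hh]) hh1]
          simp [df, Pi.mulSingle_eq_of_ne hh1, Pi.mulSingle_eq_of_ne hhw]) hmem
      have e : (⟨bs f 1, hf⟩ : Gam H G Y) = ⟨_, hmem⟩ * ⟨bs (df w (f w)) 1, df_mem w (f w)⟩ := by
        apply Subtype.ext
        change bs f 1 = bs (f * (df w (f w))⁻¹) 1 * bs (df w (f w)) 1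
        rw [← bs_mul]
        simp
      rw [e, map_mul, h2, pi_df π hQ, one_mul]

theorem dv_mem (w : H) (a : Y) : df w a ∈ (prodY H Y).ker := by
  rw [MonoidHom.mem_ker]
  unfold df
  rw [map_mul, map_inv]
  have : ∀ x : H, prodY H Y (Pi.mulSingle x a) = a := by
    intro x
    change ∏ h, (Pi.mulSingle x a : H → Y) h = a
    rw [Finset.prod_eq_single x]
    · simp
    · intro b _ hb
      rw [Pi.mulSingle_eq_of_ne hb]
    · simp
  rw [this, this, inv_mul_cancel]

/-- the element of `V` with `a` at `w` and `a⁻¹` at `1` -/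
def dv (w : H) (a : Y) : V H Y := ⟨df w a, dv_mem w a⟩

theorem bs_one_mem (v : V H Y) : (bs 1 v : W H G Y) ∈ Gam H G Y := by
  rw [mem_Gam]
  change ∏ h, Abelianization.of ((1 : H → G) h) = 1
  simp

theorem pi_dv (hQ : ∀ f : H →* Q, ∀ s, f s = 1) (x : H) (a : Y) :
    π ⟨bs 1 (dv x a), bs_one_mem _⟩ = 1 := by
  have hone : (⟨bs 1 (dv (1 : H) a), bs_one_mem _⟩ : Gam H G Y) = 1 := by
    apply Subtype.ext
    change bs 1 (dv (1 : H) a) = 1
    have : dv (1 : H) a = 1 := by
      apply Subtype.ext
      change df (1 : H) a = 1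
      unfold df
      rw [inv_mul_cancel]
    rw [this]
    rfl
  let D : H →* Q :=
    { toFun := fun x => π ⟨bs 1 (dv x a), bs_one_mem _⟩
      map_one' := by rw [hone, map_one]
      map_mul' := fun x y => by
        have e : (⟨bs 1 (dv (x * y) a), bs_one_mem _⟩ : Gam H G Y) =
            ⟨bs 1 (dv x a), bs_one_mem _⟩ *
              ⟨bs (shiftE H G x 1) (shiftV H Y x (dv y a)), by rw [map_one]; exact bs_one_mem _⟩ := by
          apply Subtype.ext
          change bs 1 (dv (x * y) a) =
            bs 1 (dv x a) * bs (shiftE H G x 1) (shiftV H Y x (dv y a))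
          rw [← bs_mul, map_one, one_mul]
          congr 1
          exact Subtype.ext (df_mul x y a)
        rw [e, map_mul, pi_shift π hQ x _ _ (bs_one_mem _)] }
  exact hQ D x

theorem pi_V (hQ : ∀ f : H →* Q, ∀ s, f s = 1) (S : Finset H) : ∀ v : V H Y,
    (∀ h, h ∉ S → h ≠ 1 → (v : H → Y) h = 1) →
      π ⟨bs 1 v, bs_one_mem _⟩ = 1 := by
  induction S using Finset.induction_on with
  | empty =>
    intro v h1
    have h2 : (v : H → Y) 1 = 1 := by
      have h3 := v.2
      rw [MonoidHom.mem_ker] at h3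
      have h4 : ∏ h, (v : H → Y) h = 1 := h3
      rw [Finset.prod_eq_single 1 (fun h _ hh => h1 h (by simp) hh) (by simp)] at h4
      exact h4
    have h3 : v = 1 := by
      apply Subtype.ext
      funext h
      by_cases hh : h = 1
      · subst hh; exact h2
      · exact h1 h (by simp) hh
    have e : (⟨bs 1 v, bs_one_mem _⟩ : Gam H G Y) = 1 := by
      apply Subtype.ext
      change bs 1 v = 1
      rw [h3]
      rfl
    rw [e, map_one]
  | insert w S hw ih =>
    intro v h1
    by_cases hw1 : w = 1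
    · exact ih v (fun h hh hh1 => h1 h (by
        simp only [Finset.mem_insert, not_or]
        exact ⟨fun h' => hh1 (h'.trans hw1), hh⟩) hh1)
    · have h2 := ih (v * (dv w ((v : H → Y) w))⁻¹) (fun h hh hh1 => by
        by_cases hhw : h = w
        · subst hhw
          simp [dv, df, Pi.mulSingle_eq_of_ne hh1]
        · have h3 := h1 h (by simp [hhw, hh]) hh1
          simp [dv, df, Pi.mulSingle_eq_of_ne hh1, Pi.mulSingle_eq_of_ne hhw, h3])
      have e : (⟨bs 1 v, bs_one_mem _⟩ : Gam H G Y) =
          ⟨bs 1 (v * (dv w ((v : H → Y) w))⁻¹), bs_one_mem _⟩ *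
            ⟨bs 1 (dv w ((v : H → Y) w)), bs_one_mem _⟩ := by
        apply Subtype.ext
        change bs 1 v = bs 1 (v * (dv w ((v : H → Y) w))⁻¹) * bs 1 (dv w ((v : H → Y) w))
        rw [← bs_mul]
        simp
      rw [e, map_mul, h2, pi_dv π hQ, one_mul]

/-- **A homomorphism from `Gam` to a group without nontrivial homomorphisms from `H` is trivial.** -/
theorem pi_trivial (hQ : ∀ f : H →* Q, ∀ s, f s = 1) {x y : H} (hx : x ≠ 1) (hy : y ≠ 1)
    (hxy : x ≠ y) (g : Gam H G Y) : π g = 1 := by
  have hf : (bs g.1.left.1 1 : W H G Y) ∈ Gam H G Y := g.2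
  have e : g = ⟨bs g.1.left.1 1, hf⟩ * ⟨bs 1 g.1.left.2, bs_one_mem _⟩ *
      ⟨tp g.1.right, tp_mem _⟩ := by
    apply Subtype.ext
    change g.1 = bs g.1.left.1 1 * bs 1 g.1.left.2 * tp g.1.right
    rw [← bs_mul, mul_one, one_mul]
    exact eq_bs_tp g.1
  rw [e, map_mul, map_mul, pi_fun π hQ hx hy hxy Finset.univ _ (fun h hh => absurd (Finset.mem_univ h) hh),
    pi_V π hQ Finset.univ _ (fun h hh => absurd (Finset.mem_univ h) hh), pi_tp π hQ]
  simp

end quot

end Pool.Agent.P8H58
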