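import Pool.Agent.P8H58.Mcl
import Pool.Agent.Y63.NV.PeL

/-!
# Invariance of irreducible traces of a group and of a normal subgroup
-/

set_option autoImplicit false
set_option linter.unusedSectionVars false

open scoped Classical

noncomputable section

namespace Pool.Agent.P8H58

open Pool.Agent.Y63.NV Representation

section sub

variable {F : Type} [Field F] [IsAlgClosed F] {M : Type} [Group M] [Finite M] {N : Subgroup M}
  [N.Normal]

theorem cj_mul_tr (B : Md F N) (w : M) {ν : M} (hν : ν ∈ N) : (B.cj (w * ν)).tr = (B.cj w).tr := by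
  rw [← cj_cj_tr]
  exact mem_St.1 (le_St (B.cj w) hν)

theorem pow_mem_coprime {G : Type} [Group G] {S : Subgroup G} {x : G} {a b : ℕ} (h : Nat.Coprime a b)
    (ha : x ^ a ∈ S) (hb : x ^ b ∈ S) : x ∈ S := by
  have h1 := Nat.gcd_eq_gcd_ab a b
  rw [Nat.Coprime] at h
  rw [h] at h1
  have h2 : x = (x ^ a) ^ (Nat.gcdA a b) * (x ^ b) ^ (Nat.gcdB a b) := by
    rw [← zpow_natCast, ← zpow_natCast, ← zpow_mul, ← zpow_mul, ← zpow_add, ← h1]
    simp
  rw [h2]
  exact S.mul_mem (S.zpow_mem ha _) (S.zpow_mem hb _)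

variable (α : MulAut M) (β : MulAut N) (hαβ : ∀ n : N, ((β n : N) : M) = α n)
  (hα : ∀ m : M, α m * m⁻¹ ∈ N) {q : ℕ} (hq : Nat.Coprime q (Nat.card (M ⧸ N))) (x0 : N)
  (hx0 : ∀ m : M, (α ^ q) m = x0 * m * (x0 : M)⁻¹)

include hαβ hα hq hx0

omit [IsAlgClosed F] hα hq hx0 in
theorem lies_pull {A : Md F M} {B : Md F N} (h : Lies N A B) : Lies N (A.pull α) (B.pull β) := by
  obtain ⟨f, hf, hf2⟩ := h
  refine ⟨f, hf, fun n v => ?_⟩
  change f (A.ρ (α n) v) = B.ρ (β n) (f v)
  rw [← hαβ]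
  exact hf2 (β n) v

omit [IsAlgClosed F] [Finite M] [N.Normal] hα hq hx0 in
theorem pow_coe (k : ℕ) (n : N) : (((β ^ k) n : N) : M) = (α ^ k) n := by
  induction k generalizing n with
  | zero => rfl
  | succ k ih =>
    rw [pow_succ, pow_succ, MulAut.mul_apply, MulAut.mul_apply, ih, hαβ]

theorem inv_down {A : Md F M} {B : Md F N} (h : Lies N A B) (hA : ∀ m, A.tr (α m) = A.tr m) :
    ∀ n, B.tr (β n) = B.tr n := by
  have h1 : Lies N A (B.pull β) := by
    refine lies_congr ?_ rfl (lies_pull α β hαβ h)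
    funext m
    exact hA m
  obtain ⟨x, hx⟩ := Lies.conj h h1
  have hx' : ∀ n : N, B.tr (β n) = (B.cj x).tr n := fun n => congrFun hx n
  have hα' : ∀ c : M, c⁻¹ * α.symm c ∈ N := by
    intro c
    have h2 := hα (α.symm c)
    rw [MulEquiv.apply_symm_apply] at h2
    have h3 := N.inv_mem h2
    rw [mul_inv_rev, inv_inv] at h3
    have h4 := (inferInstance : N.Normal).conj_mem _ h3 c⁻¹
    have h5 : c⁻¹ * (α.symm c * c⁻¹) * c⁻¹⁻¹ = c⁻¹ * α.symm c := by group
    rwa [h5] at h4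
  have key : ∀ (k : ℕ) (n : N), B.tr ((β ^ k) n) = (B.cj (x ^ k)).tr n := by
    intro k
    induction k with
    | zero =>
      intro n
      rw [pow_zero, pow_zero, Md.cj_tr, map_one]
    | succ k ih =>
      intro n
      rw [pow_succ, MulAut.mul_apply, ih, Md.cj_tr]
      have h2 : MulAut.conjNormal (x ^ k) (β n) = β (MulAut.conjNormal (α.symm (x ^ k)) n) := by
        apply Subtype.ext
        rw [MulAut.conjNormal_apply, hαβ, hαβ, MulAut.conjNormal_apply, map_mul, map_mul, map_inv,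
          MulEquiv.apply_symm_apply]
      rw [h2, hx', ← Md.cj_tr (B.cj x), cj_cj_tr]
      have h3 : x * α.symm (x ^ k) = x ^ (k + 1) * ((x ^ k)⁻¹ * α.symm (x ^ k)) := by
        rw [pow_succ']
        group
      rw [h3, cj_mul_tr B _ (hα' _)]
  have h2 : x ^ q ∈ St B := by
    rw [mem_St]
    funext n
    rw [← key]
    have h3 : (β ^ q) n = x0 * n * x0⁻¹ := by
      apply Subtype.ext
      rw [pow_coe α β hαβ, hx0]
      rfl
    rw [h3]
    exact B.ρ.char_conj n x0
  have h3 : x ^ (Nat.card (M ⧸ N)) ∈ St B := le_St B (by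
    have := Subgroup.pow_index_mem N x
    exact this)
  have h4 : x ∈ St B := pow_mem_coprime hq h2 h3
  intro n
  rw [hx', mem_St.1 h4]

theorem inv_up (hc : IsCyclic (M ⧸ N)) (hF : (Nat.card (M ⧸ N) : F) ≠ 0) {A : Md F M} {B : Md F N}
    (h : Lies N A B) (hB : ∀ n, B.tr (β n) = B.tr n) : ∀ m, A.tr (α m) = A.tr m := by
  have h1 : Lies N (A.pull α) B := by
    refine lies_congr rfl ?_ (lies_pull α β hαβ h)
    funext n
    exact hB n
  obtain ⟨ν, hν, hA⟩ := Lies.twist hc hF h h1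
  have hA' : ∀ m, A.tr (α m) = ν m * A.tr m := by
    intro m
    have := congrFun hA m
    rw [Md.twi_tr] at this
    exact this
  have hν' : ∀ m, ν (α m) = ν m := by
    intro m
    have h2 : α m = (α m * m⁻¹) * m := by group
    rw [h2, map_mul, hν _ (hα m), one_mul]
  have key : ∀ (k : ℕ) (m : M), A.tr ((α ^ k) m) = (ν m) ^ k * A.tr m := by
    intro k
    induction k with
    | zero =>
      intro m
      rw [pow_zero, pow_zero, one_mul]
      rfl
    | succ k ih =>
      intro m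
      rw [pow_succ, MulAut.mul_apply, ih, hν', hA', pow_succ]
      ring
  intro m
  rw [hA']
  by_cases h0 : A.tr m = 0
  · rw [h0, mul_zero]
  have h2 : (ν m) ^ q = 1 := by
    have h3 := key q m
    rw [hx0] at h3
    have h4 : A.tr ((x0 : M) * m * (x0 : M)⁻¹) = A.tr m := A.ρ.char_conj m x0
    rw [h4] at h3
    have h5 : ((ν m) ^ q - 1) * A.tr m = 0 := by
      rw [sub_mul, one_mul, ← h3, sub_self]
    exact sub_eq_zero.1 ((mul_eq_zero.1 h5).resolve_right h0)
  have h3 : (ν m) ^ (Nat.card (M ⧸ N)) = 1 := by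
    rw [← map_pow]
    exact hν _ (Subgroup.pow_index_mem N m)
  have h4 : orderOf (ν m) = 1 := by
    have h5 := Nat.dvd_gcd (orderOf_dvd_of_pow_eq_one h2) (orderOf_dvd_of_pow_eq_one h3)
    rw [Nat.Coprime] at hq
    rw [hq] at h5
    exact Nat.dvd_one.1 h5
  rw [orderOf_eq_one_iff.1 h4, one_mul]

end sub

section abs

variable {k : Type} [Field k] {A B : Type} [Group A] [Group B]

/-- there is a nonzero homomorphism from the restriction of `X` to `Y` -/
def LiesJ (j : A →* B) (X : Md k B) (Y : Md k A) : Prop :=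
  ∃ f : X.V →ₗ[k] Y.V, f ≠ 0 ∧ ∀ (n : A) (v : X.V), f (X.ρ (j n) v) = Y.ρ n (f v)

/-- the order of the stabilizer -/
def scj (j : A →* B) (φ : A → k) : ℕ :=
  Nat.card {b : B // ∀ x y : A, j y = b * j x * b⁻¹ → φ y = φ x}

variable {j : A →* B} (hj : Function.Injective j)

theorem liesJ_pull {X : Md k B} {Y : Md k j.range} :
    Lies j.range X Y ↔ LiesJ j X (Y.pull (MonoidHom.ofInjective hj)) := by
  constructor
  · rintro ⟨f, hf, hf2⟩
    exact ⟨f, hf, fun n v => hf2 (MonoidHom.ofInjective hj n) v⟩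
  · rintro ⟨f, hf, hf2⟩
    refine ⟨f, hf, ?_⟩
    rintro ⟨_, n, rfl⟩ v
    exact hf2 n v

theorem liesJ_push {X : Md k B} {Y : Md k A} :
    LiesJ j X Y ↔ Lies j.range X (Y.pull (MonoidHom.ofInjective hj).symm) := by
  constructor
  · rintro ⟨f, hf, hf2⟩
    refine ⟨f, hf, ?_⟩
    intro n v
    obtain ⟨a, rfl⟩ := (MonoidHom.ofInjective hj).surjective n
    have h1 := hf2 a v
    change f (X.ρ (j a) v) = Y.ρ ((MonoidHom.ofInjective hj).symm (MonoidHom.ofInjective hj a)) (f v)
    rw [MulEquiv.symm_apply_apply]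
    exact h1
  · rintro ⟨f, hf, hf2⟩
    refine ⟨f, hf, fun n v => ?_⟩
    have h1 := hf2 (MonoidHom.ofInjective hj n) v
    change f (X.ρ (j n) v) = Y.ρ ((MonoidHom.ofInjective hj).symm (MonoidHom.ofInjective hj n)) (f v)
      at h1
    rw [MulEquiv.symm_apply_apply] at h1
    exact h1

include hj

theorem mclj [IsAlgClosed k] [Finite A] [Finite B] [j.range.Normal]
    (hc : IsCyclic (B ⧸ j.range)) (hF : (Nat.card (B ⧸ j.range) : k) ≠ 0)
    (P : (B → k) → Prop) (P' : (A → k) → Prop)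
    (h : ∀ (X : Md k B) (Y : Md k A), LiesJ j X Y → (P X.tr ↔ P' Y.tr)) :
    ∑ φ ∈ irs P', (scj j φ) ^ 2 = Nat.card B * Nat.card A * (irs P).card := by
  set e : A ≃* j.range := MonoidHom.ofInjective hj with he
  have h1 := mcl hc hF P (fun φ => P' (fun a => φ (e a))) (fun X Y hXY =>
    h X (Y.pull e) ((liesJ_pull hj).1 hXY))
  have h2 : Nat.card j.range = Nat.card A := (Nat.card_congr e.toEquiv).symm
  rw [h2] at h1
  rw [← h1]
  have hsym : ∀ φ : A → k, (fun a => (fun n : j.range => φ (e.symm n)) (e a)) = φ := by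
    intro φ
    funext a
    change φ (e.symm (e a)) = φ a
    rw [MulEquiv.symm_apply_apply]
  refine Finset.sum_nbij' (fun φ => fun n : j.range => φ (e.symm n)) (fun φ => fun a => φ (e a))
    ?_ ?_ ?_ ?_ ?_
  · intro φ hφ
    rw [mem_irs] at hφ ⊢
    refine ⟨Pool.Agent.Y210.NV2.irrTrace_comp e.symm hφ.1, ?_⟩
    rw [hsym]
    exact hφ.2
  · intro φ hφ
    rw [mem_irs] at hφ ⊢
    exact ⟨Pool.Agent.Y210.NV2.irrTrace_comp e hφ.1, hφ.2⟩
  · intro φ _
    exact hsym φ
  · intro φ _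
    funext n
    change φ (e (e.symm n)) = φ n
    rw [MulEquiv.apply_symm_apply]
  · intro φ _
    congr 1
    unfold scj sc
    refine Nat.card_congr (Equiv.subtypeEquivRight fun b => ?_)
    constructor
    · intro h3 x y hxy
      refine h3 (e.symm x) (e.symm y) ?_
      have h4 : ∀ n : j.range, j (e.symm n) = n := fun n => by
        conv_rhs => rw [← e.apply_symm_apply n]
        rfl
      rw [h4, h4]
      exact hxy
    · intro h3 x y hxy
      have h4 := h3 (e x) (e y) hxy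
      have h5 : ∀ a, φ (e.symm (e a)) = φ a := fun a => by rw [MulEquiv.symm_apply_apply]
      exact (h5 y).symm.trans (h4.trans (h5 x))

/-- **Invariance.** -/
theorem invj [IsAlgClosed k] [Finite A] [Finite B] [j.range.Normal]
    (hc : IsCyclic (B ⧸ j.range)) (hF : (Nat.card (B ⧸ j.range) : k) ≠ 0)
    (α : MulAut B) (β : MulAut A) (hαβ : ∀ a : A, j (β a) = α (j a))
    (hα : ∀ b : B, α b * b⁻¹ ∈ j.range) {q : ℕ} (hq : Nat.Coprime q (Nat.card (B ⧸ j.range)))
    (a0 : A) (ha0 : ∀ b : B, (α ^ q) b = j a0 * b * (j a0)⁻¹) {X : Md k B} {Y : Md k A}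
    (h : LiesJ j X Y) : (∀ b, X.tr (α b) = X.tr b) ↔ ∀ a, Y.tr (β a) = Y.tr a := by
  set e : A ≃* j.range := MonoidHom.ofInjective hj with he
  have h1 : Lies j.range X (Y.pull e.symm) := (liesJ_push hj).1 h
  let β' : MulAut j.range := (e.symm.trans β).trans e
  have hβ' : ∀ n : j.range, β' n = e (β (e.symm n)) := fun n => rfl
  have h4 : ∀ n : j.range, j (e.symm n) = n := fun n => by
    conv_rhs => rw [← e.apply_symm_apply n]
    rfl
  have h5 : ∀ a : A, ((e a : j.range) : B) = j a := fun a => rfl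
  have hc' : ∀ n : j.range, ((β' n : j.range) : B) = α n := by
    intro n
    rw [hβ', h5, hαβ, h4]
  have hx0 : ∀ m : B, (α ^ q) m = (e a0 : j.range) * m * ((e a0 : j.range) : B)⁻¹ := ha0
  constructor
  · intro h2 a
    have h3 := inv_down α β' hc' hα hq (e a0) hx0 h1 h2 (e a)
    change Y.tr (e.symm (β' (e a))) = Y.tr (e.symm (e a)) at h3
    rw [hβ', MulEquiv.symm_apply_apply, MulEquiv.symm_apply_apply] at h3
    exact h3
  · intro h2
    refine inv_up α β' hc' hα hq (e a0) hx0 hc hF h1 ?_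
    intro n
    change Y.tr (e.symm (β' n)) = Y.tr (e.symm n)
    rw [hβ', MulEquiv.symm_apply_apply]
    exact h2 _

end abs

end Pool.Agent.P8H58
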