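import Pool.Agent.P8H58.Lgq
import Pool.Agent.Q90.WR.Bch

/-!
# Central characters and linear characters of an abelian normal subgroup
-/

set_option autoImplicit false
set_option linter.unusedSectionVars false

open scoped BigOperators Classical

noncomputable section

namespace Pool.Agent.P8H58.FR

open Pool.Agent.Q90.WR Pool.Agent.H254R3.IN Pool.Agent.Q259.BW
open Pool.Agent.Helper884 Pool.Agent.N19.RB

open SemidirectProduct (inl inr)

/-! ### the function attached to a linear character -/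

section cz

variable {V H : Type} [CommGroup V] [Group H] [Fintype V] [Fintype H] {φ : H →* MulAut V}

/-- the part of a function on the semidirect product at a linear character -/
def cz (ν : V →* ℂˣ) (z : V ⋊[φ] H → ℂ) (h : H) : ℂ := ∑ v, (ν v : ℂ) * z ⟨v, h⟩

/-- the translate of a linear character -/
def tr (φ : H →* MulAut V) (ν : V →* ℂˣ) (g : H) : V →* ℂˣ := ν.comp (φ g).toMonoidHom

theorem tr_apply (ν : V →* ℂˣ) (g : H) (v : V) : tr φ ν g v = ν (φ g v) := rfl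

theorem tr_st {ν : V →* ℂˣ} {g : H} : tr φ ν g = ν ↔ g ∈ st φ ν := by
  rw [mem_st, MonoidHom.ext_iff]
  rfl

theorem cz_tr (ν : V →* ℂˣ) (g : H) {z : V ⋊[φ] H → ℂ} (hz : IsCl z) (h : H) :
    cz (tr φ ν g) z h = cz ν z (g * h * g⁻¹) := by
  unfold cz
  refine Fintype.sum_equiv (φ g).toEquiv _ _ fun v => ?_
  have e : (φ g).toEquiv v = φ g v := rfl
  rw [e, tr_apply]
  congr 1
  have h1 : (⟨φ g v, g * h * g⁻¹⟩ : V ⋊[φ] H) = inr g * ⟨v, h⟩ * inr g⁻¹ := by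
    rw [conj_inr]
  rw [h1, map_inv]
  exact (hz _ _).symm

variable (O : ValuationSubring ℂ)

theorem char_mem {A : Type} [CommGroup A] [Finite A] (ν : A →* ℂˣ) (v : A) : (ν v : ℂ) ∈ O := by
  apply mem_of_isIntegral
  have h1 : ((ν v : ℂ)) ^ Nat.card A = 1 := by
    rw [← Units.val_pow_eq_pow_val, ← map_pow, pow_card_eq_one', map_one, Units.val_one]
  exact IsIntegral.of_pow Nat.card_pos (by rw [h1]; exact isIntegral_one)

theorem cz_mem (ν : V →* ℂˣ) {z : V ⋊[φ] H → ℂ} (hz : ∀ x, z x ∈ O) (h : H) : cz ν z h ∈ O :=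
  sum_mem fun v _ => O.mul_mem _ _ (char_mem O ν v) (hz _)

end cz

/-! ### induced blocks and class functions -/

section ind

variable {G K : Type} [Group G] [Group K] [Fintype G] [Fintype K] {O : ValuationSubring ℂ}

theorem comp_cl (π : K →* G) {z : G → ℂ} (hz : IsCl z) : IsCl (fun k => z (π k)) := by
  intro g y
  change z (π (y * g * y⁻¹)) = z (π g)
  rw [map_mul, map_mul, map_inv]
  exact hz _ _

theorem Om_ind_comp (π : K → G) (θ : K → ℂ) (x : G) :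
    Om (fun k => ind x (π k)) θ = L π θ x := by
  unfold Om L ind
  simp only [ite_mul, one_mul, zero_mul]

theorem cl_expand {z : G → ℂ} (hz : IsCl z) (g : G) :
    z g = ∑ C : ConjClasses G, z (rep C) * ind (rep C) g := by
  rw [Finset.sum_eq_single (ConjClasses.mk g)]
  · unfold ind
    rw [if_pos (rep_mk g), mul_one, hz.isConj (rep_mk g)]
  · intro C _ hC
    unfold ind
    rw [if_neg, mul_zero]
    intro h
    exact hC ((mk_eq_iff g C).mpr h).symm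
  · intro h
    exact absurd (Finset.mem_univ _) h

theorem Om_expand {z : G → ℂ} (hz : IsCl z) (π : K → G) (θ : K → ℂ) :
    Om (fun k => z (π k)) θ = ∑ C : ConjClasses G, z (rep C) * L π θ (rep C) := by
  have h1 : (fun k => z (π k)) = fun k => ∑ C : ConjClasses G, z (rep C) * ind (rep C) (π k) := by
    funext k
    exact cl_expand hz _
  rw [h1]
  simp only [← Om_ind_comp]
  unfold Om
  simp only [Finset.sum_mul]
  rw [Finset.sum_comm, Finset.sum_div]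
  refine Finset.sum_congr rfl fun C _ => ?_
  rw [← mul_div_assoc, Finset.mul_sum]
  congr 1
  refine Finset.sum_congr rfl fun k _ => ?_
  ring

/-- membership in terms of class functions -/
theorem mem_IndS' {B : Set (G → ℂ)} (hB : IsBlock O B) {χ₀ : G → ℂ} (h0 : χ₀ ∈ B) (π : K →* G)
    {θ : K → ℂ} (hθ : IsIrr θ) :
    θ ∈ IndS O B π ↔ ∀ z : G → ℂ, IsCl z → (∀ g, z g ∈ O) →
      red O (Om (fun k => z (π k)) θ) = red O (Om z χ₀) := by
  have hχ := hB.irr χ₀ h0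
  rw [mem_IndS hB h0]
  constructor
  · rintro ⟨_, h⟩ z hz hzO
    rw [Om_expand hz]
    have h1 := Om_expand hz (MonoidHom.id G) χ₀
    have h2 : Om z χ₀ = ∑ C : ConjClasses G, z (rep C) * L (MonoidHom.id G) χ₀ (rep C) := h1
    have h3 : ∀ x, L (MonoidHom.id G) χ₀ x = omega χ₀ x := fun x => (omega_eq_L hχ x).symm
    rw [h2, red_sum _ _ (fun C _ => O.mul_mem _ _ (hzO _) (h _).1),
      red_sum _ _ (fun C _ => O.mul_mem _ _ (hzO _) (by rw [h3]; exact hχ.omega_mem O _))]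
    refine Finset.sum_congr rfl fun C _ => ?_
    rw [red_mul (hzO _) (h _).1, red_mul (hzO _) (by rw [h3]; exact hχ.omega_mem O _), h3, (h _).2]
  · intro h
    refine ⟨hθ, fun x => ?_⟩
    have h1 := h (ind x) (ind_cl x) (ind_mem O x)
    rw [Om_ind hχ] at h1
    have h2 : Om (fun k => ind x (π k)) θ = L π θ x := Om_ind_comp π θ x
    rw [h2] at h1
    refine ⟨?_, h1⟩
    rw [← h2]
    exact (red_Om hθ (comp_cl π (ind_cl x)) fun k => ind_mem O x _).1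

end ind

/-! ### averages -/

theorem avg_mem (O : ValuationSubring ℂ) {M : Type} [Group M] [Fintype M] (S : Subgroup M)
    (F : M → ℂ) (hF : ∀ s ∈ S, ∀ m, F (s * m) = F m) (hO : ∀ m, F m ∈ O) :
    (Nat.card S : ℂ)⁻¹ * ∑ m, F m ∈ O := by
  have hS : (Nat.card S : ℂ) ≠ 0 := cardG_ne _
  have h1 : ∑ m, F m = ∑ m, F m⁻¹ := Fintype.sum_equiv (Equiv.inv M) _ _ fun m => by simp
  have h2 : ∑ m, F m⁻¹ = ∑ q : M ⧸ S, (Nat.card S : ℂ) * F (q.out)⁻¹ := by
    rw [← Finset.sum_fiberwise Finset.univ (fun m : M => (m : M ⧸ S)) (fun m => F m⁻¹)]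
    refine Finset.sum_congr rfl fun q _ => ?_
    have h3 : ∀ m ∈ Finset.univ.filter (fun m : M => (m : M ⧸ S) = q), F m⁻¹ = F (q.out)⁻¹ := by
      intro m hm
      have h4 := (Finset.mem_filter.mp hm).2
      have h5 : (m : M ⧸ S) = ((q.out : M) : M ⧸ S) := by
        rw [h4]; exact (Quotient.out_eq' q).symm
      have h6 : m⁻¹ * q.out ∈ S := QuotientGroup.eq.mp h5
      have h7 : m⁻¹ = (m⁻¹ * q.out) * (q.out)⁻¹ := by group
      conv_lhs => rw [h7]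
      exact hF _ h6 _
    rw [Finset.sum_congr rfl h3, Finset.sum_const, nsmul_eq_mul]
    congr 2
    rw [Nat.card_eq_fintype_card, ← Finset.card_univ]
    symm
    refine Finset.card_bij (fun (s : S) _ => q.out * (s : M)) ?_ ?_ ?_
    · intro s _
      rw [Finset.mem_filter]
      refine ⟨Finset.mem_univ _, ?_⟩
      rw [QuotientGroup.mk_mul_of_mem _ s.2]
      exact Quotient.out_eq' q
    · intro s _ t _ h
      exact Subtype.ext (mul_left_cancel h)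
    · intro m hm
      have h4 := (Finset.mem_filter.mp hm).2
      have h5 : ((q.out : M) : M ⧸ S) = (m : M ⧸ S) := by
        rw [h4]; exact Quotient.out_eq' q
      exact ⟨⟨q.out⁻¹ * m, QuotientGroup.eq.mp h5⟩, Finset.mem_univ _, by simp⟩
  rw [h1, h2, ← Finset.mul_sum, ← mul_assoc, inv_mul_cancel₀ hS, one_mul]
  exact sum_mem fun q _ => hO _

/-! ### the induced characters -/

section omix

variable {A M : Type} [CommGroup A] [Group M] [Fintype A] [Fintype M] {φ : M →* MulAut A}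

theorem Om_ix (μ : A →* ℂˣ) {ψ : st φ μ → ℂ} (hψ : ψ 1 ≠ 0) {g : A ⋊[φ] M → ℂ} (hg : IsCl g) :
    Om g (ix μ ψ) = Om (fun s : st φ μ => cz μ g s) ψ := by
  have hM : (Nat.card M : ℂ) ≠ 0 := cardG_ne M
  have hS : (Nat.card (st φ μ) : ℂ) ≠ 0 := cardG_ne _
  unfold Om
  have h1 : ∑ x, g x * ix μ ψ x = (Nat.card (st φ μ) : ℂ)⁻¹ * (Nat.card M *
      ∑ s : st φ μ, cz μ g s * ψ s) := by
    have h2 : ∑ x, g x * ix μ ψ x = ∑ x, ix μ ψ x * g x :=
      Finset.sum_congr rfl fun x _ => mul_comm _ _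
    rw [h2, sum_ix μ ψ hg, sum_xt]
    congr 2
    refine Finset.sum_congr rfl fun s _ => ?_
    unfold cz
    rw [mul_comm]
  rw [h1, ix_one]
  field_simp

theorem cp_ix_ne (μ ν : A →* ℂˣ) (ψ : st φ μ → ℂ) (h : M) (hne : ∀ m, tr φ μ m ≠ ν) :
    cp ν (ix μ ψ) h = 0 := by
  unfold cp ix
  have e1 : ∀ m : M, ∑ a, ((ν a : ℂ))⁻¹ * xt μ ψ (inr m * ⟨a, (h : M)⟩ * inr m⁻¹) = 0 := by
    intro m
    by_cases hc : m * (h : M) * m⁻¹ ∈ st φ μ
    · have h1 : ∀ a : A, ((ν a : ℂ))⁻¹ * xt μ ψ (inr m * ⟨a, (h : M)⟩ * inr m⁻¹) =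
          (((ν a : ℂ))⁻¹ * (tr φ μ m a : ℂ)) * ψ ⟨m * (h : M) * m⁻¹, hc⟩ := by
        intro a
        rw [conj_inr, xt_mk μ ψ _ _ hc, tr_apply]
        ring
      rw [Finset.sum_congr rfl fun a _ => h1 a, ← Finset.sum_mul, sum_char, if_neg (hne m),
        zero_mul]
    · refine Finset.sum_eq_zero fun a _ => ?_
      rw [conj_inr, xt_not μ ψ _ _ hc, mul_zero]
  have e2 : ∑ a, ((ν a : ℂ))⁻¹ * ((Nat.card (st φ μ) : ℂ)⁻¹ *
      ∑ m : M, xt μ ψ (inr m * ⟨a, (h : M)⟩ * inr m⁻¹)) =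
      (Nat.card (st φ μ) : ℂ)⁻¹ * ∑ m : M,
        ∑ a, ((ν a : ℂ))⁻¹ * xt μ ψ (inr m * ⟨a, (h : M)⟩ * inr m⁻¹) := by
    rw [Finset.sum_comm, Finset.mul_sum]
    refine Finset.sum_congr rfl fun a _ => ?_
    rw [← Finset.mul_sum]
    ring
  rw [e2, Finset.sum_eq_zero fun m _ => e1 m, mul_zero, mul_zero]

/-- the central function with a given part at `μ` -/
def zf (μ : A →* ℂˣ) (y : st φ μ → ℂ) (x : A ⋊[φ] M) : ℂ :=
  (Nat.card A : ℂ)⁻¹ * ix μ (fun s => y s⁻¹) x⁻¹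

theorem zf_cl (μ : A →* ℂˣ) (y : st φ μ → ℂ) : IsCl (zf μ y) := by
  intro g x
  unfold zf
  have h : (x * g * x⁻¹)⁻¹ = x * g⁻¹ * x⁻¹ := by group
  rw [h, ix_cl]

theorem cz_zf (μ : A →* ℂˣ) {y : st φ μ → ℂ} (hy : IsCl y) (s : st φ μ) :
    cz μ (zf μ y) s = y s := by
  have hA : (Nat.card A : ℂ) ≠ 0 := cardG_ne A
  unfold cz zf
  have h1 : ∑ v, (μ v : ℂ) * ((Nat.card A : ℂ)⁻¹ *
      ix μ (fun s => y s⁻¹) (⟨v, (s : M)⟩ : A ⋊[φ] M)⁻¹) =
      (Nat.card A : ℂ)⁻¹ * ∑ v, (μ v : ℂ) * ix μ (fun s => y s⁻¹) (⟨v, (s : M)⟩ : A ⋊[φ] M)⁻¹ := by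
    rw [Finset.mul_sum]
    refine Finset.sum_congr rfl fun v _ => ?_
    ring
  rw [h1, sum_inv, ← mul_assoc, inv_mul_cancel₀ hA, one_mul]
  have h2 : ((s : M)⁻¹) = ((s⁻¹ : st φ μ) : M) := rfl
  rw [h2, cp_ix μ (cl_inv hy), inv_inv]

theorem cz_zf_ne (μ ν : A →* ℂˣ) (y : st φ μ → ℂ) (hne : ∀ m, tr φ μ m ≠ ν) (s : st φ ν) :
    cz ν (zf μ y) s = 0 := by
  unfold cz zf
  have h1 : ∑ v, (ν v : ℂ) * ((Nat.card A : ℂ)⁻¹ *
      ix μ (fun s => y s⁻¹) (⟨v, (s : M)⟩ : A ⋊[φ] M)⁻¹) =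
      (Nat.card A : ℂ)⁻¹ * ∑ v, (ν v : ℂ) * ix μ (fun s => y s⁻¹) (⟨v, (s : M)⟩ : A ⋊[φ] M)⁻¹ := by
    rw [Finset.mul_sum]
    refine Finset.sum_congr rfl fun v _ => ?_
    ring
  rw [h1, sum_inv, cp_ix_ne μ ν _ _ hne, mul_zero, mul_zero]

theorem zf_mem {O : ValuationSubring ℂ} (hA : (Nat.card A : ℂ)⁻¹ ∈ O) (μ : A →* ℂˣ)
    {y : st φ μ → ℂ} (hy : IsCl y) (hyO : ∀ s, y s ∈ O) (x : A ⋊[φ] M) : zf μ y x ∈ O := by
  unfold zf
  refine O.mul_mem _ _ hA ?_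
  unfold ix
  refine avg_mem O (st φ μ) (fun m => xt μ (fun s => y s⁻¹) (inr m * x⁻¹ * inr m⁻¹)) ?_ ?_
  · intro s hs m
    have h1 : (inr (s * m) * x⁻¹ * inr (s * m)⁻¹ : A ⋊[φ] M) =
        inr s * (inr m * x⁻¹ * inr m⁻¹) * inr s⁻¹ := by
      rw [mul_inv_rev, map_mul, map_mul]
      group
    change xt μ (fun s => y s⁻¹) (inr (s * m) * x⁻¹ * inr (s * m)⁻¹) = _
    rw [h1]
    generalize (inr m * x⁻¹ * inr m⁻¹ : A ⋊[φ] M) = w
    rw [conj_inr]
    by_cases hw : w.right ∈ st φ μ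
    · have hw' : s * w.right * s⁻¹ ∈ st φ μ :=
        (st φ μ).mul_mem ((st φ μ).mul_mem hs hw) ((st φ μ).inv_mem hs)
      have e1 : xt μ (fun s => y s⁻¹) w = (μ w.left : ℂ) * y (⟨w.right, hw⟩ : st φ μ)⁻¹ :=
        dif_pos hw
      rw [xt_mk μ _ _ _ hw', e1, mem_st.mp hs]
      congr 1
      have h2 := hy (⟨w.right, hw⟩ : st φ μ)⁻¹ ⟨s, hs⟩
      rw [← h2]
      congr 1
      apply Subtype.ext
      push_cast
      group
    · have hw' : s * w.right * s⁻¹ ∉ st φ μ := by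
        intro hc
        apply hw
        have h3 := (st φ μ).mul_mem ((st φ μ).mul_mem ((st φ μ).inv_mem hs) hc) hs
        have h4 : s⁻¹ * (s * w.right * s⁻¹) * s = w.right := by group
        rwa [h4] at h3
      have e1 : xt μ (fun s => y s⁻¹) w = 0 := dif_neg hw
      rw [xt_not μ _ _ _ hw', e1]
  · intro m
    unfold xt
    split_ifs
    · exact O.mul_mem _ _ (char_mem O μ _) (hyO _)
    · exact O.zero_mem

end omix

end Pool.Agent.P8H58.FR
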