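import Pool.Agent.P8H58.Lgb
import Pool.Agent.H254R3.IN.Normal

/-!
# Fixed points of a `p`-group on an abelian group of order prime to `p`
-/

set_option autoImplicit false
set_option linter.unusedSectionVars false

open scoped BigOperators Classical

noncomputable section

namespace Pool.Agent.P8H58.FR

open Pool.Agent.Q90.WR Pool.Agent.H254R3.IN Pool.Agent.Q259.BW
open Pool.Agent.Helper884 Pool.Agent.N19.RB

open SemidirectProduct (inl inr)

variable {V H A M : Type} [CommGroup V] [Group H] [Fintype V] [Fintype H] [CommGroup A] [Group M]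
  [Fintype A] [Fintype M] {φ : H →* MulAut V} {φM : M →* MulAut A} {i : M →* H} {j : A →* V}
  {D : Subgroup M} {p : ℕ} [hp : Fact p.Prime]

/-- `j` identifies `A` with the fixed points of the normal `p`-subgroup `D` of `M` on `V` -/
structure Lo (p : ℕ) (φ : H →* MulAut V) (φM : M →* MulAut A) (i : M →* H) (j : A →* V)
    (D : Subgroup M) : Prop where
  comp : ∀ m a, j (φM m a) = φ (i m) (j a)
  inj : Function.Injective j
  fix : ∀ v, (∀ d ∈ D, φ (i d) v = v) ↔ ∃ a, j a = v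
  nor : D.Normal
  pgr : IsPGroup p D

/-- the homomorphism of semidirect products -/
def pr (i : M →* H) (j : A →* V) (h : ∀ m a, j (φM m a) = φ (i m) (j a)) :
    A ⋊[φM] M →* V ⋊[φ] H :=
  SemidirectProduct.map j i (fun m => MonoidHom.ext fun a => h m a)

theorem pr_mk (h : ∀ m a, j (φM m a) = φ (i m) (j a)) (a : A) (m : M) :
    pr i j h (⟨a, m⟩ : A ⋊[φM] M) = ⟨j a, i m⟩ := rfl

theorem Lo.triv (L : Lo p φ φM i j D) {d : M} (hd : d ∈ D) (a : A) : φM d a = a := by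
  apply L.inj
  rw [L.comp]
  exact (L.fix (j a)).mpr ⟨a, rfl⟩ d hd

theorem Lo.le_st (L : Lo p φ φM i j D) (μ : A →* ℂˣ) : D ≤ st φM μ := by
  intro d hd a
  rw [L.triv hd]

/-- the norm -/
def Nm (φ : H →* MulAut V) (i : M →* H) (D : Subgroup M) (v : V) : V := ∏ d : D, φ (i d) v

theorem Nm_fix (e : M) (he : e ∈ D) (v : V) : φ (i e) (Nm φ i D v) = Nm φ i D v := by
  unfold Nm
  rw [map_prod]
  refine Fintype.prod_equiv (Equiv.mulLeft (⟨e, he⟩ : D)) _ _ fun d => ?_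
  rw [Equiv.coe_mulLeft, ← MulAut.mul_apply, ← map_mul, ← map_mul]
  rfl

theorem Nm_conj (hD : D.Normal) (s : M) (v : V) :
    Nm φ i D (φ (i s) v) = φ (i s) (Nm φ i D v) := by
  unfold Nm
  rw [map_prod]
  refine Fintype.prod_equiv
    (⟨fun d => ⟨s⁻¹ * d * s, by simpa using hD.conj_mem d d.2 s⁻¹⟩,
      fun d => ⟨s * d * s⁻¹, hD.conj_mem d d.2 s⟩,
      fun d => Subtype.ext (by change s * (s⁻¹ * (d : M) * s) * s⁻¹ = d; group),
      fun d => Subtype.ext (by change s⁻¹ * (s * (d : M) * s⁻¹) * s = d; group)⟩ : D ≃ D)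
    _ _ fun d => ?_
  change φ (i d) (φ (i s) v) = φ (i s) (φ (i (s⁻¹ * (d : M) * s)) v)
  rw [← MulAut.mul_apply, ← map_mul, ← map_mul, ← MulAut.mul_apply, ← map_mul, ← map_mul]
  congr 3
  group

theorem nu_Nm {ν : V →* ℂˣ} (hν : ∀ d ∈ D, i d ∈ st φ ν) (v : V) :
    ν (Nm φ i D v) = ν v ^ Nat.card D := by
  unfold Nm
  rw [map_prod]
  have h : ∀ d : D, ν (φ (i d) v) = ν v := fun d => mem_st.mp (hν d d.2) v
  rw [Finset.prod_congr rfl fun d _ => h d, Finset.prod_const, Finset.card_univ,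
    Nat.card_eq_fintype_card]

theorem eq_of_pow {n m : ℕ} (h : n.Coprime m) {x y : ℂˣ} (h1 : x ^ n = y ^ n)
    (hx : x ^ m = 1) (hy : y ^ m = 1) : x = y := by
  have e1 : (x * y⁻¹) ^ n = 1 := by rw [mul_pow, inv_pow, h1, mul_inv_cancel]
  have e2 : (x * y⁻¹) ^ m = 1 := by rw [mul_pow, inv_pow, hx, hy, inv_one, mul_one]
  have e3 : orderOf (x * y⁻¹) ∣ Nat.gcd n m :=
    Nat.dvd_gcd (orderOf_dvd_of_pow_eq_one e1) (orderOf_dvd_of_pow_eq_one e2)
  rw [h] at e3
  have e4 : x * y⁻¹ = 1 := orderOf_eq_one_iff.mp (Nat.dvd_one.mp e3)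
  exact mul_inv_eq_one.mp e4

theorem char_pow {A : Type} [CommGroup A] [Finite A] (ν : A →* ℂˣ) (v : A) :
    ν v ^ Nat.card A = 1 := by
  rw [← map_pow, pow_card_eq_one', map_one]

theorem Lo.coprime (L : Lo p φ φM i j D) (hV : ¬ p ∣ Nat.card V) :
    (Nat.card D).Coprime (Nat.card V) := by
  obtain ⟨n, hn⟩ := IsPGroup.iff_card.mp L.pgr
  rw [hn]
  exact Nat.Coprime.pow_left n ((Nat.Prime.coprime_iff_not_dvd hp.out).mpr hV)

/-- the stabilisers agree -/
theorem Lo.st_of_st (L : Lo p φ φM i j D) (hV : ¬ p ∣ Nat.card V) {ν : V →* ℂˣ}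
    (hν : ∀ d ∈ D, i d ∈ st φ ν) {s : M} (hs : s ∈ st φM (ν.comp j)) : i s ∈ st φ ν := by
  intro v
  obtain ⟨a, ha⟩ := (L.fix (Nm φ i D v)).mp fun d hd => Nm_fix d hd v
  refine eq_of_pow (L.coprime hV) ?_ (char_pow ν _) (char_pow ν _)
  rw [← nu_Nm hν, ← nu_Nm hν, Nm_conj L.nor, ← ha, ← L.comp]
  exact hs a

/-- invariant characters are determined by their restrictions to the fixed points -/
theorem Lo.unique (L : Lo p φ φM i j D) (hV : ¬ p ∣ Nat.card V) {ν ν' : V →* ℂˣ}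
    (hν : ∀ d ∈ D, i d ∈ st φ ν) (hν' : ∀ d ∈ D, i d ∈ st φ ν')
    (h : ν.comp j = ν'.comp j) : ν = ν' := by
  refine MonoidHom.ext fun v => ?_
  obtain ⟨a, ha⟩ := (L.fix (Nm φ i D v)).mp fun d hd => Nm_fix d hd v
  refine eq_of_pow (L.coprime hV) ?_ (char_pow ν _) (char_pow ν' _)
  rw [← nu_Nm hν, ← nu_Nm hν', ← ha]
  exact DFunLike.congr_fun h a

/-- the norm as a homomorphism to `A` -/
def Lo.Nh (L : Lo p φ φM i j D) : V →* A :=
  MonoidHom.mk' (fun v => ((L.fix (Nm φ i D v)).mp fun d hd => Nm_fix d hd v).choose) (by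
    intro v w
    apply L.inj
    rw [map_mul, ((L.fix (Nm φ i D (v * w))).mp fun d hd => Nm_fix d hd (v * w)).choose_spec,
      ((L.fix (Nm φ i D v)).mp fun d hd => Nm_fix d hd v).choose_spec,
      ((L.fix (Nm φ i D w)).mp fun d hd => Nm_fix d hd w).choose_spec]
    unfold Nm
    rw [← Finset.prod_mul_distrib]
    refine Finset.prod_congr rfl fun d _ => ?_
    rw [map_mul])

theorem Lo.j_Nh (L : Lo p φ φM i j D) (v : V) : j (L.Nh v) = Nm φ i D v :=
  ((L.fix (Nm φ i D v)).mp fun d hd => Nm_fix d hd v).choose_spec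

theorem Lo.Nh_j (L : Lo p φ φM i j D) (a : A) : L.Nh (j a) = a ^ Nat.card D := by
  apply L.inj
  rw [L.j_Nh, map_pow]
  unfold Nm
  have h : ∀ d : D, φ (i d) (j a) = j a := fun d => (L.fix (j a)).mpr ⟨a, rfl⟩ d d.2
  rw [Finset.prod_congr rfl fun d _ => h d, Finset.prod_const, Finset.card_univ,
    Nat.card_eq_fintype_card]

/-- every character of the fixed points is the restriction of an invariant character -/
theorem Lo.exists_ext (L : Lo p φ φM i j D) (hV : ¬ p ∣ Nat.card V) (μ : A →* ℂˣ) :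
    ∃ ν : V →* ℂˣ, (∀ d ∈ D, i d ∈ st φ ν) ∧ ν.comp j = μ := by
  have hc := L.coprime hV
  obtain ⟨t, ht⟩ : ∃ t : ℕ, Nat.card D * t ≡ 1 [MOD Nat.card V] := by
    have h1 := Nat.ModEq.pow_totient hc
    have h2 : 0 < (Nat.card V).totient := Nat.totient_pos.mpr Nat.card_pos
    refine ⟨Nat.card D ^ ((Nat.card V).totient - 1), ?_⟩
    rwa [← pow_succ', Nat.sub_add_cancel h2]
  refine ⟨(μ.comp L.Nh) ^ t, ?_, ?_⟩
  · intro d hd v
    rw [MonoidHom.pow_apply, MonoidHom.pow_apply, MonoidHom.comp_apply, MonoidHom.comp_apply]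
    congr 2
    apply L.inj
    rw [L.j_Nh, L.j_Nh, Nm_conj L.nor, Nm_fix d hd]
  · refine MonoidHom.ext fun a => ?_
    rw [MonoidHom.comp_apply, MonoidHom.pow_apply, MonoidHom.comp_apply, L.Nh_j, map_pow, ← pow_mul]
    have h1 : orderOf (μ a) ∣ Nat.card V :=
      (orderOf_dvd_of_pow_eq_one (char_pow μ a)).trans (Subgroup.card_dvd_of_injective j L.inj)
    have h2 : μ a ^ (Nat.card D * t) = μ a ^ 1 := pow_eq_pow_iff_modEq.mpr (ht.of_dvd h1)
    rw [h2, pow_one]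

/-! ### the parts of central functions -/

section parts

variable {O : ValuationSubring ℂ} (hpO : (p : ℂ) ∈ O.nonunits)

include hpO

theorem cz_fix (L : Lo p φ φM i j D) {ν : V →* ℂˣ} (hν : ∀ d ∈ D, i d ∈ st φ ν)
    {z : V ⋊[φ] H → ℂ} (hz : IsCl z) (hzO : ∀ x, z x ∈ O) {s : M}
    (hs : ∀ d ∈ D, d * s = s * d) :
    red O (cz (ν.comp j) (fun x : A ⋊[φM] M => z (pr i j L.comp x)) s) = red O (cz ν z (i s)) := by
  have := charP_RF hpO
  unfold cz
  rw [red_sum _ _ fun v _ => O.mul_mem _ _ (char_mem O ν v) (hzO _),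
    red_sum _ _ fun a _ => O.mul_mem _ _ (char_mem O (ν.comp j) a) (hzO _)]
  letI : MulAction D V := MulAction.compHom V ((φ.comp i).comp D.subtype)
  have hsm : ∀ (d : D) (v : V), d • v = φ (i d) v := fun _ _ => rfl
  rw [sum_fixed L.pgr (X := V) (F := RF O)
    (fun a => by rw [← Nat.cast_smul_eq_nsmul (RF O), CharP.cast_eq_zero, zero_smul])
    (fun v => red O ((ν v : ℂ) * z ⟨v, i s⟩)) (fun d v => by
      rw [hsm, mem_st.mp (hν d d.2)]
      congr 2
      have h1 : (⟨φ (i d) v, i s⟩ : V ⋊[φ] H) = inr (i d) * ⟨v, i s⟩ * inr (i d)⁻¹ := by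
        rw [conj_inr]
        refine SemidirectProduct.ext rfl ?_
        change i s = i d * i s * (i d)⁻¹
        rw [← map_mul, hs d d.2, map_mul, mul_inv_cancel_right]
      rw [h1, map_inv]
      exact hz _ _)]
  symm
  refine (Finset.sum_congr (s₂ := Finset.univ.image j) ?_ (fun _ _ => rfl)).trans ?_
  · ext v
    simp only [Finset.mem_filter, Finset.mem_univ, true_and, Finset.mem_image]
    constructor
    · intro h
      obtain ⟨a, ha⟩ := (L.fix v).mp fun d hd => h ⟨d, hd⟩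
      exact ⟨a, ha⟩
    · rintro ⟨a, rfl⟩ d
      exact (L.fix (j a)).mpr ⟨a, rfl⟩ d d.2
  · rw [Finset.sum_image fun a _ b _ h => L.inj h]
    rfl

theorem cz_cl {ν : V →* ℂˣ} {z : V ⋊[φ] H → ℂ} (hz : IsCl z) {S : Type} [Group S] (k : S →* H)
    (hk : ∀ s, k s ∈ st φ ν) : IsCl (fun s : S => cz ν z (k s)) := by
  intro x y
  change cz ν z (k (y * x * y⁻¹)) = cz ν z (k x)
  rw [map_mul, map_mul, map_inv, ← cz_tr ν (k y) hz, tr_st.mpr (hk y)]

/-- comparison of the scalars -/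
theorem Om_fix (L : Lo p φ φM i j D) (hV : ¬ p ∣ Nat.card V) {ν : V →* ℂˣ}
    (hν : ∀ d ∈ D, i d ∈ st φ ν) {z : V ⋊[φ] H → ℂ} (hz : IsCl z) (hzO : ∀ x, z x ∈ O)
    {ψ : st φM (ν.comp j) → ℂ} (hψ : IsIrr ψ) :
    red O (Om (fun x : A ⋊[φM] M => z (pr i j L.comp x)) (ix (ν.comp j) ψ)) =
      red O (Om (fun s : st φM (ν.comp j) => cz ν z (i s)) ψ) := by
  have hpz : IsCl (fun x : A ⋊[φM] M => z (pr i j L.comp x)) := comp_cl (pr i j L.comp) hz
  rw [Om_ix _ hψ.one_ne hpz]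
  set S := st φM (ν.comp j) with hS
  let DS : Subgroup S := D.subgroupOf S
  have hDle : D ≤ S := L.le_st _
  have hn : DS.Normal := by
    have := L.nor
    exact Subgroup.normal_subgroupOf
  have hpg : IsPGroup p DS := L.pgr.of_equiv (Subgroup.subgroupOfEquivOfLe hDle).symm
  have c1 : IsCl (fun s : S => cz (ν.comp j) (fun x : A ⋊[φM] M => z (pr i j L.comp x)) s) :=
    cz_cl hpO hpz S.subtype fun s => s.2
  have c2 : IsCl (fun s : S => cz ν z (i s)) :=
    cz_cl hpO hz (i.comp S.subtype) fun s => L.st_of_st hV hν s.2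
  rw [(red_Om hψ c1 fun s => cz_mem O _ (fun x => hzO _) _).2,
    (red_Om hψ c2 fun s => cz_mem O _ hzO _).2]
  refine Finset.sum_congr rfl fun K _ => ?_
  by_cases hK : rep K ∈ Subgroup.centralizer (DS : Set S)
  · congr 1
    refine cz_fix hpO L hν hz hzO fun d hd => ?_
    have h1 := Subgroup.mem_centralizer_iff.mp hK ⟨d, hDle hd⟩ hd
    exact congrArg Subtype.val h1
  · rw [lam_zero hpO hpg hψ hK, mul_zero, mul_zero]

end parts

end Pool.Agent.P8H58.FR
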