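import Pool.Agent.P8H58.Lgc
import Pool.Agent.Q90.WR.Bcl
import Pool.Agent.H254R3.IN.Fin

/-!
# The block above a linear character and a block of its stabiliser
-/

set_option autoImplicit false
set_option linter.unusedSectionVars false

open scoped BigOperators Classical

noncomputable section

namespace Pool.Agent.P8H58.FR

open Pool.Agent.Q90.WR Pool.Agent.H254R3.IN Pool.Agent.Q259.BW
open Pool.Agent.Helper884 Pool.Agent.N19.RB

open SemidirectProduct (inl inr)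

/-- the block which contains `χ₀` -/
def blkOf (O : ValuationSubring ℂ) {G : Type} [Group G] (χ₀ : G → ℂ) : Set (G → ℂ) :=
  {χ | IsIrr χ ∧ ∀ x : G, omega χ x - omega χ₀ x ∈ O.nonunits}

theorem blkOf_block {O : ValuationSubring ℂ} {G : Type} [Group G] {χ₀ : G → ℂ} (h : IsIrr χ₀) :
    IsBlock O (blkOf O χ₀) := ⟨χ₀, h, rfl⟩

theorem mem_blkOf {O : ValuationSubring ℂ} {G : Type} [Group G] {χ₀ : G → ℂ} (h : IsIrr χ₀) :
    χ₀ ∈ blkOf O χ₀ := ⟨h, fun x => by rw [sub_self]; exact O.nonunits.zero_mem⟩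

variable {V H A M : Type} [CommGroup V] [Group H] [Fintype V] [Fintype H] [CommGroup A] [Group M]
  [Fintype A] [Fintype M] {φ : H →* MulAut V} {φM : M →* MulAut A} {i : M →* H} {j : A →* V}
  {D : Subgroup M} {p : ℕ} [hp : Fact p.Prime] {O : ValuationSubring ℂ}

theorem conj_st {lam : V →* ℂˣ} {g h : H} (hh : h ∈ st φ (tr φ lam g)) :
    g * h * g⁻¹ ∈ st φ lam := by
  intro v
  have h1 := hh (φ g⁻¹ v)
  have h2 : φ g (φ g⁻¹ v) = v := by
    rw [← MulAut.mul_apply, ← map_mul, mul_inv_cancel, map_one, MulAut.one_apply]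
  rw [tr_apply, tr_apply, h2] at h1
  rw [map_mul, map_mul, MulAut.mul_apply, MulAut.mul_apply]
  exact h1

/-- the homomorphism `s ↦ g i(s) g⁻¹` from the stabiliser of `ν` in `M` to the stabiliser of `lam`,
where `ν` is the translate of `lam` by `g` -/
def kap (L : Lo p φ φM i j D) (hV : ¬ p ∣ Nat.card V) {lam ν : V →* ℂˣ}
    (hν : ∀ d ∈ D, i d ∈ st φ ν) (g : H) (hg : tr φ lam g = ν) :
    st φM (ν.comp j) →* st φ lam where
  toFun s := ⟨g * i s * g⁻¹, conj_st (by rw [hg]; exact L.st_of_st hV hν s.2)⟩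
  map_one' := by
    apply Subtype.ext
    simp
  map_mul' s t := by
    apply Subtype.ext
    simp only [Subgroup.coe_mul, map_mul]
    group

/-- the scalars of the central elements of the semidirect product -/
theorem Om_kap (hpO : (p : ℂ) ∈ O.nonunits) (L : Lo p φ φM i j D) (hV : ¬ p ∣ Nat.card V)
    {lam ν : V →* ℂˣ} (hν : ∀ d ∈ D, i d ∈ st φ ν) (g : H) (hg : tr φ lam g = ν)
    {z : V ⋊[φ] H → ℂ} (hz : IsCl z) (hzO : ∀ x, z x ∈ O) {ψ : st φM (ν.comp j) → ℂ}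
    (hψ : IsIrr ψ) :
    red O (Om (fun x : A ⋊[φM] M => z (pr i j L.comp x)) (ix (ν.comp j) ψ)) =
      red O (Om (fun s => (fun t : st φ lam => cz lam z t) (kap L hV hν g hg s)) ψ) := by
  rw [Om_fix hpO L hV hν hz hzO hψ]
  congr 1
  have : (fun s : st φM (ν.comp j) => cz ν z (i s)) =
      fun s => (fun t : st φ lam => cz lam z t) (kap L hV hν g hg s) := by
    funext s
    change cz ν z (i s) = cz lam z (g * i s * g⁻¹)
    rw [← cz_tr lam g hz, hg]
  rw [this]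

theorem inv_card_mem (hpO : (p : ℂ) ∈ O.nonunits) (hV : ¬ p ∣ Nat.card V) :
    (Nat.card V : ℂ)⁻¹ ∈ O := nat_inv_mem hpO hV

/-- **induction to the block above `lam` and `B`** -/
theorem ind_kap (hpO : (p : ℂ) ∈ O.nonunits) (L : Lo p φ φM i j D) (hV : ¬ p ∣ Nat.card V)
    {lam ν : V →* ℂˣ} (hν : ∀ d ∈ D, i d ∈ st φ ν) (g : H) (hg : tr φ lam g = ν)
    {B : Set (st φ lam → ℂ)} (hB : IsBlock O B) {ψ₀ : st φ lam → ℂ} (h0 : ψ₀ ∈ B)
    {ψ : st φM (ν.comp j) → ℂ} (hψ : IsIrr ψ) :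
    ix (ν.comp j) ψ ∈ IndS O (blkOf O (ix lam ψ₀)) (pr i j L.comp) ↔
      ψ ∈ IndS O B (kap L hV hν g hg) := by
  have hψ0 := hB.irr ψ₀ h0
  rw [mem_IndS' (blkOf_block (ix_irr hψ0)) (mem_blkOf (ix_irr hψ0)) _ (ix_irr hψ),
    mem_IndS' hB h0 _ hψ]
  constructor
  · intro h y hy hyO
    have h1 := h (zf lam y) (zf_cl lam y) (zf_mem (inv_card_mem hpO hV) lam hy hyO)
    rw [Om_kap hpO L hV hν g hg (zf_cl lam y) (zf_mem (inv_card_mem hpO hV) lam hy hyO) hψ,
      Om_ix lam hψ0.one_ne (zf_cl lam y)] at h1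
    have h2 : (fun s : st φ lam => cz lam (zf lam y) s) = y := by
      funext s
      exact cz_zf lam hy s
    rw [h2] at h1
    exact h1
  · intro h z hz hzO
    rw [Om_kap hpO L hV hν g hg hz hzO hψ, Om_ix lam hψ0.one_ne hz]
    refine h (fun t => cz lam z t) ?_ fun t => cz_mem O lam hzO t
    exact cz_cl hpO hz (st φ lam).subtype fun s => s.2

/-- **characters above other linear characters** -/
theorem ind_none (hpO : (p : ℂ) ∈ O.nonunits) (L : Lo p φ φM i j D) (hV : ¬ p ∣ Nat.card V)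
    {lam ν : V →* ℂˣ} (hν : ∀ d ∈ D, i d ∈ st φ ν) (hg : ∀ g, tr φ lam g ≠ ν)
    {ψ₀ : st φ lam → ℂ} (hψ0 : IsIrr ψ₀) {ψ : st φM (ν.comp j) → ℂ} (hψ : IsIrr ψ) :
    ix (ν.comp j) ψ ∉ IndS O (blkOf O (ix lam ψ₀)) (pr i j L.comp) := by
  rw [mem_IndS' (blkOf_block (ix_irr hψ0)) (mem_blkOf (ix_irr hψ0)) _ (ix_irr hψ)]
  intro h
  have hz := zf_cl (φ := φ) lam (dl : st φ lam → ℂ)
  have hzO := zf_mem (φ := φ) (inv_card_mem hpO hV) lam dl_cl (dl_mem O)
  have h1 := h (zf lam dl) hz hzO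
  rw [Om_fix hpO L hV hν hz hzO hψ, Om_ix lam hψ0.one_ne hz] at h1
  have h2 : (fun s : st φ lam => cz (φ := φ) lam (zf lam dl) (s : H)) = dl := by
    funext s
    exact cz_zf lam dl_cl s
  have h3 : (fun s : st φM (ν.comp j) => cz (φ := φ) ν (zf lam dl) (i s)) = fun _ => 0 := by
    funext s
    exact cz_zf_ne lam ν dl hg ⟨i s, L.st_of_st hV hν s.2⟩
  rw [h2, h3, Om_dl hψ0, red_one] at h1
  unfold Om at h1
  simp only [zero_mul, Finset.sum_const_zero, zero_div, red_zero] at h1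
  exact zero_ne_one h1

/-- the trivial local situation -/
theorem Lo_id : Lo p φ φ (MonoidHom.id H) (MonoidHom.id V) (⊥ : Subgroup H) where
  comp _ _ := rfl
  inj := Function.injective_id
  fix v := by
    refine ⟨fun _ => ⟨v, rfl⟩, fun _ d hd => ?_⟩
    rw [Subgroup.mem_bot.mp hd, map_one, map_one, MulAut.one_apply]
  nor := inferInstance
  pgr := IsPGroup.of_bot

/-- the irreducible characters are induced -/
theorem exists_ix {θ : A ⋊[φM] M → ℂ} (hθ : IsIrr θ) :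
    ∃ (μ : A →* ℂˣ) (ψ : st φM μ → ℂ), IsIrr ψ ∧ ix μ ψ = θ := by
  by_contra hcon
  push Not at hcon
  have h1 := count_one hθ
  rw [Finset.sum_eq_zero] at h1
  · exact Nat.card_pos.ne h1
  · intro μ _
    refine Finset.sum_eq_zero fun ψ hψ => ?_
    rw [if_neg (hcon μ ψ (IC.mem_Irr.mp hψ))]

theorem kap_bij (hV : ¬ p ∣ Nat.card V) {lam ν : V →* ℂˣ}
    (hν : ∀ d ∈ (⊥ : Subgroup H), MonoidHom.id H d ∈ st φ ν) (g : H) (hg : tr φ lam g = ν) :
    Function.Bijective (kap (Lo_id (p := p) (φ := φ)) hV hν g hg) := by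
  constructor
  · intro s t h
    have h1 := congrArg Subtype.val h
    change g * (s : H) * g⁻¹ = g * (t : H) * g⁻¹ at h1
    exact Subtype.ext (mul_left_cancel (mul_right_cancel h1))
  · intro t
    have h1 : g⁻¹ * (t : H) * g ∈ st φ (ν.comp (MonoidHom.id V)) := by
      change g⁻¹ * (t : H) * g ∈ st φ ν
      intro v
      rw [← hg, tr_apply, tr_apply, ← MulAut.mul_apply, ← map_mul]
      have h2 : g * (g⁻¹ * (t : H) * g) = t * g := by group
      rw [h2, map_mul, MulAut.mul_apply]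
      exact t.2 _
    refine ⟨⟨g⁻¹ * (t : H) * g, h1⟩, Subtype.ext ?_⟩
    change g * (g⁻¹ * (t : H) * g) * g⁻¹ = t
    group

/-- the characters in the block -/
theorem mem_blk (hpO : (p : ℂ) ∈ O.nonunits) (hV : ¬ p ∣ Nat.card V) {lam : V →* ℂˣ}
    {B : Set (st φ lam → ℂ)} (hB : IsBlock O B) {ψ₀ : st φ lam → ℂ} (h0 : ψ₀ ∈ B)
    {χ : V ⋊[φ] H → ℂ} (hχ : χ ∈ blkOf O (ix lam ψ₀)) :
    ∃ ψ ∈ B, (Nat.card H : ℂ) * ψ 1 = Nat.card (st φ lam) * χ 1 := by
  have hψ0 := hB.irr ψ₀ h0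
  have hblk : IsBlock O (blkOf O (ix lam ψ₀)) := blkOf_block (ix_irr hψ0)
  obtain ⟨ν, ψ, hψ, rfl⟩ := exists_ix hχ.1
  have hν : ∀ d ∈ (⊥ : Subgroup H), MonoidHom.id H d ∈ st φ ν := by
    intro d hd
    rw [Subgroup.mem_bot.mp hd]
    exact (st φ ν).one_mem
  have hm : ix ν ψ ∈ IndS O (blkOf O (ix lam ψ₀)) (MonoidHom.id (V ⋊[φ] H)) := by
    rw [mem_IndS hblk (mem_blkOf (ix_irr hψ0))]
    refine ⟨hχ.1, fun x => ?_⟩
    rw [← omega_eq_L hχ.1]
    exact ⟨hχ.1.omega_mem O x, hblk.red_eq hχ (mem_blkOf (ix_irr hψ0)) x⟩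
  have hpr : (pr (MonoidHom.id H) (MonoidHom.id V) (Lo_id (p := p) (φ := φ)).comp :
      V ⋊[φ] H →* V ⋊[φ] H) = MonoidHom.id _ := MonoidHom.ext fun x => rfl
  have hm' : ix (ν.comp (MonoidHom.id V)) ψ ∈ IndS O (blkOf O (ix lam ψ₀))
      (pr (MonoidHom.id H) (MonoidHom.id V) (Lo_id (p := p) (φ := φ)).comp) := by
    rw [hpr]
    exact hm
  by_cases hg : ∃ g, tr φ lam g = ν
  · obtain ⟨g, hg⟩ := hg
    have h1 := (ind_kap hpO Lo_id hV hν g hg hB h0 (ψ := ψ) hψ).mp hm'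
    let e : st φ (ν.comp (MonoidHom.id V)) ≃* st φ lam :=
      MulEquiv.ofBijective _ (kap_bij (p := p) hV hν g hg)
    have h2 : (fun s => ψ (e.symm s)) ∈ B := by
      apply IndS_id hB
      refine (IndS_congr e (π := kap (Lo_id (p := p)) hV hν g hg) (π' := MonoidHom.id (st φ lam))
        (fun c => IsConj.refl _) (fun s => ψ (e.symm s))).mp ?_
      have h3 : (fun g => (fun s => ψ (e.symm s)) (e g)) = ψ := by
        funext s
        simp
      rw [h3]
      exact h1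
    refine ⟨_, h2, ?_⟩
    have h4 : ψ (e.symm 1) = ψ 1 := by rw [map_one]
    change (Nat.card H : ℂ) * ψ (e.symm 1) = _
    rw [h4, ← ix_one_eq ψ]
    have h5 : Nat.card (st φ lam) = Nat.card (st φ ν) := (Nat.card_congr e.toEquiv).symm
    rw [h5]
  · push Not at hg
    exact absurd hm' (ind_none hpO Lo_id hV hν hg hψ0 hψ)

/-- the block contains no characters of defect zero -/
theorem blk_good (hpO : (p : ℂ) ∈ O.nonunits) (hV : ¬ p ∣ Nat.card V) {lam : V →* ℂˣ}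
    {B : Set (st φ lam → ℂ)} (hB : GoodB O B) {ψ₀ : st φ lam → ℂ} (h0 : ψ₀ ∈ B) :
    GoodB O (blkOf O (ix lam ψ₀)) := by
  refine ⟨blkOf_block (ix_irr (hB.block.irr ψ₀ h0)), ?_⟩
  intro χ hχ
  obtain ⟨ψ, hψ, h1⟩ := mem_blk hpO hV hB.block h0 hχ
  have h2 := hB.pos ψ hψ
  have h3 : (Nat.card (V ⋊[φ] H) : ℂ) / χ 1 = (Nat.card V : ℂ) * (Nat.card (st φ lam) / ψ 1) := by
    have n1 := hχ.1.one_ne
    have n2 := (hB.block.irr ψ hψ).one_ne
    rw [SemidirectProduct.card]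
    push_cast
    field_simp
    linear_combination h1
  have hm := nonunits_mem h2
  have hVm : (Nat.card V : ℂ) ∈ O := natCast_mem' (O := O) _
  rw [h3, ← red_eq_zero_iff (O.mul_mem _ _ hVm hm), red_mul hVm hm, red_eq_zero h2, mul_zero]

/-- every block has a defect group -/
theorem exists_dg {G : Type} [Group G] [Fintype G] {B : Set (G → ℂ)} (hB : IsBlock O B) :
    ∃ D, IsDefectGroup p O B D := by
  obtain ⟨χ, hχ⟩ := hB.nonempty
  have hχi := hB.irr χ hχ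
  have h1 := Om_blockCoeff hB.irr hχi
  rw [if_pos hχ] at h1
  have h2 := (red_Om hχi (blockCoeff_cl hB.irr) (blockCoeff_mem hB)).2
  rw [h1, red_one] at h2
  obtain ⟨K, _, hK⟩ := Finset.exists_ne_zero_of_sum_ne_zero (h2 ▸ one_ne_zero)
  have h3 := left_ne_zero_of_mul hK
  have h4 := right_ne_zero_of_mul hK
  obtain ⟨P⟩ : Nonempty (Sylow p (Subgroup.centralizer ({rep K} : Set G))) := inferInstance
  refine ⟨_, rep K, ⟨P, rfl⟩, ?_, fun h => h3 (red_eq_zero h)⟩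
  intro χ' hχ' h
  apply h4
  rw [hB.red_eq hχ hχ']
  exact red_eq_zero h

/-- a block without characters of defect zero has a nontrivial defect group -/
theorem exists_def {G : Type} [Group G] [Finite G] (hpO : (p : ℂ) ∈ O.nonunits)
    {B : Set (G → ℂ)} (hB : GoodB O B) : ∃ D, IsDefectGroup p O B D ∧ D ≠ ⊥ := by
  have := Fintype.ofFinite G
  obtain ⟨D, hD⟩ := exists_dg (p := p) hB.block
  refine ⟨D, hD, ?_⟩
  rintro rfl
  obtain ⟨χ, hχ⟩ := hB.block.nonempty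
  have h1 := hB.pos χ hχ
  have h2 := uu_mem hpO hB.block hD hχ
  unfold uu at h2
  rw [Subgroup.card_bot, Nat.cast_one, mul_one] at h2
  have h3 : (Nat.card G : ℂ) / χ 1 * (χ 1 / Nat.card G) = 1 := by
    have n1 := (hB.block.irr χ hχ).one_ne
    have n2 : (Nat.card G : ℂ) ≠ 0 := cardG_ne G
    field_simp
  have h4 := nonunits_mem h1
  have h5 := congrArg (red O) h3
  rw [red_mul h4 h2, red_eq_zero h1, zero_mul, red_one] at h5
  exact zero_ne_one h5

end Pool.Agent.P8H58.FR
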