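import Pool.Agent.P8H58.Nch
import Pool.Agent.P8H58.Lgc

/-!
# Chains of `p`-subgroups of a semidirect product with an abelian normal `p'`-subgroup
-/

set_option autoImplicit false
set_option linter.unusedSectionVars false

open scoped BigOperators Classical

noncomputable section

namespace Pool.Agent.P8H58.FR

open Pool.Agent.Y63.KR Pool.Agent.Q90.WR

open SemidirectProduct (inl inr rightHom)

section gen

variable {G G' : Type} [Group G] [Group G'] {p : ℕ}

/-- image of a chain -/
def im (f : G →* G') (σ : Set (Subgroup G)) : Set (Subgroup G') := (fun P => P.map f) '' σ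

theorem im_chain {f : G →* G'} (hf : Function.Injective f) {σ : Set (Subgroup G)}
    (h : IsPChain p σ) : IsPChain p (im f σ) := by
  refine ⟨?_, ?_, ?_⟩
  · rintro _ ⟨P, hP, rfl⟩ _ ⟨Q, hQ, rfl⟩ _
    rcases h.chain.total hP hQ with h1 | h1
    · exact Or.inl (Subgroup.map_mono h1)
    · exact Or.inr (Subgroup.map_mono h1)
  · rintro _ ⟨P, hP, rfl⟩
    exact (h.isPGroup P hP).map _
  · rintro _ ⟨P, hP, rfl⟩
    intro h1
    exact h.ne_bot P hP ((Subgroup.map_eq_bot_iff_of_injective P hf).mp h1)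

theorem im_ncard {f : G →* G'} (hf : Function.Injective f) (σ : Set (Subgroup G)) :
    (im f σ).ncard = σ.ncard :=
  Set.ncard_image_of_injective σ (Subgroup.map_injective hf)

theorem im_sSup (f : G →* G') (σ : Set (Subgroup G)) : sSup (im f σ) = (sSup σ).map f := by
  unfold im
  rw [(Subgroup.gc_map_comap f).l_sSup, sSup_image]

theorem conj_sSup (g : G) (σ : Set (Subgroup G)) :
    sSup (conjSub g '' σ) = conjSub g (sSup σ) := im_sSup (MulAut.conj g).toMonoidHom σ

theorem nor_conj {g : G} {σ : Set (Subgroup G)} : Nor (conjSub g '' σ) ↔ Nor σ := by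
  unfold Nor
  rw [conj_sSup, chainStabilizer_conj]
  constructor
  · intro h
    have h1 := conjSub_le (g := g⁻¹) h
    rwa [conjSub_inv_conjSub, conjSub_inv_conjSub] at h1
  · exact conjSub_le

/-- the setwise stabiliser of a chain -/
theorem set_stab [Finite G] {σ : Set (Subgroup G)} (hσ : IsPChain p σ) (g : G) :
    conjSub g '' σ = σ ↔ g ∈ chainStabilizer σ := by
  rw [mem_chainStabilizer]
  constructor
  · intro h3 P hP
    have hgP : conjSub g P ∈ σ := by
      rw [← h3]
      exact ⟨P, hP, rfl⟩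
    have hcard : Nat.card (conjSub g P) = Nat.card P :=
      Nat.card_congr (Subgroup.equivMapOfInjective _ _ (MulAut.conj g).injective).toEquiv.symm
    rcases hσ.chain.total hgP hP with h4 | h4
    · exact Subgroup.eq_of_le_of_card_ge h4 hcard.ge
    · exact (Subgroup.eq_of_le_of_card_ge h4 hcard.le).symm
  · intro h3
    ext P
    constructor
    · rintro ⟨Q, hQ, rfl⟩
      rw [h3 Q hQ]
      exact hQ
    · intro hP
      exact ⟨P, hP, h3 P hP⟩

theorem conj_one_image (σ : Set (Subgroup G)) : conjSub (1 : G) '' σ = σ := by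
  have : (conjSub (1 : G)) = id := funext conjSub_one
  rw [this, Set.image_id]

theorem conj_mul_image (g h : G) (σ : Set (Subgroup G)) :
    conjSub (g * h) '' σ = conjSub g '' (conjSub h '' σ) := by
  rw [← Set.image_comp]
  congr 1
  exact funext fun P => conjSub_mul g h P

theorem sSup_pgroup [Finite G] {σ : Set (Subgroup G)} (hσ : IsPChain p σ) :
    IsPGroup p (sSup σ : Subgroup G) := by
  by_cases hne : σ.Nonempty
  · exact hσ.isPGroup _ (sSup_mem_chain hσ.chain (subset_refl σ) hne).1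
  · rw [Set.not_nonempty_iff_eq_empty] at hne
    rw [hne, sSup_empty]
    exact IsPGroup.of_bot

theorem stab_sSup [Finite G] {σ : Set (Subgroup G)} (hσ : IsPChain p σ) {g : G}
    (hg : g ∈ chainStabilizer σ) : conjSub g (sSup σ) = sSup σ := by
  rw [← conj_sSup, (set_stab hσ g).mpr hg]

end gen

/-! ### semidirect products -/

section sd

variable {V H : Type} [CommGroup V] [Group H] [Fintype V] [Fintype H] {φ : H →* MulAut V}
  {p : ℕ} [hp : Fact p.Prime]

theorem inl_conj (v : V) (h : H) :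
    (inl v * inr h * (inl v)⁻¹ : V ⋊[φ] H) = ⟨v * (φ h v)⁻¹, h⟩ := by
  refine SemidirectProduct.ext ?_ ?_
  · simp
  · simp

/-- every `p`-subgroup is conjugate under `V` to a subgroup of the complement -/
theorem exists_conj (hV : ¬ p ∣ Nat.card V) (Q : Subgroup (V ⋊[φ] H)) (hQ : IsPGroup p Q) :
    ∃ v : V, ∀ x ∈ Q, x = inl v * inr x.right * (inl v)⁻¹ := by
  have hc : (Nat.card Q).Coprime (Nat.card V) := by
    obtain ⟨n, hn⟩ := IsPGroup.iff_card.mp hQ
    rw [hn]
    exact Nat.Coprime.pow_left n ((Nat.Prime.coprime_iff_not_dvd hp.out).mpr hV)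
  obtain ⟨t, ht⟩ : ∃ t : ℕ, Nat.card Q * t ≡ 1 [MOD Nat.card V] := by
    have h1 := Nat.ModEq.pow_totient hc
    have h2 : 0 < (Nat.card V).totient := Nat.totient_pos.mpr Nat.card_pos
    refine ⟨Nat.card Q ^ ((Nat.card V).totient - 1), ?_⟩
    rwa [← pow_succ', Nat.sub_add_cancel h2]
  set w : V := ∏ y : Q, (y : V ⋊[φ] H).left with hw
  refine ⟨w ^ t, fun x hx => ?_⟩
  have h1 : x.left ^ Nat.card Q * φ x.right w = w := by
    have h2 : w = ∏ y : Q, ((x * (y : V ⋊[φ] H)) : V ⋊[φ] H).left := by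
      rw [hw]
      exact (Fintype.prod_equiv (Equiv.mulLeft (⟨x, hx⟩ : Q)) _ _ fun y => rfl).symm
    conv_rhs => rw [h2]
    simp only [SemidirectProduct.mul_left]
    rw [Finset.prod_mul_distrib, Finset.prod_const, Finset.card_univ, ← Nat.card_eq_fintype_card,
      hw, map_prod]
  rw [inl_conj]
  refine SemidirectProduct.ext ?_ rfl
  change x.left = w ^ t * (φ x.right (w ^ t))⁻¹
  have h3 : x.left ^ (Nat.card Q * t) = x.left := by
    have h4 : orderOf x.left ∣ Nat.card V := orderOf_dvd_natCard _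
    have h5 : x.left ^ (Nat.card Q * t) = x.left ^ 1 :=
      pow_eq_pow_iff_modEq.mpr (ht.of_dvd h4)
    rw [h5, pow_one]
  rw [eq_mul_inv_iff_mul_eq, map_pow]
  conv_lhs => rw [← h3]
  rw [pow_mul, ← mul_pow, h1]

theorem exists_conj_chain (hV : ¬ p ∣ Nat.card V) {υ : Set (Subgroup (V ⋊[φ] H))}
    (hυ : IsPChain p υ) : ∃ v : V, ∀ Q ∈ υ, Q = conjSub (inl v) ((Q.map rightHom).map inr) := by
  obtain ⟨v, hv⟩ := exists_conj hV (sSup υ) (sSup_pgroup hυ)
  refine ⟨v, fun Q hQ => ?_⟩
  ext x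
  rw [mem_conjSub]
  constructor
  · intro hx
    refine ⟨x.right, ⟨x, hx, rfl⟩, ?_⟩
    have h1 := hv x (le_sSup hQ hx)
    conv_rhs => rw [h1]
    group
  · rintro ⟨h, ⟨y, hy, rfl⟩, hyx⟩
    have h1 := hv y (le_sSup hQ hy)
    have h2 : x = inl v * inr y.right * (inl v)⁻¹ := by
      change (inr y.right : V ⋊[φ] H) = _ at hyx
      rw [hyx]
      group
    rw [h2, ← h1]
    exact hy

theorem inr_inj : Function.Injective (inr : H →* V ⋊[φ] H) := SemidirectProduct.inr_injective

/-- the image in `H` -/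
theorem right_chain (hV : ¬ p ∣ Nat.card V) {υ : Set (Subgroup (V ⋊[φ] H))}
    (hυ : IsPChain p υ) : IsPChain p (im rightHom υ) := by
  obtain ⟨v, hv⟩ := exists_conj_chain hV hυ
  refine ⟨?_, ?_, ?_⟩
  · rintro _ ⟨P, hP, rfl⟩ _ ⟨Q, hQ, rfl⟩ _
    rcases hυ.chain.total hP hQ with h1 | h1
    · exact Or.inl (Subgroup.map_mono h1)
    · exact Or.inr (Subgroup.map_mono h1)
  · rintro _ ⟨P, hP, rfl⟩
    exact (hυ.isPGroup P hP).map _
  · rintro _ ⟨P, hP, rfl⟩
    intro h1
    apply hυ.ne_bot P hP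
    rw [hv P hP]
    change conjSub (inl v) ((P.map rightHom).map inr) = ⊥
    have h2 : P.map rightHom = ⊥ := h1
    rw [h2, Subgroup.map_bot]
    exact Subgroup.map_bot _

theorem conj_im (hV : ¬ p ∣ Nat.card V) {υ : Set (Subgroup (V ⋊[φ] H))} (hυ : IsPChain p υ) :
    ∃ v : V, conjSub (inl v) '' (im inr (im rightHom υ)) = υ := by
  obtain ⟨v, hv⟩ := exists_conj_chain hV hυ
  refine ⟨v, ?_⟩
  ext Q
  constructor
  · rintro ⟨_, ⟨_, ⟨P, hP, rfl⟩, rfl⟩, rfl⟩
    have h1 := hv P hP
    change conjSub (inl v) ((P.map rightHom).map inr) ∈ υ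
    rw [← h1]
    exact hP
  · intro hQ
    exact ⟨_, ⟨_, ⟨Q, hQ, rfl⟩, rfl⟩, (hv Q hQ).symm⟩

theorem right_conj (v : V) (σ : Set (Subgroup H)) :
    im rightHom (conjSub (inl v : V ⋊[φ] H) '' (im inr σ)) = σ := by
  have key : ∀ P : Subgroup H, (conjSub (inl v : V ⋊[φ] H) (P.map inr)).map rightHom = P := by
    intro P
    unfold conjSub
    rw [Subgroup.map_map, Subgroup.map_map]
    have : ((rightHom : V ⋊[φ] H →* H).comp (MulAut.conj (inl v : V ⋊[φ] H)).toMonoidHom).comp
        inr = MonoidHom.id H := by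
      refine MonoidHom.ext fun h => ?_
      change (inl v * inr h * (inl v)⁻¹ : V ⋊[φ] H).right = h
      rw [inl_conj]
    rw [this, Subgroup.map_id]
  unfold im
  rw [← Set.image_comp, ← Set.image_comp]
  have : ((fun P : Subgroup (V ⋊[φ] H) => P.map rightHom) ∘
      (conjSub (inl v : V ⋊[φ] H)) ∘ fun P : Subgroup H => P.map inr) = id := by
    funext P
    exact key P
  rw [Function.comp_assoc, this, Set.image_id]

/-- the fixed points of the largest member of a chain on `V` -/
def FA (φ : H →* MulAut V) (σ : Set (Subgroup H)) : Subgroup V where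
  carrier := {v | ∀ q ∈ sSup σ, φ q v = v}
  mul_mem' := by
    intro a b ha hb q hq
    rw [map_mul, ha q hq, hb q hq]
  one_mem' := by
    intro q _
    rw [map_one]
  inv_mem' := by
    intro a ha q hq
    rw [map_inv, ha q hq]

theorem mem_FA {σ : Set (Subgroup H)} {v : V} : v ∈ FA φ σ ↔ ∀ q ∈ sSup σ, φ q v = v := Iff.rfl

theorem conj_inr_sub (x : V ⋊[φ] H) (P : Subgroup H) :
    conjSub x (P.map inr) = P.map inr ↔
      conjSub x.right P = P ∧ ∀ q ∈ P, φ q x.left = x.left := by
  have key : ∀ q : H, (x * inr q * x⁻¹ : V ⋊[φ] H) =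
      ⟨x.left * (φ (x.right * q * x.right⁻¹) x.left)⁻¹, x.right * q * x.right⁻¹⟩ := by
    intro q
    refine SemidirectProduct.ext ?_ ?_
    · simp [MulAut.mul_apply]
    · simp
  constructor
  · intro h
    have h1 : conjSub x.right P = P := by
      have h2 := congrArg (fun W : Subgroup (V ⋊[φ] H) => W.map rightHom) h
      have h3 : (P.map (inr : H →* V ⋊[φ] H)).map rightHom = P := by
        rw [Subgroup.map_map, SemidirectProduct.rightHom_comp_inr, Subgroup.map_id]
      have h4 : (conjSub x (P.map inr)).map rightHom = conjSub x.right P := by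
        unfold conjSub
        rw [Subgroup.map_map, Subgroup.map_map]
        congr 1
      rwa [h3, h4] at h2
    refine ⟨h1, fun q hq => ?_⟩
    have h5 : x.right⁻¹ * q * x.right ∈ P := by
      rw [← mem_conjSub, h1]
      exact hq
    have h6 : (x * inr (x.right⁻¹ * q * x.right) * x⁻¹ : V ⋊[φ] H) ∈ P.map inr := by
      rw [← h]
      exact conj_mem_conjSub ⟨_, h5, rfl⟩
    rw [key] at h6
    obtain ⟨r, _, hr⟩ := h6
    have h7 := congrArg SemidirectProduct.left hr
    have e : x.right * (x.right⁻¹ * q * x.right) * x.right⁻¹ = q := by group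
    rw [e] at h7
    change (1 : V) = x.left * (φ q x.left)⁻¹ at h7
    exact (mul_inv_eq_one.mp h7.symm).symm
  · rintro ⟨h1, h2⟩
    have key2 : ∀ q ∈ P, (x * inr q * x⁻¹ : V ⋊[φ] H) = inr (x.right * q * x.right⁻¹) := by
      intro q hq
      rw [key]
      refine SemidirectProduct.ext ?_ rfl
      have h3 : x.right * q * x.right⁻¹ ∈ P := by
        have := conj_mem_conjSub (g := x.right) hq
        rwa [h1] at this
      change x.left * (φ (x.right * q * x.right⁻¹) x.left)⁻¹ = 1
      rw [h2 _ h3, mul_inv_cancel]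
    ext y
    constructor
    · rintro ⟨_, ⟨q, hq, rfl⟩, rfl⟩
      change (x * inr q * x⁻¹ : V ⋊[φ] H) ∈ _
      rw [key2 q hq]
      refine ⟨_, ?_, rfl⟩
      have := conj_mem_conjSub (g := x.right) hq
      rwa [h1] at this
    · rintro ⟨q, hq, rfl⟩
      have h5 : x.right⁻¹ * q * x.right ∈ P := by
        rw [← mem_conjSub, h1]
        exact hq
      refine ⟨inr (x.right⁻¹ * q * x.right), ⟨_, h5, rfl⟩, ?_⟩
      change (x * inr (x.right⁻¹ * q * x.right) * x⁻¹ : V ⋊[φ] H) = inr q
      rw [key2 _ h5]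
      congr 1
      group

/-- the stabiliser of a chain of the complement -/
theorem mem_stab_im {σ : Set (Subgroup H)} (hσ : IsPChain p σ) (x : V ⋊[φ] H) :
    x ∈ chainStabilizer (im inr σ) ↔ x.left ∈ FA φ σ ∧ x.right ∈ chainStabilizer σ := by
  rw [mem_chainStabilizer, mem_chainStabilizer, mem_FA]
  have h1 : (∀ P ∈ im (inr : H →* V ⋊[φ] H) σ, conjSub x P = P) ↔
      ∀ P ∈ σ, conjSub x.right P = P ∧ ∀ q ∈ P, φ q x.left = x.left := by
    constructor
    · intro h P hP
      exact (conj_inr_sub x P).mp (h _ ⟨P, hP, rfl⟩)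
    · rintro h _ ⟨P, hP, rfl⟩
      exact (conj_inr_sub x P).mpr (h P hP)
  rw [h1]
  constructor
  · intro h
    refine ⟨?_, fun P hP => (h P hP).1⟩
    by_cases hne : σ.Nonempty
    · exact (h _ (sSup_mem_chain hσ.chain (subset_refl σ) hne).1).2
    · rw [Set.not_nonempty_iff_eq_empty] at hne
      rw [hne, sSup_empty]
      intro q hq
      rw [Subgroup.mem_bot.mp hq, map_one, MulAut.one_apply]
  · rintro ⟨h2, h3⟩ P hP
    exact ⟨h3 P hP, fun q hq => h2 q (le_sSup hP hq)⟩

end sd

end Pool.Agent.P8H58.FR
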