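import Pool.Agent.P8H58.Lge

/-!
# Sums over chains of a semidirect product with an abelian normal `p'`-subgroup
-/

set_option autoImplicit false
set_option linter.unusedSectionVars false

open scoped BigOperators Classical

noncomputable section

namespace Pool.Agent.P8H58.FR

open Pool.Agent.Y63.KR Pool.Agent.Q90.WR

open SemidirectProduct (inl inr rightHom)

section sd

variable {V H : Type} [CommGroup V] [Group H] [Fintype V] [Fintype H] {φ : H →* MulAut V}
  {p : ℕ} [hp : Fact p.Prime]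

/-- the conjugates of a chain of the complement -/
def Psi (φ : H →* MulAut V) (w : Ch p H × V) : Ch p (V ⋊[φ] H) :=
  ⟨conjSub (inl w.2) '' im inr w.1.1, (im_chain inr_inj w.1.2).conj _⟩

/-- the number of elements of `V` in the stabiliser -/
def NV (υ : Set (Subgroup (V ⋊[φ] H))) : ℕ :=
  Nat.card {v : V // (inl v : V ⋊[φ] H) ∈ chainStabilizer υ}

theorem NV_pos (υ : Set (Subgroup (V ⋊[φ] H))) : 0 < NV υ := by
  unfold NV
  have : Nonempty {v : V // (inl v : V ⋊[φ] H) ∈ chainStabilizer υ} :=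
    ⟨⟨1, by rw [map_one]; exact Subgroup.one_mem _⟩⟩
  exact Nat.card_pos

theorem NV_conj (w : V) (υ : Set (Subgroup (V ⋊[φ] H))) :
    NV (conjSub (inl w : V ⋊[φ] H) '' υ) = NV υ := by
  unfold NV
  refine Nat.card_congr (Equiv.subtypeEquivRight fun v => ?_)
  rw [chainStabilizer_conj, mem_conjSub, ← map_inv, ← map_mul, ← map_mul]
  have e : w⁻¹ * v * w = v := by rw [mul_comm w⁻¹ v, inv_mul_cancel_right]
  rw [e]

theorem count_Psi (hV : ¬ p ∣ Nat.card V) (υ : Ch p (V ⋊[φ] H)) :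
    (Finset.univ.filter (fun w : Ch p H × V => Psi φ w = υ)).card = NV υ.1 := by
  obtain ⟨v₀, hv₀⟩ := conj_im hV υ.2
  unfold NV
  rw [← Fintype.card_subtype, ← Nat.card_eq_fintype_card]
  symm
  refine Nat.card_congr
    ⟨fun v => ⟨(⟨im rightHom υ.1, right_chain hV υ.2⟩, v.1 * v₀), ?_⟩,
      fun w => ⟨w.1.2 * v₀⁻¹, ?_⟩, ?_, ?_⟩
  · apply Subtype.ext
    change conjSub (inl (v.1 * v₀)) '' im inr (im rightHom υ.1) = υ.1
    rw [map_mul, conj_mul_image, hv₀]
    exact (set_stab υ.2 _).mpr v.2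
  · have h1 : conjSub (inl w.1.2) '' im inr w.1.1.1 = υ.1 := congrArg Subtype.val w.2
    have h2 : im rightHom υ.1 = w.1.1.1 := by rw [← h1]; exact right_conj _ _
    rw [← set_stab υ.2, map_mul, conj_mul_image]
    have h3 : conjSub (inl v₀⁻¹ : V ⋊[φ] H) '' υ.1 = im inr (im rightHom υ.1) := by
      conv_lhs => rw [← hv₀]
      rw [← conj_mul_image, ← map_mul, inv_mul_cancel, map_one, conj_one_image]
    rw [h3, h2]
    exact h1
  · intro v
    apply Subtype.ext
    change v.1 * v₀ * v₀⁻¹ = v.1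
    group
  · intro w
    have h1 : conjSub (inl w.1.2) '' im inr w.1.1.1 = υ.1 := congrArg Subtype.val w.2
    have h2 : im rightHom υ.1 = w.1.1.1 := by rw [← h1]; exact right_conj _ _
    apply Subtype.ext
    refine Prod.ext (Subtype.ext h2) ?_
    change w.1.2 * v₀⁻¹ * v₀ = w.1.2
    group

theorem nor_im {σ : Set (Subgroup H)} (hσ : IsPChain p σ) :
    Nor (im (inr : H →* V ⋊[φ] H) σ) ↔ Nor σ := by
  unfold Nor
  rw [im_sSup]
  constructor
  · intro h q hq
    exact ((mem_stab_im hσ _).mp (h ⟨q, hq, rfl⟩)).2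
  · rintro h _ ⟨q, hq, rfl⟩
    exact (mem_stab_im hσ _).mpr ⟨(FA φ σ).one_mem, h hq⟩

theorem nor_Psi (w : Ch p H × V) : Nor (Psi φ w).1 ↔ Nor w.1.1 := by
  change Nor (conjSub (inl w.2) '' im inr w.1.1) ↔ _
  rw [nor_conj, nor_im w.1.2]

theorem card_stab_im {σ : Set (Subgroup H)} (hσ : IsPChain p σ) :
    Nat.card (chainStabilizer (im (inr : H →* V ⋊[φ] H) σ)) =
      NV (im (inr : H →* V ⋊[φ] H) σ) * Nat.card (chainStabilizer σ) := by
  have h1 : NV (im (inr : H →* V ⋊[φ] H) σ) = Nat.card (FA φ σ) := by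
    unfold NV
    refine Nat.card_congr (Equiv.subtypeEquivRight fun v => ?_)
    rw [mem_stab_im hσ]
    exact ⟨fun h => h.1, fun h => ⟨h, Subgroup.one_mem _⟩⟩
  rw [h1, ← Nat.card_prod]
  refine Nat.card_congr ⟨fun x => (⟨x.1.left, ((mem_stab_im hσ x.1).mp x.2).1⟩,
      ⟨x.1.right, ((mem_stab_im hσ x.1).mp x.2).2⟩),
    fun y => ⟨⟨y.1.1, y.2.1⟩, (mem_stab_im hσ _).mpr ⟨y.1.2, y.2.2⟩⟩, fun x => rfl, fun y => rfl⟩

variable {R : Type} [CommRing R] [Algebra ℚ R]

/-- **sums over the chains of the semidirect product** -/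
theorem sum_sdch (hV : ¬ p ∣ Nat.card V) (b : Subgroup (V ⋊[φ] H) → R)
    (hb : ∀ g K, b (conjSub g K) = b K) :
    ∑ υ ∈ Finset.univ.filter (fun υ : Ch p (V ⋊[φ] H) => Nor υ.1),
        (-1 : R) ^ υ.1.ncard * ((Nat.card (chainStabilizer υ.1) : R) * b (chainStabilizer υ.1)) =
      (Nat.card V : R) * ∑ σ ∈ Finset.univ.filter (fun σ : Ch p H => Nor σ.1),
        (-1 : R) ^ σ.1.ncard * ((Nat.card (chainStabilizer σ.1) : R) *
          b (chainStabilizer (im (inr : H →* V ⋊[φ] H) σ.1))) := by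
  set f : Ch p (V ⋊[φ] H) → R := fun υ =>
    (-1 : R) ^ υ.1.ncard * ((Nat.card (chainStabilizer υ.1) : R) * b (chainStabilizer υ.1)) with hf
  set g : Ch p (V ⋊[φ] H) → R := fun υ => ((NV υ.1 : ℚ))⁻¹ • f υ with hg
  have h1 : ∀ υ : Ch p (V ⋊[φ] H), f υ =
      ∑ w : Ch p H × V, if Psi φ w = υ then g υ else 0 := by
    intro υ
    rw [← Finset.sum_filter, Finset.sum_const, count_Psi hV υ, hg]
    simp only
    have h2 : ((NV υ.1 : ℚ)) ≠ 0 := by exact_mod_cast (NV_pos υ.1).ne'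
    rw [← Nat.cast_smul_eq_nsmul ℚ, smul_smul, mul_inv_cancel₀ h2, one_smul]
  change ∑ υ ∈ Finset.univ.filter (fun υ : Ch p (V ⋊[φ] H) => Nor υ.1), f υ = _
  rw [Finset.sum_congr rfl fun υ _ => h1 υ, Finset.sum_comm]
  have h2 : ∀ w : Ch p H × V, (∑ υ ∈ Finset.univ.filter
      (fun υ : Ch p (V ⋊[φ] H) => Nor υ.1), if Psi φ w = υ then g υ else 0) =
      if Nor w.1.1 then (-1 : R) ^ w.1.1.ncard * ((Nat.card (chainStabilizer w.1.1) : R) *
          b (chainStabilizer (im (inr : H →* V ⋊[φ] H) w.1.1))) else 0 := by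
    intro w
    rw [Finset.sum_ite_eq]
    have h3 : Psi φ w ∈ Finset.univ.filter (fun υ : Ch p (V ⋊[φ] H) => Nor υ.1) ↔ Nor w.1.1 := by
      rw [Finset.mem_filter]
      exact ⟨fun h => (nor_Psi w).mp h.2, fun h => ⟨Finset.mem_univ _, (nor_Psi w).mpr h⟩⟩
    by_cases hw : Nor w.1.1
    · rw [if_pos (h3.mpr hw), if_pos hw, hg, hf]
      simp only
      have e1 : (Psi φ w).1 = conjSub (inl w.2) '' im inr w.1.1 := rfl
      rw [e1, NV_conj, ncard_conj, im_ncard inr_inj, chainStabilizer_conj, hb]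
      have e2 : Nat.card (conjSub (inl w.2 : V ⋊[φ] H) (chainStabilizer (im inr w.1.1))) =
          Nat.card (chainStabilizer (im (inr : H →* V ⋊[φ] H) w.1.1)) :=
        Nat.card_congr (Subgroup.equivMapOfInjective _ _ (MulAut.conj _).injective).toEquiv.symm
      rw [e2, card_stab_im w.1.2]
      have h4 : ((NV (im (inr : H →* V ⋊[φ] H) w.1.1) : ℚ)) ≠ 0 := by
        exact_mod_cast (NV_pos _).ne'
      have h5 : ∀ r : R, ((NV (im (inr : H →* V ⋊[φ] H) w.1.1) : ℕ) : R) * r =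
          ((NV (im (inr : H →* V ⋊[φ] H) w.1.1) : ℚ)) • r := by
        intro r
        rw [Nat.cast_smul_eq_nsmul, nsmul_eq_mul]
      have h6 : (-1 : R) ^ w.1.1.ncard *
          (((NV (im (inr : H →* V ⋊[φ] H) w.1.1) * Nat.card (chainStabilizer w.1.1) : ℕ) : R) *
            b (chainStabilizer (im inr w.1.1))) =
          ((NV (im (inr : H →* V ⋊[φ] H) w.1.1) : ℚ)) • ((-1 : R) ^ w.1.1.ncard *
            ((Nat.card (chainStabilizer w.1.1) : R) * b (chainStabilizer (im inr w.1.1)))) := by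
        rw [← h5]
        push_cast
        ring
      rw [h6, smul_smul, inv_mul_cancel₀ h4, one_smul]
    · rw [if_neg (fun h => hw (h3.mp h)), if_neg hw]
  rw [Finset.sum_congr rfl fun w _ => h2 w, Fintype.sum_prod_type]
  simp only [Finset.sum_const, Finset.card_univ]
  rw [← Finset.smul_sum, nsmul_eq_mul, ← Nat.card_eq_fintype_card, Finset.sum_filter]

end sd

end Pool.Agent.P8H58.FR
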