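import Pool.Agent.P8H58.Lgf
import Pool.Agent.P8H58.Lgd
import Pool.Agent.Q90.WR.Bck

/-!
# The characters of the stabiliser of a chain in the block
-/

set_option autoImplicit false
set_option linter.unusedSectionVars false

open scoped BigOperators Classical

noncomputable section

namespace Pool.Agent.P8H58.FR

open Pool.Agent.Y63.KR Pool.Agent.Q90.WR Pool.Agent.H254R3.IN Pool.Agent.Q259.BW
open Pool.Agent.Helper884 Pool.Agent.N19.RB Polynomial

open SemidirectProduct (inl inr rightHom)

section local_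

variable {V H : Type} [CommGroup V] [Group H] [Fintype V] [Fintype H] {φ : H →* MulAut V}
  {p : ℕ} [hp : Fact p.Prime] {O : ValuationSubring ℂ}

theorem FA_inv {σ : Set (Subgroup H)} (hσ : IsPChain p σ) {m : H} (hm : m ∈ chainStabilizer σ)
    {v : V} (hv : v ∈ FA φ σ) : φ m v ∈ FA φ σ := by
  intro q hq
  have h1 : m⁻¹ * q * m ∈ sSup σ := by
    rw [← mem_conjSub, stab_sSup hσ hm]
    exact hq
  have h2 := hv _ h1
  rw [← MulAut.mul_apply, ← map_mul]
  have e : q * m = m * (m⁻¹ * q * m) := by group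
  rw [e, map_mul, MulAut.mul_apply, h2]

/-- the action of the stabiliser of a chain on the fixed points -/
def phM (φ : H →* MulAut V) {σ : Set (Subgroup H)} (hσ : IsPChain p σ) :
    chainStabilizer σ →* MulAut (FA φ σ) where
  toFun m :=
    { toFun := fun a => ⟨φ m a, FA_inv hσ m.2 a.2⟩
      invFun := fun a => ⟨φ (m : H)⁻¹ a, FA_inv hσ ((chainStabilizer σ).inv_mem m.2) a.2⟩
      left_inv := fun a => Subtype.ext (by
        change φ (m : H)⁻¹ (φ m a) = a
        rw [← MulAut.mul_apply, ← map_mul, inv_mul_cancel, map_one, MulAut.one_apply])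
      right_inv := fun a => Subtype.ext (by
        change φ (m : H) (φ (m : H)⁻¹ a) = a
        rw [← MulAut.mul_apply, ← map_mul, mul_inv_cancel, map_one, MulAut.one_apply])
      map_mul' := fun a b => Subtype.ext (map_mul (φ (m : H)) (a : V) (b : V)) }
  map_one' := by
    refine MulEquiv.ext fun a => Subtype.ext ?_
    change φ ((1 : chainStabilizer σ) : H) a = a
    rw [Subgroup.coe_one, map_one, MulAut.one_apply]
  map_mul' m n := by
    refine MulEquiv.ext fun a => Subtype.ext ?_
    change φ ((m * n : chainStabilizer σ) : H) a = φ m (φ n a)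
    rw [Subgroup.coe_mul, map_mul, MulAut.mul_apply]

/-- the largest member as a subgroup of the stabiliser -/
abbrev DM (σ : Set (Subgroup H)) : Subgroup (chainStabilizer σ) :=
  (sSup σ).subgroupOf (chainStabilizer σ)

theorem Lo_chain {σ : Set (Subgroup H)} (hσ : IsPChain p σ) (hn : Nor σ) :
    Lo p φ (phM φ hσ) (chainStabilizer σ).subtype (FA φ σ).subtype (DM σ) where
  comp _ _ := rfl
  inj := Subtype.val_injective
  fix v := by
    constructor
    · intro h
      exact ⟨⟨v, fun q hq => h ⟨q, hn hq⟩ hq⟩, rfl⟩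
    · rintro ⟨a, rfl⟩ d hd
      exact a.2 d hd
  nor := by
    constructor
    intro n hn' g
    have h1 : (n : H) ∈ sSup σ := hn'
    have h2 := conj_mem_conjSub (g := (g : H)) h1
    rw [stab_sSup hσ g.2] at h2
    exact h2
  pgr := by
    refine IsPGroup.comap_of_injective (sSup_pgroup hσ) _ Subtype.val_injective

/-- the stabiliser of a chain of the complement as a semidirect product -/
def eM {σ : Set (Subgroup H)} (hσ : IsPChain p σ) :
    FA φ σ ⋊[phM φ hσ] chainStabilizer σ ≃* chainStabilizer (im (inr : H →* V ⋊[φ] H) σ) where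
  toFun x := ⟨⟨x.left, x.right⟩, (mem_stab_im hσ _).mpr ⟨x.left.2, x.right.2⟩⟩
  invFun y := ⟨⟨y.1.left, ((mem_stab_im hσ y.1).mp y.2).1⟩,
    ⟨y.1.right, ((mem_stab_im hσ y.1).mp y.2).2⟩⟩
  left_inv _ := rfl
  right_inv _ := rfl
  map_mul' _ _ := rfl

theorem card_FA (hV : ¬ p ∣ Nat.card V) (σ : Set (Subgroup H)) : ¬ p ∣ Nat.card (FA φ σ) :=
  fun h => hV (h.trans (Subgroup.card_subgroup_dvd_card _))

end local_

section def_

variable {A M : Type} [CommGroup A] [Group M] [Fintype A] [Fintype M] {φ : M →* MulAut A}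
  {p : ℕ} [hp : Fact p.Prime]

/-- the defects of the induced characters -/
theorem dfn_ix (hA : ¬ p ∣ Nat.card A) {μ : A →* ℂˣ} {ψ : st φ μ → ℂ} (hψ : IsIrr ψ) :
    dfn p (ix μ ψ) = dfn p ψ := by
  obtain ⟨n, hn0, hn⟩ := deg_pos hψ
  have h1 : ix μ ψ 1 = (((st φ μ).index * n : ℕ) : ℂ) := by
    have h2 := ix_one_eq ψ
    have hS : (Nat.card (st φ μ) : ℂ) ≠ 0 := cardG_ne _
    apply mul_left_cancel₀ hS
    rw [h2, hn, ← (st φ μ).card_mul_index]
    push_cast
    ring
  have hi : (st φ μ).index ≠ 0 := Subgroup.index_ne_zero_of_finite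
  have e1 : (Nat.card (A ⋊[φ] M)).factorization p =
      (Nat.card (st φ μ)).factorization p + (st φ μ).index.factorization p := by
    rw [SemidirectProduct.card, ← (st φ μ).card_mul_index,
      Nat.factorization_mul Nat.card_pos.ne' (mul_ne_zero Nat.card_pos.ne' hi),
      Nat.factorization_mul Nat.card_pos.ne' hi, Finsupp.add_apply, Finsupp.add_apply,
      Nat.factorization_eq_zero_of_not_dvd hA, zero_add]
  rw [dfn_eq p hn, dfn_eq p h1, e1, Nat.factorization_mul hi hn0.ne', Finsupp.add_apply]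
  omega

end def_

end Pool.Agent.P8H58.FR
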