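import Pool.Agent.P8H58.Lgg

/-!
# The alternating sums of the block above a linear character
-/

set_option autoImplicit false
set_option linter.unusedSectionVars false

open scoped BigOperators Classical

noncomputable section

namespace Pool.Agent.P8H58.FR

open Pool.Agent.Y63.KR Pool.Agent.Q90.WR Pool.Agent.H254R3.IN Pool.Agent.Q259.BW
open Pool.Agent.Helper884 Pool.Agent.N19.RB Polynomial

open SemidirectProduct (inl inr rightHom)

section tot

variable {V H : Type} [CommGroup V] [Group H] [Fintype V] [Fintype H] {φ : H →* MulAut V}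
  {p : ℕ} [hp : Fact p.Prime] {O : ValuationSubring ℂ}

/-- the generating function at a linear character of the fixed points -/
def FF (p : ℕ) [Fact p.Prime] (O : ValuationSubring ℂ) {σ : Set (Subgroup H)} (hσ : IsPChain p σ)
    (B' : Set (V ⋊[φ] H → ℂ)) (μ : FA φ σ →* ℂˣ) : ℚ[X] :=
  (Nat.card (st (phM φ hσ) μ) : ℚ[X]) * ∑ ψ ∈ IC.Irr (st (phM φ hσ) μ),
    if ix μ ψ ∈ IndS O B' (fun x : FA φ σ ⋊[phM φ hσ] chainStabilizer σ =>
      (⟨(x.left : V), (x.right : H)⟩ : V ⋊[φ] H)) then X ^ dfn p (ix μ ψ) else 0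

theorem bw_sum {σ : Set (Subgroup H)} (hσ : IsPChain p σ) (B' : Set (V ⋊[φ] H → ℂ)) :
    (Nat.card (chainStabilizer σ) : ℚ[X]) * bw p O B' (chainStabilizer (im (inr : H →* V ⋊[φ] H) σ)) =
      ∑ μ : FA φ σ →* ℂˣ, FF p O hσ B' μ := by
  have h1 : bw p O B' (chainStabilizer (im (inr : H →* V ⋊[φ] H) σ)) =
      apoly p (IndS O B' (fun x : FA φ σ ⋊[phM φ hσ] chainStabilizer σ =>
        (⟨(x.left : V), (x.right : H)⟩ : V ⋊[φ] H))) := by
    unfold bw
    symm
    refine apoly_congr (eM hσ) _ _ fun θ => ?_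
    refine IndS_congr (eM hσ) ?_ θ
    intro c
    exact IsConj.refl _
  rw [h1, apoly_sum (IndS_irr (K := FA φ σ ⋊[phM φ hσ] chainStabilizer σ)), Finset.sum_filter]
  unfold FF
  exact sum_Irr_sd (φ := phM φ hσ) (fun θ : FA φ σ ⋊[phM φ hσ] chainStabilizer σ → ℂ =>
    if θ ∈ IndS O B' (fun x : FA φ σ ⋊[phM φ hσ] chainStabilizer σ =>
        (⟨(x.left : V), (x.right : H)⟩ : V ⋊[φ] H)) then (X : ℚ[X]) ^ dfn p θ else 0)

/-- the part of the stabiliser of a chain in the stabiliser of `lam` -/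
abbrev KS (φ : H →* MulAut V) (lam : V →* ℂˣ) (σ : Set (Subgroup H)) : Subgroup (st φ lam) :=
  (chainStabilizer σ).subgroupOf (st φ lam)

/-- the contribution of a chain -/
def YY (p : ℕ) (O : ValuationSubring ℂ) (φ : H →* MulAut V) (lam : V →* ℂˣ)
    (B : Set (st φ lam → ℂ)) (σ : Set (Subgroup H)) : ℚ[X] :=
  if sSup σ ≤ st φ lam then (Nat.card (KS φ lam σ) : ℚ[X]) * bw p O B (KS φ lam σ) else 0

/-- elements `g` for which the translate of `lam` is invariant -/
theorem good_iff {lam : V →* ℂˣ} {g : H} {σ : Set (Subgroup H)} (hn : Nor σ) :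
    conjSub g (sSup σ) ≤ st φ lam ↔
      ∀ d ∈ DM σ, (chainStabilizer σ).subtype d ∈ st φ (tr φ lam g) := by
  constructor
  · intro h d hd v
    have h1 : g * (d : H) * g⁻¹ ∈ st φ lam := h (conj_mem_conjSub hd)
    have h2 := h1 (φ g v)
    rw [tr_apply, tr_apply, ← MulAut.mul_apply, ← map_mul]
    rw [← MulAut.mul_apply, ← map_mul] at h2
    have e : g * (d : H) * g⁻¹ * g = g * d := by group
    rw [e] at h2
    exact h2
  · rintro h _ ⟨q, hq, rfl⟩
    exact conj_st (h ⟨q, hn hq⟩ hq)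

/-- the stabiliser in the stabiliser of the chain -/
def eK {σ : Set (Subgroup H)} (hσ : IsPChain p σ) (hn : Nor σ) (hV : ¬ p ∣ Nat.card V)
    {lam : V →* ℂˣ} {g : H}
    (hν : ∀ d ∈ DM σ, (chainStabilizer σ).subtype d ∈ st φ (tr φ lam g)) :
    st (phM φ hσ) ((tr φ lam g).comp (FA φ σ).subtype) ≃* KS φ lam (conjSub g '' σ) where
  toFun s := ⟨kap (Lo_chain hσ hn) hV hν g rfl s, by
    rw [Subgroup.mem_subgroupOf, chainStabilizer_conj]
    exact conj_mem_conjSub s.1.2⟩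
  invFun t := ⟨⟨g⁻¹ * ((t : st φ lam) : H) * g, by
      have h1 := t.2
      rw [Subgroup.mem_subgroupOf, chainStabilizer_conj, mem_conjSub] at h1
      exact h1⟩, by
    intro a
    change tr φ lam g (φ (g⁻¹ * ((t : st φ lam) : H) * g) a) = tr φ lam g a
    rw [tr_apply, tr_apply, ← MulAut.mul_apply, ← map_mul]
    have h2 : g * (g⁻¹ * ((t : st φ lam) : H) * g) = ((t : st φ lam) : H) * g := by group
    rw [h2, map_mul, MulAut.mul_apply]
    exact t.1.2 _⟩
  left_inv s := by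
    apply Subtype.ext
    apply Subtype.ext
    change g⁻¹ * (g * ((s : chainStabilizer σ) : H) * g⁻¹) * g = ((s : chainStabilizer σ) : H)
    group
  right_inv t := by
    apply Subtype.ext
    apply Subtype.ext
    change g * (g⁻¹ * ((t : st φ lam) : H) * g) * g⁻¹ = ((t : st φ lam) : H)
    group
  map_mul' s t := Subtype.ext (map_mul (kap (Lo_chain hσ hn) hV hν g rfl) s t)

/-- the contribution of the translate of `lam` by `g` -/
theorem FF_good (hpO : (p : ℂ) ∈ O.nonunits) {σ : Set (Subgroup H)} (hσ : IsPChain p σ)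
    (hn : Nor σ) (hV : ¬ p ∣ Nat.card V) {lam : V →* ℂˣ} {B : Set (st φ lam → ℂ)}
    (hB : IsBlock O B) {ψ₀ : st φ lam → ℂ} (h0 : ψ₀ ∈ B) {g : H}
    (hg : conjSub g (sSup σ) ≤ st φ lam) :
    FF p O hσ (blkOf O (ix lam ψ₀)) ((tr φ lam g).comp (FA φ σ).subtype) =
      YY p O φ lam B (conjSub g '' σ) := by
  have hν := (good_iff hn).mp hg
  have L := Lo_chain (φ := φ) hσ hn
  unfold FF YY
  rw [conj_sSup, if_pos hg, Nat.card_congr (eK hσ hn hV hν).toEquiv]
  congr 1
  unfold bw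
  have h1 : apoly p (IndS O B (Subtype.val : KS φ lam (conjSub g '' σ) → st φ lam)) =
      apoly p (IndS O B (kap L hV hν g rfl)) := by
    symm
    refine apoly_congr (eK hσ hn hV hν) _ _ fun θ => ?_
    refine IndS_congr (eK hσ hn hV hν) ?_ θ
    intro c
    exact IsConj.refl _
  rw [h1, apoly_sum IndS_irr, Finset.sum_filter]
  refine Finset.sum_congr rfl fun ψ hψ => ?_
  have hψi : IsIrr ψ := IC.mem_Irr.mp hψ
  have h2 := ind_kap hpO L hV hν g rfl hB h0 hψi
  rw [dfn_ix (card_FA hV σ) hψi]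
  have h3 : (ix ((tr φ lam g).comp (FA φ σ).subtype) ψ ∈ IndS O (blkOf O (ix lam ψ₀))
      (fun x : FA φ σ ⋊[phM φ hσ] chainStabilizer σ =>
        (⟨(x.left : V), (x.right : H)⟩ : V ⋊[φ] H))) ↔ ψ ∈ IndS O B (kap L hV hν g rfl) := h2
  simp only [h3]

/-- the other linear characters do not contribute -/
theorem FF_bad (hpO : (p : ℂ) ∈ O.nonunits) {σ : Set (Subgroup H)} (hσ : IsPChain p σ)
    (hn : Nor σ) (hV : ¬ p ∣ Nat.card V) {lam : V →* ℂˣ} {ψ₀ : st φ lam → ℂ} (h0 : IsIrr ψ₀)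
    {μ : FA φ σ →* ℂˣ} (hμ : ∀ g, conjSub g (sSup σ) ≤ st φ lam →
      (tr φ lam g).comp (FA φ σ).subtype ≠ μ) :
    FF p O hσ (blkOf O (ix lam ψ₀)) μ = 0 := by
  have L := Lo_chain (φ := φ) hσ hn
  obtain ⟨ν, hν, rfl⟩ := L.exists_ext hV μ
  unfold FF
  rw [Finset.sum_eq_zero, mul_zero]
  intro ψ hψ
  rw [if_neg]
  have hψi : IsIrr ψ := IC.mem_Irr.mp hψ
  have h1 : ∀ g, tr φ lam g ≠ ν := by
    rintro g rfl
    exact hμ g ((good_iff hn).mpr hν) rfl
  exact ind_none hpO L hV hν h1 h0 hψi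

/-- the number of elements with the same translate -/
theorem count_tr (lam : V →* ℂˣ) (g₀ : H) :
    (Finset.univ.filter (fun g : H => tr φ lam g = tr φ lam g₀)).card = Nat.card (st φ lam) := by
  rw [← Fintype.card_subtype, ← Nat.card_eq_fintype_card]
  have key : ∀ g : H, tr φ lam g = tr φ lam g₀ ↔ g * g₀⁻¹ ∈ st φ lam := by
    intro g
    constructor
    · intro h v
      have h1 := DFunLike.congr_fun h (φ g₀⁻¹ v)
      rw [tr_apply, tr_apply] at h1
      have e1 : φ g₀ (φ g₀⁻¹ v) = v := by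
        rw [← MulAut.mul_apply, ← map_mul, mul_inv_cancel, map_one, MulAut.one_apply]
      rw [e1] at h1
      rw [map_mul, MulAut.mul_apply]
      exact h1
    · intro h
      refine MonoidHom.ext fun v => ?_
      rw [tr_apply, tr_apply]
      have h1 := h (φ g₀ v)
      rw [← MulAut.mul_apply, ← map_mul, inv_mul_cancel_right] at h1
      exact h1
  refine Nat.card_congr ⟨fun g => ⟨g.1 * g₀⁻¹, (key g.1).mp g.2⟩,
    fun s => ⟨s.1 * g₀, (key _).mpr (by rw [mul_inv_cancel_right]; exact s.2)⟩, ?_, ?_⟩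
  · intro g
    apply Subtype.ext
    change g.1 * g₀⁻¹ * g₀ = g.1
    group
  · intro s
    apply Subtype.ext
    change s.1 * g₀ * g₀⁻¹ = s.1
    group

/-- the sum over the linear characters as a sum over the group -/
theorem sum_FF (hpO : (p : ℂ) ∈ O.nonunits) {σ : Set (Subgroup H)} (hσ : IsPChain p σ)
    (hn : Nor σ) (hV : ¬ p ∣ Nat.card V) {lam : V →* ℂˣ} {B : Set (st φ lam → ℂ)}
    (hB : IsBlock O B) {ψ₀ : st φ lam → ℂ} (h0 : ψ₀ ∈ B) :
    (Nat.card (st φ lam) : ℚ[X]) * ∑ μ : FA φ σ →* ℂˣ, FF p O hσ (blkOf O (ix lam ψ₀)) μ =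
      ∑ g : H, YY p O φ lam B (conjSub g '' σ) := by
  have L := Lo_chain (φ := φ) hσ hn
  set F : (FA φ σ →* ℂˣ) → ℚ[X] := FF p O hσ (blkOf O (ix lam ψ₀)) with hF
  have h1 : ∀ g : H, YY p O φ lam B (conjSub g '' σ) =
      ∑ μ : FA φ σ →* ℂˣ, if (conjSub g (sSup σ) ≤ st φ lam ∧
        (tr φ lam g).comp (FA φ σ).subtype = μ) then F μ else 0 := by
    intro g
    by_cases hg : conjSub g (sSup σ) ≤ st φ lam
    · rw [← FF_good hpO hσ hn hV hB h0 hg]
      simp only [hg, true_and]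
      rw [Finset.sum_ite_eq, if_pos (Finset.mem_univ _)]
    · simp only [hg, false_and, if_false, Finset.sum_const_zero]
      unfold YY
      rw [conj_sSup, if_neg hg]
  rw [Finset.sum_congr rfl fun g _ => h1 g, Finset.sum_comm, Finset.mul_sum]
  refine Finset.sum_congr rfl fun μ _ => ?_
  rw [← Finset.sum_filter, Finset.sum_const, nsmul_eq_mul]
  by_cases hμ : ∃ g, conjSub g (sSup σ) ≤ st φ lam ∧ (tr φ lam g).comp (FA φ σ).subtype = μ
  · obtain ⟨g₀, hg₀, hμ₀⟩ := hμ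
    congr 2
    rw [← count_tr lam g₀]
    congr 1
    ext g
    simp only [Finset.mem_filter, Finset.mem_univ, true_and]
    constructor
    · intro h
      have h2 : tr φ lam g = tr φ lam g₀ := h
      have h3 : ∀ d ∈ DM σ, (chainStabilizer σ).subtype d ∈ st φ (tr φ lam g) := by
        rw [h2]
        exact (good_iff hn).mp hg₀
      exact ⟨(good_iff hn).mpr h3, by rw [h2]; exact hμ₀⟩
    · rintro ⟨h2, h3⟩
      exact L.unique hV ((good_iff hn).mp h2) ((good_iff hn).mp hg₀) (h3.trans hμ₀.symm)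
  · push Not at hμ
    have h2 : F μ = 0 := FF_bad hpO hσ hn hV (hB.irr ψ₀ h0) hμ
    rw [h2, mul_zero, mul_zero]

/-! ### chains of the stabiliser -/

theorem stab_im_sub {S : Subgroup H} (τ : Set (Subgroup S)) :
    (chainStabilizer (im S.subtype τ)).subgroupOf S = chainStabilizer τ := by
  have key : ∀ (x : S) (P : Subgroup S), conjSub (x : H) (P.map S.subtype) = P.map S.subtype ↔
      conjSub x P = P := by
    intro x P
    have h1 : conjSub (x : H) (P.map S.subtype) = (conjSub x P).map S.subtype := by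
      unfold conjSub
      rw [Subgroup.map_map, Subgroup.map_map]
      rfl
    rw [h1]
    exact ⟨fun h => Subgroup.map_injective Subtype.val_injective h, fun h => by rw [h]⟩
  ext x
  rw [Subgroup.mem_subgroupOf, mem_chainStabilizer, mem_chainStabilizer]
  constructor
  · intro h P hP
    exact (key x P).mp (h _ ⟨P, hP, rfl⟩)
  · rintro h _ ⟨P, hP, rfl⟩
    exact (key x P).mpr (h P hP)

theorem nor_im_sub {S : Subgroup H} (τ : Set (Subgroup S)) : Nor (im S.subtype τ) ↔ Nor τ := by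
  unfold Nor
  rw [im_sSup, ← stab_im_sub τ, Subgroup.map_le_iff_le_comap]
  rfl

theorem sup_im_sub {S : Subgroup H} (τ : Set (Subgroup S)) : sSup (im S.subtype τ) ≤ S := by
  rw [im_sSup]
  exact Subgroup.map_subtype_le _

theorem exists_im_sub {S : Subgroup H} {σ : Set (Subgroup H)} (hσ : IsPChain p σ)
    (h : sSup σ ≤ S) : ∃ τ : Set (Subgroup S), IsPChain p τ ∧ im S.subtype τ = σ := by
  have key : ∀ P ∈ σ, (P.subgroupOf S).map S.subtype = P := fun P hP =>
    Subgroup.map_subgroupOf_eq_of_le ((le_sSup hP).trans h)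
  refine ⟨(fun P => P.subgroupOf S) '' σ, ⟨?_, ?_, ?_⟩, ?_⟩
  · rintro _ ⟨P, hP, rfl⟩ _ ⟨Q, hQ, rfl⟩ _
    rcases hσ.chain.total hP hQ with h1 | h1
    · exact Or.inl (Subgroup.comap_mono h1)
    · exact Or.inr (Subgroup.comap_mono h1)
  · rintro _ ⟨P, hP, rfl⟩
    exact IsPGroup.comap_of_injective (hσ.isPGroup P hP) _ Subtype.val_injective
  · rintro _ ⟨P, hP, rfl⟩ h1
    have h2 : P.subgroupOf S = ⊥ := h1
    apply hσ.ne_bot P hP
    rw [← key P hP, h2, Subgroup.map_bot]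
  · ext P
    constructor
    · rintro ⟨_, ⟨Q, hQ, rfl⟩, rfl⟩
      change (Q.subgroupOf S).map S.subtype ∈ σ
      rw [key Q hQ]
      exact hQ
    · intro hP
      exact ⟨_, ⟨P, hP, rfl⟩, key P hP⟩

/-- sums over the chains contained in a subgroup -/
theorem sum_sub_ch {R : Type} [CommRing R] (S : Subgroup H) (f : Set (Subgroup H) → R) :
    ∑ σ ∈ Finset.univ.filter (fun σ : Ch p H => Nor σ.1), (if sSup σ.1 ≤ S then f σ.1 else 0) =
      ∑ τ ∈ Finset.univ.filter (fun τ : Ch p S => Nor τ.1), f (im S.subtype τ.1) := by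
  rw [← Finset.sum_filter]
  symm
  refine Finset.sum_bij (fun (τ : Ch p S) _ =>
    (⟨im S.subtype τ.1, im_chain Subtype.val_injective τ.2⟩ : Ch p H)) ?_ ?_ ?_ ?_
  · intro τ hτ
    have h1 := (Finset.mem_filter.mp hτ).2
    rw [Finset.mem_filter, Finset.mem_filter]
    exact ⟨⟨Finset.mem_univ _, (nor_im_sub τ.1).mpr h1⟩, sup_im_sub τ.1⟩
  · intro τ _ τ' _ h
    have h1 : im S.subtype τ.1 = im S.subtype τ'.1 := congrArg Subtype.val h
    exact Subtype.ext
      ((Subgroup.map_injective (Subtype.val_injective (p := (· ∈ S)))).image_injective h1)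
  · intro σ hσ
    rw [Finset.mem_filter, Finset.mem_filter] at hσ
    obtain ⟨τ, h1, h2⟩ := exists_im_sub σ.2 hσ.2
    refine ⟨⟨τ, h1⟩, ?_, Subtype.ext h2⟩
    rw [Finset.mem_filter]
    exact ⟨Finset.mem_univ _, (nor_im_sub τ).mp (by rw [h2]; exact hσ.1.2)⟩
  · intro τ _
    rfl

/-- sums over the chains are invariant under conjugation -/
theorem sum_conj_ch {R : Type} [CommRing R] (g : H) (f : Set (Subgroup H) → R) :
    ∑ σ ∈ Finset.univ.filter (fun σ : Ch p H => Nor σ.1), f (conjSub g '' σ.1) =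
      ∑ σ ∈ Finset.univ.filter (fun σ : Ch p H => Nor σ.1), f σ.1 := by
  refine Finset.sum_bij (fun (σ : Ch p H) _ => (⟨conjSub g '' σ.1, σ.2.conj g⟩ : Ch p H))
    ?_ ?_ ?_ ?_
  · intro σ hσ
    have h1 := (Finset.mem_filter.mp hσ).2
    rw [Finset.mem_filter]
    exact ⟨Finset.mem_univ _, nor_conj.mpr h1⟩
  · intro σ _ σ' _ h
    have h1 : conjSub g '' σ.1 = conjSub g '' σ'.1 := congrArg Subtype.val h
    exact Subtype.ext ((conjSub_injective g).image_injective h1)
  · intro σ hσ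
    have h1 := (Finset.mem_filter.mp hσ).2
    refine ⟨⟨conjSub g⁻¹ '' σ.1, σ.2.conj g⁻¹⟩, ?_, ?_⟩
    · rw [Finset.mem_filter]
      exact ⟨Finset.mem_univ _, nor_conj.mpr h1⟩
    · apply Subtype.ext
      change conjSub g '' (conjSub g⁻¹ '' σ.1) = σ.1
      rw [← conj_mul_image, mul_inv_cancel, conj_one_image]
  · intro σ _
    rfl

/-- **the Fong–Reynolds correspondence for alternating sums over chains** -/
theorem blkP_fr (hpO : (p : ℂ) ∈ O.nonunits) (hV : ¬ p ∣ Nat.card V) {lam : V →* ℂˣ}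
    {B : Set (st φ lam → ℂ)} (hB : IsBlock O B) {ψ₀ : st φ lam → ℂ} (h0 : ψ₀ ∈ B) :
    blkP p O (blkOf O (ix lam ψ₀)) = blkP p O B := by
  set B' := blkOf O (ix lam ψ₀) with hB'
  have h1 : wsumS p (bw p O B') = (Nat.card V : ℚ[X]) *
      ∑ σ ∈ Finset.univ.filter (fun σ : Ch p H => Nor σ.1),
        (-1 : ℚ[X]) ^ σ.1.ncard * ((Nat.card (chainStabilizer σ.1) : ℚ[X]) *
          bw p O B' (chainStabilizer (im (inr : H →* V ⋊[φ] H) σ.1))) := by
    unfold wsumS
    rw [sum_nor (fun K => (Nat.card K : ℚ[X]) * bw p O B' K), sum_sdch hV _ fun g K => bw_conj g K]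
  have h2 : (Nat.card (st φ lam) : ℚ[X]) * wsumS p (bw p O B') =
      (Nat.card V : ℚ[X]) * ((Nat.card H : ℚ[X]) * wsumS p (bw p O B)) := by
    rw [h1, mul_left_comm, Finset.mul_sum]
    congr 1
    have h3 : ∀ σ ∈ Finset.univ.filter (fun σ : Ch p H => Nor σ.1),
        (Nat.card (st φ lam) : ℚ[X]) * ((-1 : ℚ[X]) ^ σ.1.ncard *
          ((Nat.card (chainStabilizer σ.1) : ℚ[X]) *
          bw p O B' (chainStabilizer (im (inr : H →* V ⋊[φ] H) σ.1)))) =
        ∑ g : H, (-1 : ℚ[X]) ^ (conjSub g '' σ.1).ncard * YY p O φ lam B (conjSub g '' σ.1) := by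
      intro σ hσ
      have hn := (Finset.mem_filter.mp hσ).2
      rw [bw_sum σ.2, mul_left_comm, sum_FF hpO σ.2 hn hV hB h0, Finset.mul_sum]
      refine Finset.sum_congr rfl fun g _ => ?_
      rw [ncard_conj]
    rw [Finset.sum_congr rfl h3, Finset.sum_comm,
      Finset.sum_congr rfl fun g _ => sum_conj_ch g
        (fun σ => (-1 : ℚ[X]) ^ σ.ncard * YY p O φ lam B σ), Finset.sum_const, Finset.card_univ,
      nsmul_eq_mul, ← Nat.card_eq_fintype_card]
    congr 1
    have h4 : ∀ σ : Ch p H, (-1 : ℚ[X]) ^ σ.1.ncard * YY p O φ lam B σ.1 =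
        if sSup σ.1 ≤ st φ lam then (-1 : ℚ[X]) ^ σ.1.ncard *
          ((Nat.card (KS φ lam σ.1) : ℚ[X]) * bw p O B (KS φ lam σ.1)) else 0 := by
      intro σ
      unfold YY
      split_ifs
      · rfl
      · rw [mul_zero]
    rw [Finset.sum_congr rfl fun σ _ => h4 σ,
      sum_sub_ch (st φ lam) (fun σ => (-1 : ℚ[X]) ^ σ.ncard *
          ((Nat.card (KS φ lam σ) : ℚ[X]) * bw p O B (KS φ lam σ)))]
    unfold wsumS
    rw [sum_nor (fun K => (Nat.card K : ℚ[X]) * bw p O B K)]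
    refine Finset.sum_congr rfl fun τ _ => ?_
    rw [im_ncard (Subtype.val_injective : Function.Injective (st φ lam).subtype)]
    have h5 : KS φ lam (im (st φ lam).subtype τ.1) = chainStabilizer τ.1 := stab_im_sub τ.1
    rw [h5]
  unfold blkP
  have hS : (Nat.card (st φ lam) : ℚ) ≠ 0 := by exact_mod_cast Nat.card_pos.ne'
  have hV0 : (Nat.card V : ℚ) ≠ 0 := by exact_mod_cast Nat.card_pos.ne'
  have hH : (Nat.card H : ℚ) ≠ 0 := by exact_mod_cast Nat.card_pos.ne'
  have e : ∀ (n : ℕ) (f : ℚ[X]), (n : ℚ[X]) * f = (n : ℚ) • f := by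
    intro n f
    rw [Nat.cast_smul_eq_nsmul, nsmul_eq_mul]
  rw [e, e, e, smul_smul] at h2
  have h6 : wsumS p (bw p O B') = ((Nat.card (st φ lam) : ℚ)⁻¹ *
      ((Nat.card V : ℚ) * (Nat.card H : ℚ))) • wsumS p (bw p O B) := by
    rw [← smul_smul, ← h2, smul_smul, inv_mul_cancel₀ hS, one_smul]
  rw [h6, smul_smul, SemidirectProduct.card]
  congr 1
  push_cast
  field_simp

end tot

end Pool.Agent.P8H58.FR
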