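import Pool.Agent.P8H58.Lgh

/-!
# Alternating sums of blocks and isomorphisms
-/

set_option autoImplicit false
set_option linter.unusedSectionVars false

open scoped BigOperators Classical

noncomputable section

namespace Pool.Agent.P8H58.FR

open Pool.Agent.Y63.KR Pool.Agent.Q90.WR Pool.Agent.H254R3.IN Pool.Agent.Q259.BW
open Pool.Agent.Helper884 Pool.Agent.N19.RB Polynomial

section iso

variable {G K : Type} [Group G] [Group K] [Fintype G] [Fintype K] {p : ℕ} [hp : Fact p.Prime]
  {O : ValuationSubring ℂ}

theorem IndS_pull (e : G ≃* K) {M : Type} [Group M] (B : Set (K → ℂ)) (π : M → G) (θ : M → ℂ) :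
    θ ∈ IndS O (pull e B) π ↔ θ ∈ IndS O B (fun m => e (π m)) := by
  unfold IndS
  simp only [Set.mem_ofPred_eq]
  refine and_congr_right fun _ => ?_
  have key : ∀ x : G, ∑ᶠ y : {y : M // IsConj x (π y)}, θ y / θ 1 =
      ∑ᶠ y : {y : M // IsConj (e x) (e (π y))}, θ y / θ 1 := by
    intro x
    exact finsum_comp_equiv (Equiv.subtypeEquiv (Equiv.refl M) fun y => (isConj_e e).symm)
      (f := fun y : {y : M // IsConj (e x) (e (π y))} => θ y / θ 1)
  constructor
  · intro h χ hχ x
    have h0 : (fun g => χ (e g)) ∈ pull e B := by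
      change (fun k => χ (e (e.symm k))) ∈ B
      simpa using hχ
    have h1 := h _ h0 (e.symm x)
    rw [key, e.apply_symm_apply, ← omega_symm e, e.apply_symm_apply] at h1
    simpa using h1
  · intro h χ hχ x
    have h1 := h _ hχ (e x)
    rw [omega_symm] at h1
    rw [key]
    exact h1

theorem im_bij (e : G ≃* K) : Function.Bijective (fun σ : Ch p G =>
    (⟨im e.toMonoidHom σ.1, im_chain e.injective σ.2⟩ : Ch p K)) := by
  constructor
  · intro σ τ h
    have h1 : im e.toMonoidHom σ.1 = im e.toMonoidHom τ.1 := congrArg Subtype.val h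
    exact Subtype.ext ((Subgroup.map_injective e.injective).image_injective h1)
  · intro σ
    refine ⟨⟨im e.symm.toMonoidHom σ.1, im_chain e.symm.injective σ.2⟩, Subtype.ext ?_⟩
    change (fun P : Subgroup G => P.map e.toMonoidHom) ''
      ((fun P : Subgroup K => P.map e.symm.toMonoidHom) '' σ.1) = σ.1
    rw [Set.image_image]
    have h1 : ∀ P : Subgroup K, (P.map e.symm.toMonoidHom).map e.toMonoidHom = P := by
      intro P
      rw [Subgroup.map_map]
      have : e.toMonoidHom.comp e.symm.toMonoidHom = MonoidHom.id K := by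
        ext x
        exact e.apply_symm_apply x
      rw [this, Subgroup.map_id]
    simp only [h1]
    exact Set.image_id' _

theorem stab_im_iso (e : G ≃* K) (σ : Set (Subgroup G)) :
    chainStabilizer (im e.toMonoidHom σ) = (chainStabilizer σ).map e.toMonoidHom := by
  have key : ∀ (x : G) (P : Subgroup G), conjSub (e x) (P.map e.toMonoidHom) = P.map e.toMonoidHom ↔
      conjSub x P = P := by
    intro x P
    have h1 : conjSub (e x) (P.map e.toMonoidHom) = (conjSub x P).map e.toMonoidHom := by
      unfold conjSub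
      rw [Subgroup.map_map, Subgroup.map_map]
      congr 1
      ext y
      change e x * e y * (e x)⁻¹ = e (x * y * x⁻¹)
      simp
    rw [h1]
    exact ⟨fun h => Subgroup.map_injective e.injective h, fun h => by rw [h]⟩
  ext y
  rw [mem_chainStabilizer, Subgroup.mem_map]
  constructor
  · intro h
    refine ⟨e.symm y, ?_, e.apply_symm_apply y⟩
    rw [mem_chainStabilizer]
    intro P hP
    have h1 := h _ ⟨P, hP, rfl⟩
    rw [← key, e.apply_symm_apply]
    exact h1
  · rintro ⟨x, hx, rfl⟩ _ ⟨P, hP, rfl⟩
    rw [mem_chainStabilizer] at hx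
    exact (key x P).mpr (hx P hP)

theorem bw_iso (e : G ≃* K) (B : Set (K → ℂ)) (M : Subgroup G) :
    bw p O (pull e B) M = bw p O B (M.map e.toMonoidHom) := by
  unfold bw
  refine apoly_congr (e.subgroupMap M) _ _ fun θ => ?_
  rw [IndS_pull]
  refine IndS_congr (e.subgroupMap M) ?_ θ
  intro c
  exact IsConj.refl _

/-- isomorphic groups have the same alternating sums -/
theorem blkP_iso (e : G ≃* K) (B : Set (K → ℂ)) : blkP p O (pull e B) = blkP p O B := by
  unfold blkP
  rw [Nat.card_congr e.toEquiv]
  congr 1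
  unfold wsumS
  refine Fintype.sum_bijective _ (im_bij e) _ _ fun σ => ?_
  change _ = (-1 : ℚ[X]) ^ (im e.toMonoidHom σ.1).ncard *
    ((Nat.card (chainStabilizer (im e.toMonoidHom σ.1)) : ℚ[X]) *
      bw p O B (chainStabilizer (im e.toMonoidHom σ.1)))
  rw [im_ncard e.injective, stab_im_iso, bw_iso]
  congr 3
  exact Nat.card_congr (e.subgroupMap (chainStabilizer σ.1)).toEquiv

theorem good_pull (e : G ≃* K) {B : Set (K → ℂ)} (h : GoodB O B) : GoodB O (pull e B) := by
  refine ⟨pull_block e h.block, fun χ hχ => ?_⟩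
  have h1 := h.pos _ hχ
  rw [map_one] at h1
  rwa [Nat.card_congr e.toEquiv]

end iso

end Pool.Agent.P8H58.FR
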