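import Pool.Agent.P8H58.Grp2
import Pool.Agent.P8H58.Lgi

/-!
# A group with few quotients in which a given group is the stabiliser of a linear character
-/

set_option autoImplicit false
set_option linter.unusedSectionVars false

open scoped BigOperators Classical

noncomputable section

namespace Pool.Agent.P8H58.FR

open Pool.Agent.Y63.KR Pool.Agent.Q90.WR Pool.Agent.H254R3.IN Pool.Agent.Q259.BW
open Pool.Agent.Helper884 Pool.Agent.N19.RB Polynomial
open Pool.Agent.P8H58

/-- a class of groups closed under isomorphisms, subgroups and extensions -/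
structure Ecl (X : ∀ (G : Type) [Group G], Prop) : Prop where
  /-- isomorphisms -/
  iso : ∀ (G K : Type) [Group G] [Group K], X G → Nonempty (G ≃* K) → X K
  /-- subgroups -/
  sub : ∀ (G : Type) [Group G], X G → ∀ H : Subgroup G, X H
  /-- extensions -/
  ext : ∀ (G : Type) [Group G] (N : Subgroup G) [N.Normal], X N → X (G ⧸ N) → X G

/-- every nontrivial quotient contains a copy of `S` -/
def TopS (S : Type) [Group S] (Γ : Type) [Group Γ] : Prop :=
  ∀ (M : Subgroup Γ) [M.Normal], M ≠ ⊤ → ∃ f : S →* Γ ⧸ M, Function.Injective f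

section cls

variable {X : ∀ (G : Type) [Group G], Prop}

theorem Ecl.of_hom (hX : Ecl X) {A B : Type} [Group A] [Group B] (f : A →* B)
    (hf : Function.Surjective f) (hB : X B) (hk : X f.ker) : X A :=
  hX.ext A f.ker hk (hX.iso _ _ hB ⟨(QuotientGroup.quotientKerEquivOfSurjective f hf).symm⟩)

theorem Ecl.emb (hX : Ecl X) {A B : Type} [Group A] [Group B] (f : A →* B)
    (hf : Function.Injective f) (hB : X B) : X A :=
  hX.iso _ _ (hX.sub B hB f.range) ⟨(MonoidHom.ofInjective hf).symm⟩

theorem Ecl.prod (hX : Ecl X) {A B : Type} [Group A] [Group B] (hA : X A) (hB : X B) :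
    X (A × B) := by
  refine hX.of_hom (MonoidHom.snd A B) (fun b => ⟨(1, b), rfl⟩) hB ?_
  refine hX.emb ((MonoidHom.fst A B).comp (MonoidHom.snd A B).ker.subtype) ?_ hA
  rintro ⟨⟨a, b⟩, hb⟩ ⟨⟨a', b'⟩, hb'⟩ h
  have h1 : b = 1 := hb
  have h2 : b' = 1 := hb'
  subst h1 h2
  have h3 : a = a' := h
  subst h3
  rfl

theorem Ecl.fin (hX : Ecl X) {A : Type} [Group A] (hA : X A) : ∀ n : ℕ, X (Fin n → A)
  | 0 => hX.emb (1 : (Fin 0 → A) →* A) (fun _ _ _ => Subsingleton.elim _ _) hA
  | n + 1 => by
    refine hX.emb (B := A × (Fin n → A))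
      { toFun := fun f => (f 0, fun i => f i.succ)
        map_one' := rfl
        map_mul' := fun _ _ => rfl } ?_ (hX.prod hA (hX.fin hA n))
    intro f g h
    have h1 : f 0 = g 0 := congrArg Prod.fst h
    have h2 : (fun i : Fin n => f i.succ) = fun i => g i.succ := congrArg Prod.snd h
    funext i
    refine Fin.cases h1 (fun j => ?_) i
    exact congrFun h2 j

theorem Ecl.pi (hX : Ecl X) {A : Type} [Group A] (hA : X A) (ι : Type) [Finite ι] :
    X (ι → A) := by
  obtain ⟨n, ⟨e⟩⟩ := Finite.exists_equiv_fin ι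
  refine hX.emb (B := Fin n → A)
    { toFun := fun f i => f (e.symm i)
      map_one' := rfl
      map_mul' := fun _ _ => rfl } ?_ (hX.fin hA n)
  intro f g h
  funext i
  have h1 : f (e.symm (e i)) = g (e.symm (e i)) := congrFun h (e i)
  rwa [e.symm_apply_apply] at h1

theorem Ecl.sd (hX : Ecl X) {A H : Type} [Group A] [Group H] (φ : H →* MulAut A)
    (hA : X A) (hH : X H) : X (A ⋊[φ] H) := by
  refine hX.of_hom (SemidirectProduct.rightHom : A ⋊[φ] H →* H)
    SemidirectProduct.rightHom_surjective hH ?_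
  refine hX.emb (B := A)
    { toFun := fun x => x.1.left
      map_one' := rfl
      map_mul' := fun x y => ?_ } ?_ hA
  · have h2 : x.1.right = 1 := x.2
    change (x.1 * y.1).left = _
    rw [SemidirectProduct.mul_left, h2, map_one]
    rfl
  · intro x y hxy
    have h2 : x.1.right = 1 := x.2
    have h3 : y.1.right = 1 := y.2
    exact Subtype.ext (SemidirectProduct.ext hxy (h2.trans h3.symm))

theorem Ecl.Gam (hX : Ecl X) {H G Y : Type} [Group H] [Fintype H] [Group G] [CommGroup Y]
    (hH : X H) (hG : X G) (hY : X Y) : X (Gam H G Y) :=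
  hX.sub _ (hX.sd _ (hX.prod (hX.pi hG H) (hX.sub _ (hX.pi hY H) _)) hH) _

/-- homomorphisms from a power of a simple group -/
theorem pow_triv {S : Type} [Group S] [IsSimpleGroup S] {k : ℕ} {Q : Type} [Group Q]
    (h : ¬ ∃ f : S →* Q, Function.Injective f) (f : (Fin k → S) →* Q) (s : Fin k → S) :
    f s = 1 := by
  have key : ∀ g : S →* Q, ∀ s, g s = 1 := by
    intro g s
    rcases (inferInstance : g.ker.Normal).eq_bot_or_eq_top with h1 | h1
    · exact absurd ⟨g, (MonoidHom.ker_eq_bot_iff g).1 h1⟩ h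
    · have h2 : s ∈ g.ker := by rw [h1]; trivial
      exact h2
  have h1 : s ∈ f.ker := by
    refine Subgroup.pi_mem_of_mulSingle_mem s fun i => ?_
    have h2 := key (f.comp (MonoidHom.mulSingle (fun _ : Fin k => S) i)) (s i)
    exact h2
  exact h1

theorem topS_Gam {S : Type} [Group S] [IsSimpleGroup S] [Fintype S] {k : ℕ} {G Y : Type} [Group G]
    [CommGroup Y] {x y : Fin k → S} (hx : x ≠ 1) (hy : y ≠ 1) (hxy : x ≠ y) :
    TopS S (Gam (Fin k → S) G Y) := by
  intro M _ hM
  by_contra h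
  refine hM (eq_top_iff.2 fun g _ => ?_)
  have h1 := pi_trivial (QuotientGroup.mk' M) (fun f s => pow_triv h f s) hx hy hxy g
  exact (QuotientGroup.eq_one_iff g).1 h1

theorem TopS.hom {S Γ Q : Type} [Group S] [Group Γ] [Group Q] (hT : TopS S Γ)
    (h : ¬ ∃ f : S →* Q, Function.Injective f) (f : Γ →* Q) (s : Γ) : f s = 1 := by
  by_contra hs
  have hk : f.ker ≠ ⊤ := fun h => hs (by
    have : s ∈ f.ker := by rw [h]; trivial
    exact this)
  obtain ⟨g, hg⟩ := hT f.ker hk
  exact h ⟨(QuotientGroup.kerLift f).comp g, (QuotientGroup.kerLift_injective f).comp hg⟩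

/-- direct products of groups all of whose nontrivial quotients contain `S` -/
theorem TopS.prod {S Γ Δ : Type} [Group S] [Group Γ] [Group Δ] (h1 : TopS S Γ) (h2 : TopS S Δ) :
    TopS S (Γ × Δ) := by
  intro M _ hM
  by_contra h
  refine hM (eq_top_iff.2 fun g _ => ?_)
  have e1 := h1.hom h ((QuotientGroup.mk' M).comp (MonoidHom.inl Γ Δ)) g.1
  have e2 := h2.hom h ((QuotientGroup.mk' M).comp (MonoidHom.inr Γ Δ)) g.2
  have e3 : QuotientGroup.mk' M g = 1 := by
    have : g = (MonoidHom.inl Γ Δ g.1) * (MonoidHom.inr Γ Δ g.2) := by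
      ext
      · simp
      · simp
    rw [this, map_mul]
    have e4 : QuotientGroup.mk' M (MonoidHom.inl Γ Δ g.1) = 1 := e1
    have e5 : QuotientGroup.mk' M (MonoidHom.inr Γ Δ g.2) = 1 := e2
    rw [e4, e5, one_mul]
  exact (QuotientGroup.eq_one_iff g).1 e3

end cls

section grp

variable (H Y : Type) [Group H] [Fintype H] [CommGroup Y]

/-- the action of `H` on `V` by shifts -/
def sh : H →* MulAut (V H Y) where
  toFun s := shiftV H Y s
  map_one' := by
    ext v h
    simp [shiftV, shiftE]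
  map_mul' s t := by
    ext v h
    simp [shiftV, shiftE, mul_assoc]

variable {H Y}

theorem sh_apply (s : H) (v : V H Y) (h : H) : ((sh H Y s v : V H Y) : H → Y) h =
    (v : H → Y) (s⁻¹ * h) := rfl

variable (H Y)

/-- the semidirect product as a group of the type considered before -/
def eG : Gam H Unit Y →* V H Y ⋊[sh H Y] H where
  toFun x := ⟨x.1.left.2, x.1.right⟩
  map_one' := rfl
  map_mul' x y := rfl

variable {H Y}

theorem eG_bij : Function.Bijective (eG H Y) := by
  constructor
  · intro x y h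
    have h1 : x.1.left.2 = y.1.left.2 :=
      congrArg (fun z : V H Y ⋊[sh H Y] H => z.left) h
    have h2 : x.1.right = y.1.right :=
      congrArg (fun z : V H Y ⋊[sh H Y] H => z.right) h
    apply Subtype.ext
    refine SemidirectProduct.ext (Prod.ext ?_ h1) h2
    funext t
    rfl
  · intro y
    refine ⟨⟨⟨(1, y.left), y.right⟩, ?_⟩, rfl⟩
    rw [mem_Gam]
    exact Finset.prod_eq_one fun _ _ => map_one _

/-- the quotients of the semidirect product -/
theorem TopS.sd {S : Type} [Group S] (hT : TopS S H) {x y : H} (hx : x ≠ 1) (hy : y ≠ 1)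
    (hxy : x ≠ y) : TopS S (V H Y ⋊[sh H Y] H) := by
  intro M _ hM
  by_contra h
  refine hM (eq_top_iff.2 fun g _ => ?_)
  obtain ⟨g', rfl⟩ := (eG_bij (H := H) (Y := Y)).2 g
  have h1 := pi_trivial ((QuotientGroup.mk' M).comp (eG H Y)) (fun f s => hT.hom h f s) hx hy hxy g'
  exact (QuotientGroup.eq_one_iff _).1 h1

theorem core_sd {p : ℕ} [Finite Y] (hpY : Nat.Coprime p (Nat.card Y)) {x y : H} (hx : x ≠ 1)
    (hy : y ≠ 1) (hxy : x ≠ y) {a : Y} (ha : a ≠ 1) (P : Subgroup (V H Y ⋊[sh H Y] H))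
    (hP : P.Normal) (hp : IsPGroup p P) : P = ⊥ := by
  have h1 := no_normal_p (G := Unit) p (fun Q _ _ => Subsingleton.elim _ _) hpY hx hy hxy ha
    (P.comap (eG H Y)) (hP.comap _) (hp.comap_of_injective _ (eG_bij (H := H) (Y := Y)).1)
  have h2 := congrArg (Subgroup.map (eG H Y)) h1
  rwa [Subgroup.map_comap_eq_self_of_surjective (eG_bij (H := H) (Y := Y)).2,
    Subgroup.map_bot] at h2

/-! ### the linear character -/

/-- the product of the values of `χ` over a subgroup -/
def lm (G₀ : Subgroup H) (χ : Y →* ℂˣ) : V H Y →* ℂˣ where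
  toFun v := ∏ h : G₀, χ ((v : H → Y) h)
  map_one' := by
    refine Finset.prod_eq_one fun _ _ => ?_
    exact map_one χ
  map_mul' v w := by
    rw [← Finset.prod_mul_distrib]
    refine Finset.prod_congr rfl fun h _ => ?_
    exact map_mul χ _ _

theorem lm_apply (G₀ : Subgroup H) (χ : Y →* ℂˣ) (v : V H Y) :
    lm G₀ χ v = ∏ h : G₀, χ ((v : H → Y) h) := rfl

theorem exists_out {G₀ : Subgroup H} (h2 : 2 * Nat.card G₀ < Nat.card H) (γ : H) :
    ∃ w : H, w ∉ G₀ ∧ γ * w ∉ G₀ := by
  by_contra hcon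
  push Not at hcon
  have h1 : (Set.univ : Set H) ⊆ (G₀ : Set H) ∪ (fun g => γ⁻¹ * g) '' (G₀ : Set H) := by
    intro w _
    by_cases hw : w ∈ G₀
    · exact Or.inl hw
    · exact Or.inr ⟨γ * w, hcon w hw, by group⟩
  have h3 := Set.ncard_le_ncard h1 (Set.toFinite _)
  have h4 := Set.ncard_union_le (G₀ : Set H) ((fun g => γ⁻¹ * g) '' (G₀ : Set H))
  have h5 : ((fun g => γ⁻¹ * g) '' (G₀ : Set H)).ncard = (G₀ : Set H).ncard :=
    Set.ncard_image_of_injective _ fun a b hab => mul_left_cancel hab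
  have h6 : (G₀ : Set H).ncard = Nat.card G₀ := Nat.card_coe_set_eq _ |>.symm
  rw [Set.ncard_univ] at h3
  omega

/-- **the stabiliser of the linear character** -/
theorem st_lm [Fintype (V H Y)] {G₀ : Subgroup H} (h2 : 2 * Nat.card G₀ < Nat.card H) {χ : Y →* ℂˣ} {a : Y}
    (ha : χ a ≠ 1) : st (sh H Y) (lm G₀ χ) = G₀ := by
  ext γ
  rw [mem_st]
  constructor
  · intro h
    by_contra hγ
    obtain ⟨w, hw, hw'⟩ := exists_out h2 γ
    have hw1 : w ≠ 1 := fun e => hw (by rw [e]; exact G₀.one_mem)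
    have h3 := h (dv w a)
    have h4 : lm G₀ χ (sh H Y γ (dv w a)) = 1 := by
      rw [lm_apply]
      refine Finset.prod_eq_one fun g _ => ?_
      have h5 : ((sh H Y γ (dv w a) : V H Y) : H → Y) g = 1 := by
        rw [sh_apply]
        change df w a (γ⁻¹ * (g : H)) = 1
        have n1 : γ⁻¹ * (g : H) ≠ 1 := by
          intro e
          apply hγ
          have : γ = g := by
            rw [inv_mul_eq_one] at e
            exact e
          rw [this]
          exact g.2
        have n2 : γ⁻¹ * (g : H) ≠ w := by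
          intro e
          apply hw'
          rw [← e, mul_inv_cancel_left]
          exact g.2
        simp [df, Pi.mulSingle_eq_of_ne n1, Pi.mulSingle_eq_of_ne n2]
      rw [h5, map_one]
    have h6 : lm G₀ χ (dv w a) = (χ a)⁻¹ := by
      rw [lm_apply, Finset.prod_eq_single (1 : G₀)]
      · change χ (df w a 1) = _
        simp [df, Pi.mulSingle_eq_of_ne hw1.symm]
      · intro g _ hg
        have n1 : (g : H) ≠ 1 := fun e => hg (Subtype.ext e)
        have n2 : (g : H) ≠ w := fun e => hw (by rw [← e]; exact g.2)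
        change χ (df w a g) = 1
        simp [df, Pi.mulSingle_eq_of_ne n1, Pi.mulSingle_eq_of_ne n2]
      · simp
    rw [h4, h6] at h3
    exact ha (inv_eq_one.mp h3.symm)
  · intro hγ v
    rw [lm_apply, lm_apply]
    refine Fintype.prod_equiv (Equiv.mulLeft (⟨γ, hγ⟩ : G₀)⁻¹) _ _ fun g => ?_
    rfl

end grp

end Pool.Agent.P8H58.FR
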