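import Pool.Agent.P8H58.Lgj
import Pool.Agent.P8H58.Grw
import Pool.Agent.N22.DD.Cla

/-!
# Every block has the alternating sums of a block of a group with few quotients
-/

set_option autoImplicit false
set_option linter.unusedSectionVars false

open scoped BigOperators Classical

noncomputable section

namespace Pool.Agent.P8H58.FR

open Pool.Agent.Y63.KR Pool.Agent.Q90.WR Pool.Agent.H254R3.IN Pool.Agent.Q259.BW
open Pool.Agent.Helper884 Pool.Agent.N19.RB Polynomial
open Pool.Agent.P8H58

theorem exists_chi (q : ℕ) [Fact q.Prime] :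
    ∃ (χ : Multiplicative (ZMod q) →* ℂˣ) (a : Multiplicative (ZMod q)), χ a ≠ 1 := by
  haveI : NeZero (Monoid.exponent (Multiplicative (ZMod q))) :=
    ⟨Monoid.exponent_ne_zero_of_finite⟩
  haveI : NeZero ((Monoid.exponent (Multiplicative (ZMod q)) : ℕ) : ℂ) :=
    ⟨by exact_mod_cast Monoid.exponent_ne_zero_of_finite⟩
  obtain ⟨a, ha⟩ := exists_ne (1 : Multiplicative (ZMod q))
  obtain ⟨ψ, hψ⟩ := CommGroup.exists_apply_ne_one_of_hasEnoughRootsOfUnity
    (Multiplicative (ZMod q)) ℂ ha
  exact ⟨ψ, a, hψ⟩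

section emb

variable {H G : Type} [Group H] [Fintype H] [Group G]

/-- the function with the value `g` on `T` and the value `1` elsewhere -/
def eT (T : Finset H) (hT : T.card = Nat.card G) : G →* Gam H G Unit where
  toFun g := ⟨bs (fun h => if h ∈ T then g else 1) 1, by
    rw [mem_Gam]
    change ∏ h, Abelianization.of (if h ∈ T then g else 1) = 1
    have h1 : ∀ h : H, Abelianization.of (if h ∈ T then g else 1) =
        if h ∈ T then Abelianization.of g else 1 := by
      intro h
      split_ifs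
      · rfl
      · exact map_one _
    rw [Finset.prod_congr rfl fun h _ => h1 h, Finset.prod_ite_mem, Finset.univ_inter,
      Finset.prod_const, hT, ← map_pow, pow_card_eq_one', map_one]⟩
  map_one' := by
    apply Subtype.ext
    change bs (fun h => if h ∈ T then (1 : G) else 1) 1 = 1
    have : (fun h => if h ∈ T then (1 : G) else 1) = (1 : H → G) := by
      funext h
      simp
    rw [this]
    rfl
  map_mul' g g' := by
    apply Subtype.ext
    change bs (fun h => if h ∈ T then g * g' else 1) 1 =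
      bs (fun h => if h ∈ T then g else 1) 1 * bs (fun h => if h ∈ T then g' else 1) 1
    rw [← bs_mul, mul_one]
    congr 1
    funext h
    by_cases hh : h ∈ T
    · simp [hh]
    · simp [hh]

theorem eT_inj {T : Finset H} (hT : T.card = Nat.card G) {w : H} (hw : w ∈ T) :
    Function.Injective (eT T hT) := by
  intro g g' h
  have h1 : (bs (fun h => if h ∈ T then g else 1) 1 : W H G Unit) =
    bs (fun h => if h ∈ T then g' else 1) 1 := congrArg Subtype.val h
  have h2 := congrFun (bs_injective h1).1 w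
  simpa [hw] using h2

theorem tp_inj : Function.Injective (fun s : H => (⟨tp s, tp_mem s⟩ : Gam H G Unit)) := by
  intro s t h
  have h1 : (tp s : W H G Unit) = tp t := congrArg Subtype.val h
  exact SemidirectProduct.inr_injective h1

end emb

variable {p : ℕ} [hp : Fact p.Prime] {O : ValuationSubring ℂ}

/-- **the embedding** -/
theorem exists_top (hpO : (p : ℂ) ∈ O.nonunits) {X : ∀ (G : Type) [Group G], Prop} (hX : Ecl X)
    {S : Type} [Group S] [Finite S] [IsSimpleGroup S] {s t : S} (hst : s * t ≠ t * s) (hS : X S)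
    {G : Type} [Group G] [Fintype G] (hG : X G) {B : Set (G → ℂ)} (hB : GoodB O B) :
    ∃ (Γ : Type) (_ : Group Γ) (_ : Fintype Γ) (B' : Set (Γ → ℂ)), X Γ ∧ TopS S Γ ∧
      AdmB p O Γ B' ∧ Nat.card G ∣ Nat.card Γ ∧ blkP p O B' = blkP p O B := by
  haveI : Fintype S := Fintype.ofFinite S
  obtain ⟨q, hq, hqp, hqS⟩ := exists_q p S hst
  haveI := Fact.mk hq
  obtain ⟨χ, a, ha⟩ := exists_chi q
  have hYc : Nat.card (Multiplicative (ZMod q)) = q := by
    rw [Nat.card_congr Multiplicative.toAdd, Nat.card_zmod]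
  have hYX : X (Multiplicative (ZMod q)) := by
    obtain ⟨u, hu⟩ := exists_prime_orderOf_dvd_card' q hqS
    have h1 : X (Subgroup.zpowers u) := hX.sub S hS _
    refine hX.iso _ _ h1 ⟨mulEquivOfPrimeCardEq (p := q) ?_ hYc⟩
    rw [Nat.card_zpowers, hu]
  have ha1 : a ≠ 1 := by
    rintro rfl
    exact ha (map_one _)
  have hs1 : s ≠ 1 := by rintro rfl; exact hst (by simp)
  have ht1 : t ≠ 1 := by rintro rfl; exact hst (by simp)
  have hst1 : s ≠ t := by rintro rfl; exact hst rfl
  have hS1 : 1 < Fintype.card S := Fintype.one_lt_card_iff.2 ⟨s, 1, hs1⟩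
  -- the group with few quotients
  set k := 2 * Nat.card G with hk
  let H : Type := Fin (k + 1) → S
  have hH : 2 * Nat.card G < Nat.card H := by
    have h1 : Nat.card H = Fintype.card S ^ (k + 1) := by
      rw [Nat.card_eq_fintype_card, Fintype.card_fun, Fintype.card_fin]
    rw [h1]
    have h2 := Nat.lt_pow_self hS1 (n := k + 1)
    omega
  have hx : (fun _ : Fin (k + 1) => s) ≠ 1 := fun h0 => hs1 (congrFun h0 0)
  have hy : (fun _ : Fin (k + 1) => t) ≠ 1 := fun h0 => ht1 (congrFun h0 0)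
  have hxy : (fun _ : Fin (k + 1) => s) ≠ (fun _ => t) := fun h0 => hst1 (congrFun h0 0)
  let Γ₀ : Type := Gam H G Unit
  haveI : Fintype Γ₀ := Fintype.ofFinite _
  have hT₀ : TopS S Γ₀ := topS_Gam hx hy hxy
  have hXU : X Unit := hX.emb (1 : Unit →* S) (fun _ _ _ => Subsingleton.elim _ _) hS
  have hX₀ : X Γ₀ := hX.Gam (hX.fin hS _) hG hXU
  obtain ⟨T, _, hT⟩ := Finset.exists_subset_card_eq (s := (Finset.univ : Finset H))
    (n := Nat.card G) (by
      rw [Finset.card_univ, ← Nat.card_eq_fintype_card]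
      omega)
  obtain ⟨w, hw⟩ : T.Nonempty := by
    rw [← Finset.card_pos, hT]
    exact Nat.card_pos
  let ι : G →* Γ₀ := eT T hT
  have hι : Function.Injective ι := eT_inj hT hw
  have hcG : Nat.card ι.range = Nat.card G :=
    (Nat.card_congr (MonoidHom.ofInjective hι).toEquiv).symm
  have hc₀ : 2 * Nat.card ι.range < Nat.card Γ₀ := by
    rw [hcG]
    exact hH.trans_le (Nat.card_le_card_of_injective _ (tp_inj (H := H) (G := G)))
  -- the semidirect product
  let Y : Type := Multiplicative (ZMod q)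
  haveI : Fintype (V Γ₀ Y) := Fintype.ofFinite _
  let lam : V Γ₀ Y →* ℂˣ := lm ι.range χ
  have hlam : st (sh Γ₀ Y) lam = ι.range := st_lm hc₀ ha
  let e : st (sh Γ₀ Y) lam ≃* G :=
    (MulEquiv.subgroupCongr hlam).trans (MonoidHom.ofInjective hι).symm
  have hB₁ : GoodB O (pull e B) := good_pull e hB
  obtain ⟨ψ₀, h0⟩ := hB₁.block.nonempty
  have hV : ¬ p ∣ Nat.card (V Γ₀ Y) := by
    intro h
    have h1 : Nat.card (V Γ₀ Y) ∣ Nat.card (Γ₀ → Y) := Subgroup.card_subgroup_dvd_card _
    rw [Nat.card_fun, hYc] at h1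
    exact hqp ((Nat.prime_dvd_prime_iff_eq hp.out hq).1 (hp.out.dvd_of_dvd_pow (h.trans h1))).symm
  have hfr := blkP_fr hpO hV hB₁.block h0
  have hgood := blk_good hpO hV hB₁ h0
  haveI : Finite (V Γ₀ Y ⋊[sh Γ₀ Y] Γ₀) := inferInstance
  refine ⟨V Γ₀ Y ⋊[sh Γ₀ Y] Γ₀, inferInstance, Fintype.ofFinite _, blkOf O (ix lam ψ₀),
    hX.sd _ (hX.sub _ (hX.pi hYX Γ₀) _) hX₀, ?_, ⟨inferInstance, ?_, hgood.block,
      exists_def hpO hgood⟩, ?_, ?_⟩
  · refine hT₀.sd (x := ⟨tp (fun _ => s), tp_mem _⟩) (y := ⟨tp (fun _ => t), tp_mem _⟩) ?_ ?_ ?_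
    · intro h
      exact hx (tp_inj (H := H) (G := G) (h.trans (Subtype.ext (map_one SemidirectProduct.inr)).symm))
    · intro h
      exact hy (tp_inj (H := H) (G := G) (h.trans (Subtype.ext (map_one SemidirectProduct.inr)).symm))
    · intro h
      exact hxy (tp_inj (H := H) (G := G) h)
  · intro P hP hPp
    refine core_sd (p := p) ?_ (x := ⟨tp (fun _ => s), tp_mem _⟩) (y := ⟨tp (fun _ => t), tp_mem _⟩)
      ?_ ?_ ?_ ha1 P hP hPp
    · rw [hYc]
      exact (Nat.coprime_primes hp.out hq).2 fun h => hqp h.symm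
    · intro h
      exact hx (tp_inj (H := H) (G := G) (h.trans (Subtype.ext (map_one SemidirectProduct.inr)).symm))
    · intro h
      exact hy (tp_inj (H := H) (G := G) (h.trans (Subtype.ext (map_one SemidirectProduct.inr)).symm))
    · intro h
      exact hxy (tp_inj (H := H) (G := G) h)
  · rw [SemidirectProduct.card, ← hcG]
    exact (Subgroup.card_subgroup_dvd_card _).trans (dvd_mul_left _ _)
  · rw [← blkP_iso e B, ← hfr]

end Pool.Agent.P8H58.FR
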