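import Pool.Agent.P8H58.Lgk

/-!
# Dade's alternating sums: classes of groups with few quotients
-/

set_option autoImplicit false
set_option linter.unusedSectionVars false

open scoped BigOperators Classical

noncomputable section

namespace Pool.Agent.P8H58.FR

open Pool.Agent.Y63.KR Pool.Agent.Q90.WR Pool.Agent.H254R3.IN Pool.Agent.Q259.BW
open Pool.Agent.Helper884 Pool.Agent.N19.RB Polynomial
open Pool.Agent.N22.DD
open Pool.Agent.P8H58

/-- all blocks with nontrivial defect groups of the reduced groups of a class -/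
def CX (p : ℕ) (O : ValuationSubring ℂ) (X : ∀ (G : Type) [Group G], Prop) : Cl :=
  fun G i B => @X G i ∧ @AdmB p O G i B

/-- the same for the groups with few quotients -/
def PX (p : ℕ) (O : ValuationSubring ℂ) (X : ∀ (G : Type) [Group G], Prop) (S : Type) [Group S] :
    Cl := fun G i B => @X G i ∧ @TopS S _ G i ∧ @AdmB p O G i B

section

variable {p : ℕ} [hp : Fact p.Prime] {O : ValuationSubring ℂ}
  {X : ∀ (G : Type) [Group G], Prop} {S : Type} [Group S]

theorem PX_adm (G : Type) [i : Group G] (B : Set (G → ℂ)) (h : PX p O X S G i B) :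
    AdmB p O G B := h.2.2

theorem CX_adm (G : Type) [i : Group G] (B : Set (G → ℂ)) (h : CX p O X G i B) :
    AdmB p O G B := h.2

theorem PX_sq (hX : Ecl X) : SqC (PX p O X S) := by
  intro G _ B hB
  have := hB.2.2.fin
  have := Fintype.ofFinite G
  exact ⟨hX.prod hB.1 hB.1, hB.2.1.prod hB.2.1, AdmB.prod hB.2.2 hB.2.2⟩

theorem CX_sq (hX : Ecl X) : SqC (CX p O X) := by
  intro G _ B hB
  have := hB.2.fin
  have := Fintype.ofFinite G
  exact ⟨hX.prod hB.1 hB.1, AdmB.prod hB.2 hB.2⟩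

theorem X_wr (hX : Ecl X) (h2 : X (Multiplicative (ZMod 2))) {G : Type} [Group G] (hG : X G) :
    X (Wr G) := by
  refine hX.of_hom (sgn : Wr G →* Multiplicative (ZMod 2)) ?_ h2 ?_
  · intro y
    have h1 : ∀ z : ZMod 2, z = 0 ∨ z = 1 := by decide
    rcases h1 (Multiplicative.toAdd y) with h | h
    · refine ⟨1, ?_⟩
      rw [map_one]
      exact h.symm
    · refine ⟨⟨1, 1, true⟩, ?_⟩
      exact h.symm
  · refine hX.emb (B := G × G)
      { toFun := fun x => (x.1.a, x.1.b)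
        map_one' := rfl
        map_mul' := ?_ } ?_ (hX.prod hG hG)
    · rintro ⟨⟨a, b, s⟩, hx⟩ ⟨⟨a', b', s'⟩, hy⟩
      cases s with
      | true =>
        have h3 : Multiplicative.ofAdd (1 : ZMod 2) = 1 := hx
        exact absurd h3 (by decide)
      | false =>
        cases s' with
        | true =>
          have h3 : Multiplicative.ofAdd (1 : ZMod 2) = 1 := hy
          exact absurd h3 (by decide)
        | false => rfl
    · rintro ⟨⟨a, b, s⟩, hx⟩ ⟨⟨a', b', s'⟩, hy⟩ h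
      have h1 : a = a' := congrArg Prod.fst h
      have h2' : b = b' := congrArg Prod.snd h
      subst h1 h2'
      cases s with
      | true =>
        have h3 : Multiplicative.ofAdd (1 : ZMod 2) = 1 := hx
        exact absurd h3 (by decide)
      | false =>
        cases s' with
        | true =>
          have h3 : Multiplicative.ofAdd (1 : ZMod 2) = 1 := hy
          exact absurd h3 (by decide)
        | false => rfl

theorem CX_wr (hp2 : p ≠ 2) (hpO : (p : ℂ) ∈ O.nonunits) (hX : Ecl X)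
    (h2 : X (Multiplicative (ZMod 2))) : WrC (CX p O X) := by
  intro G _ B hB
  exact ⟨X_wr hX h2 hB.1, hB.2.wr hp2 hpO⟩

/-- **the transfer to groups with few quotients** -/
theorem to_PX [Finite S] [IsSimpleGroup S] (hpO : (p : ℂ) ∈ O.nonunits) (hX : Ecl X)
    {s t : S} (hst : s * t ≠ t * s) (hS : X S) (G : Type) [Group G] [Finite G] (hG : X G)
    (B : Set (G → ℂ)) (hB : GoodB O B) :
    ∃ (Γ : Type) (i : Group Γ) (B' : Set (Γ → ℂ)), PX p O X S Γ i B' ∧
      Nat.card G ∣ Nat.card Γ ∧ (∀ d, blkDef p O d B' = blkDef p O d B) ∧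
      ∀ z, Wt p O z B' = Wt p O z B := by
  have := Fintype.ofFinite G
  obtain ⟨Γ, i, f, B', h1, h2, h3, h4, h5⟩ := exists_top (p := p) hpO hX hst hS hG hB
  refine ⟨Γ, i, B', ⟨h1, h2, h3⟩, h4, fun d => ?_, fun z => ?_⟩
  · have h6 := blkP_coeff (p := p) (O := O) (B := B') d
    rw [h5, blkP_coeff] at h6
    exact_mod_cast h6.symm
  · rw [Wt_eq, Wt_eq, h5]

variable [Finite S] [IsSimpleGroup S]

/-- bounds for one weight and the groups with few quotients -/
theorem unit_of_sq {C : Cl} (hA : ∀ (G : Type) [i : Group G] (B : Set (G → ℂ)), C G i B →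
    AdmB p O G B) (hS : SqC C) {t : ℂ} (ht0 : t ≠ 0)
    (hs : ∀ ε : ℝ, 0 < ε → ∃ c : ℝ, ∀ (G : Type) [i : Group G] (B : Set (G → ℂ)), C G i B →
      ‖Wt p O t B‖ ^ 2 ≤ c * (Nat.card (G × G) : ℝ) ^ ε *
        min 1 ‖t‖ ^ (Nat.card (G × G)).factorization p) (G : Type) [i : Group G]
    (B : Set (G → ℂ)) (hB : C G i B) :
    ‖Wt p O t B‖ ≤ min 1 ‖t‖ ^ (Nat.card G).factorization p := by
  have hm : 0 < min 1 ‖t‖ := lt_min one_pos (norm_pos_iff.mpr ht0)
  have hm2 : 0 < min 1 ‖t‖ ^ (Nat.card G).factorization p := pow_pos hm _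
  have h1 := tensor (fun G _ B hB => (hA G B hB).fin) hS
    (fun G _ B => (‖Wt p O t B‖ / min 1 ‖t‖ ^ (Nat.card G).factorization p) ^ 2)
    (fun G _ B hB => by
      have := (hA G B hB).fin
      have := Fintype.ofFinite G
      have hb := (hA G B hB).block
      change (‖Wt p O t (bxS B B)‖ / min 1 ‖t‖ ^ (Nat.card (G × G)).factorization p) ^ 2 =
        ((‖Wt p O t B‖ / min 1 ‖t‖ ^ (Nat.card G).factorization p) ^ 2) ^ 2
      rw [Wt_prod hb hb, norm_mul, ← pow_two, N22.DD.fac_prod, div_pow, div_pow, ← pow_mul, ← pow_mul]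
      rw [div_pow, ← pow_mul, ← pow_mul]
      ring_nf) (by
      intro ε hε
      obtain ⟨c, hc⟩ := hs (ε / 2) (by linarith)
      refine ⟨c, fun G _ B hB => ?_⟩
      have := (hA G B hB).fin
      have hg' : (0 : ℝ) < Nat.card G := by exact_mod_cast Nat.card_pos (α := G)
      have h2 := hc G B hB
      have h5 : (Nat.card G : ℝ) ^ ε = (Nat.card (G × G) : ℝ) ^ (ε / 2) := by
        rw [Nat.card_prod, Nat.cast_mul, ← pow_two, ← Real.rpow_natCast,
          ← Real.rpow_mul hg'.le]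
        congr 1
        push_cast
        ring
      rw [← h5, N22.DD.fac_prod, mul_comm 2, pow_mul] at h2
      change (‖Wt p O t B‖ / min 1 ‖t‖ ^ (Nat.card G).factorization p) ^ 2 ≤ _
      rw [div_pow, div_le_iff₀ (pow_pos (pow_pos hm _) 2)]
      exact h2) G B hB
  have h2 := (pow_le_one_iff_of_nonneg (div_nonneg (norm_nonneg _) hm2.le) two_ne_zero).mp h1
  exact (div_le_one hm2).mp h2

/-- vanishing -/
theorem dade_of_PX (hpO : (p : ℂ) ∈ O.nonunits) (hX : Ecl X) {s t : S} (hst : s * t ≠ t * s)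
    (hS : X S) (h : ∀ (G : Type) [i : Group G] (B : Set (G → ℂ)), PX p O X S G i B →
      ∀ d, blkDef p O d B ≤ 0) (G : Type) [Group G] [Finite G] (hG : X G)
    (B : Set (G → ℂ)) (hB : GoodB O B) (d : ℕ) : blkDef p O d B = 0 := by
  obtain ⟨Γ, i, B', h1, _, h2, _⟩ := to_PX (S := S) hpO hX hst hS G hG B hB
  rw [← h2]
  exact dade_of_nonpos PX_adm (PX_sq hX) h Γ B' h1 d

/-- subpolynomial bounds, for all primes -/
theorem single_of_PX (hpO : (p : ℂ) ∈ O.nonunits) (hX : Ecl X) {s t : S} (hst : s * t ≠ t * s)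
    (hS : X S) (h : ∀ ε : ℝ, 0 < ε → ∃ c : ℝ, ∀ (G : Type) [i : Group G] (B : Set (G → ℂ)),
      PX p O X S G i B → ∀ d, (blkDef p O d B : ℝ) ≤ c * (Nat.card G : ℝ) ^ ε) (G : Type)
    [Group G] [Finite G] (hG : X G) (B : Set (G → ℂ)) (hB : GoodB O B) :
    (∀ d, |blkDef p O d B| ≤ 1) ∧
      ∀ d e, blkDef p O d B ≠ 0 → blkDef p O e B ≠ 0 → d = e := by
  obtain ⟨Γ, i, B', h1, _, h2, _⟩ := to_PX (S := S) hpO hX hst hS G hG B hB
  simp only [← h2]
  have := h1.2.2.fin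
  exact single_of_sq (sq_le_one PX_adm (PX_sq hX) h Γ B' h1)

/-- **subpolynomial bounds, for odd primes** -/
theorem dade_of_PX_sub (hp2 : p ≠ 2) (hpO : (p : ℂ) ∈ O.nonunits) (hX : Ecl X)
    (hX2 : X (Multiplicative (ZMod 2))) {s t : S} (hst : s * t ≠ t * s)
    (hS : X S) (h : ∀ ε : ℝ, 0 < ε → ∃ c : ℝ, ∀ (G : Type) [i : Group G] (B : Set (G → ℂ)),
      PX p O X S G i B → ∀ d, (blkDef p O d B : ℝ) ≤ c * (Nat.card G : ℝ) ^ ε) :
    ∀ (G : Type) [i : Group G] (B : Set (G → ℂ)), CX p O X G i B → ∀ d, blkDef p O d B = 0 := by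
  refine dade_of_sub hp2 hpO CX_adm (CX_sq hX) (CX_wr hp2 hpO hX hX2) fun ε hε => ⟨1, ?_⟩
  intro G _ B hB d
  have := hB.2.fin
  have h1 := (single_of_PX hpO hX hst hS h G hB.1 B (hB.2.good hpO)).1 d
  have h2 : (blkDef p O d B : ℝ) ≤ 1 := by
    have := (abs_le.mp h1).2
    exact_mod_cast this
  have h3 : (1 : ℝ) ≤ Nat.card G := by exact_mod_cast Nat.card_pos (α := G)
  have h4 := Real.one_le_rpow h3 hε.le
  linarith

/-- a bound for one weight -/
theorem dade_of_PX_unit (hp2 : p ≠ 2) (hpO : (p : ℂ) ∈ O.nonunits) (hX : Ecl X)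
    (hX2 : X (Multiplicative (ZMod 2))) {s t : S} (hst : s * t ≠ t * s)
    (hS : X S) {z : ℂ} (hz0 : z ≠ 0) (hz : ∀ n : ℕ, 0 < n → z ^ n ≠ 1)
    (h : ∀ (G : Type) [i : Group G] (B : Set (G → ℂ)), PX p O X S G i B →
      ‖Wt p O z B‖ ≤ min 1 ‖z‖ ^ (Nat.card G).factorization p) :
    ∀ (G : Type) [i : Group G] (B : Set (G → ℂ)), CX p O X G i B → ∀ d, blkDef p O d B = 0 := by
  refine dade_of_unit hp2 hpO CX_adm (CX_sq hX) (CX_wr hp2 hpO hX hX2) hz0 hz ?_
  intro G _ B hB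
  have := hB.2.fin
  obtain ⟨Γ, i, B', h1, h2, _, h3⟩ := to_PX (S := S) hpO hX hst hS G hB.1 B (hB.2.good hpO)
  have := h1.2.2.fin
  rw [← h3]
  refine (h Γ B' h1).trans ?_
  have h4 : (Nat.card G).factorization p ≤ (Nat.card Γ).factorization p :=
    (Nat.factorization_le_iff_dvd Nat.card_pos.ne' Nat.card_pos.ne').2 h2 p
  exact pow_le_pow_of_le_one (le_min zero_le_one (norm_nonneg _)) (min_le_left _ _) h4

/-- **a subpolynomial bound for one weight** -/
theorem dade_of_PX_weight (hp2 : p ≠ 2) (hpO : (p : ℂ) ∈ O.nonunits) (hX : Ecl X)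
    (hX2 : X (Multiplicative (ZMod 2))) {s t : S} (hst : s * t ≠ t * s)
    (hS : X S) {z : ℂ} (hz0 : z ≠ 0) (hz : ∀ n : ℕ, 0 < n → z ^ n ≠ 1)
    (h : ∀ ε : ℝ, 0 < ε → ∃ c : ℝ, ∀ (G : Type) [i : Group G] (B : Set (G → ℂ)),
      PX p O X S G i B →
      ‖Wt p O z B‖ ≤ c * (Nat.card G : ℝ) ^ ε * min 1 ‖z‖ ^ (Nat.card G).factorization p) :
    ∀ (G : Type) [i : Group G] (B : Set (G → ℂ)), CX p O X G i B → ∀ d, blkDef p O d B = 0 := by
  refine dade_of_PX_unit hp2 hpO hX hX2 hst hS hz0 hz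
    (unit_of_sq PX_adm (PX_sq hX) hz0 fun ε hε => ?_)
  obtain ⟨c, hc⟩ := h ε hε
  refine ⟨c, fun G _ B hB => ?_⟩
  have := hB.2.2.fin
  have := Fintype.ofFinite G
  have hb := hB.2.2.block
  have h1 := hc _ _ (PX_sq hX G B hB)
  rwa [Wt_prod hb hb, norm_mul, ← pow_two] at h1

/-- **an upper bound for one real weight** -/
theorem dade_of_PX_real (hp2 : p ≠ 2) (hpO : (p : ℂ) ∈ O.nonunits) (hX : Ecl X)
    (hX2 : X (Multiplicative (ZMod 2))) {s t : S} (hst : s * t ≠ t * s)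
    (hS : X S) {z : ℝ} (hz0 : z ≠ 0) (hz1 : z ≠ 1) (hz2 : z ≠ -1)
    (h : ∀ ε : ℝ, 0 < ε → ∃ c : ℝ, ∀ (G : Type) [i : Group G] (B : Set (G → ℂ)),
      PX p O X S G i B → (Wt p O (z : ℂ) B).re ≤
        c * (Nat.card G : ℝ) ^ ε * min 1 |z| ^ (Nat.card G).factorization p) :
    ∀ (G : Type) [i : Group G] (B : Set (G → ℂ)), CX p O X G i B → ∀ d, blkDef p O d B = 0 := by
  refine dade_of_PX_unit hp2 hpO hX hX2 hst hS (z := (z : ℂ)) (by exact_mod_cast hz0) ?_
    (unit_of_sq PX_adm (PX_sq hX) (by exact_mod_cast hz0) fun ε hε => ?_)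
  · intro n hn h
    have h1 : z ^ n = 1 := by exact_mod_cast h
    have h2 : |z| ^ n = 1 := by rw [← abs_pow, h1, abs_one]
    have h3 := (pow_eq_one_iff_of_nonneg (abs_nonneg z) hn.ne').mp h2
    rcases eq_or_eq_neg_of_abs_eq h3 with h4 | h4
    · exact hz1 h4
    · exact hz2 h4
  · obtain ⟨c, hc⟩ := h ε hε
    refine ⟨c, fun G _ B hB => ?_⟩
    have := hB.2.2.fin
    have := Fintype.ofFinite G
    have hb := hB.2.2.block
    have h1 := hc _ _ (PX_sq hX G B hB)
    rw [Wt_prod hb hb] at h1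
    have h2 : Wt p O (z : ℂ) B = ((∑ d ∈ Finset.range ((Nat.card G).factorization p + 1),
        (blkDef p O d B : ℝ) * z ^ d : ℝ) : ℂ) := by
      rw [Wt_sum]
      push_cast
      rfl
    rw [h2] at h1 ⊢
    rw [← Complex.ofReal_mul, Complex.ofReal_re, ← pow_two] at h1
    rw [Complex.norm_real, Complex.norm_real, Real.norm_eq_abs, sq_abs, Real.norm_eq_abs]
    exact h1

/-- **parity and subpolynomial bounds, for all primes** -/
theorem dade_of_PX_even (hpO : (p : ℂ) ∈ O.nonunits) (hX : Ecl X) {s t : S}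
    (hst : s * t ≠ t * s) (hS : X S)
    (h : ∀ ε : ℝ, 0 < ε → ∃ c : ℝ, ∀ (G : Type) [i : Group G] (B : Set (G → ℂ)),
      PX p O X S G i B → ∀ d, (blkDef p O d B : ℝ) ≤ c * (Nat.card G : ℝ) ^ ε)
    (h2 : ∀ (G : Type) [i : Group G] (B : Set (G → ℂ)), PX p O X S G i B →
      (2 : ℤ) ∣ blkAlt p O B) (G : Type) [Group G] [Finite G] (hG : X G)
    (B : Set (G → ℂ)) (hB : GoodB O B) (d : ℕ) : blkDef p O d B = 0 := by
  obtain ⟨Γ, i, B', h1, _, h3, _⟩ := to_PX (S := S) hpO hX hst hS G hG B hB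
  rw [← h3]
  have := h1.2.2.fin
  have := Fintype.ofFinite Γ
  obtain ⟨h4, h5⟩ := single_of_sq (sq_le_one PX_adm (PX_sq hX) h Γ B' h1)
  by_contra hd
  have h6 : blkAlt p O B' = blkDef p O d B' := by
    have h7 := Wt_sum (p := p) (O := O) (B := B') 1
    rw [Wt_one] at h7
    simp only [one_pow, mul_one] at h7
    have h8 : blkAlt p O B' = ∑ d ∈ Finset.range ((Nat.card Γ).factorization p + 1),
        blkDef p O d B' := by exact_mod_cast h7
    rw [h8]
    refine Finset.sum_eq_single d (fun e _ hne => ?_) fun hn => ?_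
    · by_contra he
      exact hne (h5 e d he hd)
    · rw [Finset.mem_range, Nat.lt_succ_iff, not_le] at hn
      exact blkDef_zero hn
  have h7 := h2 Γ B' h1
  rw [h6] at h7
  have h8 := abs_le.mp (h4 d)
  omega

end

end Pool.Agent.P8H58.FR
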