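import Pool.Agent.N19.RB.FR

/-!
# The irreducible characters of a semidirect product with an abelian normal subgroup
-/

set_option autoImplicit false
set_option linter.unusedSectionVars false

open scoped BigOperators Classical

noncomputable section

namespace Pool.Agent.P8H58.FR

open Pool.Agent.Q90.WR Pool.Agent.H254R3.IN Pool.Agent.Q259.BW
open Pool.Agent.Helper884 Pool.Agent.N19.RB

open SemidirectProduct (inl inr)

section basic

variable {A M : Type} [CommGroup A] [Group M] [Fintype A] [Fintype M] (φ : M →* MulAut A)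

/-- the stabiliser of a linear character of the normal subgroup -/
def st (μ : A →* ℂˣ) : Subgroup M where
  carrier := {m | ∀ a, μ (φ m a) = μ a}
  mul_mem' := by
    intro a b ha hb x
    rw [map_mul, MulAut.mul_apply, ha, hb]
  one_mem' := by
    intro x
    rw [map_one, MulAut.one_apply]
  inv_mem' := by
    intro a ha x
    have h := ha ((φ a⁻¹) x)
    rw [← MulAut.mul_apply, ← map_mul, mul_inv_cancel, map_one, MulAut.one_apply] at h
    exact h.symm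

variable {φ}

theorem mem_st {μ : A →* ℂˣ} {m : M} : m ∈ st φ μ ↔ ∀ a, μ (φ m a) = μ a := Iff.rfl

/-- the component of a function at a linear character -/
def cp (μ : A →* ℂˣ) (θ : A ⋊[φ] M → ℂ) (h : M) : ℂ :=
  (Nat.card A : ℂ)⁻¹ * ∑ a, ((μ a : ℂ))⁻¹ * θ ⟨a, h⟩

/-- the extension of `μ ⊗ ψ` by zero -/
def xt (μ : A →* ℂˣ) (ψ : st φ μ → ℂ) (x : A ⋊[φ] M) : ℂ :=
  if h : x.right ∈ st φ μ then (μ x.left : ℂ) * ψ ⟨x.right, h⟩ else 0

/-- the induced function -/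
def ix (μ : A →* ℂˣ) (ψ : st φ μ → ℂ) (x : A ⋊[φ] M) : ℂ :=
  (Nat.card (st φ μ) : ℂ)⁻¹ * ∑ m : M, xt μ ψ (inr m * x * inr m⁻¹)

theorem conj_inr (m : M) (x : A ⋊[φ] M) :
    (inr m * x * inr m⁻¹ : A ⋊[φ] M) = ⟨φ m x.left, m * x.right * m⁻¹⟩ := by
  refine SemidirectProduct.ext ?_ ?_
  · simp
  · simp

theorem xt_mk (μ : A →* ℂˣ) (ψ : st φ μ → ℂ) (a : A) (h : M) (hh : h ∈ st φ μ) :
    xt μ ψ ⟨a, h⟩ = (μ a : ℂ) * ψ ⟨h, hh⟩ := dif_pos hh

theorem xt_not (μ : A →* ℂˣ) (ψ : st φ μ → ℂ) (a : A) (h : M) (hh : h ∉ st φ μ) :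
    xt μ ψ ⟨a, h⟩ = 0 := dif_neg hh

theorem xt_inl (μ : A →* ℂˣ) (ψ : st φ μ → ℂ) (a : A) (x : A ⋊[φ] M) :
    xt μ ψ (inl a * x * inl a⁻¹) = xt μ ψ x := by
  have e : (inl a * x * inl a⁻¹ : A ⋊[φ] M) = ⟨a * x.left * φ x.right a⁻¹, x.right⟩ := by
    refine SemidirectProduct.ext ?_ ?_
    · simp
    · simp
  rw [e]
  by_cases h : x.right ∈ st φ μ
  · have h1 : xt μ ψ x = (μ x.left : ℂ) * ψ ⟨x.right, h⟩ := dif_pos h
    rw [xt_mk μ ψ _ _ h, h1]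
    congr 1
    rw [map_mul, map_mul, mem_st.mp h, map_inv]
    have h2 : μ a * μ x.left * (μ a)⁻¹ = μ x.left := by
      rw [mul_comm (μ a), mul_assoc, mul_inv_cancel, mul_one]
    rw [h2]
  · have h1 : xt μ ψ x = 0 := dif_neg h
    rw [xt_not μ ψ _ _ h, h1]

theorem ix_inr (μ : A →* ℂˣ) (ψ : st φ μ → ℂ) (m : M) (x : A ⋊[φ] M) :
    ix μ ψ (inr m * x * inr m⁻¹) = ix μ ψ x := by
  unfold ix
  congr 1
  refine Fintype.sum_equiv (Equiv.mulRight m) _ _ fun n => ?_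
  congr 1
  rw [Equiv.coe_mulRight, map_mul, mul_inv_rev, map_mul]
  group

theorem ix_inl (μ : A →* ℂˣ) (ψ : st φ μ → ℂ) (a : A) (x : A ⋊[φ] M) :
    ix μ ψ (inl a * x * inl a⁻¹) = ix μ ψ x := by
  unfold ix
  congr 1
  refine Finset.sum_congr rfl fun m _ => ?_
  have h1 : (inr m * (inl a * x * inl a⁻¹) * inr m⁻¹ : A ⋊[φ] M) =
      inl (φ m a) * (inr m * x * inr m⁻¹) * inl (φ m a)⁻¹ := by
    have h2 : (inr m * inl a : A ⋊[φ] M) = inl (φ m a) * inr m := by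
      refine SemidirectProduct.ext ?_ ?_
      · simp
      · simp
    have h3 : (inl a⁻¹ * inr m⁻¹ : A ⋊[φ] M) = inr m⁻¹ * inl (φ m a)⁻¹ := by
      refine SemidirectProduct.ext ?_ ?_
      · simp
      · simp
    calc (inr m * (inl a * x * inl a⁻¹) * inr m⁻¹ : A ⋊[φ] M)
        = (inr m * inl a) * x * (inl a⁻¹ * inr m⁻¹) := by group
      _ = _ := by rw [h2, h3]; group
  rw [h1, xt_inl]

theorem ix_cl (μ : A →* ℂˣ) (ψ : st φ μ → ℂ) : IsCl (ix μ ψ) := by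
  intro g y
  have e : y = inl y.left * inr y.right := (SemidirectProduct.inl_left_mul_inr_right y).symm
  have h1 : y * g * y⁻¹ = inl y.left * (inr y.right * g * inr y.right⁻¹) * inl y.left⁻¹ := by
    conv_lhs => rw [e]
    rw [mul_inv_rev, ← map_inv, ← map_inv]
    group
  rw [h1, ix_inl, ix_inr]

theorem ix_one (μ : A →* ℂˣ) (ψ : st φ μ → ℂ) :
    ix μ ψ 1 = (Nat.card (st φ μ) : ℂ)⁻¹ * (Nat.card M * ψ 1) := by
  unfold ix
  have h : ∀ m : M, xt μ ψ (inr m * 1 * inr m⁻¹) = ψ 1 := by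
    intro m
    have h1 : (inr m * 1 * inr m⁻¹ : A ⋊[φ] M) = ⟨1, 1⟩ := by
      rw [conj_inr]
      refine SemidirectProduct.ext ?_ ?_
      · simp
      · simp
    rw [h1, xt_mk μ ψ _ _ (st φ μ).one_mem, map_one, Units.val_one, one_mul]
    rfl
  rw [Finset.sum_congr rfl fun m _ => h m, Finset.sum_const, nsmul_eq_mul, Finset.card_univ,
    Nat.card_eq_fintype_card (α := M)]

/-- sums against the induced function -/
theorem sum_ix (μ : A →* ℂˣ) (ψ : st φ μ → ℂ) {g : A ⋊[φ] M → ℂ} (hg : IsCl g) :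
    ∑ x, ix μ ψ x * g x = (Nat.card (st φ μ) : ℂ)⁻¹ * (Nat.card M * ∑ x, xt μ ψ x * g x) := by
  unfold ix
  simp only [mul_assoc, Finset.sum_mul]
  rw [← Finset.mul_sum, Finset.sum_comm]
  congr 1
  have h : ∀ m : M, ∑ x, xt μ ψ (inr m * x * inr m⁻¹) * g x = ∑ x, xt μ ψ x * g x := by
    intro m
    refine Fintype.sum_equiv (MulAut.conj (inr m)).toEquiv _ _ fun x => ?_
    have e : (MulAut.conj (inr m : A ⋊[φ] M)).toEquiv x = inr m * x * (inr m)⁻¹ := rfl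
    rw [e, ← map_inv, ← hg x (inr m), ← map_inv]
  have h' : ∀ m : M, ∑ x, xt μ ψ (inr m * (x * inr m⁻¹)) * g x = ∑ x, xt μ ψ x * g x := by
    intro m
    rw [← h m]
    refine Finset.sum_congr rfl fun x _ => ?_
    rw [mul_assoc]
  rw [Finset.sum_congr rfl fun m _ => h' m, Finset.sum_const, nsmul_eq_mul, Finset.card_univ,
    Nat.card_eq_fintype_card (α := M)]

/-- sums over the stabiliser -/
theorem sum_sub {S : Subgroup M} {R : Type} [AddCommMonoid R] (f : M → R)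
    (hf : ∀ m, m ∉ S → f m = 0) : ∑ m, f m = ∑ s : S, f s := by
  rw [← Finset.sum_subtype (Finset.univ.filter (fun m => m ∈ S)) (by simp) f]
  symm
  refine Finset.sum_subset (Finset.subset_univ _) fun m _ hm => ?_
  apply hf
  intro h
  exact hm (Finset.mem_filter.mpr ⟨Finset.mem_univ _, h⟩)

theorem sum_xt (μ : A →* ℂˣ) (ψ : st φ μ → ℂ) (g : A ⋊[φ] M → ℂ) :
    ∑ x, xt μ ψ x * g x = ∑ s : st φ μ, ψ s * ∑ a, (μ a : ℂ) * g ⟨a, s⟩ := by
  rw [sum_sd, Finset.sum_comm]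
  rw [sum_sub (S := st φ μ) (fun m => ∑ a, xt μ ψ ⟨a, m⟩ * g ⟨a, m⟩) (fun m hm => by
    refine Finset.sum_eq_zero fun a _ => ?_
    rw [xt_not μ ψ a m hm, zero_mul])]
  refine Finset.sum_congr rfl fun s _ => ?_
  rw [Finset.mul_sum]
  refine Finset.sum_congr rfl fun a _ => ?_
  rw [xt_mk μ ψ a s s.2]
  ring

/-- Frobenius reciprocity -/
theorem B_ix (μ : A →* ℂˣ) (ψ : st φ μ → ℂ) {g : A ⋊[φ] M → ℂ} (hg : IsCl g) :
    IC.B (ix μ ψ) g = IC.B ψ (fun s => cp μ g s) := by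
  unfold IC.B
  rw [sum_ix μ ψ (cl_inv hg), sum_xt, card_sd]
  have hA : (Nat.card A : ℂ) ≠ 0 := cardG_ne A
  have hM : (Nat.card M : ℂ) ≠ 0 := cardG_ne M
  have hS : (Nat.card (st φ μ) : ℂ) ≠ 0 := cardG_ne _
  have h1 : ∀ s : st φ μ, ∑ a, (μ a : ℂ) * g (⟨a, (s : M)⟩ : A ⋊[φ] M)⁻¹ =
      Nat.card A * cp μ g ((s : M)⁻¹) := by
    intro s
    unfold cp
    rw [← mul_assoc, mul_inv_cancel₀ hA, one_mul]
    refine Fintype.sum_equiv ((MulEquiv.inv A).trans (φ (s : M)⁻¹)).toEquiv _ _ fun a => ?_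
    have e : ((MulEquiv.inv A).trans (φ (s : M)⁻¹)).toEquiv a = φ (s : M)⁻¹ a⁻¹ := rfl
    rw [e]
    have h2 : (⟨a, (s : M)⟩ : A ⋊[φ] M)⁻¹ = ⟨φ (s : M)⁻¹ a⁻¹, (s : M)⁻¹⟩ := rfl
    rw [h2]
    congr 1
    rw [mem_st.mp ((st φ μ).inv_mem s.2), map_inv, Units.val_inv_eq_inv_val, inv_inv]
  rw [Finset.sum_congr rfl fun s _ => by rw [h1 s]]
  have h3 : ∑ s : st φ μ, ψ s * (Nat.card A * cp μ g ((s : M)⁻¹)) =
      Nat.card A * ∑ s : st φ μ, ψ s * cp μ g (((s⁻¹ : st φ μ)) : M) := by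
    rw [Finset.mul_sum]
    refine Finset.sum_congr rfl fun s _ => ?_
    rw [Subgroup.coe_inv]
    ring
  rw [h3]
  push_cast
  field_simp

theorem sum_char (μ ν : A →* ℂˣ) :
    ∑ a, ((μ a : ℂ))⁻¹ * (ν a : ℂ) = if ν = μ then (Nat.card A : ℂ) else 0 := by
  split_ifs with h
  · rw [h]
    have : ∀ a : A, ((μ a : ℂ))⁻¹ * (μ a : ℂ) = 1 := fun a => inv_mul_cancel₀ (Units.ne_zero _)
    rw [Finset.sum_congr rfl fun a _ => this a, Finset.sum_const, Finset.card_univ, nsmul_eq_mul,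
      mul_one, Nat.card_eq_fintype_card]
  · have hb : ∃ b : A, ((μ b : ℂ))⁻¹ * (ν b : ℂ) ≠ 1 := by
      by_contra hcon
      push Not at hcon
      apply h
      ext b
      have := hcon b
      rw [inv_mul_eq_iff_eq_mul₀ (Units.ne_zero _), mul_one] at this
      exact this
    obtain ⟨b, hb⟩ := hb
    have h1 : ∑ a, ((μ a : ℂ))⁻¹ * (ν a : ℂ) =
        (((μ b : ℂ))⁻¹ * (ν b : ℂ)) * ∑ a, ((μ a : ℂ))⁻¹ * (ν a : ℂ) := by
      rw [Finset.mul_sum]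
      symm
      refine Fintype.sum_equiv (Equiv.mulLeft b) _ _ fun a => ?_
      rw [Equiv.coe_mulLeft, map_mul, map_mul]
      push_cast
      rw [mul_inv]
      ring
    have h2 : (1 - ((μ b : ℂ))⁻¹ * (ν b : ℂ)) * ∑ a, ((μ a : ℂ))⁻¹ * (ν a : ℂ) = 0 := by
      rw [sub_mul, one_mul, ← h1, sub_self]
    rcases mul_eq_zero.mp h2 with h3 | h3
    · exact absurd (sub_eq_zero.mp h3).symm hb
    · exact h3

/-- the component of the induced function -/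
theorem cp_ix (μ : A →* ℂˣ) {ψ : st φ μ → ℂ} (hψ : IsCl ψ) (h : st φ μ) :
    cp μ (ix μ ψ) h = ψ h := by
  have hA : (Nat.card A : ℂ) ≠ 0 := cardG_ne A
  have hS : (Nat.card (st φ μ) : ℂ) ≠ 0 := cardG_ne _
  unfold cp ix
  have e1 : ∀ m : M, ∑ a, ((μ a : ℂ))⁻¹ * xt μ ψ (inr m * ⟨a, (h : M)⟩ * inr m⁻¹) =
      if m ∈ st φ μ then (Nat.card A : ℂ) * ψ h else 0 := by
    intro m
    by_cases hc : m * (h : M) * m⁻¹ ∈ st φ μ
    · have h1 : ∀ a : A, ((μ a : ℂ))⁻¹ * xt μ ψ (inr m * ⟨a, (h : M)⟩ * inr m⁻¹) =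
          (((μ a : ℂ))⁻¹ * (μ.comp (φ m).toMonoidHom a : ℂ)) * ψ ⟨m * (h : M) * m⁻¹, hc⟩ := by
        intro a
        rw [conj_inr, xt_mk μ ψ _ _ hc]
        have : μ.comp (φ m).toMonoidHom a = μ (φ m a) := rfl
        rw [this]
        ring
      rw [Finset.sum_congr rfl fun a _ => h1 a, ← Finset.sum_mul, sum_char]
      have h2 : μ.comp (φ m).toMonoidHom = μ ↔ m ∈ st φ μ := by
        rw [mem_st, MonoidHom.ext_iff]
        rfl
      by_cases hm : m ∈ st φ μ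
      · rw [if_pos (h2.mpr hm), if_pos hm]
        congr 1
        exact hψ h ⟨m, hm⟩
      · rw [if_neg (fun h' => hm (h2.mp h')), if_neg hm, zero_mul]
    · have hm : m ∉ st φ μ := fun hm => hc
        ((st φ μ).mul_mem ((st φ μ).mul_mem hm h.2) ((st φ μ).inv_mem hm))
      rw [if_neg hm]
      refine Finset.sum_eq_zero fun a _ => ?_
      rw [conj_inr, xt_not μ ψ _ _ hc, mul_zero]
  have e2 : ∑ a, ((μ a : ℂ))⁻¹ * ((Nat.card (st φ μ) : ℂ)⁻¹ *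
      ∑ m : M, xt μ ψ (inr m * ⟨a, (h : M)⟩ * inr m⁻¹)) =
      (Nat.card (st φ μ) : ℂ)⁻¹ * ∑ m : M, if m ∈ st φ μ then (Nat.card A : ℂ) * ψ h else 0 := by
    rw [← Finset.sum_congr rfl fun m _ => e1 m, Finset.sum_comm, Finset.mul_sum]
    refine Finset.sum_congr rfl fun a _ => ?_
    rw [← Finset.mul_sum]
    ring
  rw [e2, ← Finset.sum_filter, Finset.sum_const, nsmul_eq_mul]
  have h3 : (Finset.univ.filter (fun m : M => m ∈ st φ μ)).card = Nat.card (st φ μ) := by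
    rw [Nat.card_eq_fintype_card, Fintype.card_subtype]
  rw [h3]
  field_simp

end basic

end Pool.Agent.P8H58.FR
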