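import Pool.Agent.P8H58.Lgp

/-!
# The irreducible characters of a semidirect product with an abelian normal subgroup: counting
-/

set_option autoImplicit false
set_option linter.unusedSectionVars false

open scoped BigOperators Classical

noncomputable section

namespace Pool.Agent.P8H58.FR

open Pool.Agent.Q90.WR Pool.Agent.H254R3.IN Pool.Agent.Q259.BW
open Pool.Agent.Helper884 Pool.Agent.N19.RB

open SemidirectProduct (inl inr)

theorem neZero_exp (A : Type) [Group A] [Finite A] : NeZero ((Monoid.exponent A : ℕ) : ℂ) :=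
  ⟨Nat.cast_ne_zero.mpr Monoid.exponent_ne_zero_of_finite⟩

instance finDual (A : Type) [CommGroup A] [Finite A] : Finite (A →* ℂˣ) := by
  have := neZero_exp A
  infer_instance

instance fintypeDual (A : Type) [CommGroup A] [Finite A] : Fintype (A →* ℂˣ) := Fintype.ofFinite _

theorem card_dual (A : Type) [CommGroup A] [Finite A] : Nat.card (A →* ℂˣ) = Nat.card A := by
  have := neZero_exp A
  exact CommGroup.card_monoidHom_of_hasEnoughRootsOfUnity A ℂ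

theorem sum_dual {A : Type} [CommGroup A] [Finite A] (a : A) :
    ∑ μ : A →* ℂˣ, ((μ a : ℂ))⁻¹ = if a = 1 then (Nat.card A : ℂ) else 0 := by
  have := neZero_exp A
  split_ifs with h
  · subst h
    simp only [map_one, Units.val_one, inv_one]
    rw [Finset.sum_const, Finset.card_univ, nsmul_eq_mul, mul_one, ← Nat.card_eq_fintype_card,
      card_dual]
  · obtain ⟨ν, hν⟩ := CommGroup.exists_apply_ne_one_of_hasEnoughRootsOfUnity A ℂ h
    have h1 : ∑ μ : A →* ℂˣ, ((μ a : ℂ))⁻¹ = ((ν a : ℂ))⁻¹ * ∑ μ : A →* ℂˣ, ((μ a : ℂ))⁻¹ := by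
      rw [Finset.mul_sum]
      symm
      refine Fintype.sum_equiv (Equiv.mulLeft ν) _ _ fun μ => ?_
      rw [Equiv.coe_mulLeft, MonoidHom.mul_apply]
      push_cast
      rw [mul_inv]
    have h2 : (1 - ((ν a : ℂ))⁻¹) * ∑ μ : A →* ℂˣ, ((μ a : ℂ))⁻¹ = 0 := by
      rw [sub_mul, one_mul, ← h1, sub_self]
    rcases mul_eq_zero.mp h2 with h3 | h3
    · exfalso
      apply hν
      have h4 : ((ν a : ℂ))⁻¹ = 1 := (sub_eq_zero.mp h3).symm
      rw [inv_eq_one] at h4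
      exact Units.ext h4
    · exact h3

section basic

variable {A M : Type} [CommGroup A] [Group M] [Fintype A] [Fintype M] {φ : M →* MulAut A}

theorem sum_inv (μ : A →* ℂˣ) (g : A ⋊[φ] M → ℂ) (s : st φ μ) :
    ∑ a, (μ a : ℂ) * g (⟨a, (s : M)⟩ : A ⋊[φ] M)⁻¹ = Nat.card A * cp μ g ((s : M)⁻¹) := by
  have hA : (Nat.card A : ℂ) ≠ 0 := cardG_ne A
  unfold cp
  rw [← mul_assoc, mul_inv_cancel₀ hA, one_mul]
  refine Fintype.sum_equiv ((MulEquiv.inv A).trans (φ (s : M)⁻¹)).toEquiv _ _ fun a => ?_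
  have e : ((MulEquiv.inv A).trans (φ (s : M)⁻¹)).toEquiv a = φ (s : M)⁻¹ a⁻¹ := rfl
  rw [e]
  have h2 : (⟨a, (s : M)⟩ : A ⋊[φ] M)⁻¹ = ⟨φ (s : M)⁻¹ a⁻¹, (s : M)⁻¹⟩ := rfl
  rw [h2]
  congr 1
  rw [mem_st.mp ((st φ μ).inv_mem s.2), map_inv, Units.val_inv_eq_inv_val, inv_inv]

/-- the action of the stabiliser -/
abbrev phs (φ : M →* MulAut A) (μ : A →* ℂˣ) : st φ μ →* MulAut A := φ.comp (st φ μ).subtype

/-- the inclusion -/
def inc (μ : A →* ℂˣ) : A ⋊[phs φ μ] st φ μ →* A ⋊[φ] M :=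
  SemidirectProduct.map (MonoidHom.id A) (st φ μ).subtype (fun _ => rfl)

theorem inc_mk (μ : A →* ℂˣ) (a : A) (s : st φ μ) : inc μ ⟨a, s⟩ = (⟨a, (s : M)⟩ : A ⋊[φ] M) := rfl

/-- the representation `μ ⊗ ρ` -/
def tau {V : Type} [AddCommGroup V] [Module ℂ V] (μ : A →* ℂˣ)
    (ρ : Representation ℂ (st φ μ) V) : Representation ℂ (A ⋊[phs φ μ] st φ μ) V where
  toFun x := (μ x.left : ℂ) • ρ x.right
  map_one' := by
    simp
  map_mul' x y := by
    have h1 : μ ((phs φ μ) x.right y.left) = μ y.left := mem_st.mp x.right.2 y.left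
    rw [SemidirectProduct.mul_left, SemidirectProduct.mul_right, map_mul, map_mul, h1,
      smul_mul_smul_comm]
    push_cast
    rfl

theorem tau_char {V : Type} [AddCommGroup V] [Module ℂ V] [FiniteDimensional ℂ V] (μ : A →* ℂˣ)
    (ρ : Representation ℂ (st φ μ) V) (x : A ⋊[phs φ μ] st φ μ) :
    (tau μ ρ).character x = (μ x.left : ℂ) * ρ.character x.right := by
  unfold Representation.character
  have : tau μ ρ x = (μ x.left : ℂ) • ρ x.right := rfl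
  rw [this, map_smul, smul_eq_mul]

/-- the multiplicities are natural numbers -/
theorem B_ix_nat {μ : A →* ℂˣ} {ψ : st φ μ → ℂ} (hψ : IsIrr ψ) {χ : A ⋊[φ] M → ℂ}
    (hχ : IsIrr χ) : ∃ n : ℕ, IC.B (ix μ ψ) χ = n := by
  have hχc : IsCl χ := hχ.conj
  rw [B_ix μ ψ hχc]
  obtain ⟨V, _, _, _, ρ, hρ, rfl⟩ := hψ
  obtain ⟨W, _, _, _, σ, hσ, rfl⟩ := hχ
  obtain ⟨n, hn⟩ := B_nat (tau μ ρ) (σ.comp (inc μ))
  refine ⟨n, ?_⟩
  rw [← hn]
  unfold IC.B
  have e : (Representation.character (σ.comp (inc μ))) = fun x => σ.character (inc μ x) := rfl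
  rw [e, card_sd, sum_sd, Finset.sum_comm]
  have h1 : ∀ s : st φ μ, ∑ a, (tau μ ρ).character ⟨a, s⟩ * σ.character (inc μ (⟨a, s⟩)⁻¹) =
      Nat.card A * (ρ.character s * cp μ σ.character ((s : M)⁻¹)) := by
    intro s
    rw [mul_left_comm, ← sum_inv μ σ.character s, Finset.mul_sum]
    refine Finset.sum_congr rfl fun a _ => ?_
    rw [tau_char, map_inv, inc_mk]
    ring
  rw [Finset.sum_congr rfl fun s _ => h1 s, ← Finset.mul_sum]
  have hA : (Nat.card A : ℂ) ≠ 0 := cardG_ne A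
  have hS : (Nat.card (st φ μ) : ℂ) ≠ 0 := cardG_ne _
  simp only [Subgroup.coe_inv]
  push_cast
  field_simp

theorem ix_one_eq {μ : A →* ℂˣ} (ψ : st φ μ → ℂ) :
    (Nat.card (st φ μ) : ℂ) * ix μ ψ 1 = Nat.card M * ψ 1 := by
  have hS : (Nat.card (st φ μ) : ℂ) ≠ 0 := cardG_ne _
  rw [ix_one]
  field_simp

theorem B_self {G : Type} [Group G] [Fintype G] {ψ : G → ℂ} (hψ : IsIrr ψ) : IC.B ψ ψ = 1 := by
  rw [IC.B_irr hψ hψ, if_pos rfl]

/-- the induced characters are irreducible -/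
theorem ix_irr {μ : A →* ℂˣ} {ψ : st φ μ → ℂ} (hψ : IsIrr ψ) : IsIrr (ix μ ψ) := by
  apply irr_of_norm (ix_cl μ ψ)
  · intro χ hχ
    obtain ⟨n, hn⟩ := B_ix_nat hψ hχ
    exact ⟨n, by rw [hn]; push_cast; rfl⟩
  · rw [B_ix μ ψ (ix_cl μ ψ)]
    have : (fun s : st φ μ => cp μ (ix μ ψ) s) = ψ := by
      funext s
      exact cp_ix μ hψ.conj s
    rw [this]
    exact B_self hψ
  · obtain ⟨d, _, hd⟩ := hψ.deg
    refine ⟨(st φ μ).index * d, ?_⟩
    have h1 := ix_one_eq ψ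
    have hS : (Nat.card (st φ μ) : ℂ) ≠ 0 := cardG_ne _
    apply mul_left_cancel₀ hS
    rw [h1, ← hd, ← (st φ μ).card_mul_index]
    push_cast
    ring

theorem cp_cl (μ : A →* ℂˣ) {θ : A ⋊[φ] M → ℂ} (hθ : IsCl θ) :
    IsCl (fun s : st φ μ => cp μ θ s) := by
  intro g y
  change cp μ θ ((y * g * y⁻¹ : st φ μ) : M) = cp μ θ (g : M)
  unfold cp
  congr 1
  symm
  refine Fintype.sum_equiv (φ (y : M)).toEquiv _ _ fun a => ?_
  have e : (φ (y : M)).toEquiv a = φ (y : M) a := rfl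
  rw [e, mem_st.mp y.2]
  congr 1
  have h1 : (⟨φ (y : M) a, ((y * g * y⁻¹ : st φ μ) : M)⟩ : A ⋊[φ] M) =
      inr (y : M) * ⟨a, (g : M)⟩ * inr (y : M)⁻¹ := by
    rw [conj_inr]
    rfl
  rw [h1, map_inv]
  exact (hθ _ _).symm

theorem B_comm' {G : Type} [Group G] [Fintype G] (f h : G → ℂ) : IC.B f h = IC.B h f :=
  IC.B_comm f h

/-- the degree of a component -/
theorem cp_one (μ : A →* ℂˣ) {θ : A ⋊[φ] M → ℂ} (hθ : IsIrr θ) :
    cp μ θ 1 = ∑ ψ ∈ IC.Irr (st φ μ), if ix μ ψ = θ then ψ 1 else 0 := by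
  have h1 := IC.expand (fun s : st φ μ => cp μ θ s) (cp_cl μ hθ.conj)
  have h2 := congrFun h1 1
  rw [Finset.sum_apply] at h2
  have h3 : cp μ θ ((1 : st φ μ) : M) = cp μ θ 1 := rfl
  rw [h3] at h2
  rw [h2]
  refine Finset.sum_congr rfl fun ψ hψ => ?_
  have hψ' : IsIrr ψ := IC.mem_Irr.mp hψ
  rw [Pi.smul_apply, B_comm', ← B_ix μ ψ hθ.conj, IC.B_irr (ix_irr hψ') hθ]
  split_ifs
  · rw [one_smul]
  · rw [zero_smul]

theorem sum_cp_one (θ : A ⋊[φ] M → ℂ) : ∑ μ : A →* ℂˣ, cp μ θ 1 = θ 1 := by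
  have hA : (Nat.card A : ℂ) ≠ 0 := cardG_ne A
  unfold cp
  rw [← Finset.mul_sum, Finset.sum_comm]
  have h1 : ∀ a : A, ∑ μ : A →* ℂˣ, ((μ a : ℂ))⁻¹ * θ ⟨a, 1⟩ =
      if a = 1 then (Nat.card A : ℂ) * θ 1 else 0 := by
    intro a
    rw [← Finset.sum_mul, sum_dual]
    split_ifs with h
    · subst h
      rfl
    · rw [zero_mul]
  rw [Finset.sum_congr rfl fun a _ => h1 a, Finset.sum_ite_eq' _ (1 : A),
    if_pos (Finset.mem_univ _)]
  field_simp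

/-- every irreducible character is induced, with the right multiplicity -/
theorem count_one {θ : A ⋊[φ] M → ℂ} (hθ : IsIrr θ) :
    ∑ μ : A →* ℂˣ, ∑ ψ ∈ IC.Irr (st φ μ), (if ix μ ψ = θ then Nat.card (st φ μ) else 0) =
      Nat.card M := by
  have h1 : ∀ μ : A →* ℂˣ, ∀ ψ ∈ IC.Irr (st φ μ),
      (((if ix μ ψ = θ then Nat.card (st φ μ) else 0 : ℕ) : ℂ)) =
        (Nat.card M : ℂ) * (θ 1)⁻¹ * (if ix μ ψ = θ then ψ 1 else 0) := by
    intro μ ψ hψ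
    split_ifs with h
    · have h2 := ix_one_eq ψ
      rw [h] at h2
      have h3 := hθ.one_ne
      field_simp
      exact h2
    · rw [Nat.cast_zero, mul_zero]
  have h2 : ((∑ μ : A →* ℂˣ, ∑ ψ ∈ IC.Irr (st φ μ),
      (if ix μ ψ = θ then Nat.card (st φ μ) else 0) : ℕ) : ℂ) = (Nat.card M : ℂ) := by
    push_cast
    have h3 : ∀ μ : A →* ℂˣ, ∑ ψ ∈ IC.Irr (st φ μ),
        (((if ix μ ψ = θ then Nat.card (st φ μ) else 0 : ℕ) : ℂ)) =
        (Nat.card M : ℂ) * (θ 1)⁻¹ * cp μ θ 1 := by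
      intro μ
      rw [Finset.sum_congr rfl fun ψ hψ => h1 μ ψ hψ, ← Finset.mul_sum, ← cp_one μ hθ]
    have h4 : ∀ μ : A →* ℂˣ, ∑ ψ ∈ IC.Irr (st φ μ),
        (if ix μ ψ = θ then (Nat.card (st φ μ) : ℂ) else 0) =
        (Nat.card M : ℂ) * (θ 1)⁻¹ * cp μ θ 1 := by
      intro μ
      rw [← h3 μ]
      refine Finset.sum_congr rfl fun ψ _ => ?_
      split_ifs
      · rfl
      · rw [Nat.cast_zero]
    rw [Finset.sum_congr rfl fun μ _ => h4 μ, ← Finset.mul_sum, sum_cp_one]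
    have h5 := hθ.one_ne
    field_simp
  exact_mod_cast h2

/-- sums over the irreducible characters -/
theorem sum_Irr_sd {R : Type} [CommRing R] (F : (A ⋊[φ] M → ℂ) → R) :
    (Nat.card M : R) * ∑ θ ∈ IC.Irr (A ⋊[φ] M), F θ =
      ∑ μ : A →* ℂˣ, (Nat.card (st φ μ) : R) * ∑ ψ ∈ IC.Irr (st φ μ), F (ix μ ψ) := by
  have h1 : ∀ μ : A →* ℂˣ, ∀ ψ ∈ IC.Irr (st φ μ), F (ix μ ψ) =
      ∑ θ ∈ IC.Irr (A ⋊[φ] M), if ix μ ψ = θ then F θ else 0 := by
    intro μ ψ hψ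
    rw [Finset.sum_ite_eq, if_pos]
    exact IC.mem_Irr.mpr (ix_irr (IC.mem_Irr.mp hψ))
  have h2 : ∀ μ : A →* ℂˣ, (Nat.card (st φ μ) : R) * ∑ ψ ∈ IC.Irr (st φ μ), F (ix μ ψ) =
      ∑ θ ∈ IC.Irr (A ⋊[φ] M), ((∑ ψ ∈ IC.Irr (st φ μ),
        (if ix μ ψ = θ then Nat.card (st φ μ) else 0) : ℕ) : R) * F θ := by
    intro μ
    rw [Finset.sum_congr rfl fun ψ hψ => h1 μ ψ hψ, Finset.sum_comm, Finset.mul_sum]
    refine Finset.sum_congr rfl fun θ _ => ?_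
    rw [Finset.mul_sum]
    push_cast
    rw [Finset.sum_mul]
    refine Finset.sum_congr rfl fun ψ _ => ?_
    split_ifs
    · rfl
    · rw [mul_zero, zero_mul]
  rw [Finset.sum_congr rfl fun μ _ => h2 μ, Finset.sum_comm, Finset.mul_sum]
  refine Finset.sum_congr rfl fun θ hθ => ?_
  rw [← Finset.sum_mul]
  congr 1
  have h3 := count_one (IC.mem_Irr.mp hθ)
  rw [← h3]
  push_cast
  rfl

end basic

end Pool.Agent.P8H58.FR
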