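import Pool.Agent.P8H58.Clif
import Pool.Agent.N85.WM.Ww

/-!
# Comparing the numbers of weights of a group and of a normal subgroup
-/

set_option autoImplicit false
set_option linter.unusedSectionVars false

open scoped Classical

noncomputable section

namespace Pool.Agent.P8H58

open Pool.Agent.Y63.NV
open Pool.Agent.Y63.AWC (IsIrreducibleCharacter)
open Pool.Agent.N85.WM (IsW wcv)
open Pool.Agent.N85.WM.Ww (tot)

variable {F : Type} [Field F] (p : ℕ) (red : integralClosure ℤ ℂ →+* F)

/-- the weights on which `z` does not act as zero, each counted with the order of the normalizer -/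
def WT {H : Type} [Group H] (z : H → F) : ℤ := tot (fun Q χ => IsW p Q χ ∧ wcv red Q χ z ≠ 0)

/-- the term for one subgroup -/
def wterm {H : Type} [Group H] (z : H → F) (Q : Subgroup H) : ℕ :=
  if IsPGroup p Q then Nat.card (Subgroup.normalizer (Q : Set H)) *
    nw p red (Q.subgroupOf (Subgroup.normalizer (Q : Set H))) (fun x => z x) else 0

variable {p red}

theorem WT_eq {H : Type} [Group H] [Finite H] (z : H → F) :
    WT p red z = ((∑ᶠ Q : Subgroup H, wterm p red z Q : ℕ) : ℤ) := by
  have : Fintype (Subgroup H) := Fintype.ofFinite _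
  unfold WT tot
  rw [finsum_eq_sum_of_fintype, finsum_eq_sum_of_fintype, Nat.cast_sum]
  refine Finset.sum_congr rfl fun Q _ => ?_
  unfold wterm
  by_cases hQ : IsPGroup p Q
  · rw [if_pos hQ, Nat.cast_mul]
    congr 2
    unfold nw
    refine Nat.card_congr ?_
    refine
      { toFun := fun χ => ⟨fun x => χ.1 x, χ.2.1.wt, χ.2.2⟩
        invFun := fun χ => ⟨fun x => if hx : x ∈ Subgroup.normalizer (Q : Set H) then
          χ.1 ⟨x, hx⟩ else 0, ?_⟩
        left_inv := ?_
        right_inv := ?_ }
    · have h1 : (fun x : Subgroup.normalizer (Q : Set H) =>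
          if hx : (x : H) ∈ Subgroup.normalizer (Q : Set H) then χ.1 ⟨x, hx⟩ else 0) = χ.1 := by
        funext x
        rw [dif_pos x.2]
      refine ⟨⟨hQ, fun x hx => dif_neg hx, ?_⟩, ?_⟩
      · rw [h1]; exact χ.2.1
      · unfold wcv
        rw [h1]; exact χ.2.2
    · intro χ
      apply Subtype.ext
      funext x
      by_cases hx : x ∈ Subgroup.normalizer (Q : Set H)
      · exact dif_pos hx
      · exact (dif_neg hx).trans (χ.2.1.supp x hx).symm
    · intro χ
      apply Subtype.ext
      funext x
      exact dif_pos x.2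
  · rw [if_neg hQ]
    have : IsEmpty {χ // IsW p Q χ ∧ wcv red Q χ z ≠ 0} := ⟨fun χ => hQ χ.2.1.pg⟩
    have h0 : Nat.card {χ // IsW p Q χ ∧ wcv red Q χ z ≠ 0} = 0 := Nat.card_of_isEmpty
    rw [h0]
    simp

theorem nw_comp {J J' : Type} [Group J] [Group J'] (e : J ≃* J')
    {Q : Subgroup J} {Q' : Subgroup J'} (hQ : ∀ x, e x ∈ Q' ↔ x ∈ Q) {f : J' → F}
    (hf : IsClassFun f) : nw p red Q (fun x => f (e x)) = nw p red Q' f := by
  unfold nw
  refine Nat.card_congr ?_
  refine
    { toFun := fun χ => ⟨fun x => χ.1 (e.symm x), ?_, ?_⟩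
      invFun := fun χ => ⟨fun x => χ.1 (e x), ?_, ?_⟩
      left_inv := ?_
      right_inv := ?_ }
  · refine Pool.Agent.Y624.NV.isWt_comp e.symm (fun x => ?_) χ.2.1
    rw [← hQ, e.apply_symm_apply]
  · have h1 := Pool.Agent.Y624.NV.centralValue_comp red e.symm χ.2.1.irr
      (f := fun x => f (e x)) (fun g x => by
        simp only [map_mul, map_inv]
        exact hf _ _)
    simp only [MulEquiv.apply_symm_apply] at h1
    rw [h1]
    exact χ.2.2
  · exact Pool.Agent.Y624.NV.isWt_comp e hQ χ.2.1
  · rw [Pool.Agent.Y624.NV.centralValue_comp red e χ.2.1.irr hf]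
    exact χ.2.2
  · intro χ
    apply Subtype.ext
    funext x
    simp
  · intro χ
    apply Subtype.ext
    funext x
    simp

section cmp

variable {M : Type} [Group M] [Finite M] {N : Subgroup M} [N.Normal]

/-- the normalizer in `M` of a subgroup of `N` -/
abbrev NM (Q' : Subgroup N) : Subgroup M :=
  Subgroup.normalizer ((Q'.map N.subtype : Subgroup M) : Set M)

theorem mem_norm_map {Q' : Subgroup N} {x : N} :
    (x : M) ∈ NM Q' ↔ x ∈ Subgroup.normalizer (Q' : Set N) := by
  unfold NM
  rw [Subgroup.mem_normalizer_iff, Subgroup.mem_normalizer_iff]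
  constructor
  · intro h y
    have h1 := h y
    rw [Subgroup.mem_map, Subgroup.mem_map] at h1
    constructor
    · intro hy
      obtain ⟨w, hw, hw2⟩ := h1.1 ⟨y, hy, rfl⟩
      have : w = x * y * x⁻¹ := Subtype.ext hw2
      rwa [← this]
    · intro hy
      obtain ⟨w, hw, hw2⟩ := h1.2 ⟨x * y * x⁻¹, hy, rfl⟩
      have : w = y := Subtype.ext hw2
      rwa [← this]
  · intro h y
    rw [Subgroup.mem_map, Subgroup.mem_map]
    constructor
    · rintro ⟨w, hw, rfl⟩
      exact ⟨x * w * x⁻¹, (h w).1 hw, rfl⟩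
    · rintro ⟨w, hw, hw2⟩
      have h2 : (x⁻¹ * w * x : N) ∈ Q' := by
        rw [h]
        have : x * (x⁻¹ * w * x) * x⁻¹ = w := by group
        rwa [this]
      refine ⟨_, h2, ?_⟩
      change (x : M)⁻¹ * (w : M) * (x : M) = y
      have hw3 : (w : M) = (x : M) * y * (x : M)⁻¹ := hw2
      rw [hw3]
      group

/-- the two versions of the normalizer in `N` -/
def eN (Q' : Subgroup N) : (N.subgroupOf (NM Q')) ≃* Subgroup.normalizer (Q' : Set N) where
  toFun x := ⟨⟨x.1.1, x.2⟩, mem_norm_map.1 x.1.2⟩
  invFun y := ⟨⟨y.1.1, mem_norm_map.2 y.2⟩, y.1.2⟩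
  left_inv _ := rfl
  right_inv _ := rfl
  map_mul' _ _ := rfl

theorem le_map (Q' : Subgroup N) : Q'.map N.subtype ≤ N := by
  rintro _ ⟨x, _, rfl⟩
  exact x.2

theorem pg_map {Q' : Subgroup N} : IsPGroup p (Q'.map N.subtype) ↔ IsPGroup p Q' := by
  constructor
  · intro h
    have h1 := h.comap_of_injective N.subtype N.subtype_injective
    rwa [Subgroup.comap_map_eq_self_of_injective N.subtype_injective] at h1
  · intro h
    exact h.map _

theorem idx_le (Q' : Subgroup N) : (N.subgroupOf (NM Q')).index ≤ N.index := by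
  have h1 : N.relIndex (NM Q') ≤ N.index := by
    have := Subgroup.relIndex_dvd_index_of_normal N (NM Q')
    exact Nat.le_of_dvd (Nat.pos_of_ne_zero Subgroup.index_ne_zero_of_finite) this
  exact h1

theorem card_NM (Q' : Subgroup N) : Nat.card (NM Q') =
    (N.subgroupOf (NM Q')).index * Nat.card (Subgroup.normalizer (Q' : Set N)) := by
  rw [← Nat.card_congr (eN Q').toEquiv, Subgroup.index_mul_card]

theorem nw_eN {z : M → F} (hz : InZ N z) (Q' : Subgroup N) :
    nw p red (((Q'.map N.subtype).subgroupOf (NM Q')).subgroupOf (N.subgroupOf (NM Q')))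
      (fun x => z x) =
    nw p red (Q'.subgroupOf (Subgroup.normalizer (Q' : Set N)))
      (fun x : Subgroup.normalizer (Q' : Set N) => z x) := by
  refine nw_comp (eN Q') (fun x => ?_) (f := fun x : Subgroup.normalizer (Q' : Set N) => z x)
    (fun g x => hz.conj g x)
  rw [Subgroup.mem_subgroupOf, Subgroup.mem_subgroupOf, Subgroup.mem_subgroupOf]
  constructor
  · intro h
    exact ⟨_, h, rfl⟩
  · rintro ⟨w, hw, hw2⟩
    have : w = ⟨x.1.1, x.2⟩ := Subtype.ext hw2
    rwa [this] at hw

theorem inZ_sub {z : M → F} (hz : InZ N z) (J : Subgroup M) :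
    InZ (N.subgroupOf J) (fun x : J => z x) :=
  ⟨fun g x => hz.conj g x, fun x hx => hz.supp x hx⟩

variable (p red) in
/-- the condition on the normalizers of the `p`-subgroups of `N` -/
def NiceN (N : Subgroup M) [N.Normal] (z : M → F) : Prop :=
  ∀ Q' : Subgroup N, IsPGroup p Q' → ∀ [Fintype (NM Q')],
    Nice p red (N.subgroupOf (NM Q')) (fun x : NM Q' => z x)

theorem wterm_le_above (hp : p.Prime) {z : M → F} (hz : InZ N z) (hN : NiceN p red N z)
    (Q' : Subgroup N) : wterm p red (fun n : N => z n) Q' ≤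
      N.index * wterm p red z (Q'.map N.subtype) := by
  unfold wterm
  by_cases hQ : IsPGroup p Q'
  · rw [if_pos hQ, if_pos (pg_map.2 hQ)]
    haveI : Fintype (NM Q') := Fintype.ofFinite _
    have h1 := nw_le_above hp (inZ_sub hz (NM Q')) (hN Q' hQ)
      (Q := (Q'.map N.subtype).subgroupOf (NM Q')) (fun x hx => le_map Q' hx)
    rw [nw_eN hz] at h1
    have h2 := card_NM Q'
    have h3 := idx_le Q'
    have h4 : 0 < (N.subgroupOf (NM Q')).index :=
      Nat.pos_of_ne_zero Subgroup.index_ne_zero_of_finite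
    change Nat.card (Subgroup.normalizer (Q' : Set N)) * _ ≤ N.index * (Nat.card (NM Q') * _)
    rw [h2]
    calc Nat.card (Subgroup.normalizer (Q' : Set N)) *
          nw p red (Q'.subgroupOf (Subgroup.normalizer (Q' : Set N)))
            (fun x : Subgroup.normalizer (Q' : Set N) => z x)
        ≤ Nat.card (Subgroup.normalizer (Q' : Set N)) * ((N.subgroupOf (NM Q')).index *
          nw p red ((Q'.map N.subtype).subgroupOf (NM Q')) (fun x : NM Q' => z x)) :=
          Nat.mul_le_mul_left _ h1
      _ = 1 * ((N.subgroupOf (NM Q')).index * Nat.card (Subgroup.normalizer (Q' : Set N)) *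
          nw p red ((Q'.map N.subtype).subgroupOf (NM Q')) (fun x : NM Q' => z x)) := by ring
      _ ≤ N.index * ((N.subgroupOf (NM Q')).index * Nat.card (Subgroup.normalizer (Q' : Set N)) *
          nw p red ((Q'.map N.subtype).subgroupOf (NM Q')) (fun x : NM Q' => z x)) :=
          Nat.mul_le_mul_right _ (le_trans h4 h3)
  · rw [if_neg hQ]
    exact Nat.zero_le _

theorem wterm_le_below (hp : p.Prime) {z : M → F} (hz : InZ N z) (hN : NiceN p red N z)
    (Q' : Subgroup N) : wterm p red z (Q'.map N.subtype) ≤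
      N.index ^ 2 * wterm p red (fun n : N => z n) Q' := by
  unfold wterm
  by_cases hQ : IsPGroup p Q'
  · rw [if_pos hQ, if_pos (pg_map.2 hQ)]
    haveI : Fintype (NM Q') := Fintype.ofFinite _
    have h1 := nw_le_below hp (inZ_sub hz (NM Q')) (hN Q' hQ)
      (Q := (Q'.map N.subtype).subgroupOf (NM Q')) (fun x hx => le_map Q' hx)
    rw [nw_eN hz] at h1
    have h2 := card_NM Q'
    have h3 := idx_le Q'
    change Nat.card (NM Q') * _ ≤ N.index ^ 2 * (Nat.card (Subgroup.normalizer (Q' : Set N)) * _)
    rw [h2]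
    calc (N.subgroupOf (NM Q')).index * Nat.card (Subgroup.normalizer (Q' : Set N)) *
          nw p red ((Q'.map N.subtype).subgroupOf (NM Q')) (fun x : NM Q' => z x)
        ≤ (N.subgroupOf (NM Q')).index * Nat.card (Subgroup.normalizer (Q' : Set N)) *
          ((N.subgroupOf (NM Q')).index * nw p red (Q'.subgroupOf
            (Subgroup.normalizer (Q' : Set N)))
              (fun x : Subgroup.normalizer (Q' : Set N) => z x)) := Nat.mul_le_mul_left _ h1
      _ = ((N.subgroupOf (NM Q')).index * (N.subgroupOf (NM Q')).index) *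
          (Nat.card (Subgroup.normalizer (Q' : Set N)) * nw p red (Q'.subgroupOf
            (Subgroup.normalizer (Q' : Set N)))
              (fun x : Subgroup.normalizer (Q' : Set N) => z x)) := by ring
      _ ≤ N.index ^ 2 * (Nat.card (Subgroup.normalizer (Q' : Set N)) * nw p red (Q'.subgroupOf
            (Subgroup.normalizer (Q' : Set N)))
              (fun x : Subgroup.normalizer (Q' : Set N) => z x)) := by
          rw [pow_two]
          exact Nat.mul_le_mul_right _ (Nat.mul_le_mul h3 h3)
  · rw [if_neg hQ, if_neg (fun h => hQ (pg_map.1 h))]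
    exact Nat.zero_le _

theorem map_inj : Function.Injective (fun Q' : Subgroup N => Q'.map N.subtype) :=
  Subgroup.map_injective N.subtype_injective

theorem WT_le_above (hp : p.Prime) {z : M → F} (hz : InZ N z) (hN : NiceN p red N z) :
    WT p red (fun n : N => z n) ≤ N.index * WT p red z := by
  haveI : Fintype (Subgroup M) := Fintype.ofFinite _
  haveI : Fintype (Subgroup N) := Fintype.ofFinite _
  rw [WT_eq, WT_eq, finsum_eq_sum_of_fintype, finsum_eq_sum_of_fintype]
  have h1 : ∑ Q' : Subgroup N, wterm p red (fun n : N => z n) Q' ≤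
      N.index * ∑ Q : Subgroup M, wterm p red z Q := by
    calc ∑ Q' : Subgroup N, wterm p red (fun n : N => z n) Q'
        ≤ ∑ Q' : Subgroup N, N.index * wterm p red z (Q'.map N.subtype) :=
          Finset.sum_le_sum fun Q' _ => wterm_le_above hp hz hN Q'
      _ = N.index * ∑ Q' : Subgroup N, wterm p red z (Q'.map N.subtype) := by
          rw [Finset.mul_sum]
      _ = N.index * ∑ Q ∈ (Finset.univ : Finset (Subgroup N)).image
            (fun Q' => Q'.map N.subtype), wterm p red z Q := by
          rw [Finset.sum_image fun a _ b _ h => map_inj h]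
      _ ≤ N.index * ∑ Q : Subgroup M, wterm p red z Q :=
          Nat.mul_le_mul_left _ (Finset.sum_le_sum_of_subset (Finset.subset_univ _))
  exact_mod_cast h1

theorem WT_le_below (hp : p.Prime) {z : M → F} (hz : InZ N z) (hN : NiceN p red N z)
    (h0 : ∀ (Q : Subgroup M) (χ : M → ℂ), IsW p Q χ → wcv red Q χ z ≠ 0 → Q ≤ N) :
    WT p red z ≤ (N.index ^ 2 : ℕ) * WT p red (fun n : N => z n) := by
  haveI : Fintype (Subgroup M) := Fintype.ofFinite _
  haveI : Fintype (Subgroup N) := Fintype.ofFinite _
  rw [WT_eq, WT_eq, finsum_eq_sum_of_fintype, finsum_eq_sum_of_fintype]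
  have h2 : ∀ Q : Subgroup M, ¬ Q ≤ N → wterm p red z Q = 0 := by
    intro Q hQ
    unfold wterm
    by_cases hp' : IsPGroup p Q
    · rw [if_pos hp']
      have : nw p red (Q.subgroupOf (Subgroup.normalizer (Q : Set M))) (fun x => z x) = 0 := by
        unfold nw
        have : IsEmpty {χ : Subgroup.normalizer (Q : Set M) → ℂ //
            IsWt p (Q.subgroupOf (Subgroup.normalizer (Q : Set M))) χ ∧
              centralValue red χ (fun x => z x) ≠ 0} := by
          refine ⟨fun χ => hQ ?_⟩
          have h1 : (fun x : Subgroup.normalizer (Q : Set M) =>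
              if hx : (x : M) ∈ Subgroup.normalizer (Q : Set M) then χ.1 ⟨x, hx⟩ else 0) = χ.1 := by
            funext x
            rw [dif_pos x.2]
          refine h0 Q (fun x => if hx : x ∈ Subgroup.normalizer (Q : Set M) then
            χ.1 ⟨x, hx⟩ else 0) ⟨hp', fun x hx => dif_neg hx, ?_⟩ ?_
          · rw [h1]; exact χ.2.1
          · unfold wcv
            rw [h1]; exact χ.2.2
        exact Nat.card_of_isEmpty
      rw [this, mul_zero]
    · rw [if_neg hp']
  have h1 : ∑ Q : Subgroup M, wterm p red z Q ≤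
      N.index ^ 2 * ∑ Q' : Subgroup N, wterm p red (fun n : N => z n) Q' := by
    calc ∑ Q : Subgroup M, wterm p red z Q
        = ∑ Q ∈ (Finset.univ : Finset (Subgroup N)).image (fun Q' => Q'.map N.subtype),
            wterm p red z Q := by
          symm
          refine Finset.sum_subset (Finset.subset_univ _) fun Q _ hQ => h2 Q fun hle => hQ ?_
          refine Finset.mem_image.2 ⟨Q.subgroupOf N, Finset.mem_univ _, ?_⟩
          exact Subgroup.map_subgroupOf_eq_of_le hle
      _ = ∑ Q' : Subgroup N, wterm p red z (Q'.map N.subtype) :=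
          Finset.sum_image fun a _ b _ h => map_inj h
      _ ≤ ∑ Q' : Subgroup N, N.index ^ 2 * wterm p red (fun n : N => z n) Q' :=
          Finset.sum_le_sum fun Q' _ => wterm_le_below hp hz hN Q'
      _ = N.index ^ 2 * ∑ Q' : Subgroup N, wterm p red (fun n : N => z n) Q' := by
          rw [Finset.mul_sum]
  exact_mod_cast h1

end cmp

end Pool.Agent.P8H58
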