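import Pool.Agent.P8H58.Inv
import Pool.Agent.P8H58.Tnw

/-!
# Local counting for pairs of subgroups
-/

set_option autoImplicit false
set_option linter.unusedSectionVars false

open scoped Classical

noncomputable section

namespace Pool.Agent.P8H58

open Pool.Agent.Y63.NV Representation
open Pool.Agent.Y63.AWC (IsIrreducibleCharacter mult mult_spec cj cj_irr mult_cj clifford res res_eq
  cj_one cj_mul)
open Pool.Agent.Helper884.IC (B Irr mem_Irr IsClass IsIrrChar B_comm)

section one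

variable {X : Type} [Group X] [Fintype X] {M : Subgroup X} [M.Normal]

theorem stb_eq (C : Md ℂ M) : stb M C.tr = Nat.card (St C) := by
  unfold stb
  refine Nat.card_congr (Equiv.subtypeEquivRight fun x => ?_)
  rw [mem_St]
  rfl

theorem mult_one (hc : IsCyclic (X ⧸ M)) {χ : X → ℂ} {ψ : M → ℂ} (hχ : IsIrrChar χ)
    (hψ : IsIrrChar ψ) (h : mult M χ ψ ≠ 0) : mult M χ ψ = 1 := by
  obtain ⟨C, rfl⟩ := exists_md (F := ℂ) hψ
  have h1 := clifford M C.tr C.tr hψ hψ
  have h2 : Nat.card {x : X // cj M x C.tr = C.tr} = (up C).card * Nat.card M := by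
    rw [up_card hc (by exact_mod_cast (Nat.card_pos (α := X ⧸ M)).ne')]
    exact stb_eq C
  rw [h2, mul_comm (up C).card] at h1
  have h3 := Nat.eq_of_mul_eq_mul_left (Nat.card_pos (α := M)) h1
  have hsub : up C ⊆ Irr X := by
    intro φ hφ
    obtain ⟨A, rfl, -⟩ := mem_up.1 hφ
    exact mem_Irr.2 A.isIrr
  have h4 : ∀ φ ∈ up C, 1 ≤ mult M φ C.tr * mult M φ C.tr := by
    intro φ hφ
    obtain ⟨A, rfl, hL⟩ := mem_up.1 hφ
    have := Nat.pos_of_ne_zero (mult_of_lies hL)
    nlinarith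
  have h5 : ∑ φ ∈ Irr X, (if φ ∈ up C then 1 else 0) = (up C).card := by
    rw [← Finset.sum_filter, Finset.sum_const, smul_eq_mul, mul_one]
    congr 1
    ext φ
    rw [Finset.mem_filter]
    exact ⟨fun h => h.2, fun h => ⟨hsub h, h⟩⟩
  have h6 : ∀ φ ∈ Irr X, (if φ ∈ up C then 1 else 0) ≤ mult M φ C.tr * mult M φ C.tr := by
    intro φ _
    by_cases hφ : φ ∈ up C
    · rw [if_pos hφ]
      exact h4 φ hφ
    · rw [if_neg hφ]
      exact Nat.zero_le _
  have h7 := (Finset.sum_eq_sum_iff_of_le h6).1 (h5.trans h3.symm) χ (mem_Irr.2 hχ)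
  by_cases hφ : χ ∈ up C
  · rw [if_pos hφ] at h7
    exact Nat.eq_one_of_mul_eq_one_left h7.symm
  · rw [if_neg hφ] at h7
    exact absurd (mul_self_eq_zero.1 h7.symm) h

variable {F : Type} [Field F] {p : ℕ} (red : integralClosure ℤ ℂ →+* F)

theorem nice_ofcyc (hp : p.Prime) (hc : IsCyclic (X ⧸ M)) (hp' : ¬ p ∣ Nat.card (X ⧸ M))
    (z : X → F) : Nice p red M z := by
  intro χ ψ hχ hψ h _
  have h1 := mult_one hc hχ hψ h
  refine ⟨h1, ?_⟩
  obtain ⟨C, rfl⟩ := exists_md (F := ℂ) hψ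
  rw [stb_eq]
  have h2 : Nat.card M ∣ Nat.card (St C) := Subgroup.card_dvd_of_le (le_St C)
  obtain ⟨d, hd⟩ := h2
  have h3 : d ∣ Nat.card (X ⧸ M) := by
    have h4 : Nat.card (St C) ∣ Nat.card X := Subgroup.card_subgroup_dvd_card _
    rw [hd, Subgroup.card_eq_card_quotient_mul_card_subgroup M, mul_comm] at h4
    exact Nat.dvd_of_mul_dvd_mul_right Nat.card_pos h4
  have h4 : ¬ p ∣ d := fun h5 => hp' (h5.trans h3)
  have h5 : d ≠ 0 := by
    rintro rfl
    exact h4 (dvd_zero p)
  rw [hd, Nat.factorization_mul Nat.card_pos.ne' h5, Finsupp.add_apply,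
    Nat.factorization_eq_zero_of_not_dvd h4, add_zero]

include red in
theorem wt_lies' (hp : p.Prime) (hc : IsCyclic (X ⧸ M)) (hp' : ¬ p ∣ Nat.card (X ⧸ M))
    {A : Md ℂ X} {C : Md ℂ M} (h : Lies M A C) {Q : Subgroup X} [Q.Normal] (hQ : Q ≤ M) :
    IsWt p Q A.tr ↔ IsWt p (Q.subgroupOf M) C.tr := by
  refine wt_lies hp (nice_ofcyc red hp hc hp' (Pi.single 1 1)) h ?_ hQ
  have h1 := (Pool.Agent.Y930.NV.cvh F red M C.tr C.isIrr).one
  have h2 : centralValue red C.tr (fun m : M => (Pi.single 1 1 : X → F) m) = 1 := by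
    refine Eq.trans (congrArg _ ?_) h1
    funext m
    by_cases hm : m = 1
    · subst hm
      simp [Pi.single, Function.update]
    · have h3 : (m : X) ≠ 1 := fun h3 => hm (Subtype.ext h3)
      simp [Pi.single, Function.update, hm]
  rw [h2]
  exact one_ne_zero

end one

section two

variable {A B : Type} [Group A] [Group B] [Finite A] [Finite B] {j : A →* B}
  (hj : Function.Injective j) {F : Type} [Field F] {p : ℕ} (red : integralClosure ℤ ℂ →+* F)

include hj

theorem cvj [j.range.Normal] {fB : B → F} (hf : InZ j.range fB) {X : Md ℂ B} {Y : Md ℂ A}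
    (h : LiesJ j X Y) : centralValue red X.tr fB = centralValue red Y.tr (fun a => fB (j a)) := by
  haveI : Fintype B := Fintype.ofFinite B
  set e : A ≃* j.range := MonoidHom.ofInjective hj with he
  have h1 := cv_lies (red := red) hf ((liesJ_push hj).1 h)
  rw [h1]
  have h2 := Pool.Agent.Y624.NV.centralValue_comp red e.symm Y.isIrr
    (f := fun a => fB (j a)) (fun g x => by
      simp only [map_mul, map_inv]
      exact hf.conj _ _)
  have h3 : (fun n : j.range => fB (j (e.symm n))) = fun n : j.range => fB n := by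
    funext n
    congr 1
    conv_rhs => rw [← e.apply_symm_apply n]
    rfl
  rw [h3] at h2
  exact h2

include red in
theorem wtj [j.range.Normal] (hp : p.Prime) (hc : IsCyclic (B ⧸ j.range))
    (hp' : ¬ p ∣ Nat.card (B ⧸ j.range)) {X : Md ℂ B} {Y : Md ℂ A} (h : LiesJ j X Y)
    {T : Subgroup B} [T.Normal] (hT : T ≤ j.range) {S : Subgroup A}
    (hS : ∀ a, a ∈ S ↔ j a ∈ T) : IsWt p T X.tr ↔ IsWt p S Y.tr := by
  haveI : Fintype B := Fintype.ofFinite B
  set e : A ≃* j.range := MonoidHom.ofInjective hj with he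
  rw [wt_lies' red hp hc hp' ((liesJ_push hj).1 h) hT]
  have hSe : ∀ x, e x ∈ T.subgroupOf j.range ↔ x ∈ S := by
    intro x
    rw [hS]
    rfl
  constructor
  · intro h1
    have h2 := Pool.Agent.Y624.NV.isWt_comp e hSe h1
    have h3 : (fun x => (Y.pull e.symm).tr (e x)) = Y.tr := by
      funext x
      change Y.tr (e.symm (e x)) = _
      rw [MulEquiv.symm_apply_apply]
    rw [h3] at h2
    exact h2
  · intro h1
    refine Pool.Agent.Y624.NV.isWt_comp e.symm (fun x => ?_) h1
    rw [← hSe, MulEquiv.apply_symm_apply]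

end two

end Pool.Agent.P8H58
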