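import Pool.Agent.P8H58.Cyc3

/-!
# Counting invariant irreducible traces in cyclic extensions of degree prime to the characteristic
-/

set_option autoImplicit false
set_option linter.unusedSectionVars false

open scoped Classical

noncomputable section

namespace Pool.Agent.P8H58

open Pool.Agent.Y63.NV Representation

variable {F : Type} [Field F]

section fin

variable {G : Type} [Group G]

theorem irs_fin [IsAlgClosed F] [Finite G] (P : (G → F) → Prop) :
    {φ : G → F | IsIrrTrace φ ∧ P φ}.Finite :=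
  ((Pool.Agent.Y914.NV.irr F G).1).subset fun _ h => h.1

/-- the irreducible traces with the property `P` -/
def irs [IsAlgClosed F] [Finite G] (P : (G → F) → Prop) : Finset (G → F) := (irs_fin P).toFinset

theorem mem_irs [IsAlgClosed F] [Finite G] {P : (G → F) → Prop} {φ : G → F} :
    φ ∈ irs P ↔ IsIrrTrace φ ∧ P φ := by
  unfold irs
  rw [Set.Finite.mem_toFinset, Set.mem_setOf_eq]

theorem card_irs [IsAlgClosed F] [Finite G] (P : (G → F) → Prop) :
    Nat.card {φ : G → F // IsIrrTrace φ ∧ P φ} = (irs P).card := by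
  unfold irs
  rw [← Nat.card_eq_card_finite_toFinset]
  rfl

end fin

variable {M : Type} [Group M]

/-- the order of the stabilizer of `φ` -/
def sc (N : Subgroup M) (φ : N → F) : ℕ :=
  Nat.card {m : M // ∀ x y : N, (y : M) = m * x * m⁻¹ → φ y = φ x}

variable {N : Subgroup M} [N.Normal]

theorem mem_St' {B : Md F N} {x : M} :
    x ∈ St B ↔ ∀ a b : N, (b : M) = x * a * x⁻¹ → B.tr b = B.tr a := by
  rw [mem_St]
  constructor
  · intro h a b hab
    have h1 := congrFun h a
    rw [Md.cj_tr] at h1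
    have h2 : b = MulAut.conjNormal x a := by
      apply Subtype.ext
      rw [MulAut.conjNormal_apply, hab]
    rw [h2, h1]
  · intro h
    funext n
    rw [Md.cj_tr]
    exact h n _ (MulAut.conjNormal_apply x n)

theorem sc_eq (B : Md F N) : sc N B.tr = Nat.card (St B) := by
  unfold sc
  refine Nat.card_congr (Equiv.subtypeEquivRight fun m => ?_)
  exact mem_St'.symm

theorem cj_cj_tr (B : Md F N) (x s : M) : ((B.cj x).cj s).tr = (B.cj (x * s)).tr := by
  funext n
  rw [Md.cj_tr, Md.cj_tr, Md.cj_tr]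
  congr 1
  apply Subtype.ext
  rw [MulAut.conjNormal_apply, MulAut.conjNormal_apply, MulAut.conjNormal_apply]
  group

theorem fib_card (B : Md F N) (x : M) :
    Nat.card {m : M // (B.cj m).tr = (B.cj x).tr} = sc N (B.cj x).tr := by
  rw [sc_eq]
  refine Nat.card_congr ?_
  exact
    { toFun := fun m => ⟨x⁻¹ * m.1, by
        rw [mem_St, cj_cj_tr, mul_inv_cancel_left]
        exact m.2⟩
      invFun := fun s => ⟨x * s.1, by
        have h1 := mem_St.1 s.2
        rw [cj_cj_tr] at h1
        exact h1⟩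
      left_inv := fun m => Subtype.ext (mul_inv_cancel_left _ _)
      right_inv := fun s => Subtype.ext (inv_mul_cancel_left _ _) }

/-- the relation between the irreducible traces -/
def Ov (N : Subgroup M) (ψ : M → F) (φ : N → F) : Prop :=
  ∃ (A : Md F M) (B : Md F N), A.tr = ψ ∧ B.tr = φ ∧ Lies N A B

/-- **Counting.** -/
theorem mcl [IsAlgClosed F] [Finite M] (hc : IsCyclic (M ⧸ N)) (hF : (Nat.card (M ⧸ N) : F) ≠ 0)
    (P : (M → F) → Prop) (P' : (N → F) → Prop)
    (h : ∀ (A : Md F M) (B : Md F N), Lies N A B → (P A.tr ↔ P' B.tr)) :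
    ∑ φ ∈ irs P', (sc N φ) ^ 2 = Nat.card M * Nat.card N * (irs P).card := by
  haveI : Fintype M := Fintype.ofFinite M
  have h1 : ∀ φ ∈ irs P', (sc N φ) ^ 2 =
      Nat.card N * ∑ ψ ∈ irs P, if Ov N ψ φ then sc N φ else 0 := by
    intro φ hφ
    rw [mem_irs] at hφ
    obtain ⟨B, rfl⟩ := exists_md hφ.1
    rw [← Finset.sum_filter, Finset.sum_const, smul_eq_mul]
    have h2 : (irs P).filter (fun ψ => Ov N ψ B.tr) = up B := by
      ext ψ
      rw [Finset.mem_filter, mem_irs, mem_up]
      constructor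
      · rintro ⟨-, A, B', hA, hB, hL⟩
        exact ⟨A, hA, lies_congr rfl hB hL⟩
      · rintro ⟨A, rfl, hL⟩
        exact ⟨⟨A.isIrr, (h A B hL).2 hφ.2⟩, A, B, rfl, rfl, hL⟩
    rw [h2, pow_two]
    conv_lhs => rw [sc_eq, ← up_card hc hF B]
    rw [sc_eq, ← up_card hc hF B]
    ring
  have h2 : ∀ ψ ∈ irs P, (∑ φ ∈ irs P', if Ov N ψ φ then sc N φ else 0) = Nat.card M := by
    intro ψ hψ
    rw [mem_irs] at hψ
    obtain ⟨A, rfl⟩ := exists_md hψ.1
    obtain ⟨B, hL⟩ := exists_below (N := N) A
    rw [← Finset.sum_filter]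
    have h3 : (irs P').filter (fun φ => Ov N A.tr φ) =
        Finset.univ.image (fun m : M => (B.cj m).tr) := by
      ext φ
      rw [Finset.mem_filter, mem_irs, Finset.mem_image]
      constructor
      · rintro ⟨-, A', B', hA, hB, hL'⟩
        obtain ⟨x, hx⟩ := Lies.conj hL (lies_congr hA rfl hL')
        exact ⟨x, Finset.mem_univ x, by rw [← hx, hB]⟩
      · rintro ⟨m, -, rfl⟩
        have h4 : Lies N A (B.cj m) := hL.cj m
        exact ⟨⟨(B.cj m).isIrr, (h A _ h4).1 hψ.2⟩, A, B.cj m, rfl, rfl, h4⟩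
    rw [h3, Nat.card_eq_fintype_card, ← Finset.card_univ,
      Finset.card_eq_sum_card_image (fun m : M => (B.cj m).tr) Finset.univ]
    refine Finset.sum_congr rfl fun φ hφ => ?_
    obtain ⟨x, -, rfl⟩ := Finset.mem_image.1 hφ
    rw [← fib_card B x, Nat.card_eq_fintype_card, Fintype.card_subtype]
  rw [Finset.sum_congr rfl h1, ← Finset.mul_sum, Finset.sum_comm, Finset.sum_congr rfl h2,
    Finset.sum_const, smul_eq_mul]
  ring

end Pool.Agent.P8H58
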