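import Pool.Agent.P8H58.Gam4
import Pool.Agent.Y63.NV.Bawc

/-!
# Navarro's equality for `p`-group quotients, in terms of invariant weights
-/

set_option autoImplicit false
set_option linter.unusedSectionVars false

open scoped Classical

noncomputable section

namespace Pool.Agent.P8H58

open Pool.Agent.Y63.NV Representation
open Pool.Agent.Y63.AWC (IsIrreducibleCharacter)
open Pool.Agent.N85.WM (IsW wcv)
open Pool.Agent.N85.WM.Ww (cm tot tot_cm isW_cm_iff wcv_cm mem_cm)

variable {p : ℕ} [Fact p.Prime] {F : Type} [Field F] [IsAlgClosed F] [CharP F p]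
  (red : integralClosure ℤ ℂ →+* F) {X : ∀ (L : Type) [Group L], Prop} (hX : Closed p X)
  (hB : ∀ (L : Type) [Group L] [Finite L], X L → BAWC p red L)

include hX hB

theorem nav_eq (Γ : Type) [Group Γ] [Finite Γ] (G : Subgroup Γ) [G.Normal] (hG : X G)
    (hp : IsPGroup p (Γ ⧸ G)) (z : Γ → F) (hz : InZ G z) (c : F) :
    Lsum G ⊤ z c = Wsum p red G ⊤ z c :=
  induct parts red X hX (fun _ _ _ => True)
    ⟨fun _ _ _ _ _ _ => trivial, fun _ _ _ _ _ _ => trivial⟩
    (fun L _ _ hL z hz _ c => base' p F red L ((bawc_iff p red).1 (hB L hL)) z hz c)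
    (Nat.card Γ) Γ G le_rfl hG hp z hz trivial c

theorem lnum_tot (Γ : Type) [Group Γ] [Finite Γ] (G : Subgroup Γ) [G.Normal] (hG : X G)
    (hp : IsPGroup p (Γ ⧸ G)) (z : Γ → F) (hz : InZ G z) (c : F) :
    (Nat.card G : ℤ) * Lnum G ⊤ z c =
      tot (fun Q χ => IsW p Q χ ∧ wcv red Q χ (fun x : G => z x) = c ∧
        ∀ g : Γ, FxC G Q χ g) := by
  have h1 := nav_eq red hX hB Γ G hG hp z hz c
  rw [covp red G z c hp hz] at h1
  unfold Lsum at h1
  rw [if_pos (sup_top_eq _), inf_top_eq] at h1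
  have h2 : (Nat.card (⊤ : Subgroup Γ) : ℤ) = Nat.card (Γ ⧸ G) * Nat.card G := by
    rw [Subgroup.card_top]
    exact_mod_cast Subgroup.card_eq_card_quotient_mul_card_subgroup G
  rw [h2, mul_assoc] at h1
  have h3 : (Nat.card (Γ ⧸ G) : ℤ) ≠ 0 := by exact_mod_cast (Nat.card_pos (α := Γ ⧸ G)).ne'
  exact mul_left_cancel₀ h3 h1

/-- the same for subgroups -/
theorem lnum_tot_sub {Γ : Type} [Group Γ] [Finite Γ] {J M : Subgroup Γ} (hJM : J ≤ M)
    (hn : ∀ m ∈ M, ∀ x ∈ J, m * x * m⁻¹ ∈ J) (hp : ∀ m ∈ M, ∃ a : ℕ, m ^ p ^ a ∈ J) (hJ : X J)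
    {z : Γ → F} (hz : ∀ g ∈ M, ∀ x, z (g * x * g⁻¹) = z x) (hz' : ∀ x, x ∉ J → z x = 0) (c : F) :
    (Nat.card J : ℤ) * Lnum J M z c =
      tot (fun (Q : Subgroup J) χ => IsW p Q χ ∧ wcv red Q χ (fun x : J => z x) = c ∧
        ∀ g ∈ M, FxC J Q χ g) := by
  haveI : (J.subgroupOf M).Normal := ⟨fun x hx g => hn g g.2 x hx⟩
  let e : J.subgroupOf M ≃* J := Subgroup.subgroupOfEquivOfLe hJM
  have he : ∀ x : J.subgroupOf M, ((e x : J) : Γ) = ((x : M) : Γ) := fun x => rfl
  have he' : ∀ x : J, (((e.symm x : J.subgroupOf M) : M) : Γ) = x := fun x => by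
    conv_rhs => rw [← e.apply_symm_apply x]
    rfl
  have hXJ : X (J.subgroupOf M) := hX.iso _ _ hJ ⟨e.symm⟩
  have hpq : IsPGroup p (M ⧸ J.subgroupOf M) := by
    intro x
    obtain ⟨y, rfl⟩ := QuotientGroup.mk_surjective x
    obtain ⟨a, ha⟩ := hp y y.2
    refine ⟨a, ?_⟩
    rw [← QuotientGroup.mk_pow, QuotientGroup.eq_one_iff]
    exact ha
  have hzM : InZ (J.subgroupOf M) (fun x : M => z x) :=
    ⟨fun g x => hz g g.2 x, fun x hx => hz' x hx⟩
  have h1 := lnum_tot red hX hB M (J.subgroupOf M) hXJ hpq (fun x : M => z x) hzM c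
  have h2 : Nat.card (J.subgroupOf M) = Nat.card J := Nat.card_congr e.toEquiv
  have h3 : Lnum (J.subgroupOf M) ⊤ (fun x : M => z x) c = Lnum J M z c := by
    unfold Lnum
    refine Nat.card_congr ?_
    refine
      { toFun := fun φ => ⟨fun x => φ.1 (e.symm x),
          Pool.Agent.Y210.NV2.irrTrace_comp e.symm φ.2.1, ?_, ?_⟩
        invFun := fun φ => ⟨fun x => φ.1 (e x),
          Pool.Agent.Y210.NV2.irrTrace_comp e φ.2.1, ?_, ?_⟩
        left_inv := fun φ => Subtype.ext (funext fun x => by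
          change φ.1 (e.symm (e x)) = φ.1 x
          rw [e.symm_apply_apply])
        right_inv := fun φ => Subtype.ext (funext fun x => by
          change φ.1 (e (e.symm x)) = φ.1 x
          rw [e.apply_symm_apply]) }
    · intro g hg x y hxy
      refine φ.2.2.1 ⟨g, hg⟩ trivial (e.symm x) (e.symm y) (Subtype.ext ?_)
      change (((e.symm y : J.subgroupOf M) : M) : Γ) =
        g * (((e.symm x : J.subgroupOf M) : M) : Γ) * g⁻¹
      rw [he', he']
      exact hxy
    · intro x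
      have h4 := φ.2.2.2 (e.symm x)
      rw [← h4, ← finsum_comp_equiv e.symm.toEquiv]
      refine finsum_congr fun g => ?_
      change z g * φ.1 (e.symm (g * x)) = z (((e.symm g : J.subgroupOf M) : M) : Γ) *
        φ.1 (e.symm g * e.symm x)
      rw [map_mul, he']
    · intro g _ x y hxy
      exact φ.2.2.1 g g.2 (e x) (e y) (congrArg Subtype.val hxy)
    · intro x
      have h4 := φ.2.2.2 (e x)
      rw [← h4, ← finsum_comp_equiv e.toEquiv]
      rfl
  rw [h2, h3] at h1
  rw [h1]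
  refine tot_cm e fun Q χ => ?_
  have hcl : IsClassFun (fun x : J => z x) := fun g x => hz g (hJM g.2) x
  constructor
  · rintro ⟨h4, h5, h6⟩
    have h7 := (isW_cm_iff e).1 h4
    refine ⟨h7, ?_, ?_⟩
    · rw [← h5]
      exact (wcv_cm red e h7 hcl).symm
    · intro g hg
      obtain ⟨n, hn', hF1, hF2⟩ := h6 ⟨g, hg⟩
      refine ⟨n, hn', ?_, ?_⟩
      · intro x y hxy
        have h8 := hF1 (e.symm x) (e.symm y) (Subtype.ext (by
          change (((e.symm y : J.subgroupOf M) : M) : Γ) =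
            (n : Γ) * g * (((e.symm x : J.subgroupOf M) : M) : Γ) * ((n : Γ) * g)⁻¹
          rw [he', he']
          exact hxy))
        rw [mem_cm, mem_cm, e.apply_symm_apply, e.apply_symm_apply] at h8
        exact h8
      · intro x y hxy
        have h8 := hF2 (e.symm x) (e.symm y) (Subtype.ext (by
          change (((e.symm y : J.subgroupOf M) : M) : Γ) =
            (n : Γ) * g * (((e.symm x : J.subgroupOf M) : M) : Γ) * ((n : Γ) * g)⁻¹
          rw [he', he']
          exact hxy))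
        change χ (e (e.symm x)) = χ (e (e.symm y)) at h8
        rw [e.apply_symm_apply, e.apply_symm_apply] at h8
        exact h8
  · rintro ⟨h4, h5, h6⟩
    refine ⟨(isW_cm_iff e).2 h4, ?_, ?_⟩
    · rw [← h5]
      exact wcv_cm red e h4 hcl
    · intro g
      obtain ⟨n, hn', hF1, hF2⟩ := h6 g g.2
      refine ⟨⟨n, hJM hn'⟩, hn', ?_, ?_⟩
      · intro x y hxy
        exact hF1 (e x) (e y) (congrArg Subtype.val hxy)
      · intro x y hxy
        exact hF2 (e x) (e y) (congrArg Subtype.val hxy)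

end Pool.Agent.P8H58
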