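import Pool.Agent.Q90.WR.Cfn

/-!
# Normal chains suffice
-/

set_option autoImplicit false
set_option linter.unusedSectionVars false

open scoped BigOperators Classical

noncomputable section

namespace Pool.Agent.P8H58.FR

open Pool.Agent.Y63.KR Pool.Agent.Q90.WR

section

variable {G : Type} [Group G] {p : ℕ}

/-- the members of the chain are normal in the largest member -/
def Nor (σ : Set (Subgroup G)) : Prop := sSup σ ≤ chainStabilizer σ

/-- the smallest member which is not normal in the largest member -/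
def KK (σ : Set (Subgroup G)) : Subgroup G :=
  sInf {P ∈ σ | ¬ sSup σ ≤ Subgroup.normalizer (P : Set G)}

/-- the normaliser of this member in the largest member -/
def QQ (σ : Set (Subgroup G)) : Subgroup G := sSup σ ⊓ Subgroup.normalizer (KK σ : Set G)

/-- the smallest member which is not contained in `QQ` -/
def XX (σ : Set (Subgroup G)) : Subgroup G := sInf {P ∈ σ | ¬ P ≤ QQ σ}

/-- the subgroup which is inserted or removed -/
def RR (σ : Set (Subgroup G)) : Subgroup G := XX σ ⊓ QQ σ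

/-- insert or remove -/
def tg (σ : Set (Subgroup G)) : Set (Subgroup G) :=
  if RR σ ∈ σ then σ \ {RR σ} else insert (RR σ) σ

theorem sInf_mem_chain [Finite G] {σ s : Set (Subgroup G)} (hσ : IsChain (· ≤ ·) σ) (hs : s ⊆ σ)
    (hne : s.Nonempty) : IsLeast s (sInf s) := by
  have : Finite (Subgroup G) := inferInstance
  obtain ⟨M, hM⟩ := (Set.toFinite s).exists_minimal hne
  have hgr : IsLeast s M := by
    refine ⟨hM.1, fun P hP => ?_⟩
    rcases hσ.total (hs hP) (hs hM.1) with h1 | h1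
    · exact hM.2 hP h1
    · exact h1
  rw [hgr.isGLB.sInf_eq]
  exact hgr

theorem sSup_mem_chain [Finite G] {σ s : Set (Subgroup G)} (hσ : IsChain (· ≤ ·) σ) (hs : s ⊆ σ)
    (hne : s.Nonempty) : IsGreatest s (sSup s) := by
  have : Finite (Subgroup G) := inferInstance
  obtain ⟨M, hM⟩ := (Set.toFinite s).exists_maximal hne
  have hgr : IsGreatest s M := by
    refine ⟨hM.1, fun P hP => ?_⟩
    rcases hσ.total (hs hP) (hs hM.1) with h1 | h1
    · exact h1
    · exact hM.2 hP h1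
  rw [hgr.isLUB.sSup_eq]
  exact hgr

/-- the facts about the subgroups attached to a chain which is not normal -/
structure Fa (p : ℕ) (σ : Set (Subgroup G)) : Prop where
  T_mem : sSup σ ∈ σ
  K_mem : KK σ ∈ σ
  K_not : ¬ sSup σ ≤ Subgroup.normalizer (KK σ : Set G)
  K_least : ∀ P ∈ σ, ¬ sSup σ ≤ Subgroup.normalizer (P : Set G) → KK σ ≤ P
  X_mem : XX σ ∈ σ
  X_not : ¬ XX σ ≤ QQ σ
  X_least : ∀ P ∈ σ, ¬ P ≤ QQ σ → XX σ ≤ P
  K_le_R : KK σ ≤ RR σ
  R_ne_K : RR σ ≠ KK σ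

theorem exists_not {σ : Set (Subgroup G)} (h : ¬ Nor σ) :
    {P ∈ σ | ¬ sSup σ ≤ Subgroup.normalizer (P : Set G)}.Nonempty := by
  by_contra hcon
  apply h
  intro x hx
  rw [mem_chainStabilizer]
  intro P hP
  rw [conjSub_eq_iff]
  by_contra h1
  exact hcon ⟨P, hP, fun h2 => h1 (h2 hx)⟩

theorem facts [hp : Fact p.Prime] [Finite G] {σ : Set (Subgroup G)} (hσ : IsPChain p σ)
    (h : ¬ Nor σ) : Fa p σ := by
  have h1 := sInf_mem_chain hσ.chain (fun P hP => hP.1) (exists_not h)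
  have hK : KK σ ∈ σ := h1.1.1
  have hKn : ¬ sSup σ ≤ Subgroup.normalizer (KK σ : Set G) := h1.1.2
  have h2 := sSup_mem_chain hσ.chain (subset_refl σ) ⟨_, hK⟩
  have hT : ¬ sSup σ ≤ QQ σ := fun h => hKn (h.trans inf_le_right)
  have h3 := sInf_mem_chain hσ.chain (s := {P ∈ σ | ¬ P ≤ QQ σ}) (fun P hP => hP.1)
    ⟨_, h2.1, hT⟩
  have hX : XX σ ∈ σ := h3.1.1
  have hXn : ¬ XX σ ≤ QQ σ := h3.1.2
  have hKQ : KK σ ≤ QQ σ := le_inf (h2.2 hK) Subgroup.le_normalizer
  have hKX : KK σ ≤ XX σ := by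
    rcases hσ.chain.total hK hX with h4 | h4
    · exact h4
    · exact absurd (h4.trans hKQ) hXn
  refine ⟨h2.1, hK, hKn, fun P hP hP' => h1.2 ⟨hP, hP'⟩, hX, hXn,
    fun P hP hP' => h3.2 ⟨hP, hP'⟩, le_inf hKX hKQ, ?_⟩
  intro hR
  have hXp : IsPGroup p (XX σ) := hσ.isPGroup _ hX
  have : Group.IsNilpotent (XX σ) := hXp.isNilpotent
  have hlt : (KK σ).subgroupOf (XX σ) < ⊤ := by
    rw [lt_top_iff_ne_top]
    intro h4
    rw [Subgroup.subgroupOf_eq_top] at h4
    exact hXn (h4.trans hKQ)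
  have h5 := Group.normalizerCondition_of_isNilpotent (G := XX σ) _ hlt
  obtain ⟨x, hx1, hx2⟩ := SetLike.exists_of_lt h5
  apply hx2
  rw [Subgroup.mem_subgroupOf, ← hR]
  refine ⟨x.2, ?_, ?_⟩
  · exact h2.2 hX x.2
  · change (x : G) ∈ Subgroup.normalizer (KK σ : Set G)
    rw [Subgroup.mem_normalizer_iff]
    rw [Subgroup.mem_normalizer_iff] at hx1
    intro y
    by_cases hy : y ∈ XX σ
    · exact hx1 ⟨y, hy⟩
    · constructor
      · intro h6
        exact absurd (hKX h6) hy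
      · intro h6
        have h7 := (XX σ).mul_mem ((XX σ).mul_mem ((XX σ).inv_mem x.2) (hKX h6)) x.2
        have e : (x : G)⁻¹ * ((x : G) * y * (x : G)⁻¹) * x = y := by group
        rw [e] at h7
        exact absurd h7 hy

/-! ### the inserted subgroup -/

variable {σ : Set (Subgroup G)}

theorem Fa.T_top (h : Fa p σ) {P : Subgroup G} (hP : P ∈ σ) : P ≤ sSup σ := le_sSup hP

theorem RR_le_Q : RR σ ≤ QQ σ := inf_le_right
theorem RR_le_X : RR σ ≤ XX σ := inf_le_left

theorem Fa.R_ne_X (h : Fa p σ) : RR σ ≠ XX σ := fun h1 => h.X_not (h1 ▸ RR_le_Q)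

theorem Fa.R_ne_T (h : Fa p σ) : RR σ ≠ sSup σ := fun h1 =>
  h.K_not (h1 ▸ RR_le_Q.trans inf_le_right)

theorem mem_tg {P : Subgroup G} (hP : P ≠ RR σ) : P ∈ tg σ ↔ P ∈ σ := by
  unfold tg
  split_ifs
  · exact ⟨fun h => h.1, fun h => ⟨h, hP⟩⟩
  · constructor
    · rintro (h | h)
      · exact absurd h hP
      · exact h
    · exact fun h => Or.inr h

theorem of_mem_tg {P : Subgroup G} (hP : P ∈ tg σ) : P ∈ σ ∨ P = RR σ := by
  by_cases h : P = RR σ
  · exact Or.inr h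
  · exact Or.inl ((mem_tg h).mp hP)

theorem Fa.sSup_tg (h : Fa p σ) : sSup (tg σ) = sSup σ := by
  apply le_antisymm
  · apply sSup_le
    intro P hP
    rcases of_mem_tg hP with h1 | h1
    · exact le_sSup h1
    · rw [h1]
      exact RR_le_Q.trans inf_le_left
  · exact le_sSup ((mem_tg h.R_ne_T.symm).mpr h.T_mem)

theorem Fa.KK_tg (h : Fa p σ) : KK (tg σ) = KK σ := by
  have h1 : IsLeast {P ∈ tg σ | ¬ sSup (tg σ) ≤ Subgroup.normalizer (P : Set G)} (KK σ) := by
    rw [h.sSup_tg]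
    refine ⟨⟨(mem_tg h.R_ne_K.symm).mpr h.K_mem, h.K_not⟩, ?_⟩
    rintro P ⟨hP, hP'⟩
    rcases of_mem_tg hP with h2 | h2
    · exact h.K_least P h2 hP'
    · rw [h2]
      exact h.K_le_R
  exact h1.isGLB.sInf_eq

theorem Fa.QQ_tg (h : Fa p σ) : QQ (tg σ) = QQ σ := by
  unfold QQ
  rw [h.KK_tg, h.sSup_tg]

theorem Fa.XX_tg (h : Fa p σ) : XX (tg σ) = XX σ := by
  have h1 : {P ∈ tg σ | ¬ P ≤ QQ (tg σ)} = {P ∈ σ | ¬ P ≤ QQ σ} := by
    rw [h.QQ_tg]
    ext P
    constructor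
    · rintro ⟨hP, hP'⟩
      exact ⟨(mem_tg (fun h2 => hP' (h2.le.trans RR_le_Q))).mp hP, hP'⟩
    · rintro ⟨hP, hP'⟩
      exact ⟨(mem_tg (fun h2 => hP' (h2.le.trans RR_le_Q))).mpr hP, hP'⟩
  change sInf {P ∈ tg σ | ¬ P ≤ QQ (tg σ)} = sInf {P ∈ σ | ¬ P ≤ QQ σ}
  rw [h1]

theorem Fa.RR_tg (h : Fa p σ) : RR (tg σ) = RR σ := by
  unfold RR
  rw [h.XX_tg, h.QQ_tg]

theorem Fa.tg_tg (h : Fa p σ) : tg (tg σ) = σ := by
  conv_lhs => rw [tg]
  rw [h.RR_tg]
  by_cases h0 : RR σ ∈ σ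
  · have h1 : tg σ = σ \ {RR σ} := if_pos h0
    rw [h1, if_neg (fun h2 => h2.2 rfl), Set.insert_diff_singleton, Set.insert_eq_of_mem h0]
  · have h1 : tg σ = insert (RR σ) σ := if_neg h0
    rw [h1, if_pos (Set.mem_insert _ _)]
    ext P
    simp only [Set.mem_diff, Set.mem_insert_iff, Set.mem_singleton_iff]
    constructor
    · rintro ⟨h2 | h2, h3⟩
      · exact absurd h2 h3
      · exact h2
    · intro h2
      exact ⟨Or.inr h2, fun h3 => h0 (h3 ▸ h2)⟩

theorem Fa.not_nor (h : Fa p σ) : ¬ Nor (tg σ) := by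
  intro h1
  apply h.K_not
  have h2 : KK σ ∈ tg σ := (mem_tg h.R_ne_K.symm).mpr h.K_mem
  intro x hx
  have h3 := h1 (h.sSup_tg.symm ▸ hx : x ∈ sSup (tg σ))
  rw [mem_chainStabilizer] at h3
  exact conjSub_eq_iff.mp (h3 _ h2)

theorem Fa.comparable (h : Fa p σ) (hσ : IsPChain p σ) {P : Subgroup G} (hP : P ∈ σ) :
    P ≤ RR σ ∨ RR σ ≤ P := by
  by_cases h1 : P ≤ QQ σ
  · left
    refine le_inf ?_ h1
    rcases hσ.chain.total hP h.X_mem with h2 | h2
    · exact h2
    · exact absurd (h2.trans h1) h.X_not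
  · right
    exact RR_le_X.trans (h.X_least P hP h1)

theorem Fa.tg_chain (h : Fa p σ) (hσ : IsPChain p σ) : IsPChain p (tg σ) := by
  by_cases h0 : RR σ ∈ σ
  · have h1 : tg σ = σ \ {RR σ} := if_pos h0
    rw [h1]
    exact ⟨hσ.chain.mono Set.diff_subset, fun P hP => hσ.isPGroup P hP.1,
      fun P hP => hσ.ne_bot P hP.1⟩
  · have h1 : tg σ = insert (RR σ) σ := if_neg h0
    rw [h1]
    refine ⟨?_, ?_, ?_⟩
    · refine hσ.chain.insert fun P hP _ => ?_
      rcases h.comparable hσ hP with h2 | h2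
      · exact Or.inr h2
      · exact Or.inl h2
    · rintro P (rfl | hP)
      · exact (hσ.isPGroup _ h.X_mem).to_le RR_le_X
      · exact hσ.isPGroup P hP
    · rintro P (rfl | hP)
      · intro h2
        exact hσ.ne_bot _ h.K_mem (le_bot_iff.mp (h2 ▸ h.K_le_R))
      · exact hσ.ne_bot P hP

theorem ncard_tg [Finite G] {R : Type} [Ring R] (σ : Set (Subgroup G)) :
    ((-1 : R)) ^ (tg σ).ncard = - (-1) ^ σ.ncard := by
  by_cases h : RR σ ∈ σ
  · have h1 : tg σ = σ \ {RR σ} := if_pos h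
    have h2 := Set.ncard_diff_singleton_add_one h (Set.toFinite σ)
    rw [h1, ← h2, pow_succ]
    simp
  · have h1 : tg σ = insert (RR σ) σ := if_neg h
    rw [h1, Set.ncard_insert_of_notMem h (Set.toFinite σ), pow_succ]
    simp

theorem conj_inf (g : G) (P Q : Subgroup G) : conjSub g (P ⊓ Q) = conjSub g P ⊓ conjSub g Q := by
  ext x
  simp only [mem_conjSub, Subgroup.mem_inf]

theorem conj_norm (g : G) (P : Subgroup G) :
    conjSub g (Subgroup.normalizer (P : Set G)) = Subgroup.normalizer (conjSub g P : Set G) := by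
  ext x
  rw [mem_conjSub, ← conjSub_eq_iff, ← conjSub_eq_iff]
  constructor
  · intro h
    rw [← conjSub_mul]
    have h1 := congrArg (conjSub g) h
    rw [← conjSub_mul] at h1
    have e : g * (g⁻¹ * x * g) = x * g := by group
    rwa [e] at h1
  · intro h
    rw [← conjSub_mul] at h
    apply conjSub_injective g
    rw [← conjSub_mul]
    have e : g * (g⁻¹ * x * g) = x * g := by group
    rw [e]
    exact h

theorem Fa.stab_tg (h : Fa p σ) : chainStabilizer (tg σ) = chainStabilizer σ := by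
  have key : ∀ g : G, (∀ P ∈ σ, P ≠ RR σ → conjSub g P = P) → conjSub g (RR σ) = RR σ := by
    intro g hg
    have h1 := hg _ h.X_mem h.R_ne_X.symm
    have h2 := hg _ h.T_mem h.R_ne_T.symm
    have h3 := hg _ h.K_mem h.R_ne_K.symm
    unfold RR QQ
    rw [conj_inf, conj_inf, conj_norm, h1, h2, h3]
  ext g
  rw [mem_chainStabilizer, mem_chainStabilizer]
  constructor
  · intro hg
    have h1 : ∀ P ∈ σ, P ≠ RR σ → conjSub g P = P := fun P hP hne =>
      hg P ((mem_tg hne).mpr hP)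
    intro P hP
    by_cases hne : P = RR σ
    · rw [hne]
      exact key g h1
    · exact h1 P hP hne
  · intro hg P hP
    rcases of_mem_tg hP with h1 | h1
    · exact hg P h1
    · rw [h1]
      exact key g fun Q hQ _ => hg Q hQ

/-- **normal chains suffice** -/
theorem sum_nor [hp : Fact p.Prime] [Finite G] {R : Type} [CommRing R] (f : Subgroup G → R) :
    ∑ σ : Ch p G, (-1 : R) ^ σ.1.ncard * f (chainStabilizer σ.1) =
      ∑ σ ∈ Finset.univ.filter (fun σ : Ch p G => Nor σ.1),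
        (-1 : R) ^ σ.1.ncard * f (chainStabilizer σ.1) := by
  rw [← Finset.sum_filter_add_sum_filter_not Finset.univ (fun σ : Ch p G => Nor σ.1)]
  rw [add_eq_left]
  refine Finset.sum_involution
    (fun σ hσ => ⟨tg σ.1, (facts σ.2 (Finset.mem_filter.mp hσ).2).tg_chain σ.2⟩)
    ?_ ?_ ?_ ?_
  · intro σ hσ
    have h := facts σ.2 (Finset.mem_filter.mp hσ).2
    change (-1 : R) ^ σ.1.ncard * f (chainStabilizer σ.1) +
      (-1 : R) ^ (tg σ.1).ncard * f (chainStabilizer (tg σ.1)) = 0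
    rw [ncard_tg, h.stab_tg]
    ring
  · intro σ hσ _ h1
    have h2 : tg σ.1 = σ.1 := congrArg Subtype.val h1
    have h3 := ncard_tg (R := ℤ) σ.1
    rw [h2] at h3
    have h4 : ((-1 : ℤ)) ^ σ.1.ncard ≠ 0 := pow_ne_zero _ (by norm_num)
    omega
  · intro σ hσ
    have h := facts σ.2 (Finset.mem_filter.mp hσ).2
    exact Finset.mem_filter.mpr ⟨Finset.mem_univ _, h.not_nor⟩
  · intro σ hσ
    have h := facts σ.2 (Finset.mem_filter.mp hσ).2
    exact Subtype.ext h.tg_tg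

end

end Pool.Agent.P8H58.FR
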