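import Pool.Agent.P8H58.Chn
import Pool.Agent.Y63.NV.Final

/-!
# Products with abelian groups of order prime to `p`
-/

set_option autoImplicit false
set_option linter.unusedSectionVars false

open scoped Classical

noncomputable section

namespace Pool.Agent.P8H58

open Pool.Agent.Y63.NV Representation
open Pool.Agent.Y63.AWC (IsIrreducibleCharacter)
open Pool.Agent.N85.WM (IsW wcv)
open Pool.Agent.Y930.NV (redC_mul redC_one redC_sum redC_zero R om ind Cf centralValue_eq om_int
  Cf_ind irr_one_ne Cf_expand)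

section ext

variable {K : Type} [Field K] {A V : Type} [Group A] [CommGroup V]

/-- the product of a module and a linear character -/
def Md.ext (A0 : Md K A) (ν : V →* K) : Md K (A × V) where
  V := A0.V
  ρ :=
    { toFun := fun x => ν x.2 • A0.ρ x.1
      map_one' := by
        rw [Prod.snd_one, Prod.fst_one, map_one, map_one, one_smul]
      map_mul' := fun x y => by
        rw [Prod.snd_mul, Prod.fst_mul, map_mul, map_mul, smul_mul_smul_comm] }
  irr := by
    haveI := A0.nontriv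
    refine irr_of (G := A × V) _ fun S hS => A0.sub S fun g v hv => ?_
    have h1 := hS (g, 1) v hv
    change (ν 1 • A0.ρ g) v ∈ S at h1
    rwa [map_one, one_smul] at h1

theorem Md.ext_tr (A0 : Md K A) (ν : V →* K) (x : A × V) :
    (A0.ext ν).tr x = A0.tr x.1 * ν x.2 := by
  change LinearMap.trace K A0.V (ν x.2 • A0.ρ x.1) = _
  rw [map_smul, smul_eq_mul, mul_comm]
  rfl

theorem exists_ext [IsAlgClosed K] (C : Md K (A × V)) :
    ∃ (A0 : Md K A) (ν : V →* K), C.tr = (A0.ext ν).tr := by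
  haveI := C.irr
  haveI := C.nontriv
  have h1 : ∀ v : V, ∃ c : K, C.ρ (1, v) = c • 1 := by
    intro v
    let T : IntertwiningMap C.ρ C.ρ := ⟨C.ρ (1, v), fun x => by
      ext w
      change C.ρ (1, v) (C.ρ x w) = C.ρ x (C.ρ (1, v) w)
      rw [← Module.End.mul_apply, ← Module.End.mul_apply, ← map_mul, ← map_mul]
      congr 2
      ext
      · simp
      · simp [mul_comm]⟩
    obtain ⟨c, hc⟩ := (IsIrreducible.algebraMap_intertwiningMap_bijective_of_isAlgClosed
      (ρ := C.ρ)).2 T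
    exact ⟨c, (congrArg IntertwiningMap.toLinearMap hc).symm⟩
  choose c hc using h1
  have hinj : ∀ a b : K, a • (1 : C.V →ₗ[K] C.V) = b • 1 → a = b := by
    intro a b h
    have h2 : (a - b) • (1 : C.V →ₗ[K] C.V) = 0 := by rw [sub_smul, h, sub_self]
    rcases smul_eq_zero.1 h2 with h3 | h3
    · exact sub_eq_zero.1 h3
    · exact absurd h3 one_ne_zero
  let ν : V →* K :=
    { toFun := c
      map_one' := by
        apply hinj
        rw [← hc, one_smul]
        exact map_one C.ρ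
      map_mul' := fun v w => by
        apply hinj
        rw [← hc]
        have : ((1 : A), v * w) = (1, v) * (1, w) := by
          ext
          · simp
          · simp
        rw [this, map_mul, hc, hc, smul_mul_smul_comm, one_mul] }
  let A0 : Md K A :=
    { V := C.V
      ρ := C.ρ.comp (MonoidHom.inl A V)
      irr := by
        refine irr_of (G := A) _ fun S hS => C.sub S fun g v hv => ?_
        have h2 : C.ρ g = c g.2 • C.ρ (g.1, 1) := by
          have : g = (g.1, 1) * (1, g.2) := by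
            ext
            · simp
            · simp
          conv_lhs => rw [this, map_mul, hc, mul_smul_comm, mul_one]
        rw [h2]
        exact S.smul_mem _ (hS g.1 v hv) }
  refine ⟨A0, ν, ?_⟩
  funext x
  rw [Md.ext_tr]
  have h2 : C.ρ x = c x.2 • C.ρ (x.1, 1) := by
    have : x = (x.1, 1) * (1, x.2) := by
      ext
      · simp
      · simp
    conv_lhs => rw [this, map_mul, hc, mul_smul_comm, mul_one]
  change LinearMap.trace K C.V (C.ρ x) = LinearMap.trace K C.V (C.ρ (x.1, 1)) * c x.2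
  rw [h2, map_smul, smul_eq_mul, mul_comm]

theorem ext_inj [IsAlgClosed K] [Finite A] {A0 A1 : Md K A} {ν ν1 : V →* K}
    (h : (A0.ext ν).tr = (A1.ext ν1).tr) : A0.tr = A1.tr ∧ ν = ν1 := by
  have h1 : A0.tr = A1.tr := by
    funext a
    have := congrFun h (a, 1)
    rw [Md.ext_tr, Md.ext_tr, map_one, map_one, mul_one, mul_one] at this
    exact this
  refine ⟨h1, ?_⟩
  obtain ⟨a, ha⟩ := A0.tr_ne
  ext v
  have := congrFun h (a, v)
  rw [Md.ext_tr, Md.ext_tr] at this
  change A0.tr a * ν v = A1.tr a * ν1 v at this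
  rw [← h1] at this
  exact mul_left_cancel₀ ha this

end ext

section LLp

variable {F : Type} [Field F] {A V : Type} [Group A] [CommGroup V] [Finite A] [Finite V]

/-- the number of linear characters at which `κ` does not vanish -/
def KS (κ : V → F) : ℕ := Nat.card {ν : V →* F // ∑ᶠ v, κ v * ν v ≠ 0}

theorem hom_ne (ν : V →* F) (v : V) : ν v ≠ 0 := by
  have h1 : ν v ^ Nat.card V = 1 := by
    rw [← map_pow, pow_card_eq_one', map_one]
  intro h
  rw [h, zero_pow Nat.card_pos.ne'] at h1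
  exact zero_ne_one h1

theorem nz_ext (E : A → F) (κ : V → F) (A0 : Md F A) (ν : V →* F) :
    NZ (fun x : A × V => E x.1 * κ x.2) (A0.ext ν).tr ↔
      NZ E A0.tr ∧ ∑ᶠ v, κ v * ν v ≠ 0 := by
  haveI := Fintype.ofFinite A
  haveI := Fintype.ofFinite V
  have h1 : ∀ (a : A) (w : V), ∑ᶠ x : A × V, (E x.1 * κ x.2) * (A0.ext ν).tr (x * (a, w)) =
      (∑ᶠ g, E g * A0.tr (g * a)) * ((∑ᶠ v, κ v * ν v) * ν w) := by
    intro a w
    rw [finsum_eq_sum_of_fintype, finsum_eq_sum_of_fintype, finsum_eq_sum_of_fintype,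
      Fintype.sum_prod_type, Finset.sum_mul (s := Finset.univ) (f := fun v => κ v * ν v),
      Finset.sum_mul_sum]
    refine Finset.sum_congr rfl fun x _ => Finset.sum_congr rfl fun y _ => ?_
    rw [Md.ext_tr]
    change E x * κ y * (A0.tr (x * a) * ν (y * w)) = _
    rw [map_mul]
    ring
  constructor
  · rintro ⟨⟨a, w⟩, h⟩
    change ∑ᶠ x : A × V, (E x.1 * κ x.2) * (A0.ext ν).tr (x * (a, w)) ≠ 0 at h
    rw [h1] at h
    exact ⟨⟨a, left_ne_zero_of_mul h⟩, left_ne_zero_of_mul (right_ne_zero_of_mul h)⟩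
  · rintro ⟨⟨a, h⟩, h'⟩
    refine ⟨(a, 1), ?_⟩
    change ∑ᶠ x : A × V, (E x.1 * κ x.2) * (A0.ext ν).tr (x * (a, 1)) ≠ 0
    rw [h1, map_one, mul_one]
    exact mul_ne_zero h h'

theorem LL_prod [IsAlgClosed F] (E : A → F) (κ : V → F) :
    LL (fun x : A × V => E x.1 * κ x.2) = LL E * KS κ := by
  unfold LL KS
  rw [← Nat.card_prod]
  symm
  have hirr : ∀ (φ : A → F) (ν : V →* F), IsIrrTrace φ →
      ∃ A0 : Md F A, A0.tr = φ ∧ (A0.ext ν).tr = fun x : A × V => φ x.1 * ν x.2 := by
    intro φ ν h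
    obtain ⟨A0, rfl⟩ := exists_md h
    exact ⟨A0, rfl, funext fun x => Md.ext_tr A0 ν x⟩
  refine Nat.card_congr (Equiv.ofBijective (fun q : {φ : A → F // IsIrrTrace φ ∧ NZ E φ} ×
    {ν : V →* F // ∑ᶠ v, κ v * ν v ≠ 0} =>
    (⟨fun x => q.1.1 x.1 * q.2.1 x.2, ?_⟩ : {φ : A × V → F // IsIrrTrace φ ∧
      NZ (fun x : A × V => E x.1 * κ x.2) φ})) ⟨?_, ?_⟩)
  · obtain ⟨A0, h1, h2⟩ := hirr q.1.1 q.2.1 q.1.2.1
    rw [← h2]
    refine ⟨Md.isIrr _, (nz_ext E κ A0 q.2.1).2 ⟨?_, q.2.2⟩⟩
    rw [h1]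
    exact q.1.2.2
  · rintro ⟨⟨φ, h1, h2⟩, ⟨ν, h3⟩⟩ ⟨⟨φ', h1', h2'⟩, ⟨ν', h3'⟩⟩ h
    have h4 : (fun x : A × V => φ x.1 * ν x.2) = fun x => φ' x.1 * ν' x.2 :=
      congrArg Subtype.val h
    obtain ⟨A0, a1, a2⟩ := hirr φ ν h1
    obtain ⟨A1, b1, b2⟩ := hirr φ' ν' h1'
    obtain ⟨c1, c2⟩ := ext_inj (a2.trans (h4.trans b2.symm))
    have e1 : φ = φ' := by rw [← a1, ← b1, c1]
    subst e1
    subst c2
    rfl
  · rintro ⟨φ, h1, h2⟩
    obtain ⟨C, rfl⟩ := exists_md h1
    obtain ⟨A0, ν, h3⟩ := exists_ext C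
    rw [h3] at h2
    obtain ⟨h4, h5⟩ := (nz_ext E κ A0 ν).1 h2
    refine ⟨(⟨A0.tr, A0.isIrr, h4⟩, ⟨ν, h5⟩), ?_⟩
    refine Subtype.ext (Eq.trans ?_ h3.symm)
    funext x
    exact (Md.ext_tr A0 ν x).symm

end LLp

section red

variable {F : Type} [Field F] {V : Type} [CommGroup V] [Finite V]

theorem hom_int {V : Type} [Group V] [Finite V] (μ : V →* ℂ) (v : V) : IsIntegral ℤ (μ v) := by
  refine IsIntegral.of_pow (n := Nat.card V) Nat.card_pos ?_
  rw [← map_pow, pow_card_eq_one', map_one]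
  exact isIntegral_one

/-- the reduction of a linear character -/
def rH (red : integralClosure ℤ ℂ →+* F) {V : Type} [Group V] [Finite V] (μ : V →* ℂ) : V →* F where
  toFun v := redC red (μ v)
  map_one' := by rw [map_one, redC_one]
  map_mul' v w := by rw [map_mul, redC_mul red (hom_int μ v) (hom_int μ w)]

variable (red : integralClosure ℤ ℂ →+* F)

theorem rH_apply {V : Type} [Group V] [Finite V] (μ : V →* ℂ) (v : V) :
    rH red μ v = redC red (μ v) := rfl

theorem rH_mul (μ ν : V →* ℂ) : rH red (μ * ν) = rH red μ * rH red ν := by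
  ext v
  rw [rH_apply, MonoidHom.mul_apply, MonoidHom.mul_apply, redC_mul red (hom_int μ v) (hom_int ν v)]
  rfl

theorem rH_one : rH red (1 : V →* ℂ) = 1 := by
  ext v
  rw [rH_apply, MonoidHom.one_apply, redC_one]
  rfl

theorem natcast_redC (n : ℕ) : redC red (n : ℂ) = (n : F) := by
  have := Pool.Agent.Y930.NV.redC_intCast red (n : ℤ)
  exact_mod_cast this

/-- the reduction is injective on characters of groups of order prime to `p` -/
theorem rH_eq_one {p : ℕ} [Fact p.Prime] [CharP F p] (hV : ¬ p ∣ Nat.card V) {μ : V →* ℂ}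
    (h : rH red μ = 1) : μ = 1 := by
  haveI := Fintype.ofFinite V
  by_contra hne
  have h1 := sum_hom_units_eq_zero μ hne
  have h2 : redC red (∑ v, μ v) = (Nat.card V : F) := by
    rw [redC_sum red _ _ (fun v _ => hom_int μ v)]
    rw [Finset.sum_congr rfl fun v _ => by
      rw [← rH_apply red μ v, h, MonoidHom.one_apply], Finset.sum_const, Finset.card_univ,
      nsmul_eq_mul, mul_one, Nat.card_eq_fintype_card]
  rw [h1, redC_zero] at h2
  have h3 := (CharP.cast_eq_zero_iff F p (Nat.card V)).1 h2.symm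
  exact hV h3

theorem hom_mul_inv {K : Type} [Field K] (ν : V →* K) : ∃ ν' : V →* K, ν * ν' = 1 := by
  refine ⟨ν.comp (invMonoidHom : V →* V), ?_⟩
  ext v
  rw [MonoidHom.mul_apply, MonoidHom.comp_apply, MonoidHom.one_apply, ← map_mul]
  change ν (v * v⁻¹) = 1
  rw [mul_inv_cancel, map_one]

/-- the number of linear complex characters at which `κ` does not vanish -/
def KC (κ : V → F) : ℕ := Nat.card {ν : V →* ℂ // ∑ᶠ v, κ v * redC red (ν v) ≠ 0}

variable {ι : Type} [Fintype ι] {p : ℕ} [Fact p.Prime] [CharP F p] (hV : ¬ p ∣ Nat.card V)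
  (l : ι → V →* ℂ) (hl : ∀ u w, rH red (l u) = rH red (l w) → u = w)

include hV hl

theorem kap_ne (ν : V →* F) : ∑ᶠ v, (∑ u, rH red (l u) v) * ν v ≠ 0 ↔
    ∃ u, rH red (l u) * ν = 1 := by
  haveI := Fintype.ofFinite V
  rw [finsum_eq_sum_of_fintype]
  have h1 : ∑ v, (∑ u, rH red (l u) v) * ν v = ∑ u, ∑ v, (rH red (l u) * ν) v := by
    rw [Finset.sum_comm]
    refine Finset.sum_congr rfl fun v _ => ?_
    rw [Finset.sum_mul]
    rfl
  rw [h1]
  have h2 : ∀ u, ∑ v, (rH red (l u) * ν) v = if rH red (l u) * ν = 1 then (Nat.card V : F) else 0 := by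
    intro u
    have := sum_hom_units (rH red (l u) * ν)
    rw [this, Nat.card_eq_fintype_card]
    split_ifs <;> simp
  rw [Finset.sum_congr rfl fun u _ => h2 u]
  have hc : (Nat.card V : F) ≠ 0 := fun h => hV ((CharP.cast_eq_zero_iff F p _).1 h)
  constructor
  · intro h
    obtain ⟨u, _, hu⟩ := Finset.exists_ne_zero_of_sum_ne_zero h
    refine ⟨u, ?_⟩
    by_contra hcon
    rw [if_neg hcon] at hu
    exact hu rfl
  · rintro ⟨u, hu⟩
    rw [Finset.sum_eq_single u]
    · rw [if_pos hu]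
      exact hc
    · intro w _ hw
      rw [if_neg]
      intro h3
      apply hw
      apply hl
      obtain ⟨ν', hν'⟩ := hom_mul_inv ν
      calc rH red (l w) = rH red (l w) * (ν * ν') := by rw [hν', mul_one]
        _ = rH red (l u) * (ν * ν') := by rw [← mul_assoc, ← mul_assoc, h3, hu]
        _ = rH red (l u) := by rw [hν', mul_one]
    · intro h
      exact absurd (Finset.mem_univ u) h

theorem KS_eq : KS (fun v => ∑ u, rH red (l u) v) = Fintype.card ι := by
  unfold KS
  rw [← Nat.card_eq_fintype_card]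
  symm
  choose ν hν using fun u => hom_mul_inv (rH red (l u))
  refine Nat.card_congr (Equiv.ofBijective (fun u => (⟨ν u, (kap_ne red hV l hl (ν u)).2
    ⟨u, hν u⟩⟩ : {ν : V →* F // ∑ᶠ v, (∑ u, rH red (l u) v) * ν v ≠ 0})) ⟨?_, ?_⟩)
  · intro u w h
    have h1 : ν u = ν w := congrArg Subtype.val h
    apply hl
    calc rH red (l u) = rH red (l u) * (rH red (l w) * ν w) := by rw [hν w, mul_one]
      _ = rH red (l w) * (rH red (l u) * ν u) := by
          rw [← h1, mul_left_comm]
      _ = rH red (l w) := by rw [hν u, mul_one]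
  · rintro ⟨μ, hμ⟩
    obtain ⟨u, hu⟩ := (kap_ne red hV l hl μ).1 hμ
    refine ⟨u, ?_⟩
    apply Subtype.ext
    change ν u = μ
    calc ν u = ν u * (rH red (l u) * μ) := by rw [hu, mul_one]
      _ = μ * (rH red (l u) * ν u) := by rw [mul_left_comm, mul_comm (ν u) μ, mul_left_comm]
      _ = μ := by rw [hν u, mul_one]

theorem KC_eq : KC red (fun v => ∑ u, rH red (l u) v) = Fintype.card ι := by
  unfold KC
  rw [← Nat.card_eq_fintype_card]
  symm
  choose ν hν using fun u => hom_mul_inv (l u)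
  have hν' : ∀ u, rH red (l u) * rH red (ν u) = 1 := fun u => by rw [← rH_mul, hν u, rH_one]
  refine Nat.card_congr (Equiv.ofBijective (fun u => (⟨ν u, (kap_ne red hV l hl (rH red (ν u))).2
    ⟨u, hν' u⟩⟩ : {ν : V →* ℂ // ∑ᶠ v, (∑ u, rH red (l u) v) * redC red (ν v) ≠ 0})) ⟨?_, ?_⟩)
  · intro u w h
    have h1 : ν u = ν w := congrArg Subtype.val h
    apply hl
    calc rH red (l u) = rH red (l u) * (rH red (l w) * rH red (ν w)) := by rw [hν' w, mul_one]
      _ = rH red (l w) * (rH red (l u) * rH red (ν u)) := by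
          rw [← h1, mul_left_comm]
      _ = rH red (l w) := by rw [hν' u, mul_one]
  · rintro ⟨μ, hμ⟩
    obtain ⟨u, hu⟩ := (kap_ne red hV l hl (rH red μ)).1 hμ
    refine ⟨u, ?_⟩
    apply Subtype.ext
    change ν u = μ
    have h1 : l u * μ = 1 := by
      apply rH_eq_one red hV
      rw [rH_mul, hu]
    calc ν u = ν u * (l u * μ) := by rw [h1, mul_one]
      _ = μ * (l u * ν u) := by rw [mul_left_comm, mul_comm (ν u) μ, mul_left_comm]
      _ = μ := by rw [hν u, mul_one]

end red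

end Pool.Agent.P8H58
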