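import Pool.Agent.Y914.NV.Irr

/-!
# Irreducible traces of a group and of a subgroup of finite index
-/

set_option autoImplicit false

open scoped Classical

noncomputable section

namespace Pool.Agent.P8H58

open Pool.Agent.Y63.NV Representation
open Pool.Agent.Y914.NV (pair burn act expand trace_expand trace_one)
open scoped MonoidAlgebra

/-- an irreducible finite-dimensional representation -/
structure Md (F : Type) [Field F] (G : Type) [Group G] where
  V : Type
  [acg : AddCommGroup V]
  [mod : Module F V]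
  [fd : FiniteDimensional F V]
  ρ : Representation F G V
  irr : ρ.IsIrreducible

attribute [instance] Md.acg Md.mod Md.fd

variable {F : Type} [Field F]

section one

variable {G : Type} [Group G]

/-- the trace -/
def Md.tr (A : Md F G) : G → F := A.ρ.character

theorem Md.isIrr (A : Md F G) : IsIrrTrace A.tr :=
  ⟨A.V, A.acg, A.mod, A.fd, A.ρ, A.irr, rfl⟩

theorem exists_md {φ : G → F} (h : IsIrrTrace φ) : ∃ A : Md F G, A.tr = φ := by
  obtain ⟨V, i1, i2, i3, ρ, h1, h2⟩ := h
  exact ⟨⟨V, ρ, h1⟩, h2.symm⟩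

theorem Md.nontriv (A : Md F G) : Nontrivial A.V := by
  have := A.irr
  exact IsSimpleModule.nontrivial F[G] A.ρ.asModule

/-- a stable subspace is zero or everything -/
theorem Md.sub (A : Md F G) (S : Submodule F A.V) (hS : ∀ g : G, ∀ v ∈ S, A.ρ g v ∈ S) :
    S = ⊥ ∨ S = ⊤ := by
  have := A.irr
  let T : Subrepresentation A.ρ := ⟨S, fun g v hv => hS g v hv⟩
  rcases IsSimpleOrder.eq_bot_or_eq_top T with h | h
  · left
    exact congrArg Subrepresentation.toSubmodule h
  · right
    exact congrArg Subrepresentation.toSubmodule h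

variable [IsAlgClosed F] [Finite G]

/-- an element which acts as `1` on the first module and as `0` on the second one -/
theorem pairM (A B : Md F G) (h : A.tr ≠ B.tr) :
    ∃ x : F[G], A.ρ.asAlgebraHom x = 1 ∧ B.ρ.asAlgebraHom x = 0 := by
  have := A.irr
  have := B.irr
  obtain ⟨a, ha, hb⟩ := pair (F := F) (A := F[G]) (Pool.Agent.Y914.NV.noniso A.ρ B.ρ h)
  refine ⟨a, ?_, ?_⟩
  · ext v
    rw [act, ha, LinearEquiv.apply_symm_apply, Module.End.one_apply]
  · ext v
    rw [act, hb, map_zero, LinearMap.zero_apply]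

theorem manyM {ι : Type} (A : Md F G) (B : ι → Md F G) (s : Finset ι) :
    (∀ i ∈ s, (B i).tr ≠ A.tr) →
      ∃ x : F[G], A.ρ.asAlgebraHom x = 1 ∧ ∀ i ∈ s, (B i).ρ.asAlgebraHom x = 0 := by
  induction s using Finset.induction_on with
  | empty => exact fun _ => ⟨1, map_one _, fun ψ h => absurd h (Finset.notMem_empty _)⟩
  | insert i s _ ih =>
    intro h
    obtain ⟨x, hx1, hx2⟩ := ih fun j hj => h j (Finset.mem_insert_of_mem hj)
    obtain ⟨y, hy1, hy2⟩ := pairM A (B i) (Ne.symm (h i (Finset.mem_insert_self _ _)))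
    refine ⟨x * y, by rw [map_mul, hx1, hy1, mul_one], fun j hj => ?_⟩
    rcases Finset.mem_insert.1 hj with rfl | hj
    · rw [map_mul, hy2, mul_zero]
    · rw [map_mul, hx2 j hj, zero_mul]

omit [IsAlgClosed F] in
theorem tr_alg (A B : Md F G) (h : A.tr = B.tr) (x : F[G]) :
    LinearMap.trace F A.V (A.ρ.asAlgebraHom x) = LinearMap.trace F B.V (B.ρ.asAlgebraHom x) := by
  haveI := Fintype.ofFinite G
  obtain ⟨a, rfl⟩ := expand x
  rw [trace_expand, trace_expand]
  exact Finset.sum_congr rfl fun g _ => by rw [show A.ρ.character g = B.ρ.character g from congrFun h g]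

/-- modules with the same trace are isomorphic -/
theorem iso_of_tr (A B : Md F G) (h : A.tr = B.tr) :
    ∃ e : A.V ≃ₗ[F] B.V, ∀ g v, e (A.ρ g v) = B.ρ g (e v) := by
  have := A.irr
  have := B.irr
  have hne : ¬ IsEmpty (A.ρ.asModule ≃ₗ[F[G]] B.ρ.asModule) := by
    intro hE
    obtain ⟨a, ha, hb⟩ := pair (F := F) (A := F[G]) hE
    have h1 : A.ρ.asAlgebraHom a = 1 := by
      ext v
      rw [act, ha, LinearEquiv.apply_symm_apply, Module.End.one_apply]
    have h2 : B.ρ.asAlgebraHom a = 0 := by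
      ext v
      rw [act, hb, map_zero, LinearMap.zero_apply]
    obtain ⟨b, hb'⟩ := trace_one A.ρ A.irr
    have h3 := tr_alg A B h (b * a)
    rw [map_mul A.ρ.asAlgebraHom, map_mul B.ρ.asAlgebraHom, h1, h2, mul_one, mul_zero, map_zero,
      hb'] at h3
    exact one_ne_zero h3
  rw [not_isEmpty_iff] at hne
  obtain ⟨e⟩ := hne
  let e2 : A.V ≃ₗ[F] B.V := A.ρ.asModuleEquiv.symm.trans
    ((e.restrictScalars F).trans B.ρ.asModuleEquiv)
  refine ⟨e2, fun g v => ?_⟩
  show B.ρ.asModuleEquiv (e (A.ρ.asModuleEquiv.symm (A.ρ g v))) =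
    B.ρ g (B.ρ.asModuleEquiv (e (A.ρ.asModuleEquiv.symm v)))
  rw [asModuleEquiv_symm_map_rho, map_smul, asModuleEquiv_map_smul, asAlgebraHom_of]

end one

section rel

variable {M : Type} [Group M] (N : Subgroup M)

/-- there is a nonzero `N`-homomorphism -/
def Lies (A : Md F M) (B : Md F N) : Prop :=
  ∃ f : A.V →ₗ[F] B.V, f ≠ 0 ∧ ∀ (n : N) (v : A.V), f (A.ρ n v) = B.ρ n (f v)

variable {N}

theorem lies_congr [IsAlgClosed F] [Finite M] {A A' : Md F M} {B B' : Md F N} (hA : A.tr = A'.tr)
    (hB : B.tr = B'.tr) (h : Lies N A B) : Lies N A' B' := by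
  obtain ⟨f, hf, hf2⟩ := h
  obtain ⟨e1, he1⟩ := iso_of_tr A' A hA.symm
  obtain ⟨e2, he2⟩ := iso_of_tr B B' hB
  refine ⟨e2.toLinearMap ∘ₗ f ∘ₗ e1.toLinearMap, ?_, ?_⟩
  · intro h0
    apply hf
    ext v
    have h1 := LinearMap.congr_fun h0 (e1.symm v)
    simp only [LinearMap.comp_apply, LinearEquiv.coe_coe, LinearEquiv.apply_symm_apply,
      LinearMap.zero_apply, LinearEquiv.map_eq_zero_iff] at h1
    rw [h1, LinearMap.zero_apply]
  · intro n v
    simp only [LinearMap.comp_apply, LinearEquiv.coe_coe]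
    rw [he1, hf2, he2]

theorem Md.surj {A : Md F M} {B : Md F N} {f : A.V →ₗ[F] B.V} (hf : f ≠ 0)
    (hf2 : ∀ (n : N) (v : A.V), f (A.ρ n v) = B.ρ n (f v)) : Function.Surjective f := by
  rw [← LinearMap.range_eq_top]
  rcases B.sub (LinearMap.range f) (by
    rintro g _ ⟨v, rfl⟩
    exact ⟨A.ρ g v, hf2 g v⟩) with h | h
  · exact absurd (LinearMap.range_eq_bot.1 h) hf
  · exact h

/-- the restriction to `N` -/
def Md.rs (A : Md F M) (N : Subgroup M) : Representation F N A.V := A.ρ.comp N.subtype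

theorem alg_comm [Finite M] {A : Md F M} {B : Md F N} {f : A.V →ₗ[F] B.V}
    (hf2 : ∀ (n : N) (v : A.V), f (A.ρ n v) = B.ρ n (f v)) (x : F[N]) (v : A.V) :
    f ((A.rs N).asAlgebraHom x v) = B.ρ.asAlgebraHom x (f v) := by
  haveI := Fintype.ofFinite N
  obtain ⟨a, rfl⟩ := expand x
  simp only [map_sum, LinearMap.sum_apply, asAlgebraHom_single, LinearMap.smul_apply, map_smul]
  exact Finset.sum_congr rfl fun n _ => by
    congr 1
    exact hf2 n v

/-- an element of `V` killed by all translates of the homomorphism is zero -/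
theorem Md.inj {A : Md F M} {B : Md F N} {f : A.V →ₗ[F] B.V} (hf : f ≠ 0)
    (v : A.V) (hv : ∀ x : M, f (A.ρ x v) = 0) : v = 0 := by
  let S : Submodule F A.V :=
    { carrier := {v | ∀ x : M, f (A.ρ x v) = 0}
      zero_mem' := fun x => by rw [map_zero, map_zero]
      add_mem' := fun {a b} ha hb x => by rw [map_add, map_add, ha x, hb x, add_zero]
      smul_mem' := fun c a ha x => by rw [map_smul, map_smul, ha x, smul_zero] }
  rcases A.sub S (by
    intro g v hv x
    have := hv (x * g)
    rwa [map_mul] at this) with h | h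
  · have h1 : v ∈ S := hv
    rw [h] at h1
    exact h1
  · exfalso
    apply hf
    ext w
    have h1 : w ∈ S := by rw [h]; trivial
    have h2 := h1 1
    rw [map_one, Module.End.one_apply] at h2
    rw [h2, LinearMap.zero_apply]

/-- distinct modules over a fixed module of the subgroup -/
theorem dim_above [IsAlgClosed F] [Finite M] {ι : Type} [Fintype ι] (B : Md F N) (A : ι → Md F M)
    (hne : ∀ i j, i ≠ j → (A i).tr ≠ (A j).tr) (f : ∀ i, (A i).V →ₗ[F] B.V) (hf : ∀ i, f i ≠ 0)
    (hf2 : ∀ i (n : N) (v : (A i).V), f i ((A i).ρ n v) = B.ρ n (f i v)) :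
    ∑ i, Module.finrank F (A i).V ≤ N.index * Module.finrank F B.V := by
  let Φ : (∀ i, (A i).V) →ₗ[F] (M ⧸ N → B.V) :=
    { toFun := fun v c => ∑ i, f i ((A i).ρ (c.out)⁻¹ (v i))
      map_add' := fun v w => by
        funext c
        simp [Finset.sum_add_distrib]
      map_smul' := fun a v => by
        funext c
        simp [Finset.smul_sum] }
  have hinj : Function.Injective Φ := by
    rw [injective_iff_map_eq_zero]
    intro v hv
    have h1 : ∀ x : M, ∑ i, f i ((A i).ρ x (v i)) = 0 := by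
      intro x
      let c : M ⧸ N := (x⁻¹ : M)
      have h2 : (c.out : M)⁻¹ * (x⁻¹) ∈ N := by
        rw [← QuotientGroup.eq]
        exact QuotientGroup.out_eq' c
      have h3 : x = (⟨(c.out : M)⁻¹ * (x⁻¹), h2⟩ : N)⁻¹ * (c.out)⁻¹ := by
        change x = ((c.out : M)⁻¹ * (x⁻¹))⁻¹ * (c.out)⁻¹
        group
      have h4 : ∑ i, f i ((A i).ρ (c.out)⁻¹ (v i)) = 0 := congrFun hv c
      have h5 : ∀ i, f i ((A i).ρ x (v i)) = B.ρ ((⟨(c.out : M)⁻¹ * (x⁻¹), h2⟩ : N)⁻¹)
          (f i ((A i).ρ (c.out)⁻¹ (v i))) := by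
        intro i
        conv_lhs => rw [h3, map_mul, Module.End.mul_apply]
        exact hf2 i ((⟨(c.out : M)⁻¹ * (x⁻¹), h2⟩ : N)⁻¹) _
      rw [Finset.sum_congr rfl fun i _ => h5 i, ← map_sum, h4, map_zero]
    have h2 : ∀ y : F[M], ∑ i, f i ((A i).ρ.asAlgebraHom y (v i)) = 0 := by
      intro y
      haveI := Fintype.ofFinite M
      obtain ⟨a, rfl⟩ := expand y
      simp only [map_sum, LinearMap.sum_apply, asAlgebraHom_single, LinearMap.smul_apply, map_smul]
      rw [Finset.sum_comm]
      refine Finset.sum_eq_zero fun g _ => ?_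
      rw [← Finset.smul_sum, h1 g, smul_zero]
    funext i
    obtain ⟨y, hy1, hy2⟩ := manyM (A i) A (Finset.univ.erase i) (by
      intro j hj
      exact hne j i (Finset.ne_of_mem_erase hj))
    refine Md.inj (hf i) (v i) fun x => ?_
    have h3 := h2 (MonoidAlgebra.single x 1 * y)
    rw [Finset.sum_eq_single i] at h3
    · rw [map_mul, hy1, mul_one, asAlgebraHom_single, one_smul] at h3
      exact h3
    · intro j _ hj
      rw [map_mul, hy2 j (Finset.mem_erase.2 ⟨hj, Finset.mem_univ j⟩), mul_zero,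
        LinearMap.zero_apply, map_zero]
    · intro h
      exact absurd (Finset.mem_univ i) h
  have h1 := LinearMap.finrank_le_finrank_of_injective hinj
  haveI : Fintype (M ⧸ N) := Fintype.ofFinite _
  rw [Module.finrank_pi_fintype, Module.finrank_pi_fintype, Finset.sum_const, smul_eq_mul] at h1
  rw [Subgroup.index, Nat.card_eq_fintype_card]
  exact h1

/-- distinct modules under a fixed module of the group -/
theorem dim_below [IsAlgClosed F] [Finite M] {ι : Type} [Fintype ι] (A : Md F M) (B : ι → Md F N)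
    (hne : ∀ i j, i ≠ j → (B i).tr ≠ (B j).tr) (f : ∀ i, A.V →ₗ[F] (B i).V) (hf : ∀ i, f i ≠ 0)
    (hf2 : ∀ i (n : N) (v : A.V), f i (A.ρ n v) = (B i).ρ n (f i v)) :
    ∑ i, Module.finrank F (B i).V ≤ Module.finrank F A.V := by
  let Φ : A.V →ₗ[F] (∀ i, (B i).V) := LinearMap.pi f
  have hsurj : Function.Surjective Φ := by
    intro u
    have h1 : ∀ i, ∃ w : A.V, f i w = u i ∧ ∀ j, j ≠ i → f j w = 0 := by
      intro i
      obtain ⟨y, hy1, hy2⟩ := manyM (B i) B (Finset.univ.erase i) (by
        intro j hj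
        exact hne j i (Finset.ne_of_mem_erase hj))
      obtain ⟨v, hv⟩ := Md.surj (hf i) (hf2 i) (u i)
      refine ⟨(A.rs N).asAlgebraHom y v, ?_, ?_⟩
      · rw [alg_comm (hf2 i), hy1, Module.End.one_apply, hv]
      · intro j hj
        rw [alg_comm (hf2 j), hy2 j (Finset.mem_erase.2 ⟨hj, Finset.mem_univ j⟩),
          LinearMap.zero_apply]
    choose w hw1 hw2 using h1
    refine ⟨∑ i, w i, ?_⟩
    funext j
    rw [map_sum, Finset.sum_apply]
    rw [Finset.sum_eq_single j]
    · exact hw1 j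
    · intro i _ hi
      exact hw2 i j hi.symm
    · intro h
      exact absurd (Finset.mem_univ j) h
  have h1 := LinearMap.finrank_le_finrank_of_surjective hsurj
  rw [Module.finrank_pi_fintype] at h1
  exact h1

theorem Md.pos (A : Md F M) : 0 < Module.finrank F A.V := by
  have := A.nontriv
  exact Module.finrank_pos

theorem dim_le [IsAlgClosed F] [Finite M] {A : Md F M} {B : Md F N} (h : Lies N A B) :
    Module.finrank F B.V ≤ Module.finrank F A.V ∧
      Module.finrank F A.V ≤ N.index * Module.finrank F B.V := by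
  obtain ⟨f, hf, hf2⟩ := h
  constructor
  · exact LinearMap.finrank_le_finrank_of_surjective (Md.surj hf hf2)
  · have := dim_above (ι := Unit) B (fun _ => A) (fun i j h => absurd (Subsingleton.elim i j) h)
      (fun _ => f) (fun _ => hf) (fun _ => hf2)
    simpa using this

/-- at most `index` traces above -/
theorem card_above [IsAlgClosed F] [Finite M] (B : Md F N) (s : Finset (M → F))
    (h : ∀ φ ∈ s, ∃ A : Md F M, A.tr = φ ∧ Lies N A B) : s.card ≤ N.index := by
  have h' : ∀ φ : s, ∃ A : Md F M, A.tr = φ.1 ∧ Lies N A B := fun φ => h φ.1 φ.2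
  choose A hA hL using h'
  choose f hf hf2 using hL
  have h1 := dim_above B A (fun i j hij h2 => hij (Subtype.ext (by rw [← hA i, ← hA j, h2]))) f hf hf2
  have h2 : s.card * Module.finrank F B.V ≤ N.index * Module.finrank F B.V := by
    refine le_trans ?_ h1
    have h3 : ∀ i : s, Module.finrank F B.V ≤ Module.finrank F (A i).V :=
      fun i => (dim_le ⟨f i, hf i, hf2 i⟩).1
    have h4 := Finset.card_nsmul_le_sum (Finset.univ : Finset s) (fun i => Module.finrank F (A i).V)
      (Module.finrank F B.V) (fun i _ => h3 i)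
    rw [Finset.card_univ, Fintype.card_coe, smul_eq_mul] at h4
    exact h4
  exact Nat.le_of_mul_le_mul_right h2 B.pos

/-- at most `index` traces below -/
theorem card_below [IsAlgClosed F] [Finite M] (A : Md F M) (s : Finset (N → F))
    (h : ∀ ψ ∈ s, ∃ B : Md F N, B.tr = ψ ∧ Lies N A B) : s.card ≤ N.index := by
  have h' : ∀ ψ : s, ∃ B : Md F N, B.tr = ψ.1 ∧ Lies N A B := fun φ => h φ.1 φ.2
  choose B hB hL using h'
  choose f hf hf2 using hL
  have h1 := dim_below A B (fun i j hij h2 => hij (Subtype.ext (by rw [← hB i, ← hB j, h2]))) f hf hf2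
  have h2 : s.card * Module.finrank F A.V ≤ N.index * Module.finrank F A.V := by
    have h3 : ∀ i : s, Module.finrank F A.V ≤ N.index * Module.finrank F (B i).V :=
      fun i => (dim_le ⟨f i, hf i, hf2 i⟩).2
    have h4 := Finset.card_nsmul_le_sum (Finset.univ : Finset s)
      (fun i => N.index * Module.finrank F (B i).V) (Module.finrank F A.V) (fun i _ => h3 i)
    rw [Finset.card_univ, Fintype.card_coe, smul_eq_mul, ← Finset.mul_sum] at h4
    exact h4.trans (Nat.mul_le_mul_left _ h1)
  exact Nat.le_of_mul_le_mul_right h2 A.pos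

end rel

end Pool.Agent.P8H58
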