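import Pool.Agent.P8H58.Rel

/-!
# Comparing the numbers of irreducible traces of a group and of a subgroup
-/

set_option autoImplicit false

open scoped Classical

noncomputable section

namespace Pool.Agent.P8H58

open Pool.Agent.Y63.NV Representation
open Pool.Agent.Y914.NV (pair burn act expand trace_expand trace_one)
open scoped MonoidAlgebra

variable {F : Type} [Field F]

theorem irr_of {G : Type} [Group G] {V : Type} [AddCommGroup V] [Module F V] [Nontrivial V]
    (ρ : Representation F G V)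
    (h : ∀ S : Submodule F V, (∀ g : G, ∀ v ∈ S, ρ g v ∈ S) → S = ⊥ ∨ S = ⊤) :
    ρ.IsIrreducible := by
  have hn : Nontrivial (Subrepresentation ρ) := by
    refine ⟨⊥, ⊤, fun h0 => ?_⟩
    have h1 : (⊥ : Submodule F V) = ⊤ := congrArg Subrepresentation.toSubmodule h0
    exact bot_ne_top h1
  exact
    { toNontrivial := hn
      eq_bot_or_eq_top := fun T => by
        rcases h T.toSubmodule (fun g v hv => T.apply_mem_toSubmodule g hv) with h1 | h1
        · left
          exact Subrepresentation.toSubmodule_injective h1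
        · right
          exact Subrepresentation.toSubmodule_injective h1 }

section ex

variable {M : Type} [Group M] {N : Subgroup M}

theorem exists_below (A : Md F M) : ∃ B : Md F N, Lies N A B := by
  let C : Set (Submodule F A.V) := {S | S ≠ ⊤ ∧ ∀ n : N, ∀ v ∈ S, A.ρ n v ∈ S}
  have hne : C.Nonempty := ⟨⊥, by
    have := A.nontriv
    exact bot_ne_top, fun n v hv => by
      rw [Submodule.mem_bot] at hv ⊢
      rw [hv, map_zero]⟩
  obtain ⟨S, ⟨hS1, hS2⟩, hS3⟩ := WellFounded.has_min (wellFounded_gt (α := Submodule F A.V)) C hne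
  let σ : Representation F N (A.V ⧸ S) :=
    { toFun := fun n => S.mapQ S (A.ρ n) (fun v hv => hS2 n v hv)
      map_one' := by
        ext v
        simp
      map_mul' := fun a b => by
        ext v
        simp }
  have hnt : Nontrivial (A.V ⧸ S) := Submodule.Quotient.nontrivial_iff.2 hS1
  have hirr : σ.IsIrreducible := by
    refine irr_of σ fun T hT => ?_
    by_cases hc : T.comap S.mkQ = ⊤
    · right
      rw [eq_top_iff]
      rintro x -
      obtain ⟨v, rfl⟩ := S.mkQ_surjective x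
      have : v ∈ T.comap S.mkQ := by rw [hc]; trivial
      exact this
    · left
      have h1 : T.comap S.mkQ ∈ C := ⟨hc, fun n v hv => hT n _ hv⟩
      have h2 := hS3 _ h1
      have h3 : S ≤ T.comap S.mkQ := by
        intro v hv
        rw [Submodule.mem_comap]
        have : S.mkQ v = 0 := by simpa using hv
        rw [this]
        exact zero_mem T
      have h4 : T.comap S.mkQ ≤ S := by
        by_contra h5
        exact h2 (lt_of_le_of_ne h3 (fun h6 => h5 (by rw [← h6])))
      rw [eq_bot_iff]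
      intro x hx
      obtain ⟨v, rfl⟩ := S.mkQ_surjective x
      have h5 : v ∈ S := h4 hx
      rw [Submodule.mem_bot]
      simpa using h5
  refine ⟨⟨A.V ⧸ S, σ, hirr⟩, S.mkQ, ?_, fun n v => rfl⟩
  intro h0
  apply hS1
  rw [eq_top_iff]
  rintro v -
  have : S.mkQ v = 0 := by rw [h0, LinearMap.zero_apply]
  simpa using this

theorem exists_above [Finite M] (B : Md F N) : ∃ A : Md F M, Lies N A B := by
  let X := coindV N.subtype B.ρ
  let τ : Representation F M X := coind N.subtype B.ρ
  have happ : ∀ (g : M) (c : X) (x : M), (τ g c).1 x = c.1 (x * g) := fun g c x => rfl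
  let C : Set (Submodule F X) := {S | S ≠ ⊥ ∧ ∀ g : M, ∀ v ∈ S, τ g v ∈ S}
  have hX : ∃ c : X, c ≠ 0 := by
    have := B.nontriv
    obtain ⟨u, hu⟩ := exists_ne (0 : B.V)
    refine ⟨⟨fun x => if h : x ∈ N then B.ρ ⟨x, h⟩ u else 0, ?_⟩, ?_⟩
    · intro n x
      change (if h : (n : M) * x ∈ N then B.ρ ⟨(n : M) * x, h⟩ u else 0) =
        B.ρ n (if h : x ∈ N then B.ρ ⟨x, h⟩ u else 0)
      by_cases hx : x ∈ N
      · have hx2 : (n : M) * x ∈ N := mul_mem n.2 hx
        rw [dif_pos hx, dif_pos hx2, ← Module.End.mul_apply, ← map_mul]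
        rfl
      · have hx2 : (n : M) * x ∉ N := fun h => hx (by
          have := mul_mem (inv_mem n.2) h
          rwa [inv_mul_cancel_left] at this)
        rw [dif_neg hx, dif_neg hx2, map_zero]
    · intro h0
      apply hu
      have h1 := congrFun (congrArg Subtype.val h0) 1
      change (if h : (1 : M) ∈ N then B.ρ ⟨1, h⟩ u else 0) = 0 at h1
      rw [dif_pos (one_mem N)] at h1
      have h2 : B.ρ (⟨1, one_mem N⟩ : N) = 1 := map_one B.ρ
      rw [h2, Module.End.one_apply] at h1
      exact h1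
  haveI : FiniteDimensional F X := FiniteDimensional.finiteDimensional_submodule _
  have hne : C.Nonempty := ⟨⊤, by
    obtain ⟨c, hc⟩ := hX
    haveI : Nontrivial X := ⟨c, 0, hc⟩
    exact top_ne_bot, fun g v _ => trivial⟩
  obtain ⟨S, ⟨hS1, hS2⟩, hS3⟩ := WellFounded.has_min (wellFounded_lt (α := Submodule F X)) C hne
  let ρ : Representation F M S :=
    { toFun := fun g => (τ g).restrict (fun v hv => hS2 g v hv)
      map_one' := by
        ext v
        simp
      map_mul' := fun a b => by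
        ext v
        simp }
  have hnt : Nontrivial S := Submodule.nontrivial_iff_ne_bot.2 hS1
  have hirr : IsIrreducible (k := F) (G := M) (V := S) ρ := by
    refine irr_of (V := S) (G := M) ρ fun T hT => ?_
    by_cases hc : T.map S.subtype = ⊥
    · left
      rw [eq_bot_iff]
      intro x hx
      have h1 : S.subtype x ∈ T.map S.subtype := ⟨x, hx, rfl⟩
      rw [hc, Submodule.mem_bot] at h1
      rw [Submodule.mem_bot]
      exact Subtype.ext h1
    · right
      have h1 : T.map S.subtype ∈ C := by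
        refine ⟨hc, fun g v hv => ?_⟩
        obtain ⟨w, hw, rfl⟩ := hv
        exact ⟨ρ g w, hT g w hw, rfl⟩
      have h2 := hS3 _ h1
      have h3 : T.map S.subtype ≤ S := Submodule.map_subtype_le S T
      have h4 : S ≤ T.map S.subtype := by
        by_contra h5
        exact h2 (lt_of_le_of_ne h3 (fun h6 => h5 (by rw [h6])))
      rw [eq_top_iff]
      rintro x -
      obtain ⟨w, hw, hw2⟩ := h4 x.2
      have : w = x := Subtype.ext hw2
      rwa [← this]
  let ev : S →ₗ[F] B.V :=
    { toFun := fun c => c.1.1 1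
      map_add' := fun a b => rfl
      map_smul' := fun a b => rfl }
  refine ⟨⟨S, ρ, hirr⟩, ev, ?_, ?_⟩
  · intro h0
    apply hS1
    rw [eq_bot_iff]
    intro c hc
    rw [Submodule.mem_bot]
    apply Subtype.ext
    funext x
    have h1 : ev ⟨τ x c, hS2 x c hc⟩ = 0 := by rw [h0, LinearMap.zero_apply]
    have h2 : (τ x c).1 1 = 0 := h1
    rw [happ, one_mul] at h2
    exact h2
  · intro n v
    change (τ n v.1).1 1 = B.ρ n (v.1.1 1)
    rw [happ, one_mul]
    have h1 := v.1.2 n 1
    rw [mul_one] at h1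
    exact h1

end ex

section cent

variable {G : Type} [Group G]

/-- the action of `z` -/
def Md.za (A : Md F G) (z : G → F) : A.V →ₗ[F] A.V := ∑ᶠ g, z g • A.ρ g

/-- `z` does not act as zero -/
def NZ (z φ : G → F) : Prop := ∃ x, ∑ᶠ g, z g * φ (g * x) ≠ 0

variable [Finite G]

theorem Md.za_eq [Fintype G] (A : Md F G) (z : G → F) : A.za z = ∑ g, z g • A.ρ g :=
  finsum_eq_sum_of_fintype _

theorem Md.za_tr (A : Md F G) (z : G → F) (x : G) :
    LinearMap.trace F A.V (A.za z * A.ρ x) = ∑ᶠ g, z g * A.tr (g * x) := by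
  haveI := Fintype.ofFinite G
  rw [A.za_eq, finsum_eq_sum_of_fintype, Finset.sum_mul, map_sum]
  refine Finset.sum_congr rfl fun g _ => ?_
  rw [smul_mul_assoc, map_smul, smul_eq_mul, ← map_mul]
  rfl

variable [IsAlgClosed F]

theorem Md.za_scalar (A : Md F G) {z : G → F} (hz : IsClassFun z) :
    ∃ c : F, A.za z = c • 1 := by
  haveI := Fintype.ofFinite G
  have := A.irr
  have hcomm : ∀ x : G, A.za z * A.ρ x = A.ρ x * A.za z := by
    intro x
    rw [A.za_eq, Finset.sum_mul, Finset.mul_sum]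
    refine Fintype.sum_equiv (MulAut.conj x⁻¹).toEquiv _ _ fun g => ?_
    change (z g • A.ρ g) * A.ρ x = A.ρ x * (z (x⁻¹ * g * x⁻¹⁻¹) • A.ρ (x⁻¹ * g * x⁻¹⁻¹))
    rw [hz, smul_mul_assoc, mul_smul_comm, ← map_mul, ← map_mul]
    congr 2
    group
  let T : IntertwiningMap A.ρ A.ρ := ⟨A.za z, fun x => by
    ext v
    exact LinearMap.congr_fun (hcomm x) v⟩
  obtain ⟨c, hc⟩ := (IsIrreducible.algebraMap_intertwiningMap_bijective_of_isAlgClosed
    (ρ := A.ρ)).2 T
  refine ⟨c, ?_⟩
  have h1 := congrArg IntertwiningMap.toLinearMap hc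
  exact h1.symm

theorem Md.tr_ne (A : Md F G) : ∃ x, A.tr x ≠ 0 := by
  haveI := Fintype.ofFinite G
  by_contra hcon
  push Not at hcon
  obtain ⟨y, hy⟩ := trace_one A.ρ A.irr
  obtain ⟨a, rfl⟩ := expand y
  rw [trace_expand, Finset.sum_eq_zero fun g _ => by
    rw [show A.ρ.character g = A.tr g from rfl, hcon g, mul_zero]] at hy
  exact zero_ne_one hy

theorem nz_iff (A : Md F G) {z : G → F} (hz : IsClassFun z) : NZ z A.tr ↔ A.za z ≠ 0 := by
  obtain ⟨c, hc⟩ := A.za_scalar hz
  constructor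
  · rintro ⟨x, hx⟩ h0
    apply hx
    rw [← A.za_tr, h0, zero_mul, map_zero]
  · intro h
    obtain ⟨x, hx⟩ := A.tr_ne
    refine ⟨x, ?_⟩
    rw [← A.za_tr, hc, smul_mul_assoc, one_mul, map_smul, smul_eq_mul]
    refine mul_ne_zero ?_ hx
    rintro rfl
    apply h
    rw [hc, zero_smul]

end cent

section cmp

variable {M : Type} [Group M] [Finite M] {N : Subgroup M}

theorem za_lies {A : Md F M} {B : Md F N} {f : A.V →ₗ[F] B.V}
    (hf2 : ∀ (n : N) (v : A.V), f (A.ρ n v) = B.ρ n (f v)) {z : M → F}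
    (hz : ∀ x, x ∉ N → z x = 0) (v : A.V) :
    f (A.za z v) = B.za (fun n : N => z n) (f v) := by
  haveI := Fintype.ofFinite M
  haveI := Fintype.ofFinite N
  rw [A.za_eq, B.za_eq, LinearMap.sum_apply, LinearMap.sum_apply, map_sum]
  rw [← Finset.sum_subset (Finset.subset_univ (Finset.univ.filter (· ∈ N)))
    (fun x _ hx => by
      have : x ∉ N := by simpa using hx
      rw [hz x this, zero_smul, LinearMap.zero_apply, map_zero])]
  rw [Finset.sum_subtype (Finset.univ.filter (· ∈ N)) (p := (· ∈ N)) (by simp)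
    (fun g => f ((z g • A.ρ g) v))]
  refine Finset.sum_congr rfl fun n _ => ?_
  rw [LinearMap.smul_apply, map_smul, hf2, LinearMap.smul_apply]

variable [IsAlgClosed F]

theorem nz_lies {A : Md F M} {B : Md F N} {z : M → F} (hz : InZ N z) (h : Lies N A B) :
    NZ z A.tr ↔ NZ (fun n : N => z n) B.tr := by
  obtain ⟨f, hf, hf2⟩ := h
  have hzN : IsClassFun (fun n : N => z n) := fun g x => hz.conj g x
  rw [nz_iff A (fun g x => hz.conj g x), nz_iff B hzN]
  obtain ⟨a, ha⟩ := A.za_scalar (z := z) (fun g x => hz.conj g x)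
  obtain ⟨b, hb⟩ := B.za_scalar hzN
  obtain ⟨v, hv⟩ : ∃ v, f v ≠ 0 := by
    by_contra hcon
    push Not at hcon
    exact hf (LinearMap.ext hcon)
  have h1 := za_lies hf2 hz.supp v
  rw [ha, hb, LinearMap.smul_apply, LinearMap.smul_apply, Module.End.one_apply,
    Module.End.one_apply, map_smul] at h1
  have h2 : a = b := by
    have h3 : (a - b) • f v = 0 := by rw [sub_smul, h1, sub_self]
    rcases smul_eq_zero.1 h3 with h4 | h4
    · exact sub_eq_zero.1 h4
    · exact absurd h4 hv
  subst h2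
  rw [ha, hb]
  have hA := A.nontriv
  have hB := B.nontriv
  constructor
  · intro h3 h4
    rcases smul_eq_zero.1 h4 with h5 | h5
    · exact h3 (by rw [h5, zero_smul])
    · exact one_ne_zero h5
  · intro h3 h4
    rcases smul_eq_zero.1 h4 with h5 | h5
    · exact h3 (by rw [h5, zero_smul])
    · exact one_ne_zero h5

end cmp

/-- the number of irreducible traces on which `z` does not act as zero -/
def LL {M : Type} [Group M] (z : M → F) : ℕ := Nat.card {φ : M → F // IsIrrTrace φ ∧ NZ z φ}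

section LL

variable {M : Type} [Group M] [Finite M] [IsAlgClosed F]

theorem fin_nz (z : M → F) : {φ : M → F | IsIrrTrace φ ∧ NZ z φ}.Finite :=
  ((Pool.Agent.Y914.NV.irr F M).1).subset fun _ h => h.1

/-- the finset -/
def LLs (z : M → F) : Finset (M → F) := (fin_nz z).toFinset

theorem mem_LLs {z φ : M → F} : φ ∈ LLs z ↔ IsIrrTrace φ ∧ NZ z φ := by
  unfold LLs
  rw [Set.Finite.mem_toFinset, Set.mem_setOf_eq]

theorem LL_eq (z : M → F) : LL z = (LLs z).card := by
  unfold LL LLs
  rw [← Nat.card_eq_card_finite_toFinset]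
  rfl

variable {N : Subgroup M}

theorem LL_le_above {z : M → F} (hz : InZ N z) :
    LL (fun n : N => z n) ≤ N.index * LL z := by
  have h1 : ∀ ψ ∈ LLs (fun n : N => z n), ∃ φ ∈ LLs z, ∃ A : Md F M, ∃ B : Md F N,
      A.tr = φ ∧ B.tr = ψ ∧ Lies N A B := by
    intro ψ hψ
    rw [mem_LLs] at hψ
    obtain ⟨B, hB⟩ := exists_md hψ.1
    obtain ⟨A, hA⟩ := exists_above B
    refine ⟨A.tr, ?_, A, B, rfl, hB, hA⟩
    rw [mem_LLs]
    refine ⟨A.isIrr, (nz_lies hz hA).2 ?_⟩
    rw [hB]
    exact hψ.2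
  choose! g hg hg2 using h1
  rw [LL_eq, LL_eq]
  refine Finset.card_le_mul_card_image_of_maps_to (f := g) hg N.index fun φ hφ => ?_
  rw [mem_LLs] at hφ
  obtain ⟨A, hA⟩ := exists_md hφ.1
  refine card_below A _ fun ψ hψ => ?_
  rw [Finset.mem_filter] at hψ
  obtain ⟨A', B, hA', hB, hL⟩ := hg2 ψ hψ.1
  exact ⟨B, hB, lies_congr (hA'.trans (hψ.2.trans hA.symm)) rfl hL⟩

theorem LL_le_below {z : M → F} (hz : InZ N z) :
    LL z ≤ N.index * LL (fun n : N => z n) := by
  have h1 : ∀ φ ∈ LLs z, ∃ ψ ∈ LLs (fun n : N => z n), ∃ A : Md F M, ∃ B : Md F N,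
      A.tr = φ ∧ B.tr = ψ ∧ Lies N A B := by
    intro φ hφ
    rw [mem_LLs] at hφ
    obtain ⟨A, hA⟩ := exists_md hφ.1
    obtain ⟨B, hB⟩ := exists_below (N := N) A
    refine ⟨B.tr, ?_, A, B, hA, rfl, hB⟩
    rw [mem_LLs]
    refine ⟨B.isIrr, (nz_lies hz hB).1 ?_⟩
    rw [hA]
    exact hφ.2
  choose! g hg hg2 using h1
  rw [LL_eq, LL_eq]
  refine Finset.card_le_mul_card_image_of_maps_to (f := g) hg N.index fun ψ hψ => ?_
  rw [mem_LLs] at hψ
  obtain ⟨B, hB⟩ := exists_md hψ.1
  refine card_above B _ fun φ hφ => ?_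
  rw [Finset.mem_filter] at hφ
  obtain ⟨A, B', hA, hB', hL⟩ := hg2 φ hφ.1
  exact ⟨A, hA, lies_congr rfl (hB'.trans (hφ.2.trans hB.symm)) hL⟩

end LL

end Pool.Agent.P8H58
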