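import Pool.Agent.P8H58.Blk
import Pool.Agent.P8H58.Prd

/-!
# Twists with linear characters
-/

set_option autoImplicit false
set_option linter.unusedSectionVars false

open scoped Classical

noncomputable section

namespace Pool.Agent.P8H58

open Pool.Agent.Y63.NV
open Pool.Agent.N85.WM (IsW wcv blkOf blkOf_block blkOf_spec BEq YS cvS cvS_block numWts
  numWts_eq numIrrBlock_eq uno uno_class block_uno cvS_uno card_YS IsIdem cl_add cl_smul)
open Pool.Agent.N85.WM.Ww (tot wsum_tot)
open Pool.Agent.Y930.NV (redC_mul redC_one redC_sum redC_zero om om_int om_ind irr_Cf Cf_ind ind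
  ind_cast)

/-- the twist of a module -/
def Md.tw {K : Type} [Field K] {G : Type} [Group G] (A : Md K G) (ν : G →* K) : Md K G where
  V := A.V
  ρ :=
    { toFun := fun x => ν x • A.ρ x
      map_one' := by rw [map_one, map_one, one_smul]
      map_mul' := fun x y => by rw [map_mul, map_mul, smul_mul_smul_comm] }
  irr := by
    haveI := A.nontriv
    refine irr_of (G := G) _ fun S hS => A.sub S fun g v hv => ?_
    have h1 := hS g v hv
    change (ν g • A.ρ g) v ∈ S at h1
    have h2 := S.smul_mem (ν g⁻¹) h1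
    rw [LinearMap.smul_apply, smul_smul, ← map_mul, inv_mul_cancel, map_one, one_smul] at h2
    exact h2

theorem Md.tw_tr {K : Type} [Field K] {G : Type} [Group G] (A : Md K G) (ν : G →* K) (x : G) :
    (A.tw ν).tr x = ν x * A.tr x := by
  change LinearMap.trace K A.V (ν x • A.ρ x) = _
  rw [map_smul, smul_eq_mul]
  rfl

variable {F : Type} [Field F] {G : Type} [Group G] [Finite G]

/-- the linear characters -/
abbrev Lam (G : Type) [Group G] : Type := Abelianization G →* ℂˣ

/-- the linear character as a function on `G` -/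
def hat (μ : Lam G) : G →* ℂ := (Units.coeHom ℂ).comp (μ.comp Abelianization.of)

theorem hat_mul (μ ν : Lam G) : hat (μ * ν) = hat μ * hat ν := by
  ext x
  rfl

theorem hat_one : hat (1 : Lam G) = 1 := by
  ext x
  rfl

theorem lam_inv (ν : Lam G) : ν⁻¹ * ν = 1 := by
  ext x
  simp

theorem lam_inv_inv (ν : Lam G) : ν⁻¹⁻¹ = ν := by
  ext x
  simp

theorem card_Lam : Nat.card (Lam G) = Nat.card (Abelianization G) :=
  CommGroup.card_monoidHom_of_hasEnoughRootsOfUnity _ ℂ

instance : Finite (Lam G) := Nat.finite_of_card_ne_zero (by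
  rw [card_Lam]
  exact Nat.card_pos.ne')

/-- characters of quotients of order prime to `p` are trivial on `p`-subgroups -/
theorem hat_pg {p : ℕ} (hp : p.Prime) (hG : ¬ p ∣ Nat.card (Abelianization G)) (μ : Lam G)
    {Q : Subgroup G} (hQ : IsPGroup p Q) {q : G} (hq : q ∈ Q) : hat μ q = 1 := by
  obtain ⟨k, hk⟩ := hQ ⟨q, hq⟩
  have h1 : (Abelianization.of q) ^ p ^ k = 1 := by
    rw [← map_pow]
    have : q ^ p ^ k = 1 := congrArg Subtype.val hk
    rw [this, map_one]
  have h2 : (Abelianization.of q) ^ Nat.card (Abelianization G) = 1 := pow_card_eq_one'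
  have h5 := Nat.Coprime.pow_left k ((Nat.Prime.coprime_iff_not_dvd hp).2 hG)
  have h6 := orderOf_eq_one_iff.1 (Nat.eq_one_of_dvd_coprimes h5
    (orderOf_dvd_of_pow_eq_one h1) (orderOf_dvd_of_pow_eq_one h2))
  change ((μ (Abelianization.of q) : ℂˣ) : ℂ) = 1
  rw [h6, map_one]
  rfl

variable (red : integralClosure ℤ ℂ →+* F)

/-- the twist of an element of the group algebra -/
def tw (μ : Lam G) (f : G → F) : G → F := fun x => rH red (hat μ) x * f x

theorem tw_mul (μ ν : Lam G) (f : G → F) : tw red (μ * ν) f = tw red μ (tw red ν f) := by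
  funext x
  unfold tw
  rw [← mul_assoc]
  congr 1
  change redC red (hat (μ * ν) x) = redC red (hat μ x) * redC red (hat ν x)
  rw [hat_mul, MonoidHom.mul_apply, redC_mul red (hom_int (hat μ) x) (hom_int (hat ν) x)]

theorem tw_one (f : G → F) : tw red (1 : Lam G) f = f := by
  funext x
  unfold tw
  have : rH red (hat (1 : Lam G)) x = 1 := by
    change redC red (hat (1 : Lam G) x) = 1
    rw [hat_one, MonoidHom.one_apply, redC_one]
  rw [this, one_mul]

theorem hom_conj {K : Type} [Field K] (ν : G →* K) (g x : G) : ν (g * x * g⁻¹) = ν x := by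
  rw [map_mul, map_mul, mul_comm (ν g), mul_assoc, ← map_mul, mul_inv_cancel, map_one, mul_one]

theorem tw_cl (μ : Lam G) {f : G → F} (hf : IsClassFun f) : IsClassFun (tw red μ f) := by
  intro g x
  unfold tw
  rw [hom_conj, hf]

theorem LL_tw [IsAlgClosed F] (μ : Lam G) (f : G → F) : LL (tw red μ f) = LL f := by
  have hnz : ∀ (ν : Lam G) (h φ : G → F),
      NZ h (fun x => rH red (hat ν) x * φ x) ↔ NZ (tw red ν h) φ := by
    intro ν h φ
    have h1 : ∀ x : G, ∑ᶠ g, h g * (rH red (hat ν) (g * x) * φ (g * x)) =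
        rH red (hat ν) x * ∑ᶠ g, tw red ν h g * φ (g * x) := by
      intro x
      haveI := Fintype.ofFinite G
      rw [finsum_eq_sum_of_fintype, finsum_eq_sum_of_fintype, Finset.mul_sum]
      refine Finset.sum_congr rfl fun g _ => ?_
      unfold tw
      rw [map_mul]
      ring
    constructor
    · rintro ⟨x, hx⟩
      rw [h1] at hx
      exact ⟨x, right_ne_zero_of_mul hx⟩
    · rintro ⟨x, hx⟩
      refine ⟨x, ?_⟩
      rw [h1]
      refine mul_ne_zero ?_ hx
      intro h0
      have h2 : rH red (hat ν) x * rH red (hat ν) x⁻¹ = 1 := by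
        rw [← map_mul, mul_inv_cancel, map_one]
      rw [h0, zero_mul] at h2
      exact zero_ne_one h2
  have hirr : ∀ (ν : Lam G) (φ : G → F), IsIrrTrace φ →
      IsIrrTrace (fun x => rH red (hat ν) x * φ x) := by
    intro ν φ h
    obtain ⟨A, rfl⟩ := exists_md h
    have := (A.tw (rH red (hat ν))).isIrr
    have h2 : (A.tw (rH red (hat ν))).tr = fun x => rH red (hat ν) x * A.tr x :=
      funext fun x => Md.tw_tr A _ x
    rwa [h2] at this
  have hcan : ∀ (ν : Lam G) (φ : G → F), (fun x => rH red (hat ν⁻¹) x *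
      ((fun x => rH red (hat ν) x * φ x) x)) = φ := by
    intro ν φ
    have h1 := tw_mul red ν⁻¹ ν φ
    rw [lam_inv, tw_one] at h1
    exact h1.symm
  unfold LL
  refine Nat.card_congr ?_
  refine
    { toFun := fun φ => ⟨fun x => rH red (hat μ) x * φ.1 x, hirr μ _ φ.2.1, (hnz μ _ _).2 φ.2.2⟩
      invFun := fun φ => ⟨fun x => rH red (hat μ⁻¹) x * φ.1 x, hirr μ⁻¹ _ φ.2.1, ?_⟩
      left_inv := ?_
      right_inv := ?_ }
  · rw [hnz μ⁻¹, ← tw_mul, lam_inv, tw_one]
    exact φ.2.2
  · intro φ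
    exact Subtype.ext (hcan μ φ.1)
  · intro φ
    apply Subtype.ext
    have := hcan μ⁻¹ φ.1
    rw [lam_inv_inv] at this
    exact this

theorem cv_tw {J : Type} [Group J] [Finite J] (ν : J →* ℂ) {χ : J → ℂ}
    (h : Pool.Agent.Y63.AWC.IsIrreducibleCharacter χ) (f : J → F) :
    centralValue red (fun x => ν x * χ x) f = centralValue red χ (fun x => rH red ν x * f x) := by
  haveI := Fintype.ofFinite J
  unfold centralValue
  refine finsum_congr fun C => ?_
  have h1 := om_int h (Cf_ind ℤ C)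
  rw [ind_cast, om_ind χ (irr_Cf h)] at h1
  have h2 : (Nat.card C.carrier : ℂ) * (ν C.out * χ C.out) / (ν 1 * χ 1) =
      ν C.out * ((Nat.card C.carrier : ℂ) * χ C.out / χ 1) := by
    rw [map_one, one_mul]
    ring
  rw [h2, redC_mul red (hom_int ν _) h1]
  change f C.out * (redC red (ν C.out) * _) = (redC red (ν C.out) * f C.out) * _
  ring

variable {p : ℕ}

theorem isW_tw (hp : p.Prime) (hG : ¬ p ∣ Nat.card (Abelianization G)) (μ : Lam G)
    {Q : Subgroup G} {χ : G → ℂ} (h : IsW p Q χ) : IsW p Q (fun x => hat μ x * χ x) := by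
  refine ⟨h.pg, fun x hx => by rw [h.supp x hx, mul_zero], ?_, ?_, ?_⟩
  · obtain ⟨A, hA⟩ := exists_md (F := ℂ) h.wt.irr
    have h1 := (A.tw ((hat μ).comp (Subgroup.normalizer (Q : Set G)).subtype)).isIrr
    have h2 : (A.tw ((hat μ).comp (Subgroup.normalizer (Q : Set G)).subtype)).tr =
        fun x : Subgroup.normalizer (Q : Set G) => hat μ x * χ x := by
      funext x
      rw [Md.tw_tr, hA]
      rfl
    rw [h2] at h1
    exact h1
  · intro q hq x
    change hat μ ((q : G) * (x : G)) * χ ((q : G) * (x : G)) = hat μ (x : G) * χ (x : G)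
    rw [map_mul, hat_pg hp hG μ h.pg (q := (q : G)) hq, one_mul]
    congr 1
    exact h.wt.inflated q hq x
  · obtain ⟨n, hn1, hn2⟩ := h.wt.defectZero
    refine ⟨n, ?_, hn2⟩
    change hat μ ((1 : Subgroup.normalizer (Q : Set G)) : G) * χ ((1 : Subgroup.normalizer
      (Q : Set G)) : G) = n
    rw [Subgroup.coe_one, map_one, one_mul]
    exact hn1

theorem WT_tw (hp : p.Prime) (hG : ¬ p ∣ Nat.card (Abelianization G)) (μ : Lam G)
    (f : G → F) : WT p red (tw red μ f) = WT p red f := by
  have hcv : ∀ (ν : Lam G) (h : G → F) (Q : Subgroup G) (χ : G → ℂ), IsW p Q χ →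
      wcv red Q (fun x => hat ν x * χ x) h = wcv red Q χ (tw red ν h) := by
    intro ν h Q χ hw
    unfold wcv
    exact cv_tw red ((hat ν).comp (Subgroup.normalizer (Q : Set G)).subtype) hw.wt.irr
      (fun x : Subgroup.normalizer (Q : Set G) => h x)
  have hcan : ∀ (ν : Lam G) (φ : G → ℂ), (fun x => hat ν⁻¹ x *
      ((fun x => hat ν x * φ x) x)) = φ := by
    intro ν φ
    funext x
    have h1 : hat ν⁻¹ x * hat ν x = 1 := by
      rw [← MonoidHom.mul_apply, ← hat_mul, lam_inv, hat_one, MonoidHom.one_apply]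
    change hat ν⁻¹ x * (hat ν x * φ x) = φ x
    rw [← mul_assoc, h1, one_mul]
  unfold WT tot
  refine finsum_congr fun Q => ?_
  congr 2
  refine Nat.card_congr ?_
  refine
    { toFun := fun χ => ⟨fun x => hat μ x * χ.1 x, isW_tw hp hG μ χ.2.1, ?_⟩
      invFun := fun χ => ⟨fun x => hat μ⁻¹ x * χ.1 x, isW_tw hp hG μ⁻¹ χ.2.1, ?_⟩
      left_inv := ?_
      right_inv := ?_ }
  · rw [hcv μ f Q χ.1 χ.2.1]
    exact χ.2.2
  · rw [hcv μ⁻¹ _ Q χ.1 χ.2.1, ← tw_mul, lam_inv, tw_one]
    exact χ.2.2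
  · intro χ
    exact Subtype.ext (hcan μ χ.1)
  · intro χ
    apply Subtype.ext
    have := hcan μ⁻¹ χ.1
    rw [lam_inv_inv] at this
    exact this

end Pool.Agent.P8H58
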